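import Pool.Agent.Lib.MP_e79cb7_ag.Cmp

/-! # The coefficients of `Qp` -/

open Filter Topology Polynomial Bornology

noncomputable section

namespace HEN

theorem al1_Dp_succ (d : ℕ → ℕ) (n : ℕ) : Dp d (n + 1) = Dp d n * d n := by
  unfold Dp
  rw [Finset.prod_range_succ]

theorem al1_Dp_pos {d : ℕ → ℕ} (hd : ∀ i, 2 ≤ d i) (n : ℕ) : 0 < Dp d n :=
  Finset.prod_pos (fun i _ => by have := hd i; omega)

theorem al1_Dp_dvd (d : ℕ → ℕ) {i j : ℕ} (h : i ≤ j) : Dp d i ∣ Dp d j := by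
  obtain ⟨n, rfl⟩ := Nat.exists_eq_add_of_le h
  exact ⟨∏ x ∈ Finset.range n, d (i + x), by unfold Dp; rw [Finset.prod_range_add]⟩

theorem al1_not_dvd {d : ℕ → ℕ} (hd : ∀ i, 2 ≤ d i) {i j n : ℕ} (h : i < j) (hn1 : 1 ≤ n)
    (hn2 : n ≤ d i + 1) (hn3 : n ≠ d i) : ¬ Dp d j ∣ Dp d i * n := by
  intro hdv
  have h1 : Dp d (i + 1) ∣ Dp d i * n := (al1_Dp_dvd d (show i + 1 ≤ j by omega)).trans hdv
  rw [al1_Dp_succ] at h1
  have h2 : d i ∣ n := Nat.dvd_of_mul_dvd_mul_left (al1_Dp_pos hd i) h1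
  have h3 := Nat.le_of_dvd (by omega) h2
  have h4 : n = d i + 1 := by omega
  rw [h4] at h2
  have h5 : d i ∣ 1 := (Nat.dvd_add_right (dvd_refl _)).1 h2
  have h6 := Nat.le_of_dvd one_pos h5
  have := hd i
  omega

theorem al1_coeff {d : ℕ → ℕ} {lam : ℕ → ℂ} {q : ℕ → ℂ[X]} (hd : ∀ i, 2 ≤ d i) (k e : ℕ) :
    (Qp d lam q k).coeff e = ∑ i ∈ Finset.range k, (∏ j ∈ Finset.Ico (i + 1) k, lam j) *
      (if Dp d i ∣ e then (q i).coeff (e / Dp d i) else 0) := by
  induction k with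
  | zero => simp [Qp]
  | succ k ih =>
    rw [Qp, coeff_add, coeff_C_mul, ih, Finset.sum_range_succ, Finset.mul_sum]
    congr 1
    · refine Finset.sum_congr rfl (fun i hi => ?_)
      have hi' := Finset.mem_range.1 hi
      rw [Finset.prod_Ico_succ_top (by omega)]
      ring
    · rw [← expand_eq_comp_X_pow, coeff_expand (al1_Dp_pos hd k)]
      simp

theorem Qp_coeff {k : ℕ} {d : ℕ → ℕ} {lam : ℕ → ℂ} {q : ℕ → ℂ[X]} (hd : ∀ i, 2 ≤ d i)
    (hq : ∀ i, (q i).Monic ∧ (q i).natDegree = d i + 1 ∧ (q i).coeff (d i) = 0) :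
    (∀ i < k, ∀ n, 1 ≤ n → n ≤ d i + 1 → n ≠ d i →
      (Qp d lam q k).coeff (Dp d i * n) = (∏ j ∈ Finset.Ico (i + 1) k, lam j) * (q i).coeff n) ∧
    (∀ e, 1 ≤ e → (Qp d lam q k).coeff e ≠ 0 → ∃ i < k, ∃ n, 1 ≤ n ∧ n ≤ d i + 1 ∧ n ≠ d i ∧
      e = Dp d i * n) ∧
    (∀ i < k, ∀ n, 1 ≤ n → n ≤ d i + 1 → n ≠ d i → ¬ Dp d k ∣ Dp d i * n) ∧
    (∀ e, 1 ≤ e → (Qp d lam q k).coeff (Dp d k * e) = 0) := by
  have p2 : ∀ e, 1 ≤ e → (Qp d lam q k).coeff e ≠ 0 → ∃ i < k, ∃ n, 1 ≤ n ∧ n ≤ d i + 1 ∧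
      n ≠ d i ∧ e = Dp d i * n := by
    intro e he hne
    rw [al1_coeff hd] at hne
    obtain ⟨i, hi, hi2⟩ := Finset.exists_ne_zero_of_sum_ne_zero hne
    have hi' := Finset.mem_range.1 hi
    split_ifs at hi2 with hdv
    · obtain ⟨n, hn⟩ := hdv
      have hdiv : e / Dp d i = n := by
        rw [hn]
        exact Nat.mul_div_cancel_left n (al1_Dp_pos hd i)
      rw [hdiv] at hi2
      have hc : (q i).coeff n ≠ 0 := fun h => hi2 (by rw [h, mul_zero])
      refine ⟨i, hi', n, ?_, ?_, ?_, hn⟩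
      · rcases Nat.eq_zero_or_pos n with h | h
        · rw [h, mul_zero] at hn
          omega
        · exact h
      · rw [← (hq i).2.1]
        exact le_natDegree_of_ne_zero hc
      · intro h
        apply hc
        rw [h]
        exact (hq i).2.2
    · simp at hi2
  have p3 : ∀ i < k, ∀ n, 1 ≤ n → n ≤ d i + 1 → n ≠ d i → ¬ Dp d k ∣ Dp d i * n :=
    fun i hi n h1 h2 h3 => al1_not_dvd hd hi h1 h2 h3
  refine ⟨?_, p2, p3, ?_⟩
  · intro i hi n hn1 hn2 hn3
    rw [al1_coeff hd, Finset.sum_eq_single i]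
    · rw [if_pos (Dvd.intro n rfl), Nat.mul_div_cancel_left n (al1_Dp_pos hd i)]
    · intro j _ hj
      rcases lt_or_gt_of_ne hj with hlt | hgt
      · -- j < i
        split_ifs with hdv
        · have hz : (q j).coeff (Dp d i * n / Dp d j) = 0 := by
            obtain ⟨M, hM⟩ := al1_Dp_dvd d (show j + 1 ≤ i by omega)
            have h1 : Dp d i * n = Dp d j * (d j * (M * n)) := by
              rw [hM, al1_Dp_succ]
              ring
            rw [h1, Nat.mul_div_cancel_left _ (al1_Dp_pos hd j)]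
            have hMpos : 0 < M := by
              rcases Nat.eq_zero_or_pos M with h | h
              · rw [h, mul_zero] at hM
                have := al1_Dp_pos hd i
                omega
              · exact h
            have hMn : 1 ≤ M * n := Nat.mul_pos hMpos (by omega)
            rcases Nat.eq_or_lt_of_le hMn with h2 | h2
            · rw [← h2, mul_one]
              exact (hq j).2.2
            · refine coeff_eq_zero_of_natDegree_lt ?_
              rw [(hq j).2.1]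
              have := hd j
              nlinarith
          rw [hz, mul_zero]
        · rw [mul_zero]
      · rw [if_neg (al1_not_dvd hd hgt hn1 hn2 hn3), mul_zero]
    · intro h
      exact absurd (Finset.mem_range.2 hi) h
  · intro e he
    by_contra hne
    have hpos := al1_Dp_pos hd k
    obtain ⟨i, hi, n, hn1, hn2, hn3, hn4⟩ := p2 (Dp d k * e) (Nat.mul_pos hpos he) hne
    exact p3 i hi n hn1 hn2 hn3 (hn4 ▸ Dvd.intro e rfl)

end HEN
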