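import Pool.Agent.Lib.MP_e79cb7_ag.Cmp

/-! # Translation of the obstruction -/

open Filter Topology Polynomial Bornology

noncomputable section

namespace HEN

/-- coefficients of `Q'(ζ X^m)` -/
theorem al2_coeff_comp {m : ℕ} (hm : 1 ≤ m) (ζ : ℂ) (Q' : ℂ[X]) (J : ℕ) :
    (Q'.comp (C ζ * X ^ m)).coeff J =
      if m ∣ J then ζ ^ (J / m) * Q'.coeff (J / m) else 0 := by
  have h1 : Q'.comp (C ζ * X ^ m) = ((Q'.comp (C ζ * X)).comp (X ^ m)) := by
    rw [comp_assoc]
    simp
  rw [h1, ← expand_eq_comp_X_pow, coeff_expand (by omega)]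
  split_ifs with h
  · rw [comp_C_mul_X_coeff]
    ring
  · rfl

theorem obstruction_coeff {dd m : ℕ} (hdd : 2 ≤ dd) (hm : 1 ≤ m) {lam ζ α : ℂ}
    (hlam : lam ≠ 0) (hζ : ζ ^ (dd - 1) = 1) (hα : α ≠ 0) {Q Q' : ℂ[X]}
    (hQ : ∀ e, 1 ≤ e → Q.coeff (dd * e) = 0) (hQ' : ∀ e, 1 ≤ e → Q'.coeff (dd * e) = 0)
    (hO : ∀ j : ℕ, 1 ≤ j → ¬ dd ∣ j → ∀ᶠ N : ℕ in atTop, ∑ n ∈ Finset.range N,
      lam ^ n * ((Q'.comp (C ζ * X ^ m)) - C α * Q).coeff (dd ^ n * j) = 0) :
    (∀ e v j, 1 ≤ e → Q'.coeff e ≠ 0 → m * e = dd ^ v * j → ¬ dd ∣ j →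
      α * Q.coeff j = lam ^ v * ζ ^ e * Q'.coeff e) ∧
    (∀ j, 1 ≤ j → Q.coeff j ≠ 0 → ∃ e v, 1 ≤ e ∧ Q'.coeff e ≠ 0 ∧ m * e = dd ^ v * j) := by
  -- the terms
  have hterm : ∀ J, ((Q'.comp (C ζ * X ^ m)) - C α * Q).coeff J =
      (if m ∣ J then ζ ^ (J / m) * Q'.coeff (J / m) else 0) - α * Q.coeff J := by
    intro J
    rw [coeff_sub, al2_coeff_comp hm, coeff_C_mul]
  have hQn : ∀ n j, 1 ≤ n → 1 ≤ j → Q.coeff (dd ^ n * j) = 0 := by
    intro n j hn hj
    obtain ⟨n, rfl⟩ : ∃ n', n = n' + 1 := ⟨n - 1, by omega⟩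
    have : dd ^ (n + 1) * j = dd * (dd ^ n * j) := by ring
    rw [this]
    refine hQ _ ?_
    have : 0 < dd ^ n := pow_pos (by omega) _
    exact Nat.mul_pos this (by omega)
  -- the sum without Q part
  have hsum : ∀ j, 1 ≤ j → ¬ dd ∣ j → ∀ᶠ N : ℕ in atTop, ∑ n ∈ Finset.range N,
      lam ^ n * (if m ∣ dd ^ n * j then ζ ^ (dd ^ n * j / m) * Q'.coeff (dd ^ n * j / m) else 0)
      = α * Q.coeff j := by
    intro j hj hdj
    filter_upwards [hO j hj hdj, eventually_ge_atTop 1] with N hN hN1
    have h1 : ∑ n ∈ Finset.range N, lam ^ n * (α * Q.coeff (dd ^ n * j)) = α * Q.coeff j := by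
      rw [Finset.sum_eq_single 0]
      · simp
      · intro n _ hn
        rw [hQn n j (by omega) hj]
        ring
      · intro h
        exact absurd (Finset.mem_range.2 (by omega)) h
    rw [← h1, ← sub_eq_zero, ← Finset.sum_sub_distrib]
    refine Eq.trans (Finset.sum_congr rfl (fun n _ => ?_)) hN
    rw [hterm]
    ring
  refine ⟨?_, ?_⟩
  · intro e v j he hQe hmul hdj
    have hj : 1 ≤ j := by
      rcases Nat.eq_zero_or_pos j with h | h
      · exfalso
        exact hdj (h ▸ dvd_zero dd)
      · exact h
    obtain ⟨N, hN, hNv⟩ := ((hsum j hj hdj).and (eventually_ge_atTop (v + 1))).exists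
    rw [← hN]
    rw [Finset.sum_eq_single v]
    · have hdiv : dd ^ v * j / m = e := by
        rw [← hmul]
        exact Nat.mul_div_cancel_left e (by omega)
      rw [if_pos ⟨e, hmul.symm⟩, hdiv]
      ring
    · intro n _ hn
      split_ifs with h
      · obtain ⟨e', he'⟩ := h
        have hdiv : dd ^ n * j / m = e' := by
          rw [he']
          exact Nat.mul_div_cancel_left e' (by omega)
        rw [hdiv]
        have hQe' : Q'.coeff e' = 0 := by
          rcases lt_or_gt_of_ne hn with hlt | hgt
          · -- n < v: e = dd^(v-n) e'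
            exfalso
            apply hQe
            have h2 : e = dd * (dd ^ (v - n - 1) * e') := by
              have h3 : m * e = m * (dd * (dd ^ (v - n - 1) * e')) := by
                calc m * e = dd ^ v * j := hmul
                  _ = dd ^ (v - n - 1) * dd * (dd ^ n * j) := by
                    rw [← pow_succ, ← mul_assoc, ← pow_add]
                    congr 2
                    omega
                  _ = dd ^ (v - n - 1) * dd * (m * e') := by rw [he']
                  _ = m * (dd * (dd ^ (v - n - 1) * e')) := by ring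
              exact Nat.eq_of_mul_eq_mul_left (by omega) h3
            rw [h2]
            refine hQ' _ ?_
            have h4 : 0 < e' := by
              rcases Nat.eq_zero_or_pos e' with h0 | h0
              · rw [h0] at h2
                simp at h2
                omega
              · exact h0
            exact Nat.mul_pos (pow_pos (by omega) _) h4
          · -- v < n: e' = dd^(n-v) e
            have h2 : e' = dd * (dd ^ (n - v - 1) * e) := by
              have h3 : m * e' = m * (dd * (dd ^ (n - v - 1) * e)) := by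
                calc m * e' = dd ^ n * j := he'.symm
                  _ = dd ^ (n - v - 1) * dd * (dd ^ v * j) := by
                    rw [← pow_succ, ← mul_assoc, ← pow_add]
                    congr 2
                    omega
                  _ = dd ^ (n - v - 1) * dd * (m * e) := by rw [hmul]
                  _ = m * (dd * (dd ^ (n - v - 1) * e)) := by ring
              exact Nat.eq_of_mul_eq_mul_left (by omega) h3
            rw [h2]
            refine hQ' _ ?_
            exact Nat.mul_pos (pow_pos (by omega) _) (by omega)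
        rw [hQe']
        ring
      · ring
    · intro h
      exact absurd (Finset.mem_range.2 (by omega)) h
  · intro j hj hQj
    have hdj : ¬ dd ∣ j := by
      rintro ⟨e, rfl⟩
      apply hQj
      refine hQ e ?_
      rcases Nat.eq_zero_or_pos e with h0 | h0
      · rw [h0] at hj
        omega
      · exact h0
    obtain ⟨N, hN⟩ := (hsum j hj hdj).exists
    have hne : ∑ n ∈ Finset.range N,
      lam ^ n * (if m ∣ dd ^ n * j then ζ ^ (dd ^ n * j / m) * Q'.coeff (dd ^ n * j / m) else 0)
      ≠ 0 := by
      rw [hN]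
      exact mul_ne_zero hα hQj
    obtain ⟨n, _, hn⟩ := Finset.exists_ne_zero_of_sum_ne_zero hne
    split_ifs at hn with h
    · obtain ⟨e, he⟩ := h
      have hdiv : dd ^ n * j / m = e := by
        rw [he]
        exact Nat.mul_div_cancel_left e (by omega)
      rw [hdiv] at hn
      refine ⟨e, n, ?_, ?_, he.symm⟩
      · rcases Nat.eq_zero_or_pos e with h0 | h0
        · exfalso
          rw [h0, mul_zero] at he
          have : 0 < dd ^ n * j := Nat.mul_pos (pow_pos (by omega) _) (by omega)
          omega
        · exact h0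
      · intro h0
        rw [h0] at hn
        simp at hn
    · simp at hn

end HEN
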