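import Pool.Agent.Lib.MP_e79cb7_ag.CH2
import Pool.Agent.Lib.MP_e79cb7_ag.AL1
import Pool.Agent.Lib.MP_e79cb7_ag.AL2

/-! # Comparison of the coefficients -/

open Filter Topology Polynomial Bornology

noncomputable section

namespace HEN

theorem al3_Dp_add_mul (d : ℕ → ℕ) {k : ℕ} (hd : ∀ i, d (i + k) = d i) (i t : ℕ) :
    Dp d (i + t * k) = Dp d k ^ t * Dp d i := by
  induction t with
  | zero => simp
  | succ t ih =>
    have : i + (t + 1) * k = (i + t * k) + k := by ring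
    rw [this, ChainNat.Dp_add d hd, ih, pow_succ]
    ring

theorem al3_Lp_succ (lam : ℕ → ℂ) (n : ℕ) : Lp lam (n + 1) = Lp lam n * lam n := by
  unfold Lp
  rw [Finset.prod_range_succ]

theorem al3_Lp_add (lam : ℕ → ℂ) {k : ℕ} (hl : ∀ i, lam (i + k) = lam i) (i : ℕ) :
    Lp lam (i + k) = Lp lam k * Lp lam i := by
  unfold Lp
  rw [Nat.add_comm, Finset.prod_range_add]
  congr 1
  refine Finset.prod_congr rfl (fun j _ => ?_)
  rw [Nat.add_comm, hl]

theorem al3_Lp_add_mul (lam : ℕ → ℂ) {k : ℕ} (hl : ∀ i, lam (i + k) = lam i) (i t : ℕ) :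
    Lp lam (i + t * k) = Lp lam k ^ t * Lp lam i := by
  induction t with
  | zero => simp
  | succ t ih =>
    have : i + (t + 1) * k = (i + t * k) + k := by ring
    rw [this, al3_Lp_add lam hl, ih, pow_succ]
    ring

theorem al3_Lp_ne {lam : ℕ → ℂ} (hl : ∀ i, lam i ≠ 0) (n : ℕ) : Lp lam n ≠ 0 :=
  Finset.prod_ne_zero_iff.2 (fun i _ => hl i)

theorem al3_Lp_Ico (lam : ℕ → ℂ) {i k : ℕ} (h : i < k) :
    Lp lam (i + 1) * ∏ j ∈ Finset.Ico (i + 1) k, lam j = Lp lam k := by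
  unfold Lp
  exact Finset.prod_range_mul_prod_Ico _ (by omega)

theorem al3_per {β : Type*} {k : ℕ} {u : ℕ → β} (h : ∀ i, u (i + k) = u i) (i t : ℕ) :
    u (i + t * k) = u i := by
  induction t with
  | zero => simp
  | succ t ih =>
    have : i + (t + 1) * k = (i + t * k) + k := by ring
    rw [this, h, ih]

theorem algebra_thm {k l : ℕ} (hk : 0 < k) (hl : 0 < l) {d d' : ℕ → ℕ} {lam lam' : ℕ → ℂ}
    {q q' : ℕ → ℂ[X]} (hd : ∀ i, 2 ≤ d i) (hd' : ∀ i, 2 ≤ d' i)
    (hlam : ∀ i, lam i ≠ 0) (hlam' : ∀ i, lam' i ≠ 0)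
    (hdk : ∀ i, d (i + k) = d i) (hdl : ∀ i, d' (i + l) = d' i)
    (hlk : ∀ i, lam (i + k) = lam i) (hll : ∀ i, lam' (i + l) = lam' i)
    (hqk : ∀ i, q (i + k) = q i) (hql : ∀ i, q' (i + l) = q' i)
    (hq : ∀ i, (q i).Monic ∧ (q i).natDegree = d i + 1 ∧ (q i).coeff (d i) = 0)
    (hq' : ∀ i, (q' i).Monic ∧ (q' i).natDegree = d' i + 1 ∧ (q' i).coeff (d' i) = 0)
    (hdd : Dp d k = Dp d' l) (hLL : Lp lam k = Lp lam' l)
    {m : ℕ} {ζ α : ℂ} (hm : 1 ≤ m) (hζ : ζ ^ (Dp d k - 1) = 1) (hα : α ≠ 0)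
    (hO : ∀ j : ℕ, 1 ≤ j → ¬ (Dp d k) ∣ j → ∀ᶠ N : ℕ in atTop, ∑ n ∈ Finset.range N,
        (Lp lam k) ^ n * (((Qp d' lam' q' l).comp (C ζ * X ^ m)) -
          C α * Qp d lam q k).coeff ((Dp d k) ^ n * j) = 0) :
    l = k ∧ ∃ r : ℕ, (∀ i, d' i = d (i + r)) ∧
      (∀ i, lam' (i + 1) * ζ ^ (Dp d' i) = lam (i + 1 + r) * ζ ^ (Dp d' (i + 2))) ∧
      ∀ i n, 1 ≤ n → n ≤ d' i + 1 →
        (q' i).coeff n = (ζ ^ (Dp d' i)) ^ (d' i + 1 - n) * (q (i + r)).coeff n := by
  obtain ⟨A1, A2, A3, A4⟩ := Qp_coeff (k := k) (lam := lam) hd hq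
  obtain ⟨B1, B2, B3, B4⟩ := Qp_coeff (k := l) (lam := lam') hd' hq'
  have hddge : 2 ≤ Dp d k := by
    obtain ⟨n, rfl⟩ : ∃ n, k = n + 1 := ⟨k - 1, by omega⟩
    rw [al1_Dp_succ]
    have h1 := al1_Dp_pos hd n
    have h2 := hd n
    nlinarith
  have hLne : Lp lam k ≠ 0 := al3_Lp_ne hlam k
  have hζ0 : ζ ≠ 0 := by
    intro h0
    rw [h0, zero_pow (by omega)] at hζ
    exact zero_ne_one hζ
  obtain ⟨O1, O2⟩ := obstruction_coeff hddge hm hLne hζ hα A4 (by rw [hdd]; exact B4) hO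
  have hprod : ∀ i, ∏ j ∈ Finset.Ico (i + 1) k, lam j ≠ 0 := fun i =>
    Finset.prod_ne_zero_iff.2 (fun j _ => hlam j)
  have hprod' : ∀ i, ∏ j ∈ Finset.Ico (i + 1) l, lam' j ≠ 0 := fun i =>
    Finset.prod_ne_zero_iff.2 (fun j _ => hlam' j)
  have hlead : ∀ i, (q i).coeff (d i + 1) = 1 := fun i => by
    rw [← (hq i).2.1]; exact (hq i).1
  have hlead' : ∀ i, (q' i).coeff (d' i + 1) = 1 := fun i => by
    rw [← (hq' i).2.1]; exact (hq' i).1
  obtain ⟨hkl, r, hr⟩ := chain_nat hk hl hm hd hd' hdk hdl hdd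
    (by
      intro i hi
      have h1 : (Qp d lam q k).coeff (Dp d i * (d i + 1)) ≠ 0 := by
        rw [A1 i hi (d i + 1) (by omega) le_rfl (by omega), hlead, mul_one]
        exact hprod i
      obtain ⟨e, v, he1, he2, he3⟩ := O2 _
        (Nat.mul_pos (al1_Dp_pos hd i) (by omega)) h1
      obtain ⟨j, hj, n, hn1, hn2, hn3, hn4⟩ := B2 e he1 he2
      refine ⟨v, 0, j, n, hj, hn1, hn2, hn3, ?_⟩
      rw [← he3, hn4, pow_zero, one_mul])
    (by
      intro i hi
      have h1 : (Qp d' lam' q' l).coeff (Dp d' i * (d' i + 1)) ≠ 0 := by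
        rw [B1 i hi (d' i + 1) (by omega) le_rfl (by omega), hlead', mul_one]
        exact hprod' i
      have he : 1 ≤ Dp d' i * (d' i + 1) := Nat.mul_pos (al1_Dp_pos hd' i) (by omega)
      have hme : m * (Dp d' i * (d' i + 1)) ≠ 0 := by
        have : 0 < m * (Dp d' i * (d' i + 1)) := Nat.mul_pos (by omega) he
        omega
      obtain ⟨v, j, hj, hvj⟩ := Nat.exists_eq_pow_mul_and_not_dvd hme (Dp d k) (by omega)
      have h2 := O1 _ v j he h1 hvj hj
      have hj1 : 1 ≤ j := by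
        rcases Nat.eq_zero_or_pos j with h | h
        · exact absurd (h ▸ dvd_zero _) hj
        · exact h
      have h3 : (Qp d lam q k).coeff j ≠ 0 := by
        intro h0
        rw [h0, mul_zero] at h2
        exact (mul_ne_zero (mul_ne_zero (pow_ne_zero _ hLne) (pow_ne_zero _ hζ0)) h1) h2.symm
      obtain ⟨i', hi', n, hn1, hn2, hn3, hn4⟩ := A2 j hj1 h3
      refine ⟨v, 0, i', n, hi', hn1, hn2, hn3, ?_⟩
      rw [pow_zero, one_mul, hvj, hn4])
  subst hkl
  refine ⟨rfl, r, ?_⟩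
  have hdr : ∀ i, d' i = d (i + r) := by
    intro i
    have h1 := hr i
    have h2 := hr (i + 1)
    rw [al1_Dp_succ] at h2
    have e : i + 1 + r = (i + r) + 1 := by ring
    rw [e, al1_Dp_succ, ← h1] at h2
    have h3 : 0 < m * Dp d' i := Nat.mul_pos (by omega) (al1_Dp_pos hd' i)
    have h4 : m * Dp d' i * d' i = m * Dp d' i * d (i + r) := by
      rw [← h2]; ring
    exact Nat.eq_of_mul_eq_mul_left h3 h4
  have hζd : ζ ^ (Dp d k) = ζ := by
    calc ζ ^ (Dp d k) = ζ ^ (Dp d k - 1 + 1) := by congr 1; omega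
      _ = ζ := by rw [pow_succ, hζ, one_mul]
  have hζdt : ∀ t, ζ ^ (Dp d k ^ t) = ζ := by
    intro t
    induction t with
    | zero => simp
    | succ t ih => rw [pow_succ, pow_mul, ih, hζd]
  -- key identity for i < k
  have key0 : ∀ i < k, ∀ n, 1 ≤ n → n ≤ d' i + 1 → n ≠ d' i →
      α * Lp lam' (i + 1) * (q (i + r)).coeff n =
        ζ ^ (Dp d' i * n) * Lp lam (i + r + 1) * (q' i).coeff n := by
    intro i hi n hn1 hn2 hn3
    obtain ⟨i₀, v, hi₀, hiv⟩ : ∃ i₀ v, i₀ < k ∧ i + r = i₀ + v * k :=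
      ⟨(i + r) % k, (i + r) / k, Nat.mod_lt _ hk, by
        rw [Nat.mul_comm]; exact (Nat.mod_add_div _ _).symm⟩
    have hd0 : d i₀ = d' i := by
      rw [hdr, hiv, al3_per hdk]
    have hq0 : q (i + r) = q i₀ := by rw [hiv, al3_per hqk]
    have hme : m * (Dp d' i * n) = Dp d k ^ v * (Dp d i₀ * n) := by
      have h1 := hr i
      rw [hiv, al3_Dp_add_mul d hdk] at h1
      calc m * (Dp d' i * n) = (m * Dp d' i) * n := by ring
        _ = _ := by rw [h1]; ring
    have hnd : ¬ Dp d k ∣ Dp d i₀ * n := A3 i₀ hi₀ n hn1 (by omega) (by omega)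
    have hdd' : Dp d' k = Dp d k := hdd.symm
    have hj1 : 1 ≤ Dp d i₀ * n := Nat.mul_pos (al1_Dp_pos hd _) hn1
    have he1 : 1 ≤ Dp d' i * n := Nat.mul_pos (al1_Dp_pos hd' _) hn1
    have hmain : α * (Qp d lam q k).coeff (Dp d i₀ * n) =
        Lp lam k ^ v * ζ ^ (Dp d' i * n) * (Qp d' lam' q' k).coeff (Dp d' i * n) := by
      by_cases hz : (Qp d' lam' q' k).coeff (Dp d' i * n) = 0
      · rw [hz, mul_zero]
        have : (Qp d lam q k).coeff (Dp d i₀ * n) = 0 := by
          by_contra hne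
          obtain ⟨e₁, v₁, h1, h2, h3⟩ := O2 _ hj1 hne
          rcases lt_trichotomy v₁ v with h | h | h
          · -- e = dd^(v - v₁) e₁
            have h4 : Dp d' i * n = Dp d k * (Dp d k ^ (v - v₁ - 1) * e₁) := by
              have h5 : m * (Dp d' i * n) = m * (Dp d k * (Dp d k ^ (v - v₁ - 1) * e₁)) := by
                calc m * (Dp d' i * n) = Dp d k ^ v * (Dp d i₀ * n) := hme
                  _ = Dp d k ^ (v - v₁ - 1) * Dp d k * (Dp d k ^ v₁ * (Dp d i₀ * n)) := by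
                    have hp : Dp d k ^ v = Dp d k ^ (v - v₁ - 1) * Dp d k * Dp d k ^ v₁ := by
                      rw [← pow_succ, ← pow_add]
                      congr 1
                      omega
                    rw [hp]
                    ring
                  _ = Dp d k ^ (v - v₁ - 1) * Dp d k * (m * e₁) := by rw [h3]
                  _ = m * (Dp d k * (Dp d k ^ (v - v₁ - 1) * e₁)) := by ring
              exact Nat.eq_of_mul_eq_mul_left (by omega) h5
            refine B3 i hi n hn1 hn2 hn3 ?_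
            rw [h4, hdd']
            exact Dvd.intro _ rfl
          · rw [h] at h3
            have h4 : e₁ = Dp d' i * n :=
              Nat.eq_of_mul_eq_mul_left (by omega : 0 < m) (h3.trans hme.symm)
            rw [h4] at h2
            exact h2 hz
          · have h4 : e₁ = Dp d k * (Dp d k ^ (v₁ - v - 1) * (Dp d' i * n)) := by
              have h5 : m * e₁ = m * (Dp d k * (Dp d k ^ (v₁ - v - 1) * (Dp d' i * n))) := by
                calc m * e₁ = Dp d k ^ v₁ * (Dp d i₀ * n) := h3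
                  _ = Dp d k ^ (v₁ - v - 1) * Dp d k * (Dp d k ^ v * (Dp d i₀ * n)) := by
                    have hp : Dp d k ^ v₁ = Dp d k ^ (v₁ - v - 1) * Dp d k * Dp d k ^ v := by
                      rw [← pow_succ, ← pow_add]
                      congr 1
                      omega
                    rw [hp]
                    ring
                  _ = Dp d k ^ (v₁ - v - 1) * Dp d k * (m * (Dp d' i * n)) := by rw [hme]
                  _ = m * (Dp d k * (Dp d k ^ (v₁ - v - 1) * (Dp d' i * n))) := by ring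
              exact Nat.eq_of_mul_eq_mul_left (by omega) h5
            apply h2
            rw [h4, ← hdd']
            exact B4 _ (Nat.mul_pos (pow_pos (by omega) _) he1)
        rw [this, mul_zero]
      · exact O1 _ v _ he1 hz hme hnd
    rw [A1 i₀ hi₀ n hn1 (by omega) (by omega), B1 i hi n hn1 hn2 hn3] at hmain
    have hL1 := al3_Lp_Ico lam hi₀
    have hL2 := al3_Lp_Ico lam' hi
    have hL3 : Lp lam (i + r + 1) = Lp lam k ^ v * Lp lam (i₀ + 1) := by
      have : i + r + 1 = (i₀ + 1) + v * k := by omega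
      rw [this, al3_Lp_add_mul lam hlk]
    rw [hq0, hL3]
    have hLp1 : Lp lam (i₀ + 1) ≠ 0 := al3_Lp_ne hlam _
    have hLp2 : Lp lam' (i + 1) ≠ 0 := al3_Lp_ne hlam' _
    have hP1 : ∏ j ∈ Finset.Ico (i₀ + 1) k, lam j = Lp lam k / Lp lam (i₀ + 1) := by
      rw [← hL1]; field_simp
    have hP2 : ∏ j ∈ Finset.Ico (i + 1) k, lam' j = Lp lam k / Lp lam' (i + 1) := by
      rw [hLL, ← hL2]; field_simp
    rw [hP1, hP2] at hmain
    field_simp at hmain
    linear_combination hmain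
  have key : ∀ i n, 1 ≤ n → n ≤ d' i + 1 → n ≠ d' i →
      α * Lp lam' (i + 1) * (q (i + r)).coeff n =
        ζ ^ (Dp d' i * n) * Lp lam (i + r + 1) * (q' i).coeff n := by
    intro i n hn1 hn2 hn3
    obtain ⟨i₁, t, hi₁, hit⟩ : ∃ i₁ t, i₁ < k ∧ i = i₁ + t * k :=
      ⟨i % k, i / k, Nat.mod_lt _ hk, by
        rw [Nat.mul_comm]; exact (Nat.mod_add_div _ _).symm⟩
    have e1 : d' i = d' i₁ := by rw [hit, al3_per hdl]
    have h1 := key0 i₁ hi₁ n hn1 (by omega) (by omega)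
    have e2 : Lp lam' (i + 1) = Lp lam k ^ t * Lp lam' (i₁ + 1) := by
      have : i + 1 = (i₁ + 1) + t * k := by omega
      rw [this, al3_Lp_add_mul lam' hll, hLL]
    have e3 : Lp lam (i + r + 1) = Lp lam k ^ t * Lp lam (i₁ + r + 1) := by
      have : i + r + 1 = (i₁ + r + 1) + t * k := by omega
      rw [this, al3_Lp_add_mul lam hlk]
    have e4 : q (i + r) = q (i₁ + r) := by
      have : i + r = (i₁ + r) + t * k := by omega
      rw [this, al3_per hqk]
    have e5 : q' i = q' i₁ := by rw [hit, al3_per hql]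
    have e6 : ζ ^ (Dp d' i * n) = ζ ^ (Dp d' i₁ * n) := by
      rw [hit, al3_Dp_add_mul d' hdl, ← hdd, mul_assoc, pow_mul, hζdt]
    rw [e2, e3, e4, e5, e6]
    linear_combination Lp lam k ^ t * h1
  have key1 : ∀ i, α * Lp lam' (i + 1) = ζ ^ (Dp d' i * (d' i + 1)) * Lp lam (i + r + 1) := by
    intro i
    have h1 := key i (d' i + 1) (by omega) le_rfl (by omega)
    have h2 : (q (i + r)).coeff (d' i + 1) = 1 := by rw [hdr]; exact hlead _
    rw [hlead', h2, mul_one, mul_one] at h1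
    exact h1
  refine ⟨hdr, ?_, ?_⟩
  · intro i
    have h1 := key1 i
    have h2 := key1 (i + 1)
    rw [al3_Lp_succ lam' (i + 1)] at h2
    have e : i + 1 + r + 1 = (i + r + 1) + 1 := by ring
    rw [e, al3_Lp_succ lam (i + r + 1)] at h2
    have e1 : Dp d' i * (d' i + 1) = Dp d' (i + 1) + Dp d' i := by
      rw [al1_Dp_succ]; ring
    have e2 : Dp d' (i + 1) * (d' (i + 1) + 1) = Dp d' (i + 2) + Dp d' (i + 1) := by
      rw [al1_Dp_succ d' (i + 1)]; ring
    rw [e1, pow_add] at h1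
    rw [e2, pow_add] at h2
    have hL := al3_Lp_ne hlam (i + r + 1)
    have hz := pow_ne_zero (Dp d' (i + 1)) hζ0
    have e3 : i + 1 + r = i + r + 1 := by ring
    rw [e3]
    have h3 : (ζ ^ Dp d' (i + 1) * Lp lam (i + r + 1)) * (lam' (i + 1) * ζ ^ Dp d' i) =
        (ζ ^ Dp d' (i + 1) * Lp lam (i + r + 1)) * (lam (i + r + 1) * ζ ^ Dp d' (i + 2)) := by
      linear_combination h2 - lam' (i + 1) * h1
    exact mul_left_cancel₀ (mul_ne_zero hz hL) h3
  · intro i n hn1 hn2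
    by_cases hn3 : n = d' i
    · have h1 : (q (i + r)).coeff n = 0 := by
        rw [hn3, hdr]; exact (hq _).2.2
      have h2 : (q' i).coeff n = 0 := by
        rw [hn3]; exact (hq' _).2.2
      rw [h1, h2, mul_zero]
    · have h1 := key i n hn1 hn2 hn3
      rw [key1 i] at h1
      have hL := al3_Lp_ne hlam (i + r + 1)
      have hz := pow_ne_zero (Dp d' i * n) hζ0
      have e1 : ζ ^ (Dp d' i * (d' i + 1)) =
          ζ ^ (Dp d' i * n) * (ζ ^ (Dp d' i)) ^ (d' i + 1 - n) := by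
        rw [← pow_mul, ← pow_add, ← mul_add]
        congr 2
        omega
      rw [e1] at h1
      have h3 : (ζ ^ (Dp d' i * n) * Lp lam (i + r + 1)) * (q' i).coeff n =
          (ζ ^ (Dp d' i * n) * Lp lam (i + r + 1)) *
            ((ζ ^ (Dp d' i)) ^ (d' i + 1 - n) * (q (i + r)).coeff n) := by
        linear_combination (-1 : ℂ) * h1
      exact mul_left_cancel₀ (mul_ne_zero hz hL) h3

end HEN
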