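import Pool.Agent.Lib.MP_e79cb7_ag.Cmp

/-! # Module AS1: the function `bt` -/

open Filter Topology Polynomial Bornology

noncomputable section

namespace HEN

private theorem as1_pow1 (n : ℕ) : ∃ C : ℝ, 0 < C ∧ ∀ h : ℂ, ‖h‖ ≤ 1 →
    ‖(1 + h) ^ n - 1‖ ≤ C * ‖h‖ := by
  induction n with
  | zero => exact ⟨1, one_pos, fun h _ => by simp⟩
  | succ n ih =>
    obtain ⟨C, hC, h1⟩ := ih
    refine ⟨2 * C + 1, by positivity, fun h hh => ?_⟩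
    have e : (1 + h) ^ (n + 1) - 1 = (1 + h) * ((1 + h) ^ n - 1) + h := by ring
    rw [e]
    have h2 : ‖(1 : ℂ) + h‖ ≤ 2 := by
      calc ‖(1 : ℂ) + h‖ ≤ ‖(1 : ℂ)‖ + ‖h‖ := norm_add_le _ _
        _ ≤ 2 := by rw [norm_one]; linarith
    calc ‖(1 + h) * ((1 + h) ^ n - 1) + h‖ ≤ ‖(1 + h) * ((1 + h) ^ n - 1)‖ + ‖h‖ :=
          norm_add_le _ _
      _ = ‖1 + h‖ * ‖(1 + h) ^ n - 1‖ + ‖h‖ := by rw [norm_mul]
      _ ≤ 2 * (C * ‖h‖) + ‖h‖ := by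
          gcongr
          exact h1 h hh
      _ = (2 * C + 1) * ‖h‖ := by ring

private theorem as1_pow2 (n : ℕ) : ∃ C : ℝ, 0 < C ∧ ∀ h : ℂ, ‖h‖ ≤ 1 →
    ‖(1 + h) ^ n - (1 + n * h)‖ ≤ C * ‖h‖ ^ 2 := by
  induction n with
  | zero => exact ⟨1, one_pos, fun h _ => by simp⟩
  | succ n ih =>
    obtain ⟨C, hC, h1⟩ := ih
    refine ⟨2 * C + n, by positivity, fun h hh => ?_⟩
    have e : (1 + h) ^ (n + 1) - (1 + ((n + 1 : ℕ) : ℂ) * h) =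
        (1 + h) * ((1 + h) ^ n - (1 + n * h)) + n * h ^ 2 := by
      push_cast
      ring
    rw [e]
    have h2 : ‖(1 : ℂ) + h‖ ≤ 2 := by
      calc ‖(1 : ℂ) + h‖ ≤ ‖(1 : ℂ)‖ + ‖h‖ := norm_add_le _ _
        _ ≤ 2 := by rw [norm_one]; linarith
    calc _ ≤ ‖(1 + h) * ((1 + h) ^ n - (1 + n * h))‖ + ‖(n : ℂ) * h ^ 2‖ := norm_add_le _ _
      _ = ‖1 + h‖ * ‖(1 + h) ^ n - (1 + n * h)‖ + n * ‖h‖ ^ 2 := by
          rw [norm_mul, norm_mul, norm_pow, Complex.norm_natCast]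
      _ ≤ 2 * (C * ‖h‖ ^ 2) + n * ‖h‖ ^ 2 := by
          gcongr
          exact h1 h hh
      _ = (2 * C + n) * ‖h‖ ^ 2 := by ring

private theorem as1_low (c : ℕ → ℂ) (m : ℕ) : ∃ C : ℝ, 0 < C ∧ ∀ x : ℂ, 1 ≤ ‖x‖ →
    ‖∑ n ∈ Finset.range (m + 1), c n * x ^ n‖ ≤ C * ‖x‖ ^ m := by
  refine ⟨(∑ n ∈ Finset.range (m + 1), ‖c n‖) + 1, ?_, ?_⟩
  · have : 0 ≤ ∑ n ∈ Finset.range (m + 1), ‖c n‖ := Finset.sum_nonneg fun n _ => norm_nonneg _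
    linarith
  intro x hx
  calc _ ≤ ∑ n ∈ Finset.range (m + 1), ‖c n * x ^ n‖ := norm_sum_le _ _
    _ ≤ ∑ n ∈ Finset.range (m + 1), ‖c n‖ * ‖x‖ ^ m := by
        refine Finset.sum_le_sum fun n hn => ?_
        have hn' : n ≤ m := by
          have := Finset.mem_range.mp hn
          omega
        rw [norm_mul, norm_pow]
        gcongr
    _ = (∑ n ∈ Finset.range (m + 1), ‖c n‖) * ‖x‖ ^ m := by rw [Finset.sum_mul]
    _ ≤ _ := by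
        have : 0 ≤ ‖x‖ ^ m := by positivity
        nlinarith

private theorem as1_diff (c : ℕ → ℂ) (m : ℕ) : ∃ C : ℝ, 0 < C ∧ ∀ x h : ℂ, 1 ≤ ‖x‖ → ‖h‖ ≤ 1 →
    ‖(∑ n ∈ Finset.range (m + 1), c n * (x * (1 + h)) ^ n) -
      ∑ n ∈ Finset.range (m + 1), c n * x ^ n‖ ≤ C * (‖x‖ ^ m * ‖h‖) := by
  choose B hB hBb using as1_pow1
  refine ⟨(∑ n ∈ Finset.range (m + 1), ‖c n‖ * B n) + 1, ?_, ?_⟩
  · have : 0 ≤ ∑ n ∈ Finset.range (m + 1), ‖c n‖ * B n :=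
      Finset.sum_nonneg fun n _ => mul_nonneg (norm_nonneg _) (hB n).le
    linarith
  intro x h hx hh
  have e : (∑ n ∈ Finset.range (m + 1), c n * (x * (1 + h)) ^ n) -
      ∑ n ∈ Finset.range (m + 1), c n * x ^ n =
      ∑ n ∈ Finset.range (m + 1), c n * (x ^ n * ((1 + h) ^ n - 1)) := by
    rw [← Finset.sum_sub_distrib]
    refine Finset.sum_congr rfl fun n _ => ?_
    rw [mul_pow]
    ring
  rw [e]
  calc _ ≤ ∑ n ∈ Finset.range (m + 1), ‖c n * (x ^ n * ((1 + h) ^ n - 1))‖ := norm_sum_le _ _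
    _ ≤ ∑ n ∈ Finset.range (m + 1), (‖c n‖ * B n) * (‖x‖ ^ m * ‖h‖) := by
        refine Finset.sum_le_sum fun n hn => ?_
        have hn' : n ≤ m := by
          have := Finset.mem_range.mp hn
          omega
        rw [norm_mul, norm_mul, norm_pow]
        calc ‖c n‖ * (‖x‖ ^ n * ‖(1 + h) ^ n - 1‖) ≤
            ‖c n‖ * (‖x‖ ^ m * (B n * ‖h‖)) := by
              gcongr
              exact hBb n h hh
          _ = _ := by ring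
    _ = (∑ n ∈ Finset.range (m + 1), ‖c n‖ * B n) * (‖x‖ ^ m * ‖h‖) := by
        rw [Finset.sum_mul]
    _ ≤ _ := by
        have : 0 ≤ ‖x‖ ^ m * ‖h‖ := by positivity
        nlinarith

private theorem as1_bt {P : ℂ[X]} {m : ℕ} (hdm : P.natDegree = m + 2) {C₁ : ℝ} (hC₁ : 0 < C₁)
    (hP : ∀ x : ℂ, 1 ≤ ‖x‖ → ‖P.eval x - x ^ (m + 2)‖ ≤ C₁ * ‖x‖ ^ m) :
    ∀ x : ℂ, 1 + 2 * C₁ ≤ ‖x‖ →
      bt P x ^ P.natDegree = P.eval x ∧ ‖bt P x - x‖ ≤ 3 * C₁ / ‖x‖ := by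
  intro x hx
  have hx1 : 1 ≤ ‖x‖ := by linarith
  have hx0' : 0 < ‖x‖ := by linarith
  have hx0 : x ≠ 0 := norm_pos_iff.mp hx0'
  set ζ : ℂ := P.eval x / x ^ (m + 2) - 1 with hζ
  have hζb : ‖ζ‖ ≤ C₁ / ‖x‖ ^ 2 := by
    have e1 : ζ = (P.eval x - x ^ (m + 2)) / x ^ (m + 2) := by
      rw [hζ]
      field_simp
    rw [e1, norm_div, norm_pow, div_le_iff₀ (by positivity)]
    refine (hP x hx1).trans (le_of_eq ?_)
    rw [pow_add]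
    field_simp
  have hζh : C₁ / ‖x‖ ^ 2 ≤ 1 / 2 := by
    rw [div_le_iff₀ (by positivity)]
    nlinarith
  have hL := Complex.norm_log_one_add_half_le_self (hζb.trans hζh)
  set L : ℂ := Complex.log (1 + ζ) with hLdef
  have h1ζ : (1 + ζ) ≠ 0 := by
    intro h0
    have : ζ = -1 := by linear_combination h0
    have h2 : ‖ζ‖ = 1 := by rw [this, norm_neg, norm_one]
    linarith
  have hexpL : Complex.exp L = 1 + ζ := Complex.exp_log h1ζ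
  have e2 : P.eval x / x ^ P.natDegree = 1 + ζ := by
    rw [hζ, hdm]
    ring
  have hbt : bt P x = x * Complex.exp ((P.natDegree : ℂ)⁻¹ * L) := by
    rw [bt, e2]
  have hd0 : (P.natDegree : ℂ) ≠ 0 := by
    have : P.natDegree ≠ 0 := by omega
    exact_mod_cast this
  constructor
  · rw [hbt, mul_pow, ← Complex.exp_nat_mul, ← mul_assoc, mul_inv_cancel₀ hd0, one_mul, hexpL,
      ← e2]
    field_simp
  · have hu : ‖(P.natDegree : ℂ)⁻¹ * L‖ ≤ ‖L‖ := by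
      rw [norm_mul, norm_inv, Complex.norm_natCast]
      have h3 : ((P.natDegree : ℝ))⁻¹ ≤ 1 := by
        apply inv_le_one_of_one_le₀
        have : 1 ≤ P.natDegree := by omega
        exact_mod_cast this
      calc _ ≤ 1 * ‖L‖ := by gcongr
        _ = _ := one_mul _
    have hLb : ‖L‖ ≤ 3 / 2 * (C₁ / ‖x‖ ^ 2) := hL.trans (by gcongr)
    have hu1 : ‖(P.natDegree : ℂ)⁻¹ * L‖ ≤ 1 := by linarith
    have hexp := Complex.norm_exp_sub_one_le hu1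
    have e3 : bt P x - x = x * (Complex.exp ((P.natDegree : ℂ)⁻¹ * L) - 1) := by
      rw [hbt]; ring
    rw [e3, norm_mul]
    calc ‖x‖ * ‖Complex.exp ((P.natDegree : ℂ)⁻¹ * L) - 1‖ ≤
        ‖x‖ * (2 * (3 / 2 * (C₁ / ‖x‖ ^ 2))) := by
          gcongr
          refine hexp.trans ?_
          gcongr
          exact hu.trans hLb
      _ = 3 * C₁ / ‖x‖ := by
          field_simp

/-- The function `bt`. -/
theorem bt_props {P q : ℂ[X]} (hm : P.Monic) (hd : 2 ≤ P.natDegree)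
    (hc : P.coeff (P.natDegree - 1) = 0) (hq : IsQ P q) :
    ∃ R₀ C : ℝ, 1 ≤ R₀ ∧ 0 < C ∧ ∀ x : ℂ, R₀ ≤ ‖x‖ →
      bt P x ^ P.natDegree = P.eval x ∧ ‖bt P x - x‖ ≤ C / ‖x‖ ∧
      ‖q.eval (bt P x) - x * P.eval x‖ ≤ C / ‖x‖ := by
  obtain ⟨m, hdm⟩ : ∃ m, P.natDegree = m + 2 := ⟨P.natDegree - 2, by omega⟩
  have hcm : P.coeff (m + 1) = 0 := by
    have e1 : P.natDegree - 1 = m + 1 := by omega
    rwa [e1] at hc
  have hPe : ∀ z : ℂ, P.eval z = (∑ n ∈ Finset.range (m + 1), P.coeff n * z ^ n) + z ^ (m + 2) := by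
    intro z
    rw [Polynomial.eval_eq_sum_range' (n := m + 3) (by omega), Finset.sum_range_succ,
      Finset.sum_range_succ, hcm]
    have : P.coeff (m + 2) = 1 := by rw [← hdm]; exact hm
    rw [this]
    ring
  have hqe : ∀ z : ℂ, q.eval z = (∑ n ∈ Finset.range (m + 2), q.coeff n * z ^ n) + z ^ (m + 3) := by
    intro z
    rw [Polynomial.eval_eq_sum_range' (n := m + 4) (by rw [hq.deg]; omega), Finset.sum_range_succ,
      Finset.sum_range_succ]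
    have h1 : q.coeff (m + 2) = 0 := by rw [← hdm]; exact hq.cent
    have h2 : q.coeff (m + 3) = 1 := by
      have : m + 3 = q.natDegree := by rw [hq.deg, hdm]
      rw [this]
      exact hq.monic
    rw [h1, h2]
    ring
  obtain ⟨C₁, hC₁, hlow⟩ := as1_low (fun n => P.coeff n) m
  obtain ⟨C₂, hC₂, hqlow⟩ := as1_low (fun n => q.coeff n) (m + 1)
  obtain ⟨C₃, hC₃, hdiff⟩ := as1_diff (fun n => P.coeff n) m
  obtain ⟨C₄, hC₄, hpow⟩ := as1_pow2 (m + 2)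
  obtain ⟨C₅, R₅, hlim⟩ := hq.lim
  have hbt := as1_bt hdm hC₁ (fun x hx => by rw [hPe x, add_sub_cancel_right]; exact hlow x hx)
  -- K bounds ‖h‖ ‖x‖²
  set K : ℝ := 3 * C₁ + 4 * C₂ with hK
  have hK0 : 0 < K := by positivity
  refine ⟨1 + 6 * C₁ + 2 * |R₅| + 2 * C₃ + K + K * C₄ + 2, 3 * C₁ + 2 ^ (m + 2) * (8 * |C₅|) + 1,
    by have := abs_nonneg R₅; nlinarith [mul_pos hK0 hC₄], by positivity, ?_⟩
  intro x hx
  have hR0 := abs_nonneg R₅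
  have hKC : 0 < K * C₄ := mul_pos hK0 hC₄
  have hx2 : 2 ≤ ‖x‖ := by linarith
  have hx1 : 1 ≤ ‖x‖ := by linarith
  have hx0' : 0 < ‖x‖ := by linarith
  have hx0 : x ≠ 0 := norm_pos_iff.mp hx0'
  obtain ⟨hb1, hb2⟩ := hbt x (by linarith)
  set β : ℂ := bt P x with hβ
  have hb3 : 3 * C₁ / ‖x‖ ≤ ‖x‖ / 2 := by
    rw [div_le_iff₀ hx0']
    nlinarith
  have hβl : ‖x‖ / 2 ≤ ‖β‖ := by
    have h1 : ‖x‖ ≤ ‖β‖ + ‖β - x‖ := by
      calc ‖x‖ = ‖β - (β - x)‖ := by congr 1; ring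
        _ ≤ _ := norm_sub_le _ _
    linarith
  have hβu : ‖β‖ ≤ 2 * ‖x‖ := by
    have h1 : ‖β‖ ≤ ‖x‖ + ‖β - x‖ := by
      calc ‖β‖ = ‖x + (β - x)‖ := by congr 1; ring
        _ ≤ _ := norm_add_le _ _
    linarith
  have hβ1 : 1 ≤ ‖β‖ := by linarith
  have hβ0' : 0 < ‖β‖ := by linarith
  have hβ0 : β ≠ 0 := norm_pos_iff.mp hβ0'
  have hl := hlim β (by linarith [le_abs_self R₅])
  rw [hb1] at hl
  rw [hdm] at hb1
  set u : ℂ := q.eval β / β ^ (m + 2) with hu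
  -- P u close to P x
  have hPu : ‖P.eval u - P.eval x‖ ≤ 4 * |C₅| / ‖x‖ ^ 2 := by
    have e1 : q.eval β / P.eval x = u := by rw [hu, hb1]
    rw [e1] at hl
    refine hl.trans ?_
    calc C₅ / ‖β‖ ^ 2 ≤ |C₅| / ‖β‖ ^ 2 := by
          gcongr
          exact le_abs_self _
      _ ≤ |C₅| / (‖x‖ / 2) ^ 2 := by gcongr
      _ = 4 * |C₅| / ‖x‖ ^ 2 := by
          field_simp
          norm_num
  have huβ : ‖u - β‖ ≤ 2 * C₂ / ‖x‖ := by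
    have e1 : u - β = (∑ n ∈ Finset.range (m + 2), q.coeff n * β ^ n) / β ^ (m + 2) := by
      rw [hu, hqe]
      field_simp
      ring
    rw [e1, norm_div, norm_pow]
    calc _ ≤ (C₂ * ‖β‖ ^ (m + 1)) / ‖β‖ ^ (m + 2) := by
          gcongr
          exact hqlow β hβ1
      _ = C₂ / ‖β‖ := by
          rw [pow_succ ‖β‖ (m + 1)]
          field_simp
      _ ≤ C₂ / (‖x‖ / 2) := by gcongr
      _ = 2 * C₂ / ‖x‖ := by field_simp
  set h : ℂ := u / x - 1 with hh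
  have hux : u = x * (1 + h) := by
    rw [hh]
    field_simp
    ring
  have hhb : ‖h‖ ≤ K / ‖x‖ ^ 2 := by
    have e1 : h = (u - x) / x := by rw [hh]; field_simp
    have h1 : ‖u - x‖ ≤ (3 * C₁ + 2 * C₂) / ‖x‖ := by
      calc ‖u - x‖ = ‖(u - β) + (β - x)‖ := by congr 1; ring
        _ ≤ ‖u - β‖ + ‖β - x‖ := norm_add_le _ _
        _ ≤ 2 * C₂ / ‖x‖ + 3 * C₁ / ‖x‖ := by gcongr
        _ = _ := by ring
    rw [e1, norm_div]
    calc ‖u - x‖ / ‖x‖ ≤ ((3 * C₁ + 2 * C₂) / ‖x‖) / ‖x‖ := by gcongr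
      _ = (3 * C₁ + 2 * C₂) / ‖x‖ ^ 2 := by field_simp
      _ ≤ K / ‖x‖ ^ 2 := by
          gcongr
          rw [hK]
          linarith
  have hxx : ‖x‖ ≤ ‖x‖ ^ 2 := by nlinarith
  have hh1 : ‖h‖ ≤ 1 := by
    refine hhb.trans ?_
    rw [div_le_one (by positivity)]
    linarith
  have hh4 : C₄ * ‖h‖ ≤ 1 := by
    calc C₄ * ‖h‖ ≤ C₄ * (K / ‖x‖ ^ 2) := by gcongr
      _ = K * C₄ / ‖x‖ ^ 2 := by ring
      _ ≤ 1 := by
          rw [div_le_one (by positivity)]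
          linarith
  have hh0 : 0 ≤ ‖h‖ := norm_nonneg h
  have hmain : ‖h‖ ≤ ‖(1 + h) ^ (m + 2) - 1‖ := by
    have h1 := hpow h hh1
    have h2 : ‖((m + 2 : ℕ) : ℂ) * h‖ ≤ ‖(1 + h) ^ (m + 2) - 1‖ +
        ‖(1 + h) ^ (m + 2) - (1 + ((m + 2 : ℕ) : ℂ) * h)‖ := by
      calc ‖((m + 2 : ℕ) : ℂ) * h‖ = ‖((1 + h) ^ (m + 2) - 1) -
          ((1 + h) ^ (m + 2) - (1 + ((m + 2 : ℕ) : ℂ) * h))‖ := by congr 1; ring
        _ ≤ _ := norm_sub_le _ _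
    rw [norm_mul, Complex.norm_natCast] at h2
    have h3 : C₄ * ‖h‖ ^ 2 ≤ ‖h‖ := by
      calc C₄ * ‖h‖ ^ 2 = (C₄ * ‖h‖) * ‖h‖ := by ring
        _ ≤ 1 * ‖h‖ := by gcongr
        _ = ‖h‖ := one_mul _
    have h4 : 2 * ‖h‖ ≤ ((m + 2 : ℕ) : ℝ) * ‖h‖ := by
      gcongr
      push_cast
      linarith [(Nat.cast_nonneg m : (0 : ℝ) ≤ m)]
    linarith
  have hdf := hdiff x h hx1 hh1
  rw [← hux] at hdf
  have hfin : ‖x‖ ^ (m + 2) * ‖h‖ ≤ 8 * |C₅| / ‖x‖ ^ 2 := by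
    have e1 : P.eval u - P.eval x = x ^ (m + 2) * ((1 + h) ^ (m + 2) - 1) +
        ((∑ n ∈ Finset.range (m + 1), P.coeff n * u ^ n) -
          ∑ n ∈ Finset.range (m + 1), P.coeff n * x ^ n) := by
      have e2 : u ^ (m + 2) = x ^ (m + 2) * (1 + h) ^ (m + 2) := by rw [hux, mul_pow]
      rw [hPe, hPe, e2]
      ring
    have h1 : ‖x‖ ^ (m + 2) * ‖h‖ ≤ ‖P.eval u - P.eval x‖ + C₃ * (‖x‖ ^ m * ‖h‖) := by
      calc ‖x‖ ^ (m + 2) * ‖h‖ ≤ ‖x‖ ^ (m + 2) * ‖(1 + h) ^ (m + 2) - 1‖ := by gcongr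
        _ = ‖x ^ (m + 2) * ((1 + h) ^ (m + 2) - 1)‖ := by rw [norm_mul, norm_pow]
        _ = ‖(P.eval u - P.eval x) - ((∑ n ∈ Finset.range (m + 1), P.coeff n * u ^ n) -
          ∑ n ∈ Finset.range (m + 1), P.coeff n * x ^ n)‖ := by rw [e1]; congr 1; ring
        _ ≤ _ := norm_sub_le _ _
        _ ≤ _ := by gcongr
    have h2 : C₃ * (‖x‖ ^ m * ‖h‖) ≤ (‖x‖ ^ (m + 2) * ‖h‖) / 2 := by
      have h3 : 2 * C₃ ≤ ‖x‖ ^ 2 := by linarith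
      calc C₃ * (‖x‖ ^ m * ‖h‖) = (2 * C₃) * (‖x‖ ^ m * ‖h‖) / 2 := by ring
        _ ≤ ‖x‖ ^ 2 * (‖x‖ ^ m * ‖h‖) / 2 := by gcongr
        _ = _ := by ring
    have h4 : 8 * |C₅| / ‖x‖ ^ 2 = 2 * (4 * |C₅| / ‖x‖ ^ 2) := by ring
    rw [h4]
    linarith
  refine ⟨by rw [hdm]; exact hb1, ?_, ?_⟩
  · refine hb2.trans ?_
    gcongr
    have : 0 ≤ (2 : ℝ) ^ (m + 2) * (8 * |C₅|) := by positivity
    linarith
  · have e1 : q.eval β - x * P.eval x = β ^ (m + 2) * (x * h) := by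
      rw [← hb1]
      have e2 : x * h = u - x := by rw [hux]; ring
      rw [e2, hu]
      field_simp
    rw [e1, norm_mul, norm_mul, norm_pow]
    calc ‖β‖ ^ (m + 2) * (‖x‖ * ‖h‖) ≤ (2 * ‖x‖) ^ (m + 2) * (‖x‖ * ‖h‖) := by gcongr
      _ = 2 ^ (m + 2) * ‖x‖ * (‖x‖ ^ (m + 2) * ‖h‖) := by rw [mul_pow]; ring
      _ ≤ 2 ^ (m + 2) * ‖x‖ * (8 * |C₅| / ‖x‖ ^ 2) := by gcongr
      _ = 2 ^ (m + 2) * (8 * |C₅|) / ‖x‖ := by field_simp
      _ ≤ _ := by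
          gcongr
          linarith

end HEN
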