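import Pool.Agent.Lib.MP_e79cb7_ag.Cmp

/-! # Growth of Hénon maps near infinity -/

open Filter Topology Polynomial Bornology

noncomputable section

namespace HEN

/-- one polynomial -/
theorem gro_poly {P : ℂ[X]} (hm : P.Monic) (hd : 2 ≤ P.natDegree)
    (hc : P.coeff (P.natDegree - 1) = 0) :
    ∀ x : ℂ, 1 ≤ ‖x‖ → ‖P.eval x - x ^ P.natDegree‖ ≤
      (∑ j ∈ Finset.range (P.natDegree - 1), ‖P.coeff j‖) * ‖x‖ ^ (P.natDegree - 2) := by
  intro x hx
  obtain ⟨m, hm2⟩ : ∃ m, P.natDegree = m + 2 := ⟨P.natDegree - 2, by omega⟩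
  have e1 : P.eval x = ∑ j ∈ Finset.range (m + 1), P.coeff j * x ^ j + x ^ P.natDegree := by
    rw [Polynomial.eval_eq_sum_range, hm2, Finset.sum_range_succ, Finset.sum_range_succ]
    have h1 : P.coeff (m + 2) = 1 := by
      rw [← hm2]
      exact hm
    have h2 : P.coeff (m + 1) = 0 := by
      have := hc
      rw [hm2] at this
      exact this
    rw [h1, h2]
    ring
  have e2 : P.natDegree - 1 = m + 1 := by omega
  have e3 : P.natDegree - 2 = m := by omega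
  rw [e1, add_sub_cancel_right, e2, e3, Finset.sum_mul]
  refine le_trans (norm_sum_le _ _) (Finset.sum_le_sum ?_)
  intro j hj
  rw [norm_mul, norm_pow]
  refine mul_le_mul_of_nonneg_left (pow_le_pow_right₀ hx ?_) (norm_nonneg _)
  have := Finset.mem_range.mp hj
  omega

/-- `k`-periodic families are bounded -/
theorem gro_bdd {k : ℕ} (hk : 0 < k) (f : ℤ → ℝ) (hf : ∀ i, f (i + k) = f i) :
    ∃ C : ℝ, 0 < C ∧ ∀ i, f i ≤ C := by
  have hper : ∀ (i : ℤ) (n : ℤ), f (i + n * k) = f i := by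
    intro i n
    induction n using Int.induction_on with
    | zero => simp
    | succ n ih =>
      have : i + ((n : ℤ) + 1) * k = (i + n * k) + k := by ring
      rw [this, hf, ih]
    | pred n ih =>
      have : i + (-(n : ℤ)) * k = (i + (-(n : ℤ) - 1) * k) + k := by ring
      rw [this, hf] at ih
      exact ih
  refine ⟨1 + ∑ j ∈ Finset.range k, |f j|, ?_, ?_⟩
  · have : 0 ≤ ∑ j ∈ Finset.range k, |f j| := Finset.sum_nonneg fun _ _ => abs_nonneg _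
    linarith
  · intro i
    have hk' : (0 : ℤ) < k := by exact_mod_cast hk
    have h1 : f i = f (i % k) := by
      have := hper (i % k) (i / k)
      have e : i % k + i / k * k = i := by
        rw [mul_comm]
        exact Int.emod_add_mul_ediv i k
      rw [e] at this
      exact this
    obtain ⟨m, hm⟩ : ∃ m : ℕ, (m : ℤ) = i % k :=
      ⟨(i % k).toNat, Int.toNat_of_nonneg (Int.emod_nonneg _ hk'.ne')⟩
    have hmk : m < k := by
      have := Int.emod_lt_of_pos i hk'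
      rw [← hm] at this
      exact_mod_cast this
    rw [h1, ← hm]
    have h2 : |f m| ≤ ∑ j ∈ Finset.range k, |f j| :=
      Finset.single_le_sum (f := fun j : ℕ => |f j|) (fun _ _ => abs_nonneg _)
        (Finset.mem_range.mpr hmk)
    have h3 := le_abs_self (f m)
    linarith

/- Module GRO (file GRO.lean) -/
theorem growth {k : ℕ} {a : ℤ → ℂ} {P : ℤ → ℂ[X]} (hD : IsData k a P) (hN : IsNorm P) :
    ∃ C : ℝ, 0 < C ∧ ∀ (i : ℤ) (p : ℂ × ℂ), 1 ≤ ‖p.1‖ →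
      ‖(P i).eval p.1 - p.1 ^ (P i).natDegree‖ ≤ C * ‖p.1‖ ^ ((P i).natDegree - 2) ∧
      ‖(H (a i) (P i) p).1 - p.1 ^ (P i).natDegree‖ ≤
        C * (‖p.1‖ ^ ((P i).natDegree - 2) + ‖p.2‖) := by
  obtain ⟨C₁, hC₁, h₁⟩ := gro_bdd hD.hk
    (fun i => ∑ j ∈ Finset.range ((P i).natDegree - 1), ‖(P i).coeff j‖)
    (fun i => by simp only [hD.pP])
  obtain ⟨C₂, hC₂, h₂⟩ := gro_bdd hD.hk (fun i => ‖a i‖) (fun i => by simp only [hD.pa])
  refine ⟨C₁ + C₂, by positivity, ?_⟩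
  intro i p hp
  have hx0 : 0 < ‖p.1‖ := by linarith
  have h3 := gro_poly (hN.monic i) (hD.hd i) (hN.cent i) p.1 hp
  have h4 : 0 ≤ ‖p.1‖ ^ ((P i).natDegree - 2) := by positivity
  have h5 : ‖(P i).eval p.1 - p.1 ^ (P i).natDegree‖ ≤ C₁ * ‖p.1‖ ^ ((P i).natDegree - 2) :=
    le_trans h3 (mul_le_mul_of_nonneg_right (h₁ i) h4)
  refine ⟨?_, ?_⟩
  · nlinarith
  · have e : (H (a i) (P i) p).1 - p.1 ^ (P i).natDegree =
        ((P i).eval p.1 - p.1 ^ (P i).natDegree) - a i * p.2 := by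
      simp only [H]
      ring
    rw [e]
    refine le_trans (norm_sub_le _ _) ?_
    rw [norm_mul]
    have h6 : ‖a i‖ * ‖p.2‖ ≤ C₂ * ‖p.2‖ := mul_le_mul_of_nonneg_right (h₂ i) (norm_nonneg _)
    nlinarith [norm_nonneg p.2, mul_nonneg hC₂.le h4, mul_nonneg hC₁.le (norm_nonneg p.2)]

theorem region {k : ℕ} {a : ℤ → ℂ} {P : ℤ → ℂ[X]} (hD : IsData k a P) (hN : IsNorm P) (K : ℝ) :
    ∃ R₀ : ℝ, 1 ≤ R₀ ∧ ∀ (i : ℤ) (p : ℂ × ℂ), p ∈ W 4 R₀ →
      K * ‖p.1‖ ≤ ‖(H (a i) (P i) p).1‖ ∧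
      ‖p.1‖ ^ (P i).natDegree ≤ 2 * ‖(H (a i) (P i) p).1‖ ∧
      ‖(H (a i) (P i) p).1‖ ≤ 2 * ‖p.1‖ ^ (P i).natDegree ∧
      ∀ R, R₀ ≤ R → p ∈ W 4 R → H (a i) (P i) p ∈ W (3 / 2) R := by
  obtain ⟨C, hC, hg⟩ := growth hD hN
  obtain ⟨R₀, hR₀def⟩ : ∃ R₀, R₀ = max (max 2 (16 * C)) (2 * |K|) := ⟨_, rfl⟩
  have hR2 : 2 ≤ R₀ := hR₀def ▸ le_trans (le_max_left _ _) (le_max_left _ _)
  have hRC : 16 * C ≤ R₀ := hR₀def ▸ le_trans (le_max_right _ _) (le_max_left _ _)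
  have hRK : 2 * |K| ≤ R₀ := hR₀def ▸ le_max_right _ _
  refine ⟨R₀, by linarith, ?_⟩
  intro i p hp
  have hx2 : 2 < ‖p.1‖ := lt_of_le_of_lt hR2 hp.1
  have hx0 : 0 < ‖p.1‖ := by linarith
  have hxC : 16 * C ≤ ‖p.1‖ := le_trans hRC hp.1.le
  have hxK : 2 * |K| ≤ ‖p.1‖ := le_trans hRK hp.1.le
  obtain ⟨m, hm⟩ : ∃ m, (P i).natDegree = m + 2 := ⟨(P i).natDegree - 2, by have := hD.hd i; omega⟩
  obtain ⟨_, hg2⟩ := hg i p (by linarith)
  have e0 : (P i).natDegree - 2 = m := by omega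
  rw [e0] at hg2
  -- abbreviations
  set x := ‖p.1‖ with hx
  set X := ‖(H (a i) (P i) p).1‖ with hX
  set d := (P i).natDegree with hdd
  have hxm : 1 ≤ x ^ m := one_le_pow₀ (by linarith)
  have hxd : x ^ d = x ^ m * x ^ 2 := by rw [hm, pow_add]
  have hy : ‖p.2‖ ≤ 2 * x := by
    have := hp.2
    rw [← hx] at this
    nlinarith [norm_nonneg p.2]
  -- error ≤ x^d / 4
  have herr : ‖(H (a i) (P i) p).1 - p.1 ^ d‖ ≤ x ^ d / 4 := by
    refine le_trans hg2 ?_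
    rw [hxd]
    have h1 : C * x ^ m ≤ x ^ m * x ^ 2 / 8 := by
      have : C ≤ x ^ 2 / 8 := by nlinarith
      nlinarith
    have h2 : C * ‖p.2‖ ≤ x ^ m * x ^ 2 / 8 := by
      have h3 : C * ‖p.2‖ ≤ C * (2 * x) := mul_le_mul_of_nonneg_left hy hC.le
      have h4 : C * (2 * x) ≤ x ^ 2 / 8 := by nlinarith
      have h5 : x ^ 2 / 8 ≤ x ^ m * x ^ 2 / 8 := by
        have : 0 ≤ x ^ 2 := by positivity
        nlinarith
      linarith
    linarith [mul_add C (x ^ m) ‖p.2‖]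
  have hpow : ‖p.1 ^ d‖ = x ^ d := norm_pow _ _
  have hup : X ≤ x ^ d + x ^ d / 4 := by
    have := norm_add_le ((H (a i) (P i) p).1 - p.1 ^ d) (p.1 ^ d)
    rw [sub_add_cancel, hpow] at this
    linarith
  have hlow : x ^ d - x ^ d / 4 ≤ X := by
    have := norm_sub_norm_le (p.1 ^ d) ((H (a i) (P i) p).1)
    rw [hpow, norm_sub_rev] at this
    linarith
  have hxd0 : 0 < x ^ d := by positivity
  have hxdge : x ^ 2 ≤ x ^ d := by
    rw [hxd]
    have : 0 ≤ x ^ 2 := by positivity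
    nlinarith
  refine ⟨?_, by linarith, by linarith, ?_⟩
  · have h1 : K ≤ |K| := le_abs_self K
    have h2 : K * x ≤ |K| * x := mul_le_mul_of_nonneg_right h1 hx0.le
    nlinarith
  · intro R hR hpR
    have hxR : R < x := hpR.1
    refine ⟨?_, ?_⟩
    · show R < X
      nlinarith
    · show ‖(H (a i) (P i) p).2‖ ^ 2 < 3 / 2 * X
      have : (H (a i) (P i) p).2 = p.1 := rfl
      rw [this, ← hx]
      nlinarith

end HEN
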