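import Pool.Agent.Lib.MP_e79cb7_ag.Cmp

/-! # Limits of holomorphic functions on open subsets of `ℂ × ℂ` -/

open Filter Topology Polynomial Bornology

noncomputable section

namespace HEN

theorem lim_fderiv_bound {U : Set (ℂ × ℂ)} (hU : IsOpen U) {h : ℂ × ℂ → ℂ}
    (hh : DifferentiableOn ℂ h U) {q : ℂ × ℂ} {r M : ℝ} (hr : 0 < r) (hM : 0 ≤ M)
    (hq : Metric.closedBall q r ⊆ U) (hb : ∀ x ∈ Metric.closedBall q r, ‖h x‖ ≤ M) :
    ‖fderiv ℂ h q‖ ≤ M / r := by
  refine ContinuousLinearMap.opNorm_le_bound _ (by positivity) ?_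
  intro v
  by_cases hv : v = 0
  · simp [hv]
  have hv0 : 0 < ‖v‖ := norm_pos_iff.mpr hv
  have hR : 0 < r / ‖v‖ := by positivity
  have hmem : ∀ t : ℂ, ‖t‖ ≤ r / ‖v‖ → q + t • v ∈ Metric.closedBall q r := by
    intro t ht
    rw [mem_closedBall_iff_norm]
    simp only [add_sub_cancel_left, norm_smul]
    calc ‖t‖ * ‖v‖ ≤ r / ‖v‖ * ‖v‖ := mul_le_mul_of_nonneg_right ht hv0.le
      _ = r := by field_simp
  have hline : ∀ t : ℂ, HasDerivAt (fun t : ℂ => q + t • v) v t := by
    intro t
    have := ((hasDerivAt_id t).smul_const v).const_add q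
    simpa using this
  have hd : ∀ t : ℂ, ‖t‖ ≤ r / ‖v‖ → HasDerivAt (fun t : ℂ => h (q + t • v))
      (fderiv ℂ h (q + t • v) v) t := by
    intro t ht
    have h1 : HasFDerivAt h (fderiv ℂ h (q + t • v)) (q + t • v) :=
      ((hh _ (hq (hmem t ht))).differentiableAt (hU.mem_nhds (hq (hmem t ht)))).hasFDerivAt
    exact h1.comp_hasDerivAt t (hline t)
  have hdc : DiffContOnCl ℂ (fun t : ℂ => h (q + t • v)) (Metric.ball 0 (r / ‖v‖)) := by
    refine DifferentiableOn.diffContOnCl ?_
    rw [closure_ball _ hR.ne']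
    intro t ht
    rw [mem_closedBall_zero_iff] at ht
    exact (hd t ht).differentiableAt.differentiableWithinAt
  have key := Complex.norm_deriv_le_of_forall_mem_sphere_norm_le hR hdc (C := M) (by
    intro z hz
    rw [mem_sphere_zero_iff_norm] at hz
    exact hb _ (hmem z hz.le))
  rw [(hd 0 (by simpa using hR.le)).deriv] at key
  simp only [zero_smul, add_zero] at key
  refine le_trans key (le_of_eq ?_)
  field_simp

/- Module LIM (file LIM.lean): limits of holomorphic functions on open subsets of ℂ × ℂ. -/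
theorem differentiableOn_of_locallyUniform {U : Set (ℂ × ℂ)} (hU : IsOpen U)
    {g : ℕ → ℂ × ℂ → ℂ} {g₀ : ℂ × ℂ → ℂ} (hG : ∀ n, DifferentiableOn ℂ (g n) U)
    (h : TendstoLocallyUniformlyOn g g₀ atTop U) : DifferentiableOn ℂ g₀ U := by
  intro p hp
  obtain ⟨ε, hε, hεU⟩ := Metric.isOpen_iff.mp hU p hp
  obtain ⟨r, hrdef⟩ : ∃ r, r = ε / 3 := ⟨_, rfl⟩
  have hr : 0 < r := by rw [hrdef]; positivity
  have hsub : Metric.closedBall p (2 * r) ⊆ U := by
    refine subset_trans ?_ hεU
    intro x hx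
    rw [Metric.mem_closedBall] at hx
    rw [Metric.mem_ball]
    linarith
  have hcomp : IsCompact (Metric.closedBall p (2 * r)) := isCompact_closedBall _ _
  have hunif : TendstoUniformlyOn g g₀ atTop (Metric.closedBall p (2 * r)) :=
    (tendstoLocallyUniformlyOn_iff_forall_isCompact hU).mp h _ hsub hcomp
  have hcau := hunif.uniformCauchySeqOn
  have hballsub : ∀ q ∈ Metric.ball p r, Metric.closedBall q r ⊆ Metric.closedBall p (2 * r) := by
    intro q hq x hx
    rw [Metric.mem_closedBall] at hx ⊢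
    rw [Metric.mem_ball] at hq
    have := dist_triangle x q p
    linarith
  have hderU : UniformCauchySeqOn (fun n q => fderiv ℂ (g n) q) atTop (Metric.ball p r) := by
    rw [Metric.uniformCauchySeqOn_iff] at hcau ⊢
    intro δ hδ
    obtain ⟨N, hN⟩ := hcau (δ * r / 2) (by positivity)
    refine ⟨N, fun m hm n hn q hq => ?_⟩
    have hqU : q ∈ U := hsub (hballsub q hq (Metric.mem_closedBall_self hr.le))
    have e1 : fderiv ℂ (g m) q - fderiv ℂ (g n) q = fderiv ℂ (fun x => g m x - g n x) q := by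
      rw [fderiv_fun_sub ((hG m q hqU).differentiableAt (hU.mem_nhds hqU))
        ((hG n q hqU).differentiableAt (hU.mem_nhds hqU))]
    rw [dist_eq_norm, e1]
    have h2 := lim_fderiv_bound hU ((hG m).sub (hG n)) hr (M := δ * r / 2) (by positivity)
      ((hballsub q hq).trans hsub) (by
        intro x hx
        have := hN m hm n hn x (hballsub q hq hx)
        rw [dist_eq_norm] at this
        exact this.le)
    have h3 : δ * r / 2 / r = δ / 2 := by field_simp
    rw [h3] at h2
    exact lt_of_le_of_lt h2 (by linarith)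
  have hlim : ∀ q ∈ Metric.ball p r, ∃ L, Tendsto (fun n => fderiv ℂ (g n) q) atTop (𝓝 L) := by
    intro q hq
    have : CauchySeq (fun n => fderiv ℂ (g n) q) := hderU.cauchySeq hq
    exact cauchySeq_tendsto_of_complete this
  choose! g' hg' using hlim
  have hT : TendstoUniformlyOn (fun n q => fderiv ℂ (g n) q) g' atTop (Metric.ball p r) :=
    hderU.tendstoUniformlyOn_of_tendsto hg'
  have hfin : HasFDerivAt g₀ (g' p) p := by
    refine hasFDerivAt_of_tendstoUniformlyOn (f := g) Metric.isOpen_ball hT ?_ ?_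
      (Metric.mem_ball_self hr)
    · intro n x hx
      have hxU : x ∈ U := hsub (hballsub x hx (Metric.mem_closedBall_self hr.le))
      exact ((hG n x hxU).differentiableAt (hU.mem_nhds hxU)).hasFDerivAt
    · intro x hx
      exact hunif.tendsto_at (hballsub x hx (Metric.mem_closedBall_self hr.le))
  exact hfin.differentiableAt.differentiableWithinAt

theorem differentiableOn_tsum2 {U : Set (ℂ × ℂ)} (hU : IsOpen U)
    {g : ℕ → ℂ × ℂ → ℂ} (hG : ∀ n, DifferentiableOn ℂ (g n) U) {u : ℕ → ℝ} (hu : Summable u)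
    (hb : ∀ n, ∀ p ∈ U, ‖g n p‖ ≤ u n) : DifferentiableOn ℂ (fun p => ∑' n, g n p) U := by
  have h1 : TendstoUniformlyOn (fun N : ℕ => fun p => ∑ n ∈ Finset.range N, g n p)
      (fun p => ∑' n, g n p) atTop U := tendstoUniformlyOn_tsum_nat hu hb
  refine differentiableOn_of_locallyUniform hU ?_ h1.tendstoLocallyUniformlyOn
  intro N
  exact DifferentiableOn.fun_sum fun n _ => hG n

end HEN
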