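import Pool.Agent.Lib.MP_e79cb7_ag.Cmp
import Pool.Agent.Lib.MP_e79cb7_ag.LIM
import Pool.Agent.Lib.MP_e79cb7_ag.GRO

/-! # The Boettcher coordinate -/

open Filter Topology Polynomial Bornology

noncomputable section

namespace HEN

theorem bot_isOpen_W (ρ R : ℝ) : IsOpen (W ρ R) := by
  unfold W
  exact (isOpen_lt continuous_const continuous_fst.norm).inter
    (isOpen_lt (continuous_snd.norm.pow 2) (continuous_const.mul continuous_fst.norm))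

theorem bot_W_mono {R : ℝ} (hR : 0 ≤ R) {p : ℂ × ℂ} (hp : p ∈ W (3 / 2) R) : p ∈ W 4 R := by
  obtain ⟨h1, h2⟩ := hp
  exact ⟨h1, lt_of_lt_of_le h2 (by nlinarith [norm_nonneg p.1])⟩

/-- basic estimate for one step -/
theorem bot_key {k : ℕ} {a : ℤ → ℂ} {P : ℤ → ℂ[X]} (hD : IsData k a P) (hN : IsNorm P) :
    ∃ R₀ C : ℝ, 1 ≤ R₀ ∧ 0 < C ∧ ∀ (R : ℝ), R₀ ≤ R → ∀ (i : ℤ) (p : ℂ × ℂ), p ∈ W 4 R →
      ‖(H (a i) (P i) p).1 / p.1 ^ (P i).natDegree - 1‖ ≤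
        C * (‖p.1‖ ^ (-2 : ℤ) + ‖p.2‖ * ‖p.1‖ ^ (-((P i).natDegree : ℤ))) ∧
      ‖(H (a i) (P i) p).1 / p.1 ^ (P i).natDegree - 1‖ ≤ 1 / 2 ∧
      H (a i) (P i) p ∈ W (3 / 2) R ∧
      ‖p.1‖ ^ 2 ≤ 2 * ‖(H (a i) (P i) p).1‖ ∧
      ‖p.1‖ ≤ ‖(H (a i) (P i) p).1‖ := by
  obtain ⟨C, hC, hg⟩ := growth hD hN
  obtain ⟨R₁, hR₁, hr⟩ := region hD hN 2
  refine ⟨max R₁ (6 * C), C, le_trans hR₁ (le_max_left _ _), hC, ?_⟩
  intro R hR i p hp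
  have hRR₁ : R₁ ≤ R := le_trans (le_max_left _ _) hR
  have hRC : 6 * C ≤ R := le_trans (le_max_right _ _) hR
  have hpR₁ : p ∈ W 4 R₁ := ⟨lt_of_le_of_lt hRR₁ hp.1, hp.2⟩
  obtain ⟨hr1, hr2, hr3, hr4⟩ := hr i p hpR₁
  have hx1 : (1 : ℝ) < ‖p.1‖ := lt_of_le_of_lt (le_trans hR₁ hRR₁) hp.1
  have hx0 : 0 < ‖p.1‖ := by linarith
  have hxne : p.1 ≠ 0 := norm_pos_iff.mp hx0
  obtain ⟨_, hg2⟩ := hg i p hx1.le
  have hd := hD.hd i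
  set d := (P i).natDegree with hdd
  have hpow : ‖p.1 ^ d‖ = ‖p.1‖ ^ d := norm_pow _ _
  have hpow0 : 0 < ‖p.1‖ ^ d := pow_pos hx0 d
  have e1 : (H (a i) (P i) p).1 / p.1 ^ d - 1 = ((H (a i) (P i) p).1 - p.1 ^ d) / p.1 ^ d := by
    field_simp
  have b1 : ‖(H (a i) (P i) p).1 / p.1 ^ d - 1‖ ≤
        C * (‖p.1‖ ^ (-2 : ℤ) + ‖p.2‖ * ‖p.1‖ ^ (-(d : ℤ))) := by
    rw [e1, norm_div, hpow, div_le_iff₀ hpow0]
    refine le_trans hg2 (le_of_eq ?_)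
    have e2 : ‖p.1‖ ^ (-2 : ℤ) * ‖p.1‖ ^ d = ‖p.1‖ ^ (d - 2) := by
      rw [← zpow_natCast, ← zpow_natCast, ← zpow_add₀ hx0.ne']
      congr 1
      omega
    have e3 : ‖p.1‖ ^ (-(d : ℤ)) * ‖p.1‖ ^ d = 1 := by
      rw [zpow_neg, zpow_natCast]
      exact inv_mul_cancel₀ hpow0.ne'
    rw [mul_assoc, add_mul, e2, mul_assoc, e3, mul_one]
  refine ⟨b1, ?_, hr4 R hRR₁ hp, ?_, by linarith⟩
  · refine le_trans b1 ?_
    -- |x|^{-2} ≤ 1/|x|, |y||x|^{-d} ≤ 2/|x|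
    have h1 : ‖p.1‖ ^ (-2 : ℤ) ≤ ‖p.1‖⁻¹ := by
      rw [← zpow_neg_one]
      exact zpow_le_zpow_right₀ hx1.le (by norm_num)
    have h2 : ‖p.2‖ * ‖p.1‖ ^ (-(d : ℤ)) ≤ 2 * ‖p.1‖⁻¹ := by
      have h3 : ‖p.1‖ ^ (-(d : ℤ)) ≤ ‖p.1‖ ^ (-2 : ℤ) :=
        zpow_le_zpow_right₀ hx1.le (by omega)
      have h4 : ‖p.2‖ ≤ 2 * ‖p.1‖ := by
        have := hp.2
        nlinarith [norm_nonneg p.2]
      have h5 : ‖p.1‖ * ‖p.1‖ ^ (-2 : ℤ) = ‖p.1‖⁻¹ := by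
        rw [← zpow_neg_one]
        nth_rewrite 1 [← zpow_one ‖p.1‖]
        rw [← zpow_add₀ hx0.ne']
        norm_num
      calc ‖p.2‖ * ‖p.1‖ ^ (-(d : ℤ)) ≤ (2 * ‖p.1‖) * ‖p.1‖ ^ (-2 : ℤ) :=
            mul_le_mul h4 h3 (zpow_nonneg hx0.le _) (by positivity)
        _ = 2 * ‖p.1‖⁻¹ := by rw [mul_assoc, h5]
    have h6 : ‖p.1‖⁻¹ * (6 * C) ≤ 1 := by
      rw [inv_mul_le_iff₀ hx0]
      have := hp.1
      linarith
    nlinarith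
  · refine le_trans ?_ hr2
    exact pow_le_pow_right₀ hx1.le hd

/-- the `n`-th term of the series for `hh` -/
def bot_t (a : ℤ → ℂ) (P : ℤ → ℂ[X]) (i : ℤ) (n : ℕ) (p : ℂ × ℂ) : ℂ :=
  (((∏ j ∈ Finset.range (n + 1), (P (i + j)).natDegree : ℕ) : ℂ))⁻¹ *
    Complex.log ((comp a P i (n + 1) p).1 / (comp a P i n p).1 ^ (P (i + n)).natDegree)

theorem bot_t_zero (a : ℤ → ℂ) (P : ℤ → ℂ[X]) (i : ℤ) (p : ℂ × ℂ) :
    bot_t a P i 0 p = ((P i).natDegree : ℂ)⁻¹ *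
      Complex.log ((H (a i) (P i) p).1 / p.1 ^ (P i).natDegree) := by
  simp [bot_t, comp]

theorem bot_t_succ (a : ℤ → ℂ) (P : ℤ → ℂ[X]) (i : ℤ) (n : ℕ) (p : ℂ × ℂ) :
    bot_t a P i (n + 1) p =
      ((P i).natDegree : ℂ)⁻¹ * bot_t a P (i + 1) n (H (a i) (P i) p) := by
  unfold bot_t
  rw [Finset.prod_range_succ', comp_succ' a P i (n + 1), comp_succ' a P i n]
  have e1 : i + ((n + 1 : ℕ) : ℤ) = i + 1 + (n : ℤ) := by push_cast; ring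
  have e2 : ∀ j : ℕ, i + ((j + 1 : ℕ) : ℤ) = i + 1 + (j : ℤ) := by intro j; push_cast; ring
  rw [e1]
  simp only [e2]
  simp only [Nat.cast_zero, add_zero]
  rw [Nat.cast_mul, mul_inv]
  ring

theorem bot_prod_ge {k : ℕ} {a : ℤ → ℂ} {P : ℤ → ℂ[X]} (hD : IsData k a P) (i : ℤ) (n : ℕ) :
    2 ^ n ≤ ∏ j ∈ Finset.range n, (P (i + j)).natDegree := by
  induction n with
  | zero => simp
  | succ n ih =>
    rw [Finset.prod_range_succ, pow_succ]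
    exact Nat.mul_le_mul ih (hD.hd _)

theorem bot_log {z : ℂ} (hz : ‖z - 1‖ ≤ 1 / 2) : ‖Complex.log z‖ ≤ 3 / 2 * ‖z - 1‖ := by
  have := Complex.norm_log_one_add_half_le_self (z := z - 1) hz
  simpa using this

theorem bot_orbit {a : ℤ → ℂ} {P : ℤ → ℂ[X]} {R : ℝ} (hR : 0 ≤ R)
    (h : ∀ (i : ℤ) (p : ℂ × ℂ), p ∈ W 4 R → H (a i) (P i) p ∈ W (3 / 2) R) (i : ℤ) (n : ℕ)
    (p : ℂ × ℂ) (hp : p ∈ W 4 R) : comp a P i n p ∈ W 4 R := by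
  induction n with
  | zero => exact hp
  | succ n ih =>
    rw [comp_succ]
    exact bot_W_mono hR (h _ _ ih)

theorem bot_t_bound {k : ℕ} {a : ℤ → ℂ} {P : ℤ → ℂ[X]} (hD : IsData k a P)
    (i : ℤ) (n : ℕ) (p : ℂ × ℂ) {B : ℝ}
    (h : ‖(comp a P i (n + 1) p).1 / (comp a P i n p).1 ^ (P (i + n)).natDegree - 1‖ ≤ B)
    (hB : B ≤ 1 / 2) : ‖bot_t a P i n p‖ ≤ (1 / 2) ^ n * B := by
  unfold bot_t
  rw [norm_mul, norm_inv, Complex.norm_natCast]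
  have h1 := bot_log (le_trans h hB)
  have h2 : (2 : ℝ) ^ (n + 1) ≤ ((∏ j ∈ Finset.range (n + 1), (P (i + j)).natDegree : ℕ) : ℝ) := by
    exact_mod_cast bot_prod_ge hD i (n + 1)
  have h3 : (((∏ j ∈ Finset.range (n + 1), (P (i + j)).natDegree : ℕ) : ℝ))⁻¹ ≤
      (1 / 2) ^ (n + 1) := by
    rw [one_div, inv_pow]
    exact inv_anti₀ (by positivity) h2
  have h4 : 0 ≤ B := le_trans (norm_nonneg _) h
  calc _ ≤ (1 / 2 : ℝ) ^ (n + 1) * (3 / 2 * B) :=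
        mul_le_mul h3 (by linarith) (norm_nonneg _) (by positivity)
    _ ≤ (1 / 2) ^ n * B := by
        rw [pow_succ]
        nlinarith [pow_pos (show (0:ℝ) < 1/2 by norm_num) n,
          mul_nonneg (pow_pos (show (0:ℝ) < 1/2 by norm_num) n).le h4]

theorem bot_small {R : ℝ} (hR : 1 ≤ R) {q : ℂ × ℂ} (hq : q ∈ W 4 R) {d : ℕ} (hd : 2 ≤ d) :
    ‖q.1‖ ^ (-2 : ℤ) + ‖q.2‖ * ‖q.1‖ ^ (-(d : ℤ)) ≤ 3 * ‖q.1‖⁻¹ := by
  have hx1 : (1 : ℝ) < ‖q.1‖ := lt_of_le_of_lt hR hq.1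
  have hx0 : 0 < ‖q.1‖ := by linarith
  have h1 : ‖q.1‖ ^ (-2 : ℤ) ≤ ‖q.1‖⁻¹ := by
    rw [← zpow_neg_one]
    exact zpow_le_zpow_right₀ hx1.le (by norm_num)
  have h3 : ‖q.1‖ ^ (-(d : ℤ)) ≤ ‖q.1‖ ^ (-2 : ℤ) :=
    zpow_le_zpow_right₀ hx1.le (by omega)
  have h4 : ‖q.2‖ ≤ 2 * ‖q.1‖ := by
    have := hq.2
    nlinarith [norm_nonneg q.2]
  have h5 : ‖q.1‖ * ‖q.1‖ ^ (-2 : ℤ) = ‖q.1‖⁻¹ := by
    rw [← zpow_neg_one]
    nth_rewrite 1 [← zpow_one ‖q.1‖]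
    rw [← zpow_add₀ hx0.ne']
    norm_num
  have h2 : ‖q.2‖ * ‖q.1‖ ^ (-(d : ℤ)) ≤ 2 * ‖q.1‖⁻¹ := by
    calc ‖q.2‖ * ‖q.1‖ ^ (-(d : ℤ)) ≤ (2 * ‖q.1‖) * ‖q.1‖ ^ (-2 : ℤ) :=
          mul_le_mul h4 h3 (zpow_nonneg hx0.le _) (by positivity)
      _ = 2 * ‖q.1‖⁻¹ := by rw [mul_assoc, h5]
  linarith

/- Module BOT (file BOT.lean): the Böttcher coordinate -/
theorem bott {k : ℕ} {a : ℤ → ℂ} {P : ℤ → ℂ[X]} (hD : IsData k a P) (hN : IsNorm P) :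
    ∃ R₀ C : ℝ, 1 ≤ R₀ ∧ 0 < C ∧ ∀ i : ℤ,
      DifferentiableOn ℂ (bb a P i) (W 4 R₀) ∧
      ∀ p ∈ W 4 R₀,
        ‖hh a P i p‖ ≤ C * (‖p.1‖ ^ (-2 : ℤ) + ‖p.2‖ * ‖p.1‖ ^ (-((P i).natDegree : ℤ))) ∧
        ‖bb a P i p - p.1‖ ≤
          C * (‖p.1‖ ^ (-1 : ℤ) + ‖p.2‖ * ‖p.1‖ ^ (1 - ((P i).natDegree : ℤ))) ∧
        hh a P i p = ((P i).natDegree : ℂ)⁻¹ *
          (Complex.log ((H (a i) (P i) p).1 / p.1 ^ (P i).natDegree) +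
            hh a P (i + 1) (H (a i) (P i) p)) ∧
        bb a P (i + 1) (H (a i) (P i) p) = bb a P i p ^ (P i).natDegree := by
  obtain ⟨R₁, C, hR₁, hC, hkey⟩ := bot_key hD hN
  obtain ⟨R₀, hR₀def⟩ : ∃ R₀, R₀ = max R₁ (21 * C) := ⟨_, rfl⟩
  have hR₀R₁ : R₁ ≤ R₀ := hR₀def ▸ le_max_left _ _
  have hR₀C : 21 * C ≤ R₀ := hR₀def ▸ le_max_right _ _
  have hR₀1 : 1 ≤ R₀ := le_trans hR₁ hR₀R₁
  have hR₀0 : 0 ≤ R₀ := by linarith
  have horb : ∀ (i : ℤ) (n : ℕ) (p : ℂ × ℂ), p ∈ W 4 R₀ → comp a P i n p ∈ W 4 R₀ :=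
    bot_orbit hR₀0 (fun i p hp => (hkey R₀ hR₀R₁ i p hp).2.2.1)
  have hne : ∀ p ∈ W 4 R₀, p.1 ≠ 0 := fun p hp =>
    norm_pos_iff.mp (lt_of_le_of_lt hR₀0 hp.1)
  -- ratio bound along the orbit
  have hrat : ∀ (i : ℤ) (n : ℕ) (p : ℂ × ℂ), p ∈ W 4 R₀ →
      ‖(comp a P i (n + 1) p).1 / (comp a P i n p).1 ^ (P (i + n)).natDegree - 1‖ ≤ 1 / 2 := by
    intro i n p hp
    rw [comp_succ]
    exact (hkey R₀ hR₀R₁ (i + n) _ (horb i n p hp)).2.1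
  have hrat' : ∀ (i : ℤ) (n : ℕ) (p : ℂ × ℂ), p ∈ W 4 R₀ →
      ‖(comp a P i (n + 1) p).1 / (comp a P i n p).1 ^ (P (i + n)).natDegree - 1‖ ≤
        3 * C * ‖(comp a P i n p).1‖⁻¹ := by
    intro i n p hp
    rw [comp_succ]
    refine le_trans (hkey R₀ hR₀R₁ (i + n) _ (horb i n p hp)).1 ?_
    have := bot_small hR₀1 (horb i n p hp) (hD.hd (i + n))
    calc _ ≤ C * (3 * ‖(comp a P i n p).1‖⁻¹) := mul_le_mul_of_nonneg_left this hC.le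
      _ = _ := by ring
  -- moduli increase
  have hmono : ∀ (i : ℤ) (n : ℕ) (p : ℂ × ℂ), p ∈ W 4 R₀ → ‖p.1‖ ≤ ‖(comp a P i n p).1‖ := by
    intro i n p hp
    induction n with
    | zero => exact le_refl _
    | succ n ih =>
      rw [comp_succ]
      exact le_trans ih (hkey R₀ hR₀R₁ (i + n) _ (horb i n p hp)).2.2.2.2
  have htb : ∀ (i : ℤ) (n : ℕ) (p : ℂ × ℂ), p ∈ W 4 R₀ →
      ‖bot_t a P i n p‖ ≤ (1 / 2) ^ n * (1 / 2) := fun i n p hp =>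
    bot_t_bound hD i n p (hrat i n p hp) le_rfl
  have hgeo : Summable (fun n : ℕ => (1 / 2 : ℝ) ^ n * (1 / 2)) :=
    (summable_geometric_of_lt_one (by norm_num) (by norm_num)).mul_right _
  have hsum : ∀ (i : ℤ) (p : ℂ × ℂ), p ∈ W 4 R₀ → Summable (fun n => bot_t a P i n p) :=
    fun i p hp => Summable.of_norm_bounded hgeo (fun n => htb i n p hp)
  have hhdef : ∀ (i : ℤ) (p : ℂ × ℂ), hh a P i p = ∑' n, bot_t a P i n p := fun _ _ => rfl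
  -- recursion
  have hrec : ∀ (i : ℤ) (p : ℂ × ℂ), p ∈ W 4 R₀ → hh a P i p = ((P i).natDegree : ℂ)⁻¹ *
          (Complex.log ((H (a i) (P i) p).1 / p.1 ^ (P i).natDegree) +
            hh a P (i + 1) (H (a i) (P i) p)) := by
    intro i p hp
    rw [hhdef, (hsum i p hp).tsum_eq_zero_add, bot_t_zero, mul_add, hhdef, ← tsum_mul_left]
    congr 1
    exact tsum_congr fun n => bot_t_succ a P i n p
  -- bound for hh
  have hhb : ∀ (i : ℤ) (p : ℂ × ℂ), p ∈ W 4 R₀ → ‖hh a P i p‖ ≤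
      7 * C * (‖p.1‖ ^ (-2 : ℤ) + ‖p.2‖ * ‖p.1‖ ^ (-((P i).natDegree : ℤ))) := by
    intro i p hp
    have hx1 : (1 : ℝ) < ‖p.1‖ := lt_of_le_of_lt hR₀1 hp.1
    have hx0 : 0 < ‖p.1‖ := by linarith
    obtain ⟨k1, k2, k3, k4, k5⟩ := hkey R₀ hR₀R₁ i p hp
    have hHp : H (a i) (P i) p ∈ W 4 R₀ := bot_W_mono hR₀0 k3
    have hx2 : 0 < ‖p.1‖ ^ 2 := by positivity
    -- tail
    have htail : ∀ n : ℕ, ‖bot_t a P (i + 1) n (H (a i) (P i) p)‖ ≤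
        (1 / 2) ^ n * (6 * C * ‖p.1‖ ^ (-2 : ℤ)) := by
      intro n
      have h1 := bot_t_bound hD (i + 1) n (H (a i) (P i) p) le_rfl (hrat (i + 1) n _ hHp)
      refine le_trans h1 (mul_le_mul_of_nonneg_left ?_ (by positivity))
      refine le_trans (hrat' (i + 1) n _ hHp) ?_
      have h2 := hmono (i + 1) n _ hHp
      have h3 : ‖p.1‖ ^ 2 / 2 ≤ ‖(comp a P (i + 1) n (H (a i) (P i) p)).1‖ := by linarith
      have h4 : ‖(comp a P (i + 1) n (H (a i) (P i) p)).1‖⁻¹ ≤ (‖p.1‖ ^ 2 / 2)⁻¹ :=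
        inv_anti₀ (by positivity) h3
      have h5 : (‖p.1‖ ^ 2 / 2)⁻¹ = 2 * ‖p.1‖ ^ (-2 : ℤ) := by
        rw [inv_div, zpow_neg, div_eq_mul_inv]
        norm_cast
      calc _ ≤ 3 * C * (2 * ‖p.1‖ ^ (-2 : ℤ)) := by
            rw [← h5]
            exact mul_le_mul_of_nonneg_left h4 (by positivity)
        _ = _ := by ring
    have hgeo2 : Summable (fun n : ℕ => (1 / 2 : ℝ) ^ n * (6 * C * ‖p.1‖ ^ (-2 : ℤ))) :=
      (summable_geometric_of_lt_one (by norm_num) (by norm_num)).mul_right _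
    have hT : ‖hh a P (i + 1) (H (a i) (P i) p)‖ ≤ 12 * C * ‖p.1‖ ^ (-2 : ℤ) := by
      rw [hhdef]
      refine le_trans (tsum_of_norm_bounded hgeo2.hasSum htail) (le_of_eq ?_)
      rw [tsum_mul_right, tsum_geometric_of_lt_one (by norm_num) (by norm_num)]
      ring
    have hL : ‖Complex.log ((H (a i) (P i) p).1 / p.1 ^ (P i).natDegree)‖ ≤
        3 / 2 * (C * (‖p.1‖ ^ (-2 : ℤ) + ‖p.2‖ * ‖p.1‖ ^ (-((P i).natDegree : ℤ)))) :=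
      le_trans (bot_log k2) (mul_le_mul_of_nonneg_left k1 (by norm_num))
    have hdinv : ‖((P i).natDegree : ℂ)⁻¹‖ ≤ 1 / 2 := by
      rw [norm_inv, Complex.norm_natCast, one_div]
      exact inv_anti₀ (by norm_num) (by exact_mod_cast hD.hd i)
    have hn1 : 0 ≤ ‖p.1‖ ^ (-2 : ℤ) := zpow_nonneg hx0.le _
    have hn2 : 0 ≤ ‖p.2‖ * ‖p.1‖ ^ (-((P i).natDegree : ℤ)) :=
      mul_nonneg (norm_nonneg _) (zpow_nonneg hx0.le _)
    rw [hrec i p hp, norm_mul]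
    calc _ ≤ 1 / 2 * (3 / 2 * (C * (‖p.1‖ ^ (-2 : ℤ) +
            ‖p.2‖ * ‖p.1‖ ^ (-((P i).natDegree : ℤ)))) + 12 * C * ‖p.1‖ ^ (-2 : ℤ)) :=
          mul_le_mul hdinv (le_trans (norm_add_le _ _) (add_le_add hL hT)) (norm_nonneg _)
            (by norm_num)
      _ ≤ _ := by
          nlinarith [mul_nonneg hC.le hn1, mul_nonneg hC.le hn2]
  refine ⟨R₀, 14 * C, hR₀1, by positivity, ?_⟩
  intro i
  refine ⟨?_, ?_⟩
  · -- holomorphy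
    have h1 : DifferentiableOn ℂ (fun p => ∑' n, bot_t a P i n p) (W 4 R₀) := by
      refine differentiableOn_tsum2 (bot_isOpen_W 4 R₀) ?_ hgeo (fun n p hp => htb i n p hp)
      intro n
      unfold bot_t
      refine DifferentiableOn.const_mul ?_ _
      refine DifferentiableOn.clog ?_ ?_
      · have hA : DifferentiableOn ℂ (fun p : ℂ × ℂ => (comp a P i (n + 1) p).1) (W 4 R₀) :=
          ((comp_differentiable a P i (n + 1)).fst).differentiableOn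
        have hB : DifferentiableOn ℂ
            (fun p : ℂ × ℂ => (comp a P i n p).1 ^ (P (i + n)).natDegree) (W 4 R₀) :=
          ((comp_differentiable a P i n).fst.pow _).differentiableOn
        simp only [div_eq_mul_inv]
        exact hA.mul (hB.inv fun p hp => pow_ne_zero _ (hne _ (horb i n p hp)))
      · intro p hp
        have h2 := hrat i n p hp
        rw [Complex.mem_slitPlane_iff]
        left
        have h3 := Complex.abs_re_le_norm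
          ((comp a P i (n + 1) p).1 / (comp a P i n p).1 ^ (P (i + n)).natDegree - 1)
        have h4 := (abs_le.mp (le_trans h3 h2)).1
        simp only [Complex.sub_re, Complex.one_re] at h4
        linarith
    have h2 : bb a P i = fun p => p.1 * Complex.exp (∑' n, bot_t a P i n p) := rfl
    rw [h2]
    have h3 : DifferentiableOn ℂ (fun p : ℂ × ℂ => p.1) (W 4 R₀) :=
      differentiable_fst.differentiableOn
    exact h3.mul (DifferentiableOn.cexp h1)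
  · intro p hp
    have hx1 : (1 : ℝ) < ‖p.1‖ := lt_of_le_of_lt hR₀1 hp.1
    have hx0 : 0 < ‖p.1‖ := by linarith
    have hn1 : 0 ≤ ‖p.1‖ ^ (-2 : ℤ) := zpow_nonneg hx0.le _
    have hn2 : 0 ≤ ‖p.2‖ * ‖p.1‖ ^ (-((P i).natDegree : ℤ)) :=
      mul_nonneg (norm_nonneg _) (zpow_nonneg hx0.le _)
    have hb := hhb i p hp
    have hsm := bot_small hR₀1 hp (hD.hd i)
    have hle1 : ‖hh a P i p‖ ≤ 1 := by
      have h6 : ‖p.1‖⁻¹ * (21 * C) ≤ 1 := by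
        rw [inv_mul_le_iff₀ hx0]
        have := hp.1
        linarith
      have h7 : 7 * C * (‖p.1‖ ^ (-2 : ℤ) + ‖p.2‖ * ‖p.1‖ ^ (-((P i).natDegree : ℤ))) ≤
          7 * C * (3 * ‖p.1‖⁻¹) := mul_le_mul_of_nonneg_left hsm (by positivity)
      nlinarith
    refine ⟨le_trans hb ?_, ?_, hrec i p hp, ?_⟩
    · nlinarith [mul_nonneg hC.le hn1, mul_nonneg hC.le hn2]
    · have e1 : bb a P i p - p.1 = p.1 * (Complex.exp (hh a P i p) - 1) := by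
        unfold bb
        ring
      rw [e1, norm_mul]
      have h8 : ‖Complex.exp (hh a P i p) - 1‖ ≤ 2 * ‖hh a P i p‖ :=
        Complex.norm_exp_sub_one_le hle1
      have e2 : ‖p.1‖ * ‖p.1‖ ^ (-2 : ℤ) = ‖p.1‖ ^ (-1 : ℤ) := by
        nth_rewrite 1 [← zpow_one ‖p.1‖]
        rw [← zpow_add₀ hx0.ne']
        norm_num
      have e3 : ‖p.1‖ * ‖p.1‖ ^ (-((P i).natDegree : ℤ)) =
          ‖p.1‖ ^ (1 - ((P i).natDegree : ℤ)) := by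
        nth_rewrite 1 [← zpow_one ‖p.1‖]
        rw [← zpow_add₀ hx0.ne']
        rfl
      calc ‖p.1‖ * ‖Complex.exp (hh a P i p) - 1‖
          ≤ ‖p.1‖ * (2 * (7 * C * (‖p.1‖ ^ (-2 : ℤ) +
              ‖p.2‖ * ‖p.1‖ ^ (-((P i).natDegree : ℤ))))) :=
            mul_le_mul_of_nonneg_left (by linarith) hx0.le
        _ = 14 * C * (‖p.1‖ * ‖p.1‖ ^ (-2 : ℤ) +
              ‖p.2‖ * (‖p.1‖ * ‖p.1‖ ^ (-((P i).natDegree : ℤ)))) := by ring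
        _ = _ := by rw [e2, e3]
    · obtain ⟨k1, k2, k3, k4, k5⟩ := hkey R₀ hR₀R₁ i p hp
      have hHp : H (a i) (P i) p ∈ W 4 R₀ := bot_W_mono hR₀0 k3
      have hd0 : ((P i).natDegree : ℂ) ≠ 0 := by
        have := hD.hd i
        exact_mod_cast (by omega : (P i).natDegree ≠ 0)
      have e1 : ((P i).natDegree : ℂ) * hh a P i p =
          Complex.log ((H (a i) (P i) p).1 / p.1 ^ (P i).natDegree) +
            hh a P (i + 1) (H (a i) (P i) p) := by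
        rw [hrec i p hp]
        field_simp
      have e2 : (H (a i) (P i) p).1 / p.1 ^ (P i).natDegree ≠ 0 :=
        div_ne_zero (hne _ hHp) (pow_ne_zero _ (hne p hp))
      unfold bb
      rw [mul_pow, ← Complex.exp_nat_mul, e1, Complex.exp_add, Complex.exp_log e2, ← mul_assoc,
        mul_div_cancel₀ _ (pow_ne_zero _ (hne p hp))]

end HEN
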