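import Pool.Agent.Lib.MP_e79cb7_ag.Cmp
import Pool.Agent.Lib.MP_e79cb7_ag.GRO
import Pool.Agent.Lib.MP_e79cb7_ag.BOT
import Pool.Agent.Lib.MP_e79cb7_ag.AS1

open Filter Topology Polynomial Bornology

/-! # Module AS2: expansion of the error term -/

noncomputable section

namespace HEN

private theorem as2_pow1 (n : ℕ) : ∃ C : ℝ, 0 < C ∧ ∀ h : ℂ, ‖h‖ ≤ 1 →
    ‖(1 + h) ^ n - 1‖ ≤ C * ‖h‖ := by
  induction n with
  | zero => exact ⟨1, one_pos, fun h _ => by simp⟩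
  | succ n ih =>
    obtain ⟨C, hC, h1⟩ := ih
    refine ⟨2 * C + 1, by positivity, fun h hh => ?_⟩
    have e : (1 + h) ^ (n + 1) - 1 = (1 + h) * ((1 + h) ^ n - 1) + h := by ring
    rw [e]
    have h2 : ‖(1 : ℂ) + h‖ ≤ 2 := by
      calc ‖(1 : ℂ) + h‖ ≤ ‖(1 : ℂ)‖ + ‖h‖ := norm_add_le _ _
        _ ≤ 2 := by rw [norm_one]; linarith
    calc ‖(1 + h) * ((1 + h) ^ n - 1) + h‖ ≤ ‖(1 + h) * ((1 + h) ^ n - 1)‖ + ‖h‖ :=
          norm_add_le _ _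
      _ = ‖1 + h‖ * ‖(1 + h) ^ n - 1‖ + ‖h‖ := by rw [norm_mul]
      _ ≤ 2 * (C * ‖h‖) + ‖h‖ := by
          gcongr
          exact h1 h hh
      _ = (2 * C + 1) * ‖h‖ := by ring

private theorem as2_pow3 (n : ℕ) : ∃ C : ℝ, 0 < C ∧ ∀ h : ℂ, ‖h‖ ≤ 1 →
    ‖(1 + h) ^ n - (1 + n * h + n * (n - 1) / 2 * h ^ 2)‖ ≤ C * ‖h‖ ^ 3 := by
  induction n with
  | zero => exact ⟨1, one_pos, fun h _ => by simp⟩
  | succ n ih =>
    obtain ⟨C, hC, h1⟩ := ih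
    refine ⟨2 * C + ‖(n * (n - 1) / 2 : ℂ)‖, by positivity, fun h hh => ?_⟩
    have e : (1 + h) ^ (n + 1) - (1 + ((n + 1 : ℕ) : ℂ) * h +
        ((n + 1 : ℕ) : ℂ) * (((n + 1 : ℕ) : ℂ) - 1) / 2 * h ^ 2) =
        (1 + h) * ((1 + h) ^ n - (1 + n * h + n * (n - 1) / 2 * h ^ 2)) +
          (n * (n - 1) / 2) * h ^ 3 := by
      push_cast
      ring
    rw [e]
    have h2 : ‖(1 : ℂ) + h‖ ≤ 2 := by
      calc ‖(1 : ℂ) + h‖ ≤ ‖(1 : ℂ)‖ + ‖h‖ := norm_add_le _ _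
        _ ≤ 2 := by rw [norm_one]; linarith
    calc _ ≤ ‖(1 + h) * ((1 + h) ^ n - (1 + n * h + n * (n - 1) / 2 * h ^ 2))‖ +
          ‖(n * (n - 1) / 2 : ℂ) * h ^ 3‖ := norm_add_le _ _
      _ = ‖1 + h‖ * ‖(1 + h) ^ n - (1 + n * h + n * (n - 1) / 2 * h ^ 2)‖ +
          ‖(n * (n - 1) / 2 : ℂ)‖ * ‖h‖ ^ 3 := by rw [norm_mul, norm_mul, norm_pow]
      _ ≤ 2 * (C * ‖h‖ ^ 3) + ‖(n * (n - 1) / 2 : ℂ)‖ * ‖h‖ ^ 3 := by
          gcongr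
          exact h1 h hh
      _ = (2 * C + ‖(n * (n - 1) / 2 : ℂ)‖) * ‖h‖ ^ 3 := by ring

/-- `(1+h)^d = 1-t`, `h` small: `h = -t/d - (d-1)/(2d²) t² + O(t³)`. -/
private theorem as2_root (d : ℕ) (hd : 2 ≤ d) : ∃ δ C : ℝ, 0 < δ ∧ δ ≤ 1 ∧ 0 < C ∧ ∀ h t : ℂ,
    ‖h‖ ≤ δ → (1 + h) ^ d = 1 - t → ‖h‖ ≤ ‖t‖ ∧
      ‖h + t / d + (d - 1) / (2 * d ^ 2) * t ^ 2‖ ≤ C * ‖t‖ ^ 3 := by
  obtain ⟨C, hC, h3⟩ := as2_pow3 d
  set A : ℝ := ‖(d * (d - 1) / 2 : ℂ)‖ with hA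
  have hA0 : 0 ≤ A := norm_nonneg _
  have hd0 : (d : ℂ) ≠ 0 := by
    have : d ≠ 0 := by omega
    exact_mod_cast this
  have hdr : (2 : ℝ) ≤ d := by exact_mod_cast hd
  set M : ℝ := A + C with hM
  have hM0 : 0 < M := by positivity
  refine ⟨min 1 (1 / (2 * M)), C / d + ‖((d : ℂ) - 1) / (2 * d ^ 2)‖ * ((1 + d) * M), by positivity,
    min_le_left _ _, by positivity, ?_⟩
  intro h t hh ht
  have hh1 : ‖h‖ ≤ 1 := hh.trans (min_le_left _ _)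
  have hh2 : M * ‖h‖ ≤ 1 / 2 := by
    have := hh.trans (min_le_right _ _)
    rw [le_div_iff₀ (by positivity)] at this
    linarith
  set E : ℂ := (1 + h) ^ d - (1 + d * h + d * (d - 1) / 2 * h ^ 2) with hE
  have hEb : ‖E‖ ≤ C * ‖h‖ ^ 3 := h3 h hh1
  have ht' : t = -(d * h) - (d * (d - 1) / 2) * h ^ 2 - E := by
    rw [hE, ht]
    ring
  have h0 : 0 ≤ ‖h‖ := norm_nonneg h
  have k1 : ‖t + d * h‖ ≤ M * ‖h‖ ^ 2 := by
    have e : t + d * h = -((d * (d - 1) / 2) * h ^ 2 + E) := by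
      rw [ht']
      ring
    rw [e, norm_neg]
    calc _ ≤ ‖(d * (d - 1) / 2 : ℂ) * h ^ 2‖ + ‖E‖ := norm_add_le _ _
      _ ≤ A * ‖h‖ ^ 2 + C * ‖h‖ ^ 3 := by
          rw [norm_mul, norm_pow]
          gcongr
      _ ≤ A * ‖h‖ ^ 2 + C * ‖h‖ ^ 2 := by
          have := pow_le_pow_of_le_one h0 hh1 (show 2 ≤ 3 by norm_num)
          gcongr 2
      _ = M * ‖h‖ ^ 2 := by rw [hM]; ring
  have k2 : d * ‖h‖ ≤ ‖t‖ + M * ‖h‖ ^ 2 := by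
    have : ‖(d : ℂ) * h‖ ≤ ‖t + d * h‖ + ‖t‖ := by
      calc ‖(d : ℂ) * h‖ = ‖(t + d * h) - t‖ := by congr 1; ring
        _ ≤ _ := norm_sub_le _ _
    rw [norm_mul, Complex.norm_natCast] at this
    linarith
  have k3 : ‖h‖ ≤ ‖t‖ := by
    have : M * ‖h‖ ^ 2 ≤ ‖h‖ / 2 := by
      calc M * ‖h‖ ^ 2 = (M * ‖h‖) * ‖h‖ := by ring
        _ ≤ (1 / 2) * ‖h‖ := by gcongr
        _ = ‖h‖ / 2 := by ring
    nlinarith
  refine ⟨k3, ?_⟩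
  set D : ℂ := (t - d * h) * (t + d * h) with hD
  have kD : ‖D‖ ≤ (1 + d) * M * ‖t‖ ^ 3 := by
    rw [hD, norm_mul]
    have k4 : ‖t - d * h‖ ≤ (1 + d) * ‖t‖ := by
      calc _ ≤ ‖t‖ + ‖(d : ℂ) * h‖ := norm_sub_le _ _
        _ = ‖t‖ + d * ‖h‖ := by rw [norm_mul, Complex.norm_natCast]
        _ ≤ ‖t‖ + d * ‖t‖ := by gcongr
        _ = _ := by ring
    calc _ ≤ ((1 + d) * ‖t‖) * (M * ‖h‖ ^ 2) := by gcongr
      _ ≤ ((1 + d) * ‖t‖) * (M * ‖t‖ ^ 2) := by gcongr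
      _ = _ := by ring
  have e : h + t / d + (d - 1) / (2 * d ^ 2) * t ^ 2 =
      -(E / d) + (d - 1) / (2 * d ^ 2) * D := by
    have e1 : t ^ 2 = d ^ 2 * h ^ 2 + D := by rw [hD]; ring
    rw [e1]
    have e2 : t / d = - h - (d - 1) / 2 * h ^ 2 - E / d := by
      rw [ht']
      field_simp
    rw [e2]
    field_simp
    ring
  rw [e]
  calc _ ≤ ‖-(E / d)‖ + ‖((d : ℂ) - 1) / (2 * d ^ 2) * D‖ := norm_add_le _ _
    _ = ‖E‖ / d + ‖((d : ℂ) - 1) / (2 * d ^ 2)‖ * ‖D‖ := by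
        rw [norm_neg, norm_div, Complex.norm_natCast, norm_mul]
    _ ≤ (C * ‖t‖ ^ 3) / d + ‖((d : ℂ) - 1) / (2 * d ^ 2)‖ * ((1 + d) * M * ‖t‖ ^ 3) := by
        gcongr
        calc ‖E‖ ≤ C * ‖h‖ ^ 3 := hEb
          _ ≤ C * ‖t‖ ^ 3 := by gcongr
    _ = _ := by ring

/-- `(1+h)^d = 1-t`, `h` small: expansion of `(1+h)^{d+1}`. -/
private theorem as2_root' (d : ℕ) (hd : 2 ≤ d) : ∃ δ C : ℝ, 0 < δ ∧ δ ≤ 1 ∧ 0 < C ∧
    ∀ h t : ℂ, ‖h‖ ≤ δ → ‖t‖ ≤ 1 → (1 + h) ^ d = 1 - t → ‖h‖ ≤ ‖t‖ ∧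
      ‖(1 + h) ^ (d + 1) - (1 - (d + 1) / d * t + (d + 1) / (2 * d ^ 2) * t ^ 2)‖ ≤
        C * ‖t‖ ^ 3 := by
  obtain ⟨δ, C, hδ, hδ1, hC, hr⟩ := as2_root d hd
  refine ⟨δ, ‖((d : ℂ) - 1) / (2 * d ^ 2)‖ + 2 * C, hδ, hδ1, by positivity, ?_⟩
  intro h t hh ht1 ht
  obtain ⟨r1, r2⟩ := hr h t hh ht
  refine ⟨r1, ?_⟩
  have hd0 : (d : ℂ) ≠ 0 := by
    have : d ≠ 0 := by omega
    exact_mod_cast this
  set E : ℂ := h + t / d + (d - 1) / (2 * d ^ 2) * t ^ 2 with hE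
  have e : (1 + h) ^ (d + 1) - (1 - (d + 1) / d * t + (d + 1) / (2 * d ^ 2) * t ^ 2) =
      (d - 1) / (2 * d ^ 2) * t ^ 3 + (1 - t) * E := by
    rw [pow_succ, ht, hE]
    field_simp
    ring
  rw [e]
  have h2 : ‖1 - t‖ ≤ 2 := by
    calc ‖1 - t‖ ≤ ‖(1 : ℂ)‖ + ‖t‖ := norm_sub_le _ _
      _ ≤ 2 := by rw [norm_one]; linarith
  calc _ ≤ ‖((d : ℂ) - 1) / (2 * d ^ 2) * t ^ 3‖ + ‖(1 - t) * E‖ := norm_add_le _ _
    _ = ‖((d : ℂ) - 1) / (2 * d ^ 2)‖ * ‖t‖ ^ 3 + ‖1 - t‖ * ‖E‖ := by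
        rw [norm_mul, norm_pow, norm_mul]
    _ ≤ ‖((d : ℂ) - 1) / (2 * d ^ 2)‖ * ‖t‖ ^ 3 + 2 * (C * ‖t‖ ^ 3) := by gcongr
    _ = _ := by ring

private theorem as2_q {d : ℕ} {q : ℂ[X]} (hm : q.Monic) (hq : q.natDegree = d + 1)
    (hc : q.coeff d = 0) : ∃ C : ℝ, 0 < C ∧ ∀ β h : ℂ, 1 ≤ ‖β‖ → ‖h‖ ≤ 1 →
      ‖q.eval (β * (1 + h)) - q.eval β - β ^ (d + 1) * ((1 + h) ^ (d + 1) - 1)‖ ≤
        C * (‖β‖ ^ (d - 1) * ‖h‖) := by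
  have hex : ∀ z : ℂ, q.eval z = (∑ n ∈ Finset.range d, q.coeff n * z ^ n) + z ^ (d + 1) := by
    intro z
    rw [Polynomial.eval_eq_sum_range' (n := d + 2) (by omega), Finset.sum_range_succ,
      Finset.sum_range_succ, hc]
    have : q.coeff (d + 1) = 1 := by rw [← hq]; exact hm
    rw [this]
    ring
  choose C hC hCb using as2_pow1
  refine ⟨(∑ n ∈ Finset.range d, ‖q.coeff n‖ * C n) + 1, ?_, ?_⟩
  · have : 0 ≤ ∑ n ∈ Finset.range d, ‖q.coeff n‖ * C n :=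
      Finset.sum_nonneg fun n _ => mul_nonneg (norm_nonneg _) (hC n).le
    linarith
  intro β h hβ hh
  have e : q.eval (β * (1 + h)) - q.eval β - β ^ (d + 1) * ((1 + h) ^ (d + 1) - 1) =
      ∑ n ∈ Finset.range d, q.coeff n * (β ^ n * ((1 + h) ^ n - 1)) := by
    rw [hex, hex]
    have : ∑ n ∈ Finset.range d, q.coeff n * (β ^ n * ((1 + h) ^ n - 1)) =
        ∑ n ∈ Finset.range d, q.coeff n * (β * (1 + h)) ^ n -
          ∑ n ∈ Finset.range d, q.coeff n * β ^ n := by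
      rw [← Finset.sum_sub_distrib]
      refine Finset.sum_congr rfl fun n _ => ?_
      rw [mul_pow]
      ring
    rw [this, mul_pow]
    ring
  rw [e]
  calc _ ≤ ∑ n ∈ Finset.range d, ‖q.coeff n * (β ^ n * ((1 + h) ^ n - 1))‖ := norm_sum_le _ _
    _ ≤ ∑ n ∈ Finset.range d, (‖q.coeff n‖ * C n) * (‖β‖ ^ (d - 1) * ‖h‖) := by
        refine Finset.sum_le_sum fun n hn => ?_
        have hn' : n ≤ d - 1 := by
          have := Finset.mem_range.mp hn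
          omega
        rw [norm_mul, norm_mul, norm_pow]
        calc ‖q.coeff n‖ * (‖β‖ ^ n * ‖(1 + h) ^ n - 1‖) ≤
            ‖q.coeff n‖ * (‖β‖ ^ (d - 1) * (C n * ‖h‖)) := by
              gcongr
              exact hCb n h hh
          _ = _ := by ring
    _ = (∑ n ∈ Finset.range d, ‖q.coeff n‖ * C n) * (‖β‖ ^ (d - 1) * ‖h‖) := by
        rw [Finset.sum_mul]
    _ ≤ _ := by
        have : 0 ≤ ‖β‖ ^ (d - 1) * ‖h‖ := by positivity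
        nlinarith

private theorem as2_core (e : ℕ) (he : 1 ≤ e) (A : ℂ) (K : ℝ) (hK : 0 < K) {q : ℂ[X]}
    (hm : q.Monic) (hq : q.natDegree = e + 2) (hc : q.coeff (e + 1) = 0) :
    ∃ R C : ℝ, 1 ≤ R ∧ 0 < C ∧ ∀ x y β b r : ℂ, R ≤ ‖x‖ → ‖y‖ ^ 2 ≤ 4 * ‖x‖ →
      ‖β - x‖ ≤ K / ‖x‖ → ‖b - x‖ ≤ K → ‖r‖ ≤ K / ‖x‖ →
      b ^ (e + 1) = β ^ (e + 1) - (A * y + r) →
      ‖q.eval β - x * β ^ (e + 1)‖ ≤ K / ‖x‖ →
      ‖x * (β ^ (e + 1) - A * y) - A / (e + 1) * x * y - q.eval b -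
        ((e + 2) / (e + 1) * (x * r) -
          (e + 2) / 2 * (A / (e + 1)) ^ 2 * (y ^ 2 * (x ^ e)⁻¹))‖ ≤ C * (1 + ‖y‖) / ‖x‖ := by
  obtain ⟨δ, C₂, hδ, hδ1, hC₂, hroot⟩ := as2_root' (e + 1) (by omega)
  obtain ⟨C₁, hC₁, hqb⟩ := as2_q (d := e + 1) hm hq hc
  obtain ⟨C₃, hC₃, hpow⟩ := as2_pow1 e
  set S : ℝ := ‖A‖ + K with hS
  have hS0 : 0 < S := by positivity
  have hAS : ‖A‖ ≤ S := by rw [hS]; linarith
  refine ⟨2 + 2 * K + 4 * K / δ + 40 * S,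
    K + 2 * C₁ * S + C₂ * (80 * S ^ 3) + 2 * K * S + 2 * K * S + 4 * ‖A‖ ^ 2 * (C₃ * K), by
      have : 0 ≤ 4 * K / δ := by positivity
      linarith, by positivity, ?_⟩
  intro x y β b r hx hy hβ hb hr hbd hqx
  set X : ℝ := ‖x‖ with hX
  set Y : ℝ := ‖y‖ with hY
  have hdiv0 : 0 ≤ 4 * K / δ := by positivity
  have hX2 : 2 ≤ X := by linarith
  have hXK : 2 * K ≤ X := by linarith
  have hXδ : 4 * K / δ ≤ X := by linarith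
  have hXS : 40 * S ≤ X := by linarith
  have hX0 : 0 < X := by linarith
  have hY0 : 0 ≤ Y := norm_nonneg _
  have hKX : K / X ≤ K := div_le_self hK.le (by linarith)
  have hx0 : x ≠ 0 := by
    rw [← norm_pos_iff]
    exact hX0
  -- size of β
  have hβl : X / 2 ≤ ‖β‖ := by
    have h1 : X ≤ ‖β‖ + ‖β - x‖ := by
      calc X = ‖β - (β - x)‖ := by rw [hX]; congr 1; ring
        _ ≤ _ := norm_sub_le _ _
    linarith
  have hβ1 : 1 ≤ ‖β‖ := by linarith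
  have hβ0' : 0 < ‖β‖ := by linarith
  have hβ0 : β ≠ 0 := norm_pos_iff.mp hβ0'
  -- h
  set h : ℂ := b / β - 1 with hh
  have hbh : b = β * (1 + h) := by
    rw [hh]
    field_simp
    ring
  have hhδ : ‖h‖ ≤ δ := by
    have e1 : h = (b - β) / β := by rw [hh]; field_simp
    rw [e1, norm_div, div_le_iff₀ hβ0']
    have h1 : ‖b - β‖ ≤ 2 * K := by
      calc ‖b - β‖ = ‖(b - x) - (β - x)‖ := by congr 1; ring
        _ ≤ ‖b - x‖ + ‖β - x‖ := norm_sub_le _ _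
        _ ≤ 2 * K := by linarith
    rw [div_le_iff₀ hδ] at hXδ
    nlinarith
  have hh1 : ‖h‖ ≤ 1 := hhδ.trans hδ1
  -- s, t
  set s : ℂ := A * y + r with hs
  set σ : ℝ := S * (1 + Y) with hσ
  have hσ0 : 0 < σ := by positivity
  have hsσ : ‖s‖ ≤ σ := by
    calc ‖s‖ ≤ ‖A * y‖ + ‖r‖ := norm_add_le _ _
      _ ≤ ‖A‖ * Y + K := by rw [norm_mul]; linarith
      _ ≤ σ := by
        rw [hσ, hS]
        nlinarith [norm_nonneg A]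
  set t : ℂ := s / β ^ (e + 1) with ht
  have hβp : β ^ (e + 1) ≠ 0 := pow_ne_zero _ hβ0
  have htd : (1 + h) ^ (e + 1) = 1 - t := by
    have h1 : (β * (1 + h)) ^ (e + 1) = β ^ (e + 1) - s := by rw [← hbh, hbd]
    rw [mul_pow] at h1
    rw [ht]
    field_simp
    linear_combination h1
  have htσ : ‖β‖ ^ (e + 1) * ‖t‖ ≤ σ := by
    rw [ht, norm_div, norm_pow]
    rw [mul_div_cancel₀ _ (by positivity)]
    exact hsσ
  have htσ2 : ‖β‖ ^ 2 * ‖t‖ ≤ σ := by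
    refine le_trans ?_ htσ
    gcongr
    omega
  have hYX : (1 + Y) ^ 2 ≤ 10 * X := by nlinarith [sq_nonneg (Y - 1)]
  have hYX1 : (1 + Y) ≤ 10 * X := by nlinarith
  have hβsq : X ^ 2 / 4 ≤ ‖β‖ ^ 2 := by
    calc X ^ 2 / 4 = (X / 2) ^ 2 := by ring
      _ ≤ _ := by gcongr
  have ht1 : ‖t‖ ≤ 1 := by
    have h1 : X ^ 2 / 4 * ‖t‖ ≤ S * (10 * X) := by
      calc X ^ 2 / 4 * ‖t‖ ≤ ‖β‖ ^ 2 * ‖t‖ := by gcongr
        _ ≤ σ := htσ2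
        _ ≤ S * (10 * X) := by rw [hσ]; gcongr
    have h2 : X ^ 2 / 4 * ‖t‖ ≤ X ^ 2 / 4 * 1 := by
      refine h1.trans ?_
      calc S * (10 * X) = (40 * S) * X / 4 := by ring
        _ ≤ X * X / 4 := by gcongr
        _ = X ^ 2 / 4 * 1 := by ring
    exact le_of_mul_le_mul_left h2 (by positivity)
  obtain ⟨r1, r2⟩ := hroot h t hhδ ht1 htd
  have hq1 := hqb β h hβ1 hh1
  rw [← hbh] at hq1
  -- the error terms
  set E0 : ℂ := q.eval β - x * β ^ (e + 1) with hE0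
  set E1 : ℂ := q.eval b - q.eval β - β ^ (e + 1 + 1) * ((1 + h) ^ (e + 1 + 1) - 1) with hE1
  set G : ℂ := (1 + h) ^ (e + 1 + 1) - (1 - ((e + 1 : ℕ) + 1) / ((e + 1 : ℕ) : ℂ) * t +
    ((e + 1 : ℕ) + 1) / (2 * ((e + 1 : ℕ) : ℂ) ^ 2) * t ^ 2) with hG
  have he0 : ((e : ℂ) + 1) ≠ 0 := by exact_mod_cast Nat.succ_ne_zero e
  have key : x * (β ^ (e + 1) - A * y) - A / (e + 1) * x * y - q.eval b -
        ((e + 2) / (e + 1) * (x * r) -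
          (e + 2) / 2 * (A / (e + 1)) ^ 2 * (y ^ 2 * (x ^ e)⁻¹)) =
      (e + 2) / (e + 1) * ((β - x) * s) -
        (e + 2) / (2 * (e + 1) ^ 2) * (r * (2 * A * y + r) * (β ^ e)⁻¹) -
        (e + 2) / (2 * (e + 1) ^ 2) * (A ^ 2 * (y ^ 2 * ((β ^ e)⁻¹ - (x ^ e)⁻¹))) -
        E0 - E1 - β ^ (e + 1 + 1) * G := by
    have hxe : x ^ e ≠ 0 := pow_ne_zero _ hx0
    have hβe : β ^ e ≠ 0 := pow_ne_zero _ hβ0
    rw [hE0, hE1, hG, ht, hs]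
    push_cast
    field_simp
    ring
  have hYn : 0 ≤ (1 + Y) / X := by positivity
  have hκ1 : ‖((e : ℂ) + 2) / (e + 1)‖ ≤ 2 := by
    have e1 : ((e : ℂ) + 2) / (e + 1) = (((e : ℝ) + 2) / (e + 1) : ℝ) := by push_cast; rfl
    rw [e1, Complex.norm_real, Real.norm_of_nonneg (by positivity), div_le_iff₀ (by positivity)]
    have : (0 : ℝ) ≤ e := Nat.cast_nonneg e
    linarith
  have hκ2 : ‖((e : ℂ) + 2) / (2 * (e + 1) ^ 2)‖ ≤ 1 := by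
    have e1 : ((e : ℂ) + 2) / (2 * (e + 1) ^ 2) = (((e : ℝ) + 2) / (2 * (e + 1) ^ 2) : ℝ) := by
      push_cast; rfl
    rw [e1, Complex.norm_real, Real.norm_of_nonneg (by positivity), div_le_iff₀ (by positivity)]
    have : (0 : ℝ) ≤ e := Nat.cast_nonneg e
    nlinarith
  have b0 : ‖E0‖ ≤ K * ((1 + Y) / X) := by
    refine hqx.trans ?_
    rw [← mul_div_assoc]
    gcongr
    nlinarith
  have b1 : ‖E1‖ ≤ 2 * C₁ * S * ((1 + Y) / X) := by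
    refine hq1.trans ?_
    have h1 : ‖β‖ ^ (e + 1 - 1) * ‖h‖ ≤ 2 * σ / X := by
      rw [Nat.add_sub_cancel]
      have h2 : ‖β‖ ^ e * ‖h‖ * ‖β‖ ≤ σ := by
        calc ‖β‖ ^ e * ‖h‖ * ‖β‖ ≤ ‖β‖ ^ e * ‖t‖ * ‖β‖ := by gcongr
          _ = ‖β‖ ^ (e + 1) * ‖t‖ := by ring
          _ ≤ σ := htσ
      rw [le_div_iff₀ hX0]
      have h3 : 0 ≤ ‖β‖ ^ e * ‖h‖ := by positivity
      calc ‖β‖ ^ e * ‖h‖ * X = 2 * (‖β‖ ^ e * ‖h‖ * (X / 2)) := by ring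
        _ ≤ 2 * (‖β‖ ^ e * ‖h‖ * ‖β‖) := by gcongr
        _ ≤ 2 * σ := by gcongr
    calc C₁ * (‖β‖ ^ (e + 1 - 1) * ‖h‖) ≤ C₁ * (2 * σ / X) := by gcongr
      _ = _ := by rw [hσ]; ring
  have b2 : ‖β ^ (e + 1 + 1) * G‖ ≤ C₂ * (80 * S ^ 3) * ((1 + Y) / X) := by
    rw [norm_mul, norm_pow]
    have h1 : ‖β‖ ^ (e + 1 + 1) * ‖t‖ ^ 3 ≤ 80 * S ^ 3 * ((1 + Y) / X) := by
      have h2 : ‖β‖ ^ (e + 1 + 1) * ‖t‖ ^ 3 * ‖β‖ ^ 3 ≤ σ ^ 3 := by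
        calc ‖β‖ ^ (e + 1 + 1) * ‖t‖ ^ 3 * ‖β‖ ^ 3 =
            (‖β‖ ^ (e + 1) * ‖t‖) * (‖β‖ ^ 2 * ‖t‖) * (‖β‖ ^ 2 * ‖t‖) := by ring
          _ ≤ σ * σ * σ := by gcongr
          _ = σ ^ 3 := by ring
      have h3 : 0 ≤ ‖β‖ ^ (e + 1 + 1) * ‖t‖ ^ 3 := by positivity
      have h4 : ‖β‖ ^ (e + 1 + 1) * ‖t‖ ^ 3 * X ^ 3 ≤ 8 * σ ^ 3 := by
        calc ‖β‖ ^ (e + 1 + 1) * ‖t‖ ^ 3 * X ^ 3 =
            8 * (‖β‖ ^ (e + 1 + 1) * ‖t‖ ^ 3 * (X / 2) ^ 3) := by ring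
          _ ≤ 8 * (‖β‖ ^ (e + 1 + 1) * ‖t‖ ^ 3 * ‖β‖ ^ 3) := by gcongr
          _ ≤ 8 * σ ^ 3 := by gcongr
      have h5 : 8 * σ ^ 3 ≤ 80 * S ^ 3 * ((1 + Y) / X) * X ^ 3 := by
        have e1 : 80 * S ^ 3 * ((1 + Y) / X) * X ^ 3 = 8 * (S ^ 3 * (1 + Y)) * (10 * X * X) := by
          field_simp
          ring
        have e2 : 8 * σ ^ 3 = 8 * (S ^ 3 * (1 + Y)) * ((1 + Y) ^ 2) := by
          rw [hσ]
          ring
        rw [e1, e2]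
        have h6 : (1 + Y) ^ 2 ≤ 10 * X * X := by
          calc (1 + Y) ^ 2 ≤ 10 * X := hYX
            _ = 10 * X * 1 := by ring
            _ ≤ 10 * X * X := by
              gcongr
              linarith
        gcongr
      exact le_of_mul_le_mul_right (h4.trans h5) (by positivity)
    calc ‖β‖ ^ (e + 1 + 1) * ‖G‖ ≤ ‖β‖ ^ (e + 1 + 1) * (C₂ * ‖t‖ ^ 3) := by
          gcongr
      _ = C₂ * (‖β‖ ^ (e + 1 + 1) * ‖t‖ ^ 3) := by ring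
      _ ≤ C₂ * (80 * S ^ 3 * ((1 + Y) / X)) := by gcongr
      _ = _ := by ring
  have b3 : ‖((e : ℂ) + 2) / (e + 1) * ((β - x) * s)‖ ≤ 2 * K * S * ((1 + Y) / X) := by
    rw [norm_mul, norm_mul]
    calc _ ≤ 2 * ((K / X) * σ) := by gcongr
      _ = _ := by rw [hσ]; ring
  have hβe1 : ‖(β ^ e)⁻¹‖ ≤ 1 := by
    rw [norm_inv, norm_pow]
    exact inv_le_one_of_one_le₀ (one_le_pow₀ hβ1)
  have b4 : ‖((e : ℂ) + 2) / (2 * (e + 1) ^ 2) * (r * (2 * A * y + r) * (β ^ e)⁻¹)‖ ≤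
      2 * K * S * ((1 + Y) / X) := by
    rw [norm_mul, norm_mul, norm_mul]
    have h1 : ‖2 * A * y + r‖ ≤ 2 * σ := by
      calc ‖2 * A * y + r‖ ≤ ‖2 * A * y‖ + ‖r‖ := norm_add_le _ _
        _ ≤ 2 * ‖A‖ * Y + K := by
          rw [norm_mul, norm_mul, Complex.norm_ofNat]
          linarith
        _ ≤ 2 * σ := by
          rw [hσ, hS]
          nlinarith [norm_nonneg A]
    calc _ ≤ 1 * ((K / X) * (2 * σ) * 1) := by gcongr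
      _ = _ := by rw [hσ]; ring
  have b5 : ‖((e : ℂ) + 2) / (2 * (e + 1) ^ 2) * (A ^ 2 * (y ^ 2 * ((β ^ e)⁻¹ - (x ^ e)⁻¹)))‖ ≤
      4 * ‖A‖ ^ 2 * (C₃ * K) * ((1 + Y) / X) := by
    set κ : ℂ := (β - x) / x with hκ
    have k1 : ‖κ‖ ≤ K / X ^ 2 := by
      rw [hκ, norm_div]
      calc ‖β - x‖ / ‖x‖ ≤ (K / X) / X := by gcongr
        _ = K / X ^ 2 := by field_simp
    have k2 : K / X ^ 2 ≤ 1 := by
      rw [div_le_one (by positivity)]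
      nlinarith
    have k3 := hpow κ (k1.trans k2)
    have e1 : (β ^ e)⁻¹ - (x ^ e)⁻¹ = -((1 + κ) ^ e - 1) * (β ^ e)⁻¹ := by
      have e2 : β = x * (1 + κ) := by
        rw [hκ]
        field_simp
        ring
      have hβe : β ^ e ≠ 0 := pow_ne_zero _ hβ0
      have hxe : x ^ e ≠ 0 := pow_ne_zero _ hx0
      have e3 : β ^ e = x ^ e * (1 + κ) ^ e := by rw [e2, mul_pow]
      field_simp
      rw [e3]
      ring
    rw [e1, norm_mul, norm_mul, norm_mul, norm_mul, norm_neg, norm_pow, norm_pow]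
    calc _ ≤ 1 * (‖A‖ ^ 2 * ((4 * X) * ((C₃ * (K / X ^ 2)) * 1))) := by
          gcongr
          exact k3.trans (by gcongr)
      _ = 4 * ‖A‖ ^ 2 * (C₃ * K) * (1 / X) := by
          field_simp
      _ ≤ _ := by
          gcongr
          linarith
  rw [key]
  have tri : ∀ u₁ u₂ u₃ u₄ u₅ u₆ : ℂ, ‖u₁ - u₂ - u₃ - u₄ - u₅ - u₆‖ ≤
      ‖u₁‖ + ‖u₂‖ + ‖u₃‖ + ‖u₄‖ + ‖u₅‖ + ‖u₆‖ := by
    intro u₁ u₂ u₃ u₄ u₅ u₆
    calc _ ≤ ‖u₁ - u₂ - u₃ - u₄ - u₅‖ + ‖u₆‖ := norm_sub_le _ _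
      _ ≤ ‖u₁ - u₂ - u₃ - u₄‖ + ‖u₅‖ + ‖u₆‖ := by gcongr; exact norm_sub_le _ _
      _ ≤ ‖u₁ - u₂ - u₃‖ + ‖u₄‖ + ‖u₅‖ + ‖u₆‖ := by gcongr; exact norm_sub_le _ _
      _ ≤ ‖u₁ - u₂‖ + ‖u₃‖ + ‖u₄‖ + ‖u₅‖ + ‖u₆‖ := by gcongr; exact norm_sub_le _ _
      _ ≤ _ := by gcongr; exact norm_sub_le _ _
  refine (tri _ _ _ _ _ _).trans ?_
  rw [mul_div_assoc]
  calc _ ≤ 2 * K * S * ((1 + Y) / X) + 2 * K * S * ((1 + Y) / X) +
        4 * ‖A‖ ^ 2 * (C₃ * K) * ((1 + Y) / X) + K * ((1 + Y) / X) +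
        2 * C₁ * S * ((1 + Y) / X) + C₂ * (80 * S ^ 3) * ((1 + Y) / X) := by
        gcongr
    _ = _ := by ring

private theorem as2_idx {k : ℕ} {a : ℤ → ℂ} {P q : ℤ → ℂ[X]} (hD : IsData k a P) (hN : IsNorm P)
    (hq : ∀ i, IsQ (P i) (q i)) (j : ℤ) :
    ∃ R₀ C : ℝ, 1 ≤ R₀ ∧ 0 < C ∧ ∀ i : ℤ, P i = P j → a i = a j → q i = q j → ∀ p ∈ W 4 R₀,
      ‖ee a P q i p - ((((P i).natDegree : ℂ) + 1) / (P i).natDegree * (p.1 * rr a P i p) -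
        (((P i).natDegree : ℂ) + 1) / 2 * (lm a P i) ^ 2 *
          (p.2 ^ 2 * p.1 ^ (1 - ((P i).natDegree : ℤ))))‖ ≤ C * (1 + ‖p.2‖) / ‖p.1‖ := by
  obtain ⟨RB, CB, hRB, hCB, hbott⟩ := bott hD hN
  obtain ⟨RG, hRG, hreg⟩ := region hD hN 1
  obtain ⟨RT, CT, hRT, hCT, hbt⟩ := bt_props (hN.monic j) (hD.hd j) (hN.cent j) (hq j)
  have hd2 := hD.hd j
  obtain ⟨e, he⟩ : ∃ e, (P j).natDegree = e + 1 := ⟨(P j).natDegree - 1, by omega⟩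
  have he1 : 1 ≤ e := by omega
  obtain ⟨RC, CC, hRC, hCC, hcore⟩ := as2_core e he1 (a j) (7 * CB + CT) (by positivity)
    (hq j).monic (by rw [(hq j).deg, he]) (by rw [← he]; exact (hq j).cent)
  refine ⟨RB + RG + RT + RC, CC, by linarith, hCC, ?_⟩
  intro i hPi hai hqi p hp
  obtain ⟨hp1, hp2⟩ := hp
  have hpB : p ∈ W 4 RB := ⟨by linarith, hp2⟩
  have hpG : p ∈ W 4 RG := ⟨by linarith, hp2⟩
  have hpGB : p ∈ W 4 (RG + RB) := ⟨by linarith, hp2⟩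
  obtain ⟨-, hB⟩ := hbott i
  obtain ⟨-, hB2, -, hB4⟩ := hB p hpB
  obtain ⟨-, hG2, -, hG4⟩ := hreg i p hpG
  have hHp : H (a i) (P i) p ∈ W (3 / 2) (RG + RB) := hG4 _ (by linarith) hpGB
  have hHp' : H (a i) (P i) p ∈ W 4 RB := by
    refine ⟨by have := hHp.1; linarith, hHp.2.trans_le ?_⟩
    gcongr
    norm_num
  obtain ⟨-, hB'⟩ := hbott (i + 1)
  obtain ⟨-, hB2', -, -⟩ := hB' _ hHp'
  obtain ⟨hT1, hT2, hT3⟩ := hbt p.1 (by linarith)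
  set x : ℂ := p.1 with hx
  set y : ℂ := p.2 with hy
  have hX1 : 1 ≤ ‖x‖ := by linarith
  have hX0 : 0 < ‖x‖ := by linarith
  have hxp1 : 1 ≤ ‖(H (a i) (P i) p).1‖ := by have := hHp.1; linarith
  have hY : ‖y‖ ≤ 2 * ‖x‖ := by
    have h1 : ‖y‖ ^ 2 ≤ (2 * ‖x‖) ^ 2 := by nlinarith
    exact le_of_sq_le_sq h1 (by positivity)
  -- bound for b
  have hb : ‖bb a P i p - x‖ ≤ 7 * CB + CT := by
    refine hB2.trans ?_
    have h1 : ‖x‖ ^ (-1 : ℤ) ≤ 1 := by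
      rw [zpow_neg_one]
      exact inv_le_one_of_one_le₀ hX1
    have h2 : ‖x‖ ^ (1 - ((P i).natDegree : ℤ)) ≤ ‖x‖ ^ (-1 : ℤ) := by
      refine zpow_le_zpow_right₀ hX1 ?_
      rw [hPi, he]
      push_cast
      omega
    have h3 : ‖y‖ * ‖x‖ ^ (1 - ((P i).natDegree : ℤ)) ≤ 2 := by
      calc ‖y‖ * ‖x‖ ^ (1 - ((P i).natDegree : ℤ)) ≤ (2 * ‖x‖) * ‖x‖ ^ (-1 : ℤ) := by gcongr
        _ = 2 := by
          rw [zpow_neg_one]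
          field_simp
    nlinarith
  have hr : ‖rr a P i p‖ ≤ (7 * CB + CT) / ‖x‖ := by
    have e1 : rr a P i p = -(bb a P (i + 1) (H (a i) (P i) p) - (H (a i) (P i) p).1) := by
      rw [rr]; ring
    rw [e1, norm_neg]
    refine hB2'.trans ?_
    set xp : ℝ := ‖(H (a i) (P i) p).1‖ with hxp
    have h0 : 0 < xp := by linarith
    have h1 : xp ^ (1 - ((P (i + 1)).natDegree : ℤ)) ≤ xp ^ (-1 : ℤ) := by
      refine zpow_le_zpow_right₀ hxp1 ?_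
      have := hD.hd (i + 1)
      omega
    have h2 : ‖(H (a i) (P i) p).2‖ = ‖x‖ := rfl
    rw [h2]
    have h3 : xp ^ (-1 : ℤ) + ‖x‖ * xp ^ (1 - ((P (i + 1)).natDegree : ℤ)) ≤
        2 * ‖x‖ * xp ^ (-1 : ℤ) := by
      have h5 : 0 < xp ^ (-1 : ℤ) := by positivity
      calc _ ≤ 1 * xp ^ (-1 : ℤ) + ‖x‖ * xp ^ (-1 : ℤ) := by gcongr; rw [one_mul]
        _ ≤ ‖x‖ * xp ^ (-1 : ℤ) + ‖x‖ * xp ^ (-1 : ℤ) := by gcongr
        _ = _ := by ring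
    have h4 : ‖x‖ ^ 2 ≤ 2 * xp := by
      refine le_trans ?_ hG2
      exact pow_le_pow_right₀ hX1 (hD.hd i)
    have h6 : 2 * ‖x‖ * xp ^ (-1 : ℤ) ≤ 4 / ‖x‖ := by
      rw [zpow_neg_one, le_div_iff₀ hX0]
      calc 2 * ‖x‖ * xp⁻¹ * ‖x‖ = 2 * ‖x‖ ^ 2 * xp⁻¹ := by ring
        _ ≤ 2 * (2 * xp) * xp⁻¹ := by gcongr
        _ = 4 := by field_simp; norm_num
    calc _ ≤ CB * (4 / ‖x‖) := by
          gcongr
          exact h3.trans h6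
      _ = (4 * CB) / ‖x‖ := by ring
      _ ≤ _ := by
          gcongr
          linarith
  have hres := hcore x y (bt (P j) x) (bb a P i p) (rr a P i p) (by linarith) hp2.le
    (hT2.trans (by gcongr; linarith)) hb hr
    (by
      rw [← he, hT1, ← hPi, ← hB4, rr, ← hai]
      simp only [H]
      ring)
    (by
      rw [← he, hT1]
      exact hT3.trans (by gcongr; linarith))
  have e2 : ee a P q i p - ((((P i).natDegree : ℂ) + 1) / (P i).natDegree * (x * rr a P i p) -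
        (((P i).natDegree : ℂ) + 1) / 2 * (lm a P i) ^ 2 *
          (y ^ 2 * x ^ (1 - ((P i).natDegree : ℤ)))) =
      x * (bt (P j) x ^ (e + 1) - a j * y) - a j / (e + 1) * x * y - (q j).eval (bb a P i p) -
        ((e + 2) / (e + 1) * (x * rr a P i p) -
          (e + 2) / 2 * (a j / (e + 1)) ^ 2 * (y ^ 2 * (x ^ e)⁻¹)) := by
    have e3 : x ^ (1 - ((P i).natDegree : ℤ)) = (x ^ e)⁻¹ := by
      rw [hPi, he]
      have : (1 - ((e + 1 : ℕ) : ℤ)) = -(e : ℤ) := by push_cast; ring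
      rw [this, zpow_neg, zpow_natCast]
    rw [e3, ee, lm, ← he, hT1, hPi, hai, hqi, he]
    simp only [H]
    push_cast
    ring
  rw [e2]
  exact hres

/-- Expansion of the error term. -/
theorem ee_expansion {k : ℕ} {a : ℤ → ℂ} {P q : ℤ → ℂ[X]} (hD : IsData k a P) (hN : IsNorm P)
    (hq : ∀ i, IsQ (P i) (q i)) (hqk : ∀ i, q (i + k) = q i) :
    ∃ R₀ C : ℝ, 1 ≤ R₀ ∧ 0 < C ∧ ∀ i : ℤ, ∀ p ∈ W 4 R₀,
      ‖ee a P q i p - ((((P i).natDegree : ℂ) + 1) / (P i).natDegree * (p.1 * rr a P i p) -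
        (((P i).natDegree : ℂ) + 1) / 2 * (lm a P i) ^ 2 *
          (p.2 ^ 2 * p.1 ^ (1 - ((P i).natDegree : ℤ))))‖ ≤ C * (1 + ‖p.2‖) / ‖p.1‖ := by
  choose R C hR hC h using as2_idx hD hN hq
  have hk := hD.hk
  have hkZ : (0 : ℤ) < k := by exact_mod_cast hk
  refine ⟨1 + ∑ j ∈ Finset.range k, R j, 1 + ∑ j ∈ Finset.range k, C j, ?_, ?_, ?_⟩
  · have : 0 ≤ ∑ j ∈ Finset.range k, R (j : ℤ) :=
      Finset.sum_nonneg fun j _ => by have := hR (j : ℤ); linarith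
    linarith
  · have : 0 ≤ ∑ j ∈ Finset.range k, C (j : ℤ) :=
      Finset.sum_nonneg fun j _ => (hC (j : ℤ)).le
    linarith
  intro i p hp
  have hper : ∀ {α : Type} (f : ℤ → α), (∀ i, f (i + k) = f i) →
      f i = f (((i % k).toNat : ℕ) : ℤ) := by
    intro α f hf
    have h1 : (((i % k).toNat : ℕ) : ℤ) = i % k := Int.toNat_of_nonneg (Int.emod_nonneg _ hkZ.ne')
    have h2 : Function.Periodic f (k : ℤ) := hf
    rw [h1]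
    have h3 := (h2.int_mul (i / k)) (i % k)
    rw [← h3]
    congr 1
    have := Int.emod_add_mul_ediv i k
    push_cast
    linarith [mul_comm (i / k) (k : ℤ)]
  have hj : (i % k).toNat ∈ Finset.range k := by
    rw [Finset.mem_range]
    have h1 := Int.emod_lt_of_pos i hkZ
    have h2 := Int.emod_nonneg i hkZ.ne'
    omega
  set j : ℕ := (i % k).toNat with hjdef
  have hRj : R (j : ℤ) ≤ ∑ j ∈ Finset.range k, R (j : ℤ) :=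
    Finset.single_le_sum (f := fun j : ℕ => R (j : ℤ))
      (fun j _ => by have := hR (j : ℤ); linarith) hj
  have hCj : C (j : ℤ) ≤ ∑ j ∈ Finset.range k, C (j : ℤ) :=
    Finset.single_le_sum (f := fun j : ℕ => C (j : ℤ)) (fun j _ => (hC (j : ℤ)).le) hj
  have hmain := h j i (hper P hD.pP) (hper a hD.pa) (hper q hqk) p ⟨by have := hp.1; linarith, hp.2⟩
  refine hmain.trans ?_
  gcongr
  linarith

end HEN
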