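import Pool.Agent.Lib.MP_e79cb7_ag.Cmp
import Pool.Agent.Lib.MP_e79cb7_ag.GRO
import Pool.Agent.Lib.MP_e79cb7_ag.BOT

/-! # Module AS3: asymptotics of `x r` -/

open Filter Topology Polynomial Bornology

noncomputable section

namespace HEN

private theorem as3_core (A C : ℝ) (hA : 0 < A) (hC : 0 < C) : ∃ R K : ℝ, 1 ≤ R ∧ 0 < K ∧
    ∀ x y xp xpp ap h hp : ℂ, R ≤ ‖x‖ → ‖ap‖ ≤ A → ‖x‖ ^ 2 ≤ 2 * ‖xp‖ →
      ‖xp - x ^ 2‖ ≤ C * (1 + ‖y‖) → ‖xpp + ap * x - xp ^ 2‖ ≤ C →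
      h = 2⁻¹ * (Complex.log (xpp / xp ^ 2) + hp) → ‖hp‖ ≤ C / ‖xp‖ ^ 2 →
      ‖x * (xp - xp * Complex.exp h) - ap / 2‖ ≤ K * (1 + ‖y‖) / ‖x‖ := by
  set B : ℝ := C + A with hB
  have hB0 : 0 < B := by positivity
  set C₂ : ℝ := C + B ^ 2 with hC₂
  have hC₂0 : 0 < C₂ := by positivity
  set D : ℝ := A + C₂ with hD
  have hD0 : 0 < D := by positivity
  refine ⟨2 + 2 * B + 2 * D, 2 * (C₂ + 2 * D ^ 2) + A * C, by linarith, by positivity, ?_⟩
  intro x y xp xpp ap h hp hx hap hxp h1 h2 hh hhp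
  set X : ℝ := ‖x‖ with hX
  set N : ℝ := ‖xp‖ with hN
  have hX2 : 2 ≤ X := by linarith
  have hX0 : 0 < X := by linarith
  have hXN : X ≤ N := by nlinarith
  have hN0 : 0 < N := by linarith
  have hN1 : 1 ≤ N := by linarith
  have hxp0 : xp ≠ 0 := norm_pos_iff.mp hN0
  set η : ℂ := (xpp + ap * x - xp ^ 2) / xp ^ 2 with hη
  have hηb : ‖η‖ ≤ C / N ^ 2 := by
    rw [hη, norm_div, norm_pow]
    gcongr
  set ζ : ℂ := xpp / xp ^ 2 - 1 with hζ
  have hζe : ζ = η - ap * x / xp ^ 2 := by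
    rw [hζ, hη]
    field_simp
    ring
  have haxb : ‖ap * x / xp ^ 2‖ ≤ A * X / N ^ 2 := by
    rw [norm_div, norm_mul, norm_pow]
    gcongr
  have hζb : ‖ζ‖ ≤ B * X / N ^ 2 := by
    rw [hζe]
    calc ‖η - ap * x / xp ^ 2‖ ≤ ‖η‖ + ‖ap * x / xp ^ 2‖ := norm_sub_le _ _
      _ ≤ C / N ^ 2 + A * X / N ^ 2 := by gcongr
      _ ≤ C * X / N ^ 2 + A * X / N ^ 2 := by
          gcongr
          exact le_mul_of_one_le_right hC.le (by linarith)
      _ = B * X / N ^ 2 := by rw [hB]; ring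
  have hBN : B * X / N ^ 2 ≤ 1 / 2 := by
    rw [div_le_iff₀ (by positivity)]
    calc B * X ≤ (X / 2) * X := by gcongr; linarith
      _ ≤ (N / 2) * N := by gcongr
      _ = 1 / 2 * N ^ 2 := by ring
  have hζ2 : ‖ζ‖ ^ 2 ≤ 2 * B ^ 2 / N ^ 2 := by
    calc ‖ζ‖ ^ 2 ≤ (B * X / N ^ 2) ^ 2 := by gcongr
      _ = B ^ 2 * X ^ 2 / (N * N ^ 3) := by ring
      _ ≤ B ^ 2 * (2 * N) / (N * N ^ 3) := by gcongr
      _ = 2 * B ^ 2 / N ^ 3 := by field_simp
      _ ≤ 2 * B ^ 2 / N ^ 2 := by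
          gcongr
          norm_num
  have hlog : ‖Complex.log (1 + ζ) - ζ‖ ≤ ‖ζ‖ ^ 2 := by
    have h3 : ‖ζ‖ ≤ 1 / 2 := hζb.trans hBN
    refine (Complex.norm_log_one_add_sub_self_le (by linarith)).trans ?_
    have h4 : (1 - ‖ζ‖)⁻¹ ≤ 2 := by
      rw [inv_le_comm₀ (by linarith) (by norm_num)]
      linarith
    calc ‖ζ‖ ^ 2 * (1 - ‖ζ‖)⁻¹ / 2 ≤ ‖ζ‖ ^ 2 * 2 / 2 := by gcongr
      _ = ‖ζ‖ ^ 2 := by ring
  set E₁ : ℂ := Complex.log (1 + ζ) - ζ with hE₁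
  set E₂ : ℂ := 2⁻¹ * (η + E₁ + hp) with hE₂
  have hhe : h = -(ap / 2) * (x / xp ^ 2) + E₂ := by
    have e1 : xpp / xp ^ 2 = 1 + ζ := by rw [hζ]; ring
    have e2 : Complex.log (1 + ζ) = E₁ + (η - ap * x / xp ^ 2) := by
      rw [hE₁, hζe]; ring
    rw [hh, e1, e2, hE₂]
    ring
  have hE₂b : ‖E₂‖ ≤ C₂ / N ^ 2 := by
    rw [hE₂, norm_mul]
    have e1 : ‖(2⁻¹ : ℂ)‖ = 1 / 2 := by norm_num
    rw [e1]
    calc 1 / 2 * ‖η + E₁ + hp‖ ≤ 1 / 2 * (‖η‖ + ‖E₁‖ + ‖hp‖) := by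
          gcongr
          exact norm_add₃_le
      _ ≤ 1 / 2 * (C / N ^ 2 + 2 * B ^ 2 / N ^ 2 + C / N ^ 2) := by
          gcongr
          exact hlog.trans hζ2
      _ = C₂ / N ^ 2 := by rw [hC₂]; ring
  have hhb : ‖h‖ ≤ D * X / N ^ 2 := by
    rw [hhe]
    calc _ ≤ ‖-(ap / 2) * (x / xp ^ 2)‖ + ‖E₂‖ := norm_add_le _ _
      _ = ‖ap * x / xp ^ 2‖ / 2 + ‖E₂‖ := by
          congr 1
          have e1 : -(ap / 2) * (x / xp ^ 2) = -(ap * x / xp ^ 2) / 2 := by ring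
          rw [e1, norm_div, norm_neg]
          norm_num
      _ ≤ (A * X / N ^ 2) / 2 + C₂ / N ^ 2 := by gcongr
      _ ≤ A * X / N ^ 2 + C₂ * X / N ^ 2 := by
          have h3 : 0 ≤ A * X / N ^ 2 := by positivity
          have h4 : C₂ / N ^ 2 ≤ C₂ * X / N ^ 2 := by
            gcongr
            exact le_mul_of_one_le_right hC₂0.le (by linarith)
          linarith
      _ = D * X / N ^ 2 := by rw [hD]; ring
  have hDN : D * X / N ^ 2 ≤ 1 := by
    rw [div_le_iff₀ (by positivity)]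
    calc D * X ≤ X * X := by gcongr; linarith
      _ ≤ N * N := by gcongr
      _ = 1 * N ^ 2 := by ring
  set E₃ : ℂ := Complex.exp h - 1 - h with hE₃
  have hE₃b : ‖E₃‖ ≤ 2 * D ^ 2 / N ^ 2 := by
    calc ‖E₃‖ ≤ ‖h‖ ^ 2 := Complex.norm_exp_sub_one_sub_id_le (hhb.trans hDN)
      _ ≤ (D * X / N ^ 2) ^ 2 := by gcongr
      _ = D ^ 2 * X ^ 2 / (N * N ^ 3) := by ring
      _ ≤ D ^ 2 * (2 * N) / (N * N ^ 3) := by gcongr
      _ = 2 * D ^ 2 / N ^ 3 := by field_simp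
      _ ≤ 2 * D ^ 2 / N ^ 2 := by
          gcongr
          norm_num
  have key : x * (xp - xp * Complex.exp h) - ap / 2 =
      -(ap / 2) * ((xp - x ^ 2) / xp) - x * xp * (E₂ + E₃) := by
    have e1 : Complex.exp h = 1 + (-(ap / 2) * (x / xp ^ 2) + E₂) + E₃ := by
      rw [hE₃, ← hhe]; ring
    rw [e1]
    field_simp
    ring
  rw [key]
  have b1 : ‖-(ap / 2) * ((xp - x ^ 2) / xp)‖ ≤ A * C * (1 + ‖y‖) / X := by
    rw [norm_mul, norm_neg, norm_div, norm_div]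
    have e1 : ‖(2 : ℂ)‖ = 2 := by norm_num
    rw [e1]
    calc ‖ap‖ / 2 * (‖xp - x ^ 2‖ / ‖xp‖) ≤ A / 2 * (C * (1 + ‖y‖) / N) := by gcongr
      _ ≤ A * (C * (1 + ‖y‖) / X) := by
          have h3 : A / 2 ≤ A := by linarith
          gcongr
      _ = _ := by ring
  have b2 : ‖x * xp * (E₂ + E₃)‖ ≤ 2 * (C₂ + 2 * D ^ 2) / X := by
    rw [norm_mul, norm_mul]
    calc X * N * ‖E₂ + E₃‖ ≤ X * N * (‖E₂‖ + ‖E₃‖) := by
          gcongr
          exact norm_add_le _ _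
      _ ≤ X * N * (C₂ / N ^ 2 + 2 * D ^ 2 / N ^ 2) := by gcongr
      _ = (C₂ + 2 * D ^ 2) * (X / N) := by field_simp
      _ ≤ (C₂ + 2 * D ^ 2) * (2 / X) := by
          have h5 : X / N ≤ 2 / X := by
            rw [div_le_div_iff₀ hN0 hX0]
            linarith [sq X]
          exact mul_le_mul_of_nonneg_left h5 (by positivity)
      _ = _ := by ring
  calc _ ≤ ‖-(ap / 2) * ((xp - x ^ 2) / xp)‖ + ‖x * xp * (E₂ + E₃)‖ := norm_sub_le _ _
    _ ≤ A * C * (1 + ‖y‖) / X + 2 * (C₂ + 2 * D ^ 2) / X := by gcongr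
    _ ≤ A * C * (1 + ‖y‖) / X + 2 * (C₂ + 2 * D ^ 2) * (1 + ‖y‖) / X := by
        have h3 : 0 ≤ 2 * (C₂ + 2 * D ^ 2) := by positivity
        have h4 : 2 * (C₂ + 2 * D ^ 2) ≤ 2 * (C₂ + 2 * D ^ 2) * (1 + ‖y‖) :=
          le_mul_of_one_le_right h3 (by linarith [norm_nonneg y])
        exact add_le_add_right (div_le_div_of_nonneg_right h4 hX0.le) _
    _ = _ := by ring

/-- Asymptotics of `x r`. -/
theorem rr_asym {k : ℕ} {a : ℤ → ℂ} {P : ℤ → ℂ[X]} (hD : IsData k a P) (hN : IsNorm P) :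
    ∃ R₀ C : ℝ, 1 ≤ R₀ ∧ 0 < C ∧ ∀ i : ℤ, ∀ p ∈ W 4 R₀,
      ‖p.1 * rr a P i p -
        (if (P i).natDegree = 2 ∧ (P (i + 1)).natDegree = 2 then lm a P (i + 1) else 0)‖ ≤
        C * (1 + ‖p.2‖) / ‖p.1‖ := by
  obtain ⟨CG, hCG, hgrow⟩ := growth hD hN
  obtain ⟨RB, CB, hRB, hCB, hbott⟩ := bott hD hN
  obtain ⟨RG, hRG, hreg⟩ := region hD hN 1
  obtain ⟨RC, K, hRC, hK, hcore⟩ := as3_core (3 * CG) (CG + 8 * CB) (by positivity) (by positivity)
  have ha : ∀ i, ‖a i‖ ≤ 3 * CG := by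
    intro i
    obtain ⟨h1, h2⟩ := hgrow i (1, 1) (by simp)
    have e1 : a i = ((P i).eval 1 - 1 ^ (P i).natDegree) -
        ((H (a i) (P i) (1, 1)).1 - 1 ^ (P i).natDegree) := by
      simp only [H]
      ring
    rw [e1]
    refine (norm_sub_le _ _).trans ?_
    simp only [norm_one, one_pow, mul_one] at h1 h2 ⊢
    linarith
  refine ⟨2 + RB + RG + RC, 6 * CB + K, by linarith, by positivity, ?_⟩
  intro i p hp
  obtain ⟨hp1, hp2⟩ := hp
  have hsub : ∀ ρ R : ℝ, ∀ w : ℂ × ℂ, ρ ≤ 4 → w ∈ W ρ (RG + RB) → R ≤ RG + RB → w ∈ W 4 R := by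
    intro ρ R w hρ hw hR
    refine ⟨by have := hw.1; linarith, hw.2.trans_le ?_⟩
    gcongr
  have hpW : p ∈ W 4 (RG + RB) := ⟨by linarith, hp2⟩
  have hpG : p ∈ W 4 RG := ⟨by linarith, hp2⟩
  obtain ⟨-, hG2, -, hG4⟩ := hreg i p hpG
  have hH : H (a i) (P i) p ∈ W (3 / 2) (RG + RB) := hG4 _ (by linarith) hpW
  have hHW : H (a i) (P i) p ∈ W 4 (RG + RB) := hsub _ _ _ (by norm_num) hH le_rfl
  have hHG : H (a i) (P i) p ∈ W 4 RG := hsub _ _ _ (by norm_num) hH (by linarith)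
  have hHB : H (a i) (P i) p ∈ W 4 RB := hsub _ _ _ (by norm_num) hH (by linarith)
  obtain ⟨-, hB⟩ := hbott (i + 1)
  obtain ⟨-, hB2, hB3, -⟩ := hB _ hHB
  have hX2 : 2 ≤ ‖p.1‖ := by linarith
  have hX1 : 1 ≤ ‖p.1‖ := by linarith
  have hX0 : 0 < ‖p.1‖ := by linarith
  have hN1 : 1 ≤ ‖(H (a i) (P i) p).1‖ := by have := hH.1; linarith
  have hN0 : 0 < ‖(H (a i) (P i) p).1‖ := by linarith
  have hsnd : (H (a i) (P i) p).2 = p.1 := rfl
  rw [hsnd] at hB2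
  have hd := hD.hd i
  have hd' := hD.hd (i + 1)
  -- the difference `bb - x₊`
  have e1 : rr a P i p = -(bb a P (i + 1) (H (a i) (P i) p) - (H (a i) (P i) p).1) := by
    rw [rr]; ring
  have hXN : ‖p.1‖ ^ 2 ≤ 2 * ‖(H (a i) (P i) p).1‖ := by
    refine le_trans ?_ hG2
    exact pow_le_pow_right₀ hX1 hd
  have hinv : ‖(H (a i) (P i) p).1‖⁻¹ ≤ 2 / ‖p.1‖ ^ 2 := by
    rw [inv_eq_one_div, div_le_div_iff₀ hN0 (by positivity)]
    linarith
  have hY0 := norm_nonneg p.2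
  by_cases hcase : (P i).natDegree = 2 ∧ (P (i + 1)).natDegree = 2
  · rw [if_pos hcase]
    obtain ⟨hdi, hdi'⟩ := hcase
    obtain ⟨-, hG2', -, hG4'⟩ := hreg (i + 1) _ hHG
    have hHH : H (a (i + 1)) (P (i + 1)) (H (a i) (P i) p) ∈ W (3 / 2) (RG + RB) :=
      hG4' _ (by linarith) hHW
    have hHHB := hsub _ RB _ (by norm_num) hHH (by linarith)
    obtain ⟨-, hB'⟩ := hbott (i + 1 + 1)
    obtain ⟨hB1', -, -, -⟩ := hB' _ hHHB
    have hM1 : 1 ≤ ‖(H (a (i + 1)) (P (i + 1)) (H (a i) (P i) p)).1‖ := by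
      have := hHH.1; linarith
    obtain ⟨-, hg2⟩ := hgrow i p hX1
    obtain ⟨hg1', -⟩ := hgrow (i + 1) _ hN1
    rw [hdi] at hg2
    rw [hdi'] at hg1' hB3 hG2'
    have hres := hcore p.1 p.2 (H (a i) (P i) p).1
      (H (a (i + 1)) (P (i + 1)) (H (a i) (P i) p)).1 (a (i + 1))
      (hh a P (i + 1) (H (a i) (P i) p))
      (hh a P (i + 1 + 1) (H (a (i + 1)) (P (i + 1)) (H (a i) (P i) p)))
      (by linarith) (ha _) hXN
      (by
        refine hg2.trans ?_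
        rw [Nat.sub_self, pow_zero]
        gcongr
        linarith)
      (by
        have e2 : (H (a (i + 1)) (P (i + 1)) (H (a i) (P i) p)).1 + a (i + 1) * p.1 -
            (H (a i) (P i) p).1 ^ 2 = (P (i + 1)).eval (H (a i) (P i) p).1 -
              (H (a i) (P i) p).1 ^ 2 := by
          simp only [H]
          ring
        rw [e2]
        refine hg1'.trans ?_
        rw [Nat.sub_self, pow_zero]
        linarith)
      (by
        rw [hB3]
        norm_num)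
      (by
        refine hB1'.trans ?_
        have hsnd' : (H (a (i + 1)) (P (i + 1)) (H (a i) (P i) p)).2 = (H (a i) (P i) p).1 := rfl
        rw [hsnd']
        set N : ℝ := ‖(H (a i) (P i) p).1‖ with hN'
        set M : ℝ := ‖(H (a (i + 1)) (P (i + 1)) (H (a i) (P i) p)).1‖ with hM'
        have hM0 : 0 < M := by linarith
        have h1 : M ^ (-((P (i + 1 + 1)).natDegree : ℤ)) ≤ M ^ (-2 : ℤ) := by
          refine zpow_le_zpow_right₀ hM1 ?_
          have := hD.hd (i + 1 + 1)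
          omega
        have h2 : M ^ (-2 : ℤ) ≤ 4 / N ^ 4 := by
          rw [zpow_neg, zpow_ofNat, inv_eq_one_div, div_le_div_iff₀ (by positivity) (by positivity)]
          have h3 : (N ^ 2) ^ 2 ≤ (2 * M) ^ 2 := by gcongr
          nlinarith
        have h3 : (0 : ℝ) < M ^ (-2 : ℤ) := by positivity
        calc CB * (M ^ (-2 : ℤ) + N * M ^ (-((P (i + 1 + 1)).natDegree : ℤ))) ≤
            CB * (1 * M ^ (-2 : ℤ) + N * M ^ (-2 : ℤ)) := by
              rw [one_mul]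
              gcongr
          _ ≤ CB * (N * M ^ (-2 : ℤ) + N * M ^ (-2 : ℤ)) := by gcongr
          _ = 2 * CB * N * M ^ (-2 : ℤ) := by ring
          _ ≤ 2 * CB * N * (4 / N ^ 4) := by gcongr
          _ = 8 * CB / N ^ 3 := by
              field_simp
              norm_num
          _ ≤ 8 * CB / N ^ 2 := by
              gcongr
              norm_num
          _ ≤ _ := by
              gcongr
              linarith)
    have e3 : p.1 * rr a P i p - lm a P (i + 1) =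
        p.1 * ((H (a i) (P i) p).1 - (H (a i) (P i) p).1 *
          Complex.exp (hh a P (i + 1) (H (a i) (P i) p))) - a (i + 1) / 2 := by
      rw [rr, bb, lm, hdi']
      norm_num
    rw [e3]
    refine hres.trans ?_
    gcongr
    linarith
  · rw [if_neg hcase, sub_zero, norm_mul, e1, norm_neg]
    set X : ℝ := ‖p.1‖ with hX
    set N : ℝ := ‖(H (a i) (P i) p).1‖ with hN'
    have hbound : N ^ (-1 : ℤ) + X * N ^ (1 - ((P (i + 1)).natDegree : ℤ)) ≤ 6 / X ^ 2 := by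
      by_cases h3 : (P (i + 1)).natDegree = 2
      · -- then `d ≥ 3`
        have hd3 : 3 ≤ (P i).natDegree := by omega
        have h4 : X ^ 3 ≤ 2 * N := le_trans (pow_le_pow_right₀ hX1 hd3) hG2
        rw [h3]
        have e4 : N ^ (1 - ((2 : ℕ) : ℤ)) = N⁻¹ := by
          norm_num
        rw [e4, zpow_neg_one]
        have h5 : N⁻¹ ≤ 2 / X ^ 3 := by
          rw [inv_eq_one_div, div_le_div_iff₀ hN0 (by positivity)]
          linarith
        calc N⁻¹ + X * N⁻¹ ≤ 2 / X ^ 2 + X * (2 / X ^ 3) := by gcongr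
          _ = 4 / X ^ 2 := by
              field_simp
              norm_num
          _ ≤ 6 / X ^ 2 := by
              gcongr
              norm_num
      · have hd3 : 3 ≤ (P (i + 1)).natDegree := by omega
        have h4 : N ^ (1 - ((P (i + 1)).natDegree : ℤ)) ≤ N ^ (-2 : ℤ) := by
          refine zpow_le_zpow_right₀ hN1 ?_
          omega
        have h5 : N ^ (-2 : ℤ) = N⁻¹ * N⁻¹ := by
          rw [zpow_neg, zpow_ofNat, sq, mul_inv]
        rw [zpow_neg_one]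
        calc N⁻¹ + X * N ^ (1 - ((P (i + 1)).natDegree : ℤ)) ≤ N⁻¹ + X * (N⁻¹ * N⁻¹) := by
              rw [← h5]
              gcongr
          _ ≤ 2 / X ^ 2 + X * (2 / X ^ 2 * (2 / X ^ 2)) := by gcongr
          _ = 2 / X ^ 2 + 4 / X ^ 3 := by
              field_simp
              ring
          _ ≤ 2 / X ^ 2 + 4 / X ^ 2 := by
              gcongr
              norm_num
          _ = 6 / X ^ 2 := by ring
    calc X * ‖bb a P (i + 1) (H (a i) (P i) p) - (H (a i) (P i) p).1‖ ≤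
        X * (CB * (6 / X ^ 2)) := by
          gcongr
          exact hB2.trans (by gcongr)
      _ = 6 * CB * 1 / X := by
          field_simp
      _ ≤ (6 * CB + K) * (1 + ‖p.2‖) / X := by
          gcongr
          · linarith
          · linarith

end HEN
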