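import Pool.Agent.Lib.MP_e79cb7_ag.Cmp
import Pool.Agent.Lib.MP_e79cb7_ag.GRO
import Pool.Agent.Lib.MP_e79cb7_ag.AS2
import Pool.Agent.Lib.MP_e79cb7_ag.AS3

/-! # Module AS4: asymptotics of the error term -/

open Filter Topology Polynomial Bornology

noncomputable section

namespace HEN

private def as4_c (a : ℤ → ℂ) (P : ℤ → ℂ[X]) (i : ℤ) : ℂ :=
  (((P i).natDegree : ℂ) + 1) / (P i).natDegree *
    (if (P i).natDegree = 2 ∧ (P (i + 1)).natDegree = 2 then lm a P (i + 1) else 0) -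
  (((P i).natDegree : ℂ) + 1) / 2 * (lm a P i) ^ 2 *
    (if (P (i - 1)).natDegree = 2 ∧ (P i).natDegree = 2 then 1 else 0)

private theorem as4_kappa (d : ℕ) (hd : 2 ≤ d) : ‖((d : ℂ) + 1) / d‖ ≤ 2 := by
  have hd' : (2 : ℝ) ≤ d := by exact_mod_cast hd
  have e1 : ((d : ℂ) + 1) / d = (((d : ℝ) + 1) / d : ℝ) := by push_cast; rfl
  rw [e1, Complex.norm_real, Real.norm_of_nonneg (by positivity), div_le_iff₀ (by linarith)]
  linarith

private theorem as4_kappa' (d : ℕ) (A : ℝ) (lam : ℂ) (hd : 2 ≤ d) (h : ‖lam‖ ≤ A / d) : ‖((d : ℂ) + 1) / 2 * lam ^ 2‖ ≤ A ^ 2 := by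
  have hd' : (2 : ℝ) ≤ d := by exact_mod_cast hd
  have e1 : ((d : ℂ) + 1) / 2 = (((d : ℝ) + 1) / 2 : ℝ) := by push_cast; rfl
  rw [norm_mul, norm_pow, e1, Complex.norm_real, Real.norm_of_nonneg (by positivity)]
  calc ((d : ℝ) + 1) / 2 * ‖lam‖ ^ 2 ≤ ((d : ℝ) + 1) / 2 * (A / d) ^ 2 := by gcongr
    _ = A ^ 2 * ((d + 1) / (2 * d ^ 2)) := by
        field_simp
    _ ≤ A ^ 2 * 1 := by
        gcongr
        rw [div_le_one (by positivity)]
        nlinarith
    _ = A ^ 2 := mul_one _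

/-- Asymptotics of the error term. -/
theorem asym {k : ℕ} {a : ℤ → ℂ} {P q : ℤ → ℂ[X]} (hD : IsData k a P) (hN : IsNorm P)
    (hq : ∀ i, IsQ (P i) (q i)) (hqk : ∀ i, q (i + k) = q i) :
    ∃ (c : ℤ → ℂ) (R₀ C : ℝ), 1 ≤ R₀ ∧ 0 < C ∧ (∀ i, c (i + k) = c i) ∧
      ∀ i : ℤ, ∀ p ∈ W 4 R₀, ‖ee a P q i p‖ ≤ C ∧
        ‖ee a P q (i + 1) (H (a i) (P i) p) - c (i + 1)‖ ≤ C / ‖p.1‖ := by
  obtain ⟨CG, hCG, hgrow⟩ := growth hD hN
  obtain ⟨RG, hRG, hreg⟩ := region hD hN 1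
  obtain ⟨R2, C2, hR2, hC2, h2⟩ := ee_expansion hD hN hq hqk
  obtain ⟨R3, C3, hR3, hC3, h3⟩ := rr_asym hD hN
  have ha : ∀ i, ‖a i‖ ≤ 3 * CG := by
    intro i
    obtain ⟨h1, h2⟩ := hgrow i (1, 1) (by simp)
    have e1 : a i = ((P i).eval 1 - 1 ^ (P i).natDegree) -
        ((H (a i) (P i) (1, 1)).1 - 1 ^ (P i).natDegree) := by
      simp only [H]
      ring
    rw [e1]
    refine (norm_sub_le _ _).trans ?_
    simp only [norm_one, one_pow, mul_one] at h1 h2 ⊢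
    linarith
  have hlm : ∀ i, ‖lm a P i‖ ≤ (3 * CG) / (P i).natDegree := by
    intro i
    rw [lm, norm_div, Complex.norm_natCast]
    gcongr
    exact ha i
  have hlm' : ∀ i, ‖lm a P i‖ ≤ 3 * CG := by
    intro i
    refine (hlm i).trans ?_
    apply div_le_self (by positivity)
    have := hD.hd i
    have h1 : 1 ≤ (P i).natDegree := by omega
    exact_mod_cast h1
  set A : ℝ := 3 * CG with hA
  have hA0 : 0 < A := by positivity
  refine ⟨as4_c a P, 1 + RG + R2 + R3,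
    3 * C2 + 2 * (A + 3 * C3) + 4 * A ^ 2 + (4 * C2 + 8 * C3 + A ^ 2 * (6 * CG + 4)),
    by linarith, by positivity, ?_, ?_⟩
  · intro i
    have hPp := hD.pP
    have hl : ∀ j, lm a P (j + k) = lm a P j := by
      intro j
      rw [lm, lm, hD.pa, hD.pP]
    have e1 : P (i + k + 1) = P (i + 1) := by
      rw [show i + (k : ℤ) + 1 = (i + 1) + k by ring, hPp]
    have e2 : P (i + k - 1) = P (i - 1) := by
      rw [show i + (k : ℤ) - 1 = (i - 1) + k by ring, hPp]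
    have e3 : lm a P (i + k + 1) = lm a P (i + 1) := by
      rw [show i + (k : ℤ) + 1 = (i + 1) + k by ring, hl]
    rw [as4_c, as4_c, e1, e2, e3, hPp, hl]
  intro i p hp
  obtain ⟨hp1, hp2⟩ := hp
  have hd := hD.hd i
  have hd' := hD.hd (i + 1)
  have hX1 : 1 ≤ ‖p.1‖ := by linarith
  have hX0 : 0 < ‖p.1‖ := by linarith
  have hpG : p ∈ W 4 RG := ⟨by linarith, hp2⟩
  have hpW : p ∈ W 4 (RG + R2 + R3) := ⟨by linarith, hp2⟩
  obtain ⟨-, hG2, -, hG4⟩ := hreg i p hpG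
  have hH : H (a i) (P i) p ∈ W (3 / 2) (RG + R2 + R3) := hG4 _ (by linarith) hpW
  have hHW : ∀ R, R ≤ RG + R2 + R3 → H (a i) (P i) p ∈ W 4 R := by
    intro R hR
    refine ⟨by have := hH.1; linarith, hH.2.trans_le ?_⟩
    gcongr
    norm_num
  have hY : ‖p.2‖ ≤ 2 * ‖p.1‖ := by
    have h1 : ‖p.2‖ ^ 2 ≤ (2 * ‖p.1‖) ^ 2 := by nlinarith
    exact le_of_sq_le_sq h1 (by positivity)
  have hYX : (1 + ‖p.2‖) / ‖p.1‖ ≤ 3 := by
    rw [div_le_iff₀ hX0]
    linarith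
  have hx0 : p.1 ≠ 0 := norm_pos_iff.mp hX0
  constructor
  · -- boundedness
    have k2 := h2 i p ⟨by linarith, hp2⟩
    have k3 := h3 i p ⟨by linarith, hp2⟩
    rw [mul_div_assoc] at k2 k3
    have k2' : C2 * ((1 + ‖p.2‖) / ‖p.1‖) ≤ 3 * C2 := by nlinarith
    have k3' : C3 * ((1 + ‖p.2‖) / ‖p.1‖) ≤ 3 * C3 := by nlinarith
    have hxr : ‖p.1 * rr a P i p‖ ≤ A + 3 * C3 := by
      set L : ℂ := (if (P i).natDegree = 2 ∧ (P (i + 1)).natDegree = 2 then lm a P (i + 1) else 0)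
        with hL
      have hLb : ‖L‖ ≤ A := by
        rw [hL]
        split_ifs
        · exact hlm' _
        · rw [norm_zero]; exact hA0.le
      calc ‖p.1 * rr a P i p‖ = ‖L + (p.1 * rr a P i p - L)‖ := by congr 1; ring
        _ ≤ ‖L‖ + ‖p.1 * rr a P i p - L‖ := norm_add_le _ _
        _ ≤ A + 3 * C3 := by linarith
    have hyy : ‖p.2 ^ 2 * p.1 ^ (1 - ((P i).natDegree : ℤ))‖ ≤ 4 := by
      rw [norm_mul, norm_pow, norm_zpow]
      have h1 : ‖p.1‖ ^ (1 - ((P i).natDegree : ℤ)) ≤ ‖p.1‖ ^ (-1 : ℤ) := by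
        refine zpow_le_zpow_right₀ hX1 ?_
        omega
      calc ‖p.2‖ ^ 2 * ‖p.1‖ ^ (1 - ((P i).natDegree : ℤ)) ≤
          (4 * ‖p.1‖) * ‖p.1‖ ^ (-1 : ℤ) := by gcongr
        _ = 4 := by
          rw [zpow_neg_one]
          field_simp
    have b1 : ‖(((P i).natDegree : ℂ) + 1) / (P i).natDegree * (p.1 * rr a P i p)‖ ≤
        2 * (A + 3 * C3) := by
      rw [norm_mul]
      gcongr
      exact as4_kappa _ hd
    have b2 : ‖(((P i).natDegree : ℂ) + 1) / 2 * (lm a P i) ^ 2 *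
        (p.2 ^ 2 * p.1 ^ (1 - ((P i).natDegree : ℤ)))‖ ≤ A ^ 2 * 4 := by
      rw [norm_mul]
      gcongr
      exact as4_kappa' _ _ _ hd (hlm i)
    set T1 : ℂ := (((P i).natDegree : ℂ) + 1) / (P i).natDegree * (p.1 * rr a P i p) with hT1
    set T2 : ℂ := (((P i).natDegree : ℂ) + 1) / 2 * (lm a P i) ^ 2 *
        (p.2 ^ 2 * p.1 ^ (1 - ((P i).natDegree : ℤ))) with hT2
    have : ‖ee a P q i p‖ ≤ 3 * C2 + (2 * (A + 3 * C3) + A ^ 2 * 4) := by
      calc ‖ee a P q i p‖ = ‖(ee a P q i p - (T1 - T2)) + (T1 - T2)‖ := by congr 1; ring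
        _ ≤ ‖ee a P q i p - (T1 - T2)‖ + ‖T1 - T2‖ := norm_add_le _ _
        _ ≤ ‖ee a P q i p - (T1 - T2)‖ + (‖T1‖ + ‖T2‖) := by gcongr; exact norm_sub_le _ _
        _ ≤ _ := by linarith
    have h4 : 0 ≤ 4 * C2 + 8 * C3 + A ^ 2 * (6 * CG + 4) := by positivity
    linarith
  · -- asymptotics
    have k2 := h2 (i + 1) _ (hHW R2 (by linarith))
    have k3 := h3 (i + 1) _ (hHW R3 (by linarith))
    obtain ⟨-, hg2⟩ := hgrow i p hX1
    have hsnd : (H (a i) (P i) p).2 = p.1 := rfl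
    rw [hsnd, mul_div_assoc] at k2 k3
    have hN1 : 1 ≤ ‖(H (a i) (P i) p).1‖ := by have := hH.1; linarith
    have hN0 : 0 < ‖(H (a i) (P i) p).1‖ := by linarith
    have hXN : ‖p.1‖ ^ 2 ≤ 2 * ‖(H (a i) (P i) p).1‖ := by
      refine le_trans ?_ hG2
      exact pow_le_pow_right₀ hX1 hd
    have hinv : ‖(H (a i) (P i) p).1‖⁻¹ ≤ 2 / ‖p.1‖ ^ 2 := by
      rw [inv_eq_one_div, div_le_div_iff₀ hN0 (by positivity)]
      linarith
    have hfrac : (1 + ‖p.1‖) / ‖(H (a i) (P i) p).1‖ ≤ 4 / ‖p.1‖ := by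
      calc (1 + ‖p.1‖) / ‖(H (a i) (P i) p).1‖ =
          (1 + ‖p.1‖) * ‖(H (a i) (P i) p).1‖⁻¹ := by rw [div_eq_mul_inv]
        _ ≤ (‖p.1‖ + ‖p.1‖) * (2 / ‖p.1‖ ^ 2) := by gcongr
        _ = 4 / ‖p.1‖ := by
          field_simp
          norm_num
    have hxN : ‖p.1 ^ 2 * (H (a i) (P i) p).1 ^ (1 - ((P (i + 1)).natDegree : ℤ)) -
        (if (P i).natDegree = 2 ∧ (P (i + 1)).natDegree = 2 then 1 else 0)‖ ≤
        (6 * CG + 4) / ‖p.1‖ := by
      have hxp0 : (H (a i) (P i) p).1 ≠ 0 := norm_pos_iff.mp hN0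
      by_cases hc : (P i).natDegree = 2 ∧ (P (i + 1)).natDegree = 2
      · rw [if_pos hc, hc.2]
        rw [hc.1, Nat.sub_self, pow_zero] at hg2
        have e1 : p.1 ^ 2 * (H (a i) (P i) p).1 ^ (1 - ((2 : ℕ) : ℤ)) - 1 =
            -(((H (a i) (P i) p).1 - p.1 ^ 2) * ((H (a i) (P i) p).1)⁻¹) := by
          have e2 : (H (a i) (P i) p).1 ^ (1 - ((2 : ℕ) : ℤ)) = ((H (a i) (P i) p).1)⁻¹ := by
            norm_num
          rw [e2]
          field_simp
          ring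
        rw [e1, norm_neg, norm_mul, norm_inv]
        calc _ ≤ (CG * (1 + ‖p.2‖)) * (2 / ‖p.1‖ ^ 2) := by gcongr
          _ ≤ (CG * (3 * ‖p.1‖)) * (2 / ‖p.1‖ ^ 2) := by
              gcongr
              linarith
          _ = 6 * CG / ‖p.1‖ := by
              field_simp
              norm_num
          _ ≤ _ := by
              gcongr
              linarith
      · rw [if_neg hc, sub_zero, norm_mul, norm_pow, norm_zpow]
        set X : ℝ := ‖p.1‖ with hX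
        set N : ℝ := ‖(H (a i) (P i) p).1‖ with hN'
        have hb : X ^ 2 * N ^ (1 - ((P (i + 1)).natDegree : ℤ)) ≤ 4 / X := by
          by_cases h5 : (P (i + 1)).natDegree = 2
          · have hd3 : 3 ≤ (P i).natDegree := by omega
            have h6 : X ^ 3 ≤ 2 * N := le_trans (pow_le_pow_right₀ hX1 hd3) hG2
            have e4 : N ^ (1 - ((2 : ℕ) : ℤ)) = N⁻¹ := by norm_num
            rw [h5, e4]
            have h7 : N⁻¹ ≤ 2 / X ^ 3 := by
              rw [inv_eq_one_div, div_le_div_iff₀ hN0 (by positivity)]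
              linarith
            calc X ^ 2 * N⁻¹ ≤ X ^ 2 * (2 / X ^ 3) := by gcongr
              _ = 2 / X := by field_simp
              _ ≤ 4 / X := by
                  gcongr
                  norm_num
          · have hd3 : 3 ≤ (P (i + 1)).natDegree := by omega
            have h6 : N ^ (1 - ((P (i + 1)).natDegree : ℤ)) ≤ N ^ (-2 : ℤ) := by
              refine zpow_le_zpow_right₀ hN1 ?_
              omega
            have h7 : N ^ (-2 : ℤ) = N⁻¹ * N⁻¹ := by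
              rw [zpow_neg, zpow_ofNat, sq, mul_inv]
            calc X ^ 2 * N ^ (1 - ((P (i + 1)).natDegree : ℤ)) ≤ X ^ 2 * (N⁻¹ * N⁻¹) := by
                  rw [← h7]
                  gcongr
              _ ≤ X ^ 2 * (2 / X ^ 2 * (2 / X ^ 2)) := by gcongr
              _ = 4 / X ^ 2 := by
                  field_simp
                  norm_num
              _ ≤ 4 / X := by
                  apply div_le_div_of_nonneg_left (by norm_num) hX0
                  nlinarith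
        refine hb.trans ?_
        gcongr
        linarith
    set xp : ℂ := (H (a i) (P i) p).1 with hxp
    set p' : ℂ × ℂ := H (a i) (P i) p with hp'
    set D : ℂ := ((P (i + 1)).natDegree : ℂ) with hDdef
    set L : ℂ := (if (P (i + 1)).natDegree = 2 ∧ (P (i + 1 + 1)).natDegree = 2 then
      lm a P (i + 1 + 1) else 0) with hL
    set I : ℂ := (if (P i).natDegree = 2 ∧ (P (i + 1)).natDegree = 2 then 1 else 0) with hI
    have hc : as4_c a P (i + 1) = (D + 1) / D * L - (D + 1) / 2 * (lm a P (i + 1)) ^ 2 * I := by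
      rw [as4_c, hL, hI, hDdef, add_sub_cancel_right]
    have e1 : ee a P q (i + 1) p' - as4_c a P (i + 1) =
        (ee a P q (i + 1) p' - ((D + 1) / D * (xp * rr a P (i + 1) p') -
          (D + 1) / 2 * (lm a P (i + 1)) ^ 2 *
            (p.1 ^ 2 * xp ^ (1 - ((P (i + 1)).natDegree : ℤ))))) +
        ((D + 1) / D * (xp * rr a P (i + 1) p' - L) -
          (D + 1) / 2 * (lm a P (i + 1)) ^ 2 *
            (p.1 ^ 2 * xp ^ (1 - ((P (i + 1)).natDegree : ℤ)) - I)) := by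
      rw [hc]
      ring
    have b1 : ‖(D + 1) / D * (xp * rr a P (i + 1) p' - L)‖ ≤ 2 * (C3 * (4 / ‖p.1‖)) := by
      rw [norm_mul]
      have h6 := as4_kappa _ hd'
      have h7 : ‖xp * rr a P (i + 1) p' - L‖ ≤ C3 * (4 / ‖p.1‖) := k3.trans (by gcongr)
      exact mul_le_mul h6 h7 (norm_nonneg _) (by norm_num)
    have b2 : ‖(D + 1) / 2 * (lm a P (i + 1)) ^ 2 *
            (p.1 ^ 2 * xp ^ (1 - ((P (i + 1)).natDegree : ℤ)) - I)‖ ≤
        A ^ 2 * ((6 * CG + 4) / ‖p.1‖) := by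
      rw [norm_mul]
      exact mul_le_mul (as4_kappa' _ _ _ hd' (hlm _)) hxN (norm_nonneg _) (by positivity)
    rw [e1]
    calc _ ≤ _ + ‖(D + 1) / D * (xp * rr a P (i + 1) p' - L) -
          (D + 1) / 2 * (lm a P (i + 1)) ^ 2 *
            (p.1 ^ 2 * xp ^ (1 - ((P (i + 1)).natDegree : ℤ)) - I)‖ := norm_add_le _ _
      _ ≤ C2 * (4 / ‖p.1‖) + (2 * (C3 * (4 / ‖p.1‖)) + A ^ 2 * ((6 * CG + 4) / ‖p.1‖)) := by
          refine add_le_add (k2.trans ?_) ((norm_sub_le _ _).trans (add_le_add b1 b2))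
          gcongr
      _ = (4 * C2 + 8 * C3 + A ^ 2 * (6 * CG + 4)) / ‖p.1‖ := by ring
      _ ≤ _ := by
          have h4 : 0 ≤ 3 * C2 + 2 * (A + 3 * C3) + 4 * A ^ 2 := by positivity
          exact div_le_div_of_nonneg_right (by linarith) hX0.le

end HEN
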