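import Mathlib

open Filter Topology Polynomial Bornology

noncomputable section

namespace HEN

/-- Injective entire functions are affine. -/
theorem injective_entire_affine {f : ℂ → ℂ} (hf : Differentiable ℂ f)
    (hi : Function.Injective f) : ∃ A B : ℂ, A ≠ 0 ∧ ∀ z, f z = A * z + B := by
  -- a point with nonzero derivative
  obtain ⟨z₀, hz₀⟩ : ∃ z₀, deriv f z₀ ≠ 0 := by
    by_contra hcon
    push Not at hcon
    have := is_const_of_deriv_eq_zero hf hcon 0 1
    exact zero_ne_one (hi this)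
  have hdsl : ∀ g : ℂ → ℂ, Differentiable ℂ g → Differentiable ℂ (dslope g z₀) := by
    intro g hg
    have := (Complex.differentiableOn_dslope (s := Set.univ) (c := z₀) (f := g)
      Filter.univ_mem).2 hg.differentiableOn
    exact differentiableOn_univ.1 this
  set u : ℂ → ℂ := dslope f z₀ with hu
  have hud : Differentiable ℂ u := hdsl f hf
  have hu1 : ∀ z, z ≠ z₀ → u z = (z - z₀)⁻¹ * (f z - f z₀) := by
    intro z hz
    rw [hu, dslope_of_ne _ hz, slope_def_field]
    ring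
  have hu0 : ∀ z, u z ≠ 0 := by
    intro z
    by_cases hz : z = z₀
    · rw [hz, hu, dslope_same]
      exact hz₀
    · rw [hu1 z hz]
      exact mul_ne_zero (inv_ne_zero (sub_ne_zero.2 hz)) (sub_ne_zero.2 fun h => hz (hi h))
  set w : ℂ → ℂ := fun z => (u z)⁻¹ with hw
  have hwd : Differentiable ℂ w := fun z => (hud z).inv (hu0 z)
  -- lower bound for `f z - f z₀`
  obtain ⟨ε, hε, hεb⟩ : ∃ ε : ℝ, 0 < ε ∧ ∀ z, 1 ≤ ‖z - z₀‖ → ε ≤ ‖f z - f z₀‖ := by
    have h1 : HasStrictDerivAt f (deriv f z₀) z₀ :=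
      (hf.analyticAt z₀).hasStrictDerivAt
    have h2 := h1.map_nhds_eq hz₀
    have h3 : f '' Metric.ball z₀ 1 ∈ 𝓝 (f z₀) := by
      rw [← h2]
      exact Filter.image_mem_map (Metric.ball_mem_nhds z₀ one_pos)
    obtain ⟨ε, hε, hε2⟩ := Metric.mem_nhds_iff.1 h3
    refine ⟨ε, hε, fun z hz => ?_⟩
    by_contra hlt
    push Not at hlt
    have h4 : f z ∈ Metric.ball (f z₀) ε := by
      rw [Metric.mem_ball, dist_eq_norm]
      exact hlt
    obtain ⟨z', hz', he⟩ := hε2 h4
    rw [hi he, Metric.mem_ball, dist_eq_norm] at hz'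
    exact absurd hz' (not_lt.2 hz)
  have hwb : ∀ z, 1 ≤ ‖z - z₀‖ → ‖w z‖ ≤ ‖z - z₀‖ / ε := by
    intro z hz
    have hne : z ≠ z₀ := by
      rintro rfl
      simp at hz
      linarith
    have h1 := hεb z hz
    rw [hw]
    simp only [hu1 z hne, mul_inv, inv_inv, norm_mul, norm_inv]
    rw [div_eq_mul_inv]
    exact mul_le_mul_of_nonneg_left (inv_anti₀ hε h1) (norm_nonneg _)
  set v : ℂ → ℂ := dslope w z₀ with hv
  have hvd : Differentiable ℂ v := hdsl w hwd
  have hv1 : ∀ z, z ≠ z₀ → v z = (z - z₀)⁻¹ * (w z - w z₀) := by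
    intro z hz
    rw [hv, dslope_of_ne _ hz, slope_def_field]
    ring
  obtain ⟨M, hM⟩ : ∃ M : ℝ, ∀ z ∈ Metric.closedBall z₀ 1, ‖v z‖ ≤ M :=
    (isCompact_closedBall z₀ 1).exists_bound_of_continuousOn hvd.continuous.continuousOn
  have hvb : ∀ z, ‖v z‖ ≤ max M (1 / ε + ‖w z₀‖) := by
    intro z
    by_cases hz : ‖z - z₀‖ ≤ 1
    · exact (hM z (by rwa [Metric.mem_closedBall, dist_eq_norm])).trans (le_max_left _ _)
    · push Not at hz
      refine le_trans ?_ (le_max_right _ _)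
      have hne : z ≠ z₀ := by
        rintro rfl
        simp at hz
        linarith
      have hpos : 0 < ‖z - z₀‖ := by linarith
      rw [hv1 z hne, norm_mul, norm_inv, inv_mul_le_iff₀ hpos]
      calc ‖w z - w z₀‖ ≤ ‖w z‖ + ‖w z₀‖ := norm_sub_le _ _
        _ ≤ ‖z - z₀‖ / ε + ‖z - z₀‖ * ‖w z₀‖ := by
            refine add_le_add (hwb z hz.le) ?_
            nlinarith [norm_nonneg (w z₀)]
        _ = ‖z - z₀‖ * (1 / ε + ‖w z₀‖) := by ring
  have hvc : ∀ z, v z = v z₀ := by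
    intro z
    refine hvd.apply_eq_apply_of_bounded ?_ z z₀
    rw [isBounded_iff_forall_norm_le]
    refine ⟨max M (1 / ε + ‖w z₀‖), ?_⟩
    rintro _ ⟨z, rfl⟩
    exact hvb z
  have hwz : ∀ z, w z = w z₀ + (z - z₀) * v z₀ := by
    intro z
    by_cases hz : z = z₀
    · rw [hz]; simp
    · have := hv1 z hz
      rw [hvc z] at this
      rw [this, ← mul_assoc, mul_inv_cancel₀ (sub_ne_zero.2 hz)]
      ring
  have hc0 : v z₀ = 0 := by
    by_contra hc
    have h1 := hwz (z₀ - w z₀ / v z₀)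
    have h2 : w (z₀ - w z₀ / v z₀) = 0 := by
      rw [h1]
      field_simp
      ring
    exact inv_ne_zero (hu0 _) h2
  have huc : ∀ z, u z = u z₀ := by
    intro z
    have := hwz z
    rw [hc0, mul_zero, add_zero] at this
    exact inv_injective this
  refine ⟨u z₀, f z₀ - u z₀ * z₀, hu0 z₀, fun z => ?_⟩
  by_cases hz : z = z₀
  · rw [hz]; ring
  · have := hu1 z hz
    rw [huc z] at this
    have h2 : f z - f z₀ = (z - z₀) * u z₀ := by
      rw [this, ← mul_assoc, mul_inv_cancel₀ (sub_ne_zero.2 hz), one_mul]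
    linear_combination h2

end HEN
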