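import Pool.Agent.Lib.MP_e79cb7_ag.Cmp

/-! # Biholomorphic self-maps of the half plane are Möbius -/

open Filter Topology Polynomial Bornology

noncomputable section

namespace HEN

private def auCay (β : ℂ) : ℂ := (β - 1) / (β + 1)

private def auIcay (w : ℂ) : ℂ := (1 + w) / (1 - w)

private theorem au_ne {β : ℂ} (h : β ∈ HP) : β + 1 ≠ 0 := by
  intro h0
  have h1 : (β + 1).re = 0 := by rw [h0]; simp
  have h2 : 0 < β.re := h
  simp at h1
  linarith

private theorem au_lt {β : ℂ} (h : β ∈ HP) : ‖β - 1‖ < ‖β + 1‖ := by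
  have h2 : 0 < β.re := h
  rw [← sq_lt_sq₀ (norm_nonneg _) (norm_nonneg _), ← Complex.normSq_eq_norm_sq,
    ← Complex.normSq_eq_norm_sq, Complex.normSq_apply, Complex.normSq_apply]
  simp only [Complex.sub_re, Complex.sub_im, Complex.one_re, Complex.one_im, Complex.add_re,
    Complex.add_im]
  nlinarith

private theorem au_cay_mem {β : ℂ} (h : β ∈ HP) : auCay β ∈ Metric.ball (0 : ℂ) 1 := by
  rw [mem_ball_zero_iff]
  unfold auCay
  have h1 : 0 < ‖β + 1‖ := norm_pos_iff.2 (au_ne h)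
  rw [norm_div, div_lt_one h1]
  exact au_lt h

private theorem au_one_sub {w : ℂ} (h : w ∈ Metric.ball (0 : ℂ) 1) : 1 - w ≠ 0 := by
  rw [mem_ball_zero_iff] at h
  intro h0
  have : w = 1 := (sub_eq_zero.1 h0).symm
  rw [this, norm_one] at h
  exact lt_irrefl _ h

private theorem au_icay_mem {w : ℂ} (h : w ∈ Metric.ball (0 : ℂ) 1) : auIcay w ∈ HP := by
  have h1 := au_one_sub h
  rw [mem_ball_zero_iff] at h
  have h2 : w.re * w.re + w.im * w.im < 1 := by
    rw [← Complex.normSq_apply, Complex.normSq_eq_norm_sq]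
    nlinarith [norm_nonneg w]
  show 0 < (auIcay w).re
  unfold auIcay
  rw [Complex.div_re]
  have h3 : 0 < Complex.normSq (1 - w) := Complex.normSq_pos.2 h1
  rw [← add_div]
  apply div_pos _ h3
  simp only [Complex.sub_re, Complex.sub_im, Complex.one_re, Complex.one_im, Complex.add_re,
    Complex.add_im]
  nlinarith

private theorem au_icay_cay {β : ℂ} (h : β ∈ HP) : auIcay (auCay β) = β := by
  have h1 := au_ne h
  unfold auIcay auCay
  have h2 : 1 - (β - 1) / (β + 1) = 2 / (β + 1) := by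
    field_simp
    ring
  have h3 : 1 + (β - 1) / (β + 1) = 2 * β / (β + 1) := by
    field_simp
    ring
  rw [h2, h3]
  field_simp

private theorem au_cay_icay {w : ℂ} (h : w ∈ Metric.ball (0 : ℂ) 1) : auCay (auIcay w) = w := by
  have h1 := au_one_sub h
  unfold auIcay auCay
  have h2 : (1 + w) / (1 - w) - 1 = 2 * w / (1 - w) := by
    field_simp
    ring
  have h3 : (1 + w) / (1 - w) + 1 = 2 / (1 - w) := by
    field_simp
    ring
  rw [h2, h3]
  field_simp

private theorem au_icay_diff : DifferentiableOn ℂ auIcay (Metric.ball (0 : ℂ) 1) := by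
  intro w hw
  unfold auIcay
  apply DifferentiableAt.differentiableWithinAt
  apply DifferentiableAt.div (by fun_prop) (by fun_prop) (au_one_sub hw)

private theorem au_cay_diff : DifferentiableOn ℂ auCay HP := by
  intro w hw
  unfold auCay
  have h1 : DifferentiableAt ℂ (fun β : ℂ => β - 1) w := by fun_prop
  have h2 : DifferentiableAt ℂ (fun β : ℂ => β + 1) w := by fun_prop
  exact (h1.div h2 (au_ne hw)).differentiableWithinAt

private theorem au_disc {φ ψ : ℂ → ℂ} (hφ : DifferentiableOn ℂ φ (Metric.ball 0 1))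
    (hψ : DifferentiableOn ℂ ψ (Metric.ball 0 1)) (h1 : Set.MapsTo φ (Metric.ball 0 1) (Metric.ball 0 1))
    (h2 : Set.MapsTo ψ (Metric.ball 0 1) (Metric.ball 0 1)) (h3 : ∀ w ∈ Metric.ball (0 : ℂ) 1, ψ (φ w) = w)
    (h0 : φ 0 = 0) : ∃ κ : ℂ, ‖κ‖ = 1 ∧ ∀ w ∈ Metric.ball (0 : ℂ) 1, φ w = w * κ := by
  have hsub : Metric.ball (0 : ℂ) 1 ⊆ Metric.closedBall 0 1 := Metric.ball_subset_closedBall
  have hm : (1 / 2 : ℂ) ∈ Metric.ball (0 : ℂ) 1 := by
    rw [mem_ball_zero_iff]
    norm_num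
  have hm0 : (0 : ℂ) ∈ Metric.ball (0 : ℂ) 1 := Metric.mem_ball_self one_pos
  have hψ0 : ψ 0 = 0 := by
    have := h3 0 hm0
    rwa [h0] at this
  have e1 : ‖φ (1 / 2)‖ ≤ ‖(1 / 2 : ℂ)‖ :=
    Complex.norm_le_norm_of_mapsTo_ball hφ (fun w hw => hsub (h1 hw)) h0 (mem_ball_zero_iff.1 hm)
  have e2 : ‖ψ (φ (1 / 2))‖ ≤ ‖φ (1 / 2)‖ :=
    Complex.norm_le_norm_of_mapsTo_ball hψ (fun w hw => hsub (h2 hw)) hψ0 (mem_ball_zero_iff.1 (h1 hm))
  rw [h3 _ hm] at e2
  have e3 : ‖φ (1 / 2)‖ = ‖(1 / 2 : ℂ)‖ := le_antisymm e1 e2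
  have e4 : ‖dslope φ 0 (1 / 2)‖ = 1 / 1 := by
    rw [dslope_of_ne _ (by norm_num : (1 / 2 : ℂ) ≠ 0), slope_def_field, h0, sub_zero, sub_zero, norm_div, e3]
    have : ‖(1 / 2 : ℂ)‖ ≠ 0 := by norm_num
    rw [div_self this]
    norm_num
  have e5 := Complex.affine_of_mapsTo_ball_of_norm_dslope_eq_div hφ
    (fun w hw => by rw [h0]; exact hsub (h1 hw)) hm e4
  refine ⟨dslope φ 0 (1 / 2), by rw [e4]; norm_num, ?_⟩
  intro w hw
  have := e5 hw
  rw [this]
  simp [h0]

theorem halfplane_mobius {M M' : ℂ → ℂ} (hM : DifferentiableOn ℂ M HP)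
    (hM' : DifferentiableOn ℂ M' HP) (h1 : Set.MapsTo M HP HP) (h2 : Set.MapsTo M' HP HP)
    (h3 : ∀ β ∈ HP, M' (M β) = β) (h4 : ∀ β ∈ HP, M (M' β) = β) :
    ∃ A B C D : ℂ, ∀ β ∈ HP, C * β + D ≠ 0 ∧ M β = (A * β + B) / (C * β + D) := by
  have hone : (1 : ℂ) ∈ HP := by
    show 0 < (1 : ℂ).re
    simp
  set r : ℝ := (M 1).re with hr
  set t : ℝ := (M 1).im with ht
  have hr0 : 0 < r := h1 hone
  have hrc : (r : ℂ) ≠ 0 := by exact_mod_cast hr0.ne'
  have hM1 : M 1 = r + t * Complex.I := by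
    rw [hr, ht, Complex.re_add_im]
  -- normalised maps
  have hn1 : ∀ β ∈ HP, (β - t * Complex.I) / r ∈ HP := by
    intro β hβ
    show 0 < ((β - t * Complex.I) / r).re
    rw [Complex.div_ofReal_re]
    have : 0 < β.re := hβ
    simp only [Complex.sub_re, Complex.mul_re, Complex.ofReal_re, Complex.I_re, Complex.ofReal_im,
      Complex.I_im]
    apply div_pos _ hr0
    linarith
  have hn2 : ∀ β ∈ HP, r * β + t * Complex.I ∈ HP := by
    intro β hβ
    show 0 < (r * β + t * Complex.I).re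
    have : 0 < β.re := hβ
    simp only [Complex.add_re, Complex.mul_re, Complex.ofReal_re, Complex.I_re, Complex.ofReal_im,
      Complex.I_im]
    have := mul_pos hr0 this
    linarith
  set φ : ℂ → ℂ := fun w => auCay ((M (auIcay w) - t * Complex.I) / r) with hφ
  set ψ : ℂ → ℂ := fun w => auCay (M' (r * auIcay w + t * Complex.I)) with hψ
  have d1 : DifferentiableOn ℂ φ (Metric.ball 0 1) := by
    refine au_cay_diff.comp (t := HP) ?_ ?_
    · have := hM.comp au_icay_diff (fun w hw => au_icay_mem hw)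
      exact (this.sub_const (↑t * Complex.I)).div_const (r : ℂ)
    · intro w hw
      exact hn1 _ (h1 (au_icay_mem hw))
  have d2 : DifferentiableOn ℂ ψ (Metric.ball 0 1) := by
    refine au_cay_diff.comp (t := HP) ?_ ?_
    · refine hM'.comp (t := HP) ?_ ?_
      · exact (au_icay_diff.const_mul (r : ℂ)).add_const (↑t * Complex.I)
      · intro w hw
        exact hn2 _ (au_icay_mem hw)
    · intro w hw
      exact h2 (hn2 _ (au_icay_mem hw))
  have m1 : Set.MapsTo φ (Metric.ball 0 1) (Metric.ball 0 1) := by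
    intro w hw
    exact au_cay_mem (hn1 _ (h1 (au_icay_mem hw)))
  have m2 : Set.MapsTo ψ (Metric.ball 0 1) (Metric.ball 0 1) := by
    intro w hw
    exact au_cay_mem (h2 (hn2 _ (au_icay_mem hw)))
  have inv : ∀ w ∈ Metric.ball (0 : ℂ) 1, ψ (φ w) = w := by
    intro w hw
    rw [hψ, hφ]
    dsimp only
    rw [au_icay_cay (hn1 _ (h1 (au_icay_mem hw))), mul_div_cancel₀ _ hrc, sub_add_cancel,
      h3 _ (au_icay_mem hw), au_cay_icay hw]
  have z0 : φ 0 = 0 := by
    rw [hφ]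
    dsimp only
    have : auIcay 0 = 1 := by simp [auIcay]
    rw [this, hM1, add_sub_cancel_right, div_self hrc]
    simp [auCay]
  obtain ⟨κ, hκ, hlin⟩ := au_disc d1 d2 m1 m2 inv z0
  refine ⟨r * (1 + κ) + t * Complex.I * (1 - κ), r * (1 - κ) + t * Complex.I * (1 + κ), 1 - κ, 1 + κ, ?_⟩
  intro β hβ
  have hden : (1 - κ) * β + (1 + κ) ≠ 0 := by
    intro h0
    have e1 : β + 1 = κ * (β - 1) := by linear_combination h0
    have e2 : ‖β + 1‖ = ‖β - 1‖ := by rw [e1, norm_mul, hκ, one_mul]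
    have := au_lt hβ
    linarith
  refine ⟨hden, ?_⟩
  have hb := au_ne hβ
  have e1 := hlin _ (au_cay_mem hβ)
  have e2 : φ (auCay β) = auCay ((M β - t * Complex.I) / r) := by
    rw [hφ]
    dsimp only
    rw [au_icay_cay hβ]
  rw [e2] at e1
  have e3 : (M β - t * Complex.I) / r = auIcay (auCay β * κ) := by
    rw [← e1, au_icay_cay (hn1 _ (h1 hβ))]
  have e4 : auIcay (auCay β * κ) = ((1 + κ) * β + (1 - κ)) / ((1 - κ) * β + (1 + κ)) := by
    unfold auIcay auCay
    have f1 : 1 + (β - 1) / (β + 1) * κ = ((1 + κ) * β + (1 - κ)) / (β + 1) := by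
      field_simp
      ring
    have f2 : 1 - (β - 1) / (β + 1) * κ = ((1 - κ) * β + (1 + κ)) / (β + 1) := by
      field_simp
      ring
    rw [f1, f2, div_div_div_cancel_right₀ hb]
  rw [e4, div_eq_iff hrc] at e3
  have e5 : M β = ((1 + κ) * β + (1 - κ)) / ((1 - κ) * β + (1 + κ)) * r + t * Complex.I := by
    linear_combination e3
  rw [e5, div_mul_eq_mul_div, div_add' _ _ _ hden]
  congr 1
  ring

end HEN
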