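import Pool.Agent.Lib.MP_e79cb7_ag.DIC

/-! # Conjugate maps have biholomorphic surfaces; groupoid laws -/

open Filter Topology Polynomial Bornology

noncomputable section

namespace HEN

private theorem cbi_mv_diff (A : MvPolynomial (Fin 2) ℂ) :
    Differentiable ℂ (fun p : ℂ × ℂ => MvPolynomial.eval ![p.1, p.2] A) := by
  induction A using MvPolynomial.induction_on with
  | C a => simp
  | add p q hp hq =>
    simp only [map_add]
    exact hp.add hq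
  | mul_X p n hp =>
    simp only [map_mul, MvPolynomial.eval_X]
    fin_cases n
    · exact hp.mul differentiable_fst
    · exact hp.mul differentiable_snd

theorem cbi_diff {h : ℂ × ℂ → ℂ × ℂ} (hh : IsPolyMap h) : Differentiable ℂ h := by
  obtain ⟨A, B, hAB⟩ := hh
  have : h = fun p => (MvPolynomial.eval ![p.1, p.2] A, MvPolynomial.eval ![p.1, p.2] B) :=
    funext hAB
  rw [this]
  exact (cbi_mv_diff A).prodMk (cbi_mv_diff B)

private theorem cbi_not_bdd {f : ℂ × ℂ → ℂ × ℂ} {p : ℂ × ℂ} (hp : p ∈ Omega f) :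
    ¬ ∃ M : ℝ, ∀ n : ℕ, ‖(f^[n] p).1‖ ≤ M := by
  rintro ⟨M, hM⟩
  obtain ⟨n, hn⟩ := (hp.1.eventually_gt_atTop M).exists
  exact absurd (hM n) (not_le.2 hn)

private theorem cbi_iter {f g h : ℂ × ℂ → ℂ × ℂ} (hc : h ∘ f = g ∘ h) (n : ℕ) (p : ℂ × ℂ) :
    h (f^[n] p) = g^[n] (h p) := by
  have : Function.Semiconj h f g := fun x => congrFun hc x
  exact this.iterate_right n p

private theorem cbi_maps {l : ℕ} {b : ℤ → ℂ} {Q : ℤ → ℂ[X]}
    (hD' : IsData l b Q) {f h h' : ℂ × ℂ → ℂ × ℂ} (hh' : Continuous h')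
    (hl : Function.LeftInverse h' h)
    (hc : h ∘ f = comp b Q 0 l ∘ h) (p : ℂ × ℂ) (hp : p ∈ Omega f) :
    h p ∈ Omega (comp b Q 0 l) := by
  rcases dichotomy hD' (h p) with h1 | ⟨M, hM⟩
  · exact h1
  · exfalso
    apply cbi_not_bdd hp
    have hcomp : IsCompact (Metric.closedBall (0 : ℂ × ℂ) M) := isCompact_closedBall 0 M
    obtain ⟨M', hM'⟩ := ((hcomp.image hh').isBounded).exists_norm_le
    refine ⟨M', fun n => ?_⟩
    have e1 : f^[n] p = h' ((comp b Q 0 l)^[n] (h p)) := by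
      rw [← cbi_iter hc, hl]
    have e2 : ‖f^[n] p‖ ≤ M' := by
      apply hM'
      rw [e1]
      apply Set.mem_image_of_mem
      rw [Metric.mem_closedBall, dist_zero_right, Prod.norm_def]
      exact max_le (hM n).1 (hM n).2
    exact le_trans (by rw [Prod.norm_def]; exact le_max_left _ _) e2

/-- The map of surfaces induced by a semiconjugacy. -/
def cbiMap {f g h : ℂ × ℂ → ℂ × ℂ} (hc : h ∘ f = g ∘ h) (hm : ∀ p ∈ Omega f, h p ∈ Omega g) :
    Surf f → Surf g :=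
  Quotient.map' (s₁ := orb f) (s₂ := orb g) (fun p => ⟨h p.1, hm p.1 p.2⟩) (by
    rintro p q ⟨n, m, e⟩
    refine ⟨n, m, ?_⟩
    change g^[n] (h p.1) = g^[m] (h q.1)
    rw [← cbi_iter hc, ← cbi_iter hc, e])

private theorem cbiMap_mk {f g h : ℂ × ℂ → ℂ × ℂ} (hc : h ∘ f = g ∘ h)
    (hm : ∀ p ∈ Omega f, h p ∈ Omega g) (p : ℂ × ℂ) (hp : p ∈ Omega f) :
    cbiMap hc hm (mk f p hp) = mk g (h p) (hm p hp) := rfl

private theorem cbi_ind {f : ℂ × ℂ → ℂ × ℂ} {C : Surf f → Prop}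
    (h : ∀ p hp, C (mk f p hp)) (x : Surf f) : C x := by
  induction x using Quotient.inductionOn with
  | h q => exact h q.1 q.2

private theorem cbi_holo {f g h : ℂ × ℂ → ℂ × ℂ} (hh : IsPolyMap h) (hc : h ∘ f = g ∘ h)
    (hm : ∀ p ∈ Omega f, h p ∈ Omega g) : IsHolo f g (cbiMap hc hm) := by
  intro p hp
  refine ⟨Set.univ, h, isOpen_univ, Set.mem_univ _, (cbi_diff hh).differentiableOn, ?_⟩
  intro q _ hq
  exact ⟨hm q hq, rfl⟩

theorem biholo_of_conj {k l : ℕ} {a b : ℤ → ℂ} {P Q : ℤ → ℂ[X]} (hD : IsData k a P)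
    (hD' : IsData l b Q) {h : ℂ × ℂ → ℂ × ℂ} (hh : IsPolyAut h)
    (hc : h ∘ comp a P 0 k = comp b Q 0 l ∘ h) :
    Biholo (comp a P 0 k) (comp b Q 0 l) := by
  obtain ⟨hp, h', hp', hl, hr⟩ := hh
  have hc' : h' ∘ comp b Q 0 l = comp a P 0 k ∘ h' := by
    funext x
    have e := congrFun hc (h' x)
    simp only [Function.comp_apply] at e ⊢
    rw [hr] at e
    rw [← e, hl]
  have hm := cbi_maps hD' (cbi_diff hp').continuous hl hc
  have hm' := cbi_maps hD (cbi_diff hp).continuous hr hc'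
  refine ⟨⟨cbiMap hc hm, cbiMap hc' hm', ?_, ?_⟩, cbi_holo hp hc hm, cbi_holo hp' hc' hm'⟩
  · intro x
    induction x using cbi_ind with
    | h p hpp =>
      rw [cbiMap_mk, cbiMap_mk]
      congr 1
      exact hl p
  · intro x
    induction x using cbi_ind with
    | h p hpp =>
      rw [cbiMap_mk, cbiMap_mk]
      congr 1
      exact hr p

theorem biholo_trans {f g h : ℂ × ℂ → ℂ × ℂ} (h1 : Biholo f g) (h2 : Biholo g h) :
    Biholo f h := by
  have key : ∀ {f g h : ℂ × ℂ → ℂ × ℂ} {Φ : Surf f → Surf g} {Φ' : Surf g → Surf h},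
      IsHolo f g Φ → IsHolo g h Φ' → IsHolo f h (Φ' ∘ Φ) := by
    intro f g h Φ Φ' H1 H2 p hp
    obtain ⟨U, φ, hU, hpU, hφ, hφ2⟩ := H1 p hp
    obtain ⟨hq, -⟩ := hφ2 p hpU hp
    obtain ⟨U', φ', hU', hpU', hφ', hφ2'⟩ := H2 (φ p) hq
    refine ⟨U ∩ φ ⁻¹' U', φ' ∘ φ, hφ.continuousOn.isOpen_inter_preimage hU hU', ⟨hpU, hpU'⟩,
      hφ'.comp (hφ.mono Set.inter_subset_left) (fun x hx => hx.2), ?_⟩
    intro q hqU hqo
    obtain ⟨e1, e2⟩ := hφ2 q hqU.1 hqo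
    obtain ⟨e3, e4⟩ := hφ2' (φ q) hqU.2 e1
    refine ⟨e3, ?_⟩
    rw [Function.comp_apply, e2, e4]
    rfl
  obtain ⟨Φ, H1, H2⟩ := h1
  obtain ⟨Φ', H3, H4⟩ := h2
  have K1 := key (f := f) (g := g) (h := h) (Φ := ⇑Φ) (Φ' := ⇑Φ') H1 H3
  have K2 := key (f := h) (g := g) (h := f) (Φ := ⇑Φ'.symm) (Φ' := ⇑Φ.symm) H4 H2
  exact ⟨Equiv.trans Φ Φ', K1, K2⟩

theorem biholo_symm {f g : ℂ × ℂ → ℂ × ℂ} (h1 : Biholo f g) : Biholo g f := by
  obtain ⟨Φ, H1, H2⟩ := h1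
  exact ⟨Φ.symm, H2, by rwa [Equiv.symm_symm]⟩

end HEN
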