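import Mathlib

/-! # The chain lemma -/

noncomputable section

namespace HEN

namespace Chain

structure Sys (D : ℤ → ℚ) (d : ℤ → ℕ) (k dd : ℕ) : Prop where
  hk : 0 < k
  hpos : ∀ i, 0 < D i
  hd : ∀ i, 2 ≤ d i
  hD : ∀ i, D (i + 1) = d i * D i
  hper : ∀ i, d (i + k) = d i
  hDk : ∀ i, D (i + k) = dd * D i

def InE (D : ℤ → ℚ) (d : ℤ → ℕ) (e : ℚ) : Prop :=
  (∃ j, e = D (j + 1) + D j) ∨ ∃ (j : ℤ) (n : ℕ), 1 ≤ n ∧ n < d j ∧ e = n * D j

variable {D D' : ℤ → ℚ} {d d' : ℤ → ℕ} {k l dd : ℕ}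

theorem Sys.step (S : Sys D d k dd) (i : ℤ) : 2 * D i ≤ D (i + 1) := by
  rw [S.hD]
  have h1 := S.hpos i
  have h2 : (2 : ℚ) ≤ d i := by exact_mod_cast S.hd i
  nlinarith

theorem Sys.mono (S : Sys D d k dd) : StrictMono D := by
  refine strictMono_int_of_lt_succ (fun i => ?_)
  have := S.step i
  have := S.hpos i
  linarith

theorem Sys.L_lt (S : Sys D d k dd) (i : ℤ) : D (i + 1) + D i < 2 * D (i + 1) := by
  have := S.step i
  have := S.hpos i
  linarith

theorem Sys.lt_L (S : Sys D d k dd) (i : ℤ) : D (i + 1) < D (i + 1) + D i := by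
  have := S.hpos i
  linarith

theorem Sys.Lmono (S : Sys D d k dd) : StrictMono (fun i => D (i + 1) + D i) := by
  refine strictMono_int_of_lt_succ (fun i => ?_)
  have h1 := S.mono (show i < i + 1 by omega)
  have h2 := S.mono (show i + 1 < i + 1 + 1 by omega)
  linarith

theorem Sys.mult (S : Sys D d k dd) (i : ℤ) (n : ℕ) : ∃ N : ℕ, D (i + n) = N * D i := by
  induction n with
  | zero => exact ⟨1, by simp⟩
  | succ n ih =>
    obtain ⟨N, hN⟩ := ih
    refine ⟨d (i + n) * N, ?_⟩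
    have : i + ((n + 1 : ℕ) : ℤ) = (i + n) + 1 := by push_cast; ring
    rw [this, S.hD, hN]
    push_cast
    ring

theorem Sys.mult' (S : Sys D d k dd) {i j : ℤ} (h : i ≤ j) : ∃ N : ℕ, D j = N * D i := by
  obtain ⟨n, rfl⟩ : ∃ n : ℕ, j = i + n := ⟨(j - i).toNat, by omega⟩
  exact S.mult i n

theorem Sys.L_eq (S : Sys D d k dd) (i : ℤ) : D (i + 1) + D i = ((d i + 1 : ℕ) : ℚ) * D i := by
  rw [S.hD]
  push_cast
  ring

/-- Elements of `E` that are at least `D j`. -/
theorem Sys.caseE (S : Sys D d k dd) {e : ℚ} (he : InE D d e) {j : ℤ} (h : D j ≤ e) :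
    e = D j + D (j - 1) ∨ ∃ N : ℕ, e = N * D j := by
  rcases he with ⟨i, rfl⟩ | ⟨i, n, hn1, hn2, rfl⟩
  · rcases lt_trichotomy i (j - 1) with hi | hi | hi
    · exfalso
      have h1 := S.L_lt i
      have h2 : D (i + 1) ≤ D (j - 1) := S.mono.monotone (by omega)
      have h3 := S.step (j - 1)
      rw [sub_add_cancel] at h3
      linarith
    · left
      rw [hi, sub_add_cancel]
    · right
      obtain ⟨N, hN⟩ := S.mult' (show j ≤ i by omega)
      refine ⟨(d i + 1) * N, ?_⟩
      rw [S.L_eq, hN]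
      push_cast
      ring
  · rcases lt_or_ge i j with hi | hi
    · exfalso
      have h1 : (n : ℚ) < d i := by exact_mod_cast hn2
      have h2 := S.hpos i
      have h3 : (n : ℚ) * D i < D (i + 1) := by
        rw [S.hD]
        exact mul_lt_mul_of_pos_right h1 h2
      have h4 : D (i + 1) ≤ D j := S.mono.monotone (by omega)
      linarith
    · right
      obtain ⟨N, hN⟩ := S.mult' hi
      exact ⟨n * N, by rw [hN]; push_cast; ring⟩

theorem Sys.per_mul (S : Sys D d k dd) (i : ℤ) (m : ℕ) : d (i + m * k) = d i := by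
  induction m with
  | zero => simp
  | succ m ih =>
    have : i + ((m + 1 : ℕ) : ℤ) * k = (i + m * k) + k := by push_cast; ring
    rw [this, S.hper, ih]

theorem Sys.Dk_mul (S : Sys D d k dd) (i : ℤ) (m : ℕ) : D (i + m * k) = dd ^ m * D i := by
  induction m with
  | zero => simp
  | succ m ih =>
    have : i + ((m + 1 : ℕ) : ℤ) * k = (i + m * k) + k := by push_cast; ring
    rw [this, S.hDk, ih, pow_succ]
    ring

theorem Sys.div_all (S : Sys D d k dd) {y : ℚ} (hy : 0 < y) {t₀ : ℤ}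
    (h : ∀ t, t₀ ≤ t → ∃ N : ℕ, D (t + 1) + D t = N * y) (t : ℤ) :
    (y / D t₀).num.natAbs ∣ d t + 1 := by
  set x := y / D t₀ with hx
  have hx0 : 0 < x := div_pos hy (S.hpos _)
  set p := x.num.natAbs with hp
  have hxpq : x * x.den = p := by
    have h1 := Rat.mul_den_eq_num x
    rw [h1, hp]
    have h2 : 0 < x.num := Rat.num_pos.2 hx0
    have h3 : ((x.num.natAbs : ℕ) : ℤ) = x.num := Int.natAbs_of_nonneg h2.le
    rw [← Int.cast_natCast, h3]
  have hcop : Nat.Coprime p x.den := x.reduced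
  -- main induction
  have main : ∀ n : ℕ, ∃ M : ℕ, D (t₀ + n) = M * D t₀ ∧ Nat.Coprime p M := by
    have key : ∀ n : ℕ, ∀ M : ℕ, D (t₀ + n) = M * D t₀ → Nat.Coprime p M →
        p ∣ d (t₀ + n) + 1 := by
      intro n M hM hMc
      obtain ⟨N, hN⟩ := h (t₀ + n) (by omega)
      rw [S.L_eq, hM] at hN
      have h1 := S.hpos t₀
      have h2 : y = x * D t₀ := by
        rw [hx]
        field_simp
      rw [h2] at hN
      have h3 : (((d (t₀ + n) + 1 : ℕ) : ℚ) * M) = N * x := by
        have : ((((d (t₀ + n) + 1 : ℕ) : ℚ) * M)) * D t₀ = (N * x) * D t₀ := by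
          linear_combination hN
        exact mul_right_cancel₀ h1.ne' this
      have h4 : ((x.den * ((d (t₀ + n) + 1) * M) : ℕ) : ℚ) = ((N * p : ℕ) : ℚ) := by
        push_cast
        push_cast at h3
        rw [h3, ← hxpq]
        ring
      have h5 : x.den * ((d (t₀ + n) + 1) * M) = N * p := by exact_mod_cast h4
      have h6 : p ∣ x.den * ((d (t₀ + n) + 1) * M) := h5 ▸ Dvd.intro_left N rfl
      have h7 : p ∣ (d (t₀ + n) + 1) * M := hcop.dvd_of_dvd_mul_left h6
      exact hMc.dvd_of_dvd_mul_right h7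
    intro n
    induction n with
    | zero => exact ⟨1, by simp, Nat.coprime_one_right p⟩
    | succ n ih =>
      obtain ⟨M, hM, hMc⟩ := ih
      have h1 := key n M hM hMc
      refine ⟨d (t₀ + n) * M, ?_, ?_⟩
      · have : t₀ + ((n + 1 : ℕ) : ℤ) = (t₀ + n) + 1 := by push_cast; ring
        rw [this, S.hD, hM]
        push_cast
        ring
      · have h2 : Nat.Coprime (d (t₀ + n) + 1) (d (t₀ + n)) := by
          simp [Nat.coprime_comm]
        exact Nat.Coprime.mul_right (Nat.Coprime.coprime_dvd_left h1 h2) hMc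
  have key : ∀ n : ℕ, p ∣ d (t₀ + n) + 1 := by
    intro n
    obtain ⟨M, hM, hMc⟩ := main n
    obtain ⟨M', hM', hMc'⟩ := main (n + 1)
    -- repeat the computation
    obtain ⟨N, hN⟩ := h (t₀ + n) (by omega)
    rw [S.L_eq, hM] at hN
    have h1 := S.hpos t₀
    have h2 : y = x * D t₀ := by
      rw [hx]
      field_simp
    rw [h2] at hN
    have h3 : (((d (t₀ + n) + 1 : ℕ) : ℚ) * M) = N * x := by
      have : ((((d (t₀ + n) + 1 : ℕ) : ℚ) * M)) * D t₀ = (N * x) * D t₀ := by
        linear_combination hN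
      exact mul_right_cancel₀ h1.ne' this
    have h4 : ((x.den * ((d (t₀ + n) + 1) * M) : ℕ) : ℚ) = ((N * p : ℕ) : ℚ) := by
      push_cast
      push_cast at h3
      rw [h3, ← hxpq]
      ring
    have h5 : x.den * ((d (t₀ + n) + 1) * M) = N * p := by exact_mod_cast h4
    have h6 : p ∣ x.den * ((d (t₀ + n) + 1) * M) := h5 ▸ Dvd.intro_left N rfl
    have h7 : p ∣ (d (t₀ + n) + 1) * M := hcop.dvd_of_dvd_mul_left h6
    exact hMc.dvd_of_dvd_mul_right h7
  -- periodicity
  obtain ⟨m, hm⟩ : ∃ m : ℕ, t₀ ≤ t + m * k := by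
    refine ⟨(t₀ - t).toNat, ?_⟩
    have h1 : (1 : ℤ) ≤ k := by exact_mod_cast S.hk
    have h2 : t₀ - t ≤ (t₀ - t).toNat := Int.self_le_toNat _
    have h3 : (0 : ℤ) ≤ (t₀ - t).toNat := Int.natCast_nonneg _
    nlinarith
  have h1 := key (t + m * k - t₀).toNat
  rw [Int.toNat_of_nonneg (by omega)] at h1
  have e : t₀ + (t + m * k - t₀) = t + m * k := by ring
  rw [e, S.per_mul] at h1
  exact h1

theorem not_lt_of_coincidence (S : Sys D d k dd) (S' : Sys D' d' l dd)
    (h1 : ∀ i, InE D' d' (D (i + 1) + D i)) {i j : ℤ}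
    (h : D (i + 1) + D i = D' (j + 1) + D' j) : ¬ d i < d' j := by
  intro hab
  have hmul : ∀ t, i + 1 ≤ t → ∃ N : ℕ, D (t + 1) + D t = N * D' (j + 1) := by
    intro t ht
    have h2 : D (i + 1) + D i < D (t + 1) + D t := S.Lmono (show i < t by omega)
    have h3 := S'.lt_L j
    have h4 : D' (j + 1) ≤ D (t + 1) + D t := by linarith
    rcases S'.caseE (h1 t) h4 with h5 | h5
    · exfalso
      rw [add_sub_cancel_right] at h5
      linarith
    · exact h5
  have h2 := S.div_all (S'.hpos (j + 1)) hmul i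
  set x := D' (j + 1) / D (i + 1) with hx
  have hx0 : 0 < x := div_pos (S'.hpos _) (S.hpos _)
  set p := x.num.natAbs with hp
  have hxpq : x * x.den = p := by
    have h1 := Rat.mul_den_eq_num x
    rw [h1, hp]
    have h2 : 0 < x.num := Rat.num_pos.2 hx0
    have h3 : ((x.num.natAbs : ℕ) : ℤ) = x.num := Int.natAbs_of_nonneg h2.le
    rw [← Int.cast_natCast, h3]
  obtain ⟨s, hs⟩ := h2
  have hDi := S.hpos i
  have hDi1 := S.hpos (i + 1)
  rw [S.L_eq, S'.L_eq] at h
  have hxe : x * ((d i : ℚ) * ((d' j : ℚ) + 1)) = (d' j : ℚ) * ((d i : ℚ) + 1) := by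
    rw [hx, S'.hD, S.hD]
    have hdi : (d i : ℚ) ≠ 0 := by
      have := S.hd i
      exact_mod_cast (by omega : d i ≠ 0)
    push_cast at h
    field_simp
    linear_combination (-(d' j : ℚ)) * h
  have hx2 : ((p * (d i * (d' j + 1)) : ℕ) : ℚ) = ((x.den * (d' j * (d i + 1)) : ℕ) : ℚ) := by
    push_cast
    rw [← hxe, ← hxpq]
    ring
  have hx3 : p * (d i * (d' j + 1)) = x.den * (d' j * (d i + 1)) := by exact_mod_cast hx2
  have hp0 : 0 < p := by
    rw [hp]
    exact Int.natAbs_pos.2 (Rat.num_pos.2 hx0).ne'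
  rw [hs] at hx3
  have hx4 : d i * (d' j + 1) = x.den * (d' j * s) := by
    have : p * (d i * (d' j + 1)) = p * (x.den * (d' j * s)) := by
      rw [hx3]; ring
    exact Nat.eq_of_mul_eq_mul_left hp0 this
  have h6 : d' j ∣ d i * (d' j + 1) := by
    rw [hx4]
    exact ⟨x.den * s, by ring⟩
  have h7 : Nat.Coprime (d' j) (d' j + 1) := by simp
  have h8 : d' j ∣ d i := h7.dvd_of_dvd_mul_right h6
  have h9 := Nat.le_of_dvd (by have := S.hd i; omega) h8
  omega

theorem two_le_dd (S : Sys D d k dd) : 2 ≤ dd := by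
  have h1 : D 0 < D (0 + k) := S.mono (by have := S.hk; omega)
  rw [S.hDk] at h1
  have h2 := S.hpos 0
  have h3 : (1 : ℚ) < dd := by
    by_contra hc
    push Not at hc
    nlinarith
  exact_mod_cast h3

/-- a coincidence implies the conclusion. -/
theorem of_coincidence (S : Sys D d k dd) (S' : Sys D' d' l dd)
    (h1 : ∀ i, InE D' d' (D (i + 1) + D i)) (h2 : ∀ i, InE D d (D' (i + 1) + D' i)) {i j : ℤ}
    (h : D (i + 1) + D i = D' (j + 1) + D' j) : k = l ∧ ∃ r : ℤ, ∀ j, D' j = D (j + r) := by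
  have ha : d i = d' j := by
    have h3 := not_lt_of_coincidence S S' h1 h
    have h4 := not_lt_of_coincidence S' S h2 h.symm
    omega
  have hDD : D i = D' j := by
    rw [S.L_eq, S'.L_eq, ha] at h
    have : ((d' j + 1 : ℕ) : ℚ) ≠ 0 := by
      exact_mod_cast (by omega : d' j + 1 ≠ 0)
    exact mul_left_cancel₀ this h
  have hdesc : ∀ n : ℕ, D (i - n) = D' (j - n) := by
    intro n
    induction n with
    | zero => simpa using hDD
    | succ n ih =>
      have e1 : i - ((n + 1 : ℕ) : ℤ) = (i - n) - 1 := by push_cast; ring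
      have e2 : j - ((n + 1 : ℕ) : ℤ) = (j - n) - 1 := by push_cast; ring
      rw [e1, e2]
      generalize i - (n : ℤ) = s at ih ⊢
      generalize j - (n : ℤ) = t at ih ⊢
      have h3 := h1 (s - 1)
      rw [sub_add_cancel] at h3
      have h4 := S.hpos (s - 1)
      have h5 : D' t ≤ D s + D (s - 1) := by linarith
      rcases S'.caseE h3 h5 with h6 | ⟨N, h6⟩
      · linarith
      · exfalso
        have h7 := S.L_lt (s - 1)
        rw [sub_add_cancel] at h7
        have h8 := S'.hpos t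
        rw [← ih] at h6 h8
        have h9 : (1 : ℚ) < N := by
          by_contra hc
          push Not at hc
          nlinarith
        have h10 : (N : ℚ) < 2 := by
          by_contra hc
          push Not at hc
          nlinarith
        have h11 : 1 < N := by exact_mod_cast h9
        have h12 : N < 2 := by exact_mod_cast h10
        omega
  have hkl : k = l := by
    have h3 := hdesc (k * l)
    have h4 := S.Dk_mul (i - (k * l : ℕ)) l
    have h5 := S'.Dk_mul (j - (k * l : ℕ)) k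
    have e1 : i - ((k * l : ℕ) : ℤ) + l * k = i := by push_cast; ring
    have e2 : j - ((k * l : ℕ) : ℤ) + k * l = j := by push_cast; ring
    rw [e1] at h4
    rw [e2] at h5
    rw [h3] at h4
    rw [hDD, h5] at h4
    have h6 := (S'.hpos (j - (k * l : ℕ))).ne'
    have h7 : (dd : ℚ) ^ k = dd ^ l := mul_right_cancel₀ h6 h4
    have h8 : dd ^ k = dd ^ l := by exact_mod_cast h7
    exact Nat.pow_right_injective (two_le_dd S) h8
  refine ⟨hkl, i - j, fun t => ?_⟩
  subst hkl
  obtain ⟨m, hm⟩ : ∃ m : ℕ, t - m * k ≤ j := by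
    refine ⟨(t - j).toNat, ?_⟩
    have h1 : (1 : ℤ) ≤ k := by exact_mod_cast S.hk
    have h2 : t - j ≤ (t - j).toNat := Int.self_le_toNat _
    have h3 : (0 : ℤ) ≤ (t - j).toNat := Int.natCast_nonneg _
    nlinarith
  have h3 := S'.Dk_mul (t - m * k) m
  have h4 := S.Dk_mul (t + (i - j) - m * k) m
  rw [sub_add_cancel] at h3 h4
  rw [h3, h4]
  congr 1
  have h5 := hdesc (j - (t - m * k)).toNat
  rw [Int.toNat_of_nonneg (by omega)] at h5
  have e1 : j - (j - (t - m * k)) = t - m * k := by ring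
  have e2 : i - (j - (t - m * k)) = t + (i - j) - m * k := by ring
  rw [e1, e2] at h5
  exact h5.symm

theorem Sys.grow (S : Sys D d k dd) (i : ℤ) (n : ℕ) : 2 ^ n * D i ≤ D (i + n) := by
  induction n with
  | zero => simp
  | succ n ih =>
    have : i + ((n + 1 : ℕ) : ℤ) = (i + n) + 1 := by push_cast; ring
    rw [this, pow_succ]
    have := S.step (i + n)
    linarith

/-- interlacing index -/
theorem Sys.exists_between (S : Sys D d k dd) {y : ℚ} (hy : 0 < y)
    (hne : ∀ i, D (i + 1) + D i ≠ y) :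
    ∃ i, D (i + 1) + D i < y ∧ y < D (i + 1 + 1) + D (i + 1) := by
  -- the set of i with L i < y
  have hex : ∃ i, D (i + 1) + D i < y := by
    obtain ⟨n, hn⟩ := pow_unbounded_of_one_lt ((D 1 + D 0) / y) (show (1 : ℚ) < 2 by norm_num)
    refine ⟨-n, ?_⟩
    have h1 := S.grow (-n + 1) n
    have h2 := S.grow (-n) n
    have e1 : -(n : ℤ) + 1 + n = 1 := by ring
    have e2 : -(n : ℤ) + n = 0 := by ring
    rw [e1] at h1
    rw [e2] at h2
    rw [div_lt_iff₀ hy] at hn
    have h3 : (2 : ℚ) ^ n * (D (-n + 1) + D (-n)) < 2 ^ n * y := by linarith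
    exact lt_of_mul_lt_mul_left h3 (by positivity)
  have hbd : ∃ b : ℤ, ∀ z, D (z + 1) + D z < y → z ≤ b := by
    obtain ⟨n, hn⟩ := pow_unbounded_of_one_lt (y / D 0) (show (1 : ℚ) < 2 by norm_num)
    refine ⟨n, fun z hz => ?_⟩
    by_contra hc
    push Not at hc
    have h1 := S.grow 0 n
    rw [zero_add] at h1
    have h2 : D (n : ℤ) < D z := S.mono hc
    have h3 := S.hpos (z + 1)
    rw [div_lt_iff₀ (S.hpos 0)] at hn
    linarith
  obtain ⟨i, hi, hmax⟩ := Int.exists_greatest_of_bdd hbd hex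
  refine ⟨i, hi, ?_⟩
  by_contra hc
  push Not at hc
  have h1 := hmax (i + 1) (lt_of_le_of_ne hc (hne (i + 1)))
  omega

theorem div_of_no_coincidence (S : Sys D d k dd) (S' : Sys D' d' l dd)
    (h1 : ∀ i, InE D' d' (D (i + 1) + D i)) (h2 : ∀ i, InE D d (D' (i + 1) + D' i))
    (hno : ∀ i j, D (i + 1) + D i ≠ D' (j + 1) + D' j) (j t : ℤ) : d' j ∣ d t + 1 := by
  obtain ⟨i, hi1, hi2⟩ := S.exists_between (y := D' (j + 1) + D' j)
    (add_pos (S'.hpos _) (S'.hpos _)) (fun i => hno i j)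
  have hmul : ∀ t, i + 1 ≤ t → ∃ N : ℕ, D (t + 1) + D t = N * D' (j + 1) := by
    intro t ht
    have h3 : D (i + 1 + 1) + D (i + 1) ≤ D (t + 1) + D t := S.Lmono.monotone ht
    have h4 := S'.lt_L j
    rcases S'.caseE (h1 t) (show D' (j + 1) ≤ D (t + 1) + D t by linarith) with h5 | h5
    · exfalso
      rw [add_sub_cancel_right] at h5
      linarith
    · exact h5
  have h3 := S.div_all (S'.hpos (j + 1)) hmul t
  obtain ⟨M, hM⟩ : ∃ M : ℕ, D' (j + 1) + D' j = M * D (i + 1) := by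
    have h4 := S.lt_L i
    rcases S.caseE (h2 j) (show D (i + 1) ≤ D' (j + 1) + D' j by linarith) with h5 | h5
    · exfalso
      rw [add_sub_cancel_right] at h5
      linarith
    · exact h5
  set x := D' (j + 1) / D (i + 1) with hx
  have hx0 : 0 < x := div_pos (S'.hpos _) (S.hpos _)
  set p := x.num.natAbs with hp
  have hxpq : x * x.den = p := by
    have h1 := Rat.mul_den_eq_num x
    rw [h1, hp]
    have h2 : 0 < x.num := Rat.num_pos.2 hx0
    have h3 : ((x.num.natAbs : ℕ) : ℤ) = x.num := Int.natAbs_of_nonneg h2.le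
    rw [← Int.cast_natCast, h3]
  have hDi1 := (S.hpos (i + 1)).ne'
  have hxe : x * ((d' j : ℚ) + 1) = d' j * M := by
    have h4 := hM
    rw [S'.L_eq] at h4
    have h5 := S'.hD j
    rw [hx]
    push_cast at h4
    field_simp
    rw [h5]
    linear_combination (d' j : ℚ) * h4
  have hx2 : ((p * (d' j + 1) : ℕ) : ℚ) = ((x.den * (d' j * M) : ℕ) : ℚ) := by
    push_cast
    rw [← hxe, ← hxpq]
    ring
  have hx3 : p * (d' j + 1) = x.den * (d' j * M) := by exact_mod_cast hx2
  have h6 : d' j ∣ p * (d' j + 1) := by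
    rw [hx3]
    exact ⟨x.den * M, by ring⟩
  have h7 : Nat.Coprime (d' j) (d' j + 1) := by simp
  have h8 : d' j ∣ p := h7.dvd_of_dvd_mul_right h6
  exact h8.trans h3

theorem pow_contra (S : Sys D d k dd) (S' : Sys D' d' l dd) (h : ∀ t, d t = 2)
    (h' : ∀ t, d' t = 3) : False := by
  have h1 : ∀ n : ℕ, D (0 + n) = 2 ^ n * D 0 := by
    intro n
    induction n with
    | zero => simp
    | succ n ih =>
      have : (0 : ℤ) + ((n + 1 : ℕ) : ℤ) = (0 + n) + 1 := by push_cast; ring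
      rw [this, S.hD, ih, h, pow_succ]
      push_cast
      ring
  have h2 : ∀ n : ℕ, D' (0 + n) = 3 ^ n * D' 0 := by
    intro n
    induction n with
    | zero => simp
    | succ n ih =>
      have : (0 : ℤ) + ((n + 1 : ℕ) : ℤ) = (0 + n) + 1 := by push_cast; ring
      rw [this, S'.hD, ih, h', pow_succ]
      push_cast
      ring
  have h3 := h1 k
  have h4 := h2 l
  rw [S.hDk] at h3
  rw [S'.hDk] at h4
  have h5 : (dd : ℚ) = 2 ^ k := mul_right_cancel₀ (S.hpos 0).ne' h3
  have h6 : (dd : ℚ) = 3 ^ l := mul_right_cancel₀ (S'.hpos 0).ne' h4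
  have h7 : (2 : ℕ) ^ k = 3 ^ l := by
    have : (2 : ℚ) ^ k = 3 ^ l := by rw [← h5, ← h6]
    exact_mod_cast this
  have h8 : Even (2 ^ k) := by
    rw [Nat.even_pow]
    exact ⟨even_two, S.hk.ne'⟩
  have h9 : Odd (3 ^ l) := Odd.pow (by decide)
  rw [h7] at h8
  exact (Nat.not_even_iff_odd.2 h9) h8

end Chain

open Chain in
theorem chain {D D' : ℤ → ℚ} {d d' : ℤ → ℕ} {k l dd : ℕ} (hk : 0 < k) (hl : 0 < l)
    (hpos : ∀ i, 0 < D i) (hpos' : ∀ i, 0 < D' i) (hd : ∀ i, 2 ≤ d i) (hd' : ∀ i, 2 ≤ d' i)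
    (hD : ∀ i, D (i + 1) = d i * D i) (hD' : ∀ i, D' (i + 1) = d' i * D' i)
    (hper : ∀ i, d (i + k) = d i) (hper' : ∀ i, d' (i + l) = d' i)
    (hDk : ∀ i, D (i + k) = dd * D i) (hDl : ∀ i, D' (i + l) = dd * D' i)
    (h1 : ∀ i, (∃ j, D (i + 1) + D i = D' (j + 1) + D' j) ∨
      ∃ (j : ℤ) (n : ℕ), 1 ≤ n ∧ n < d' j ∧ D (i + 1) + D i = n * D' j)
    (h2 : ∀ i, (∃ j, D' (i + 1) + D' i = D (j + 1) + D j) ∨
      ∃ (j : ℤ) (n : ℕ), 1 ≤ n ∧ n < d j ∧ D' (i + 1) + D' i = n * D j) :
    k = l ∧ ∃ r : ℤ, ∀ j, D' j = D (j + r) := by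
  have S : Sys D d k dd := ⟨hk, hpos, hd, hD, hper, hDk⟩
  have S' : Sys D' d' l dd := ⟨hl, hpos', hd', hD', hper', hDl⟩
  by_cases hc : ∃ i j, D (i + 1) + D i = D' (j + 1) + D' j
  · obtain ⟨i, j, h⟩ := hc
    exact of_coincidence S S' h1 h2 h
  · exfalso
    push Not at hc
    have e1 := div_of_no_coincidence S S' h1 h2 hc
    have e2 := div_of_no_coincidence S' S h2 h1 (fun i j => (hc j i).symm)
    have key : ∀ j t, (d t = 2 ∧ d' j = 3) ∨ (d t = 3 ∧ d' j = 2) := by
      intro j t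
      have f1 := e1 j t
      have f2 := e2 t j
      have g1 := Nat.le_of_dvd (by omega) f1
      have g2 := Nat.le_of_dvd (by omega) f2
      have g3 := hd t
      have g4 := hd' j
      have hne : d t ≠ d' j := by
        intro he
        rw [he] at f2
        have : d' j ∣ 1 := (Nat.dvd_add_right (dvd_refl _)).1 f2
        have := Nat.le_of_dvd one_pos this
        omega
      rcases (by omega : d' j = d t + 1 ∨ d t = d' j + 1) with h | h
      · left
        rw [h] at f2
        have h3 : d t ∣ d t + 2 := f2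
        have h4 : d t ∣ 2 := (Nat.dvd_add_right (dvd_refl _)).1 h3
        have := Nat.le_of_dvd two_pos h4
        omega
      · right
        rw [h] at f1
        have h3 : d' j ∣ d' j + 2 := f1
        have h4 : d' j ∣ 2 := (Nat.dvd_add_right (dvd_refl _)).1 h3
        have := Nat.le_of_dvd two_pos h4
        omega
    rcases key 0 0 with ⟨h3, h4⟩ | ⟨h3, h4⟩
    · refine pow_contra S S' (fun t => ?_) (fun t => ?_)
      · rcases key 0 t with h5 | h5 <;> omega
      · rcases key t 0 with h5 | h5 <;> omega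
    · refine pow_contra S' S (fun t => ?_) (fun t => ?_)
      · rcases key t 0 with h5 | h5 <;> omega
      · rcases key 0 t with h5 | h5 <;> omega

end HEN
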