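import Pool.Agent.Lib.MP_e79cb7_ag.Cmp
import Pool.Agent.Lib.MP_e79cb7_ag.CH1

/-! # The chain lemma for natural numbers -/

noncomputable section

namespace HEN

namespace ChainNat

/-- Extension of `Dp d` to the integers. -/
def ext (d : ℕ → ℕ) (k : ℕ) (dd : ℕ) (i : ℤ) : ℚ :=
  (dd : ℚ) ^ (i / (k : ℤ)) * (Dp d (i % (k : ℤ)).toNat : ℚ)

/-- Extension of `d`. -/
def dext (d : ℕ → ℕ) (k : ℕ) (i : ℤ) : ℕ := d (i % (k : ℤ)).toNat

theorem Dp_succ (d : ℕ → ℕ) (n : ℕ) : Dp d (n + 1) = Dp d n * d n := by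
  unfold Dp
  rw [Finset.prod_range_succ]

theorem Dp_pos {d : ℕ → ℕ} (hd : ∀ i, 2 ≤ d i) (n : ℕ) : 0 < Dp d n :=
  Finset.prod_pos (fun i _ => by have := hd i; omega)

theorem Dp_add (d : ℕ → ℕ) {k : ℕ} (hd : ∀ i, d (i + k) = d i) (i : ℕ) :
    Dp d (i + k) = Dp d k * Dp d i := by
  unfold Dp
  rw [Nat.add_comm, Finset.prod_range_add]
  congr 1
  refine Finset.prod_congr rfl (fun j _ => ?_)
  rw [Nat.add_comm, hd]

variable {d : ℕ → ℕ} {k : ℕ}

theorem ext_add (hk : 0 < k) {dd : ℕ} (hdd : dd ≠ 0) (i : ℤ) :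
    ext d k dd (i + k) = dd * ext d k dd i := by
  unfold ext
  have hk' : (k : ℤ) ≠ 0 := by exact_mod_cast hk.ne'
  have hdd' : (dd : ℚ) ≠ 0 := by exact_mod_cast hdd
  rw [Int.add_emod_right, Int.add_ediv_of_dvd_right (dvd_refl _), Int.ediv_self hk',
    zpow_add_one₀ hdd']
  ring

theorem ext_add_mul (hk : 0 < k) {dd : ℕ} (hdd : dd ≠ 0) (i m : ℤ) :
    ext d k dd (i + m * k) = (dd : ℚ) ^ m * ext d k dd i := by
  unfold ext
  have hk' : (k : ℤ) ≠ 0 := by exact_mod_cast hk.ne'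
  have hdd' : (dd : ℚ) ≠ 0 := by exact_mod_cast hdd
  rw [Int.add_mul_emod_self_right, Int.add_mul_ediv_right _ _ hk', zpow_add₀ hdd']
  ring

theorem ext_nat (hk : 0 < k) (hdk : ∀ i, d (i + k) = d i) (hd : ∀ i, 2 ≤ d i) (n : ℕ) :
    ext d k (Dp d k) n = Dp d n := by
  have hdd : Dp d k ≠ 0 := (Dp_pos hd k).ne'
  have h1 : ∀ m s : ℕ, Dp d (s + m * k) = Dp d k ^ m * Dp d s := by
    intro m s
    induction m with
    | zero => simp
    | succ m ih =>
      have : s + (m + 1) * k = (s + m * k) + k := by ring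
      rw [this, Dp_add d hdk, ih, pow_succ]
      ring
  unfold ext
  have e1 : ((n : ℤ) / (k : ℤ)) = ((n / k : ℕ) : ℤ) := by push_cast; rfl
  have e2 : ((n : ℤ) % (k : ℤ)).toNat = n % k := by
    have : ((n : ℤ) % (k : ℤ)) = ((n % k : ℕ) : ℤ) := by push_cast; rfl
    rw [this, Int.toNat_natCast]
  rw [e1, e2, zpow_natCast]
  have h2 := h1 (n / k) (n % k)
  rw [Nat.mul_comm, Nat.mod_add_div n k] at h2
  rw [h2]
  push_cast
  rfl

theorem ext_succ (hk : 0 < k) (hdk : ∀ i, d (i + k) = d i) (hd : ∀ i, 2 ≤ d i) (i : ℤ) :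
    ext d k (Dp d k) (i + 1) = dext d k i * ext d k (Dp d k) i := by
  have hk' : (k : ℤ) ≠ 0 := by exact_mod_cast hk.ne'
  have hkpos : (0 : ℤ) < k := by exact_mod_cast hk
  have hdd : Dp d k ≠ 0 := (Dp_pos hd k).ne'
  -- reduce to i = s natural < k
  have e0 : i = (i % (k : ℤ)) + (i / (k : ℤ)) * k := by
    have := Int.emod_add_mul_ediv i k
    linarith
  set m := i / (k : ℤ) with hm
  have hs : ∃ s : ℕ, i % (k : ℤ) = s := ⟨(i % (k : ℤ)).toNat, by
    rw [Int.toNat_of_nonneg (Int.emod_nonneg _ hk')]⟩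
  obtain ⟨s, hs⟩ := hs
  have e3 : dext d k i = d s := by
    unfold dext
    rw [hs, Int.toNat_natCast]
  rw [e3, e0, hs]
  have e1 : (s : ℤ) + m * k + 1 = ((s + 1 : ℕ) : ℤ) + m * k := by push_cast; ring
  rw [e1, ext_add_mul hk hdd, ext_add_mul hk hdd, ext_nat hk hdk hd, ext_nat hk hdk hd, Dp_succ]
  push_cast
  ring

theorem ext_pos (hd : ∀ i, 2 ≤ d i) (i : ℤ) : 0 < ext d k (Dp d k) i := by
  unfold ext
  have h1 : (0 : ℚ) < Dp d k := by exact_mod_cast Dp_pos hd k
  have h2 : (0 : ℚ) < Dp d (i % (k : ℤ)).toNat := by exact_mod_cast Dp_pos hd _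
  positivity

end ChainNat

open ChainNat in
theorem chain_nat {d d' : ℕ → ℕ} {k l m : ℕ} (hk : 0 < k) (hl : 0 < l) (hm : 1 ≤ m)
    (hd : ∀ i, 2 ≤ d i) (hd' : ∀ i, 2 ≤ d' i) (hdk : ∀ i, d (i + k) = d i)
    (hdl : ∀ i, d' (i + l) = d' i) (hdd : Dp d k = Dp d' l)
    (h1 : ∀ i, i < k → ∃ (u v j n : ℕ), j < l ∧ 1 ≤ n ∧ n ≤ d' j + 1 ∧ n ≠ d' j ∧
      Dp d k ^ u * (Dp d i * (d i + 1)) = Dp d k ^ v * (m * (Dp d' j * n)))
    (h2 : ∀ i, i < l → ∃ (u v j n : ℕ), j < k ∧ 1 ≤ n ∧ n ≤ d j + 1 ∧ n ≠ d j ∧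
      Dp d k ^ v * (m * (Dp d' i * (d' i + 1))) = Dp d k ^ u * (Dp d j * n)) :
    k = l ∧ ∃ r : ℕ, ∀ j : ℕ, m * Dp d' j = Dp d (j + r) := by
  have hdd0 : Dp d k ≠ 0 := (Dp_pos hd k).ne'
  have hddq : ((Dp d k : ℕ) : ℚ) ≠ 0 := by exact_mod_cast hdd0
  have hmq : (0 : ℚ) < m := by exact_mod_cast hm
  have hkz : (0 : ℤ) < k := by exact_mod_cast hk
  have hlz : (0 : ℤ) < l := by exact_mod_cast hl
  -- the two systems
  set A : ℤ → ℚ := fun i => ext d k (Dp d k) i with hA
  set B : ℤ → ℚ := fun i => m * ext d' l (Dp d' l) i with hBd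
  have hAnat : ∀ n : ℕ, A n = Dp d n := fun n => ext_nat hk hdk hd n
  have hBnat : ∀ n : ℕ, B n = m * Dp d' n := fun n => by
    simp only [hBd]
    rw [ext_nat hl hdl hd' n]
  have hAmul : ∀ i s : ℤ, A (i + s * k) = (Dp d k : ℚ) ^ s * A i := fun i s =>
    ext_add_mul hk hdd0 i s
  have hBmul : ∀ i s : ℤ, B (i + s * l) = (Dp d k : ℚ) ^ s * B i := fun i s => by
    simp only [hBd]
    rw [ext_add_mul hl (by rw [← hdd]; exact hdd0) i s, hdd]
    ring
  have hAs : ∀ i, A (i + 1) = dext d k i * A i := fun i => ext_succ hk hdk hd i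
  have hBs : ∀ i, B (i + 1) = dext d' l i * B i := fun i => by
    simp only [hBd]
    rw [ext_succ hl hdl hd' i]
    ring
  have hres := chain (D := A) (D' := B) (d := dext d k) (d' := dext d' l) (k := k) (l := l)
    (dd := Dp d k) hk hl (fun i => ext_pos hd i) (fun i => mul_pos hmq (ext_pos hd' i))
    (fun i => hd _) (fun i => hd' _) hAs hBs
    (fun i => by unfold dext; rw [Int.add_emod_right])
    (fun i => by unfold dext; rw [Int.add_emod_right])
    (fun i => by have := hAmul i 1; simpa using this)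
    (fun i => by have := hBmul i 1; simpa using this) ?_ ?_
  · obtain ⟨e, r, hr⟩ := hres
    refine ⟨e, ?_⟩
    -- r ≥ 0
    have hmono : StrictMono A := by
      refine strictMono_int_of_lt_succ (fun i => ?_)
      rw [hAs]
      have h3 : (2 : ℚ) ≤ dext d k i := by exact_mod_cast hd _
      have h4 := ext_pos (k := k) hd i
      simp only [hA] at h4 ⊢
      nlinarith
    have hr0 : 0 ≤ r := by
      by_contra hc
      push Not at hc
      have h3 := hr 0
      have h4 := hBnat 0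
      have h5 := hAnat 0
      have h6 : A r < A 0 := hmono hc
      rw [zero_add] at h3
      rw [← h3] at h6
      have h7 : B 0 = m := by
        have : B 0 = B ((0 : ℕ) : ℤ) := by simp
        rw [this, h4]
        simp [Dp]
      have h8 : A 0 = 1 := by
        have : A 0 = A ((0 : ℕ) : ℤ) := by simp
        rw [this, h5]
        simp [Dp]
      rw [h7, h8] at h6
      have : (1 : ℚ) ≤ m := by exact_mod_cast hm
      linarith
    obtain ⟨s, rfl⟩ : ∃ s : ℕ, r = s := ⟨r.toNat, by rw [Int.toNat_of_nonneg hr0]⟩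
    refine ⟨s, fun j => ?_⟩
    have h3 := hr j
    have h4 : A ((j : ℤ) + s) = Dp d (j + s) := by
      have := hAnat (j + s)
      push_cast at this
      exact this
    rw [h4, hBnat] at h3
    exact_mod_cast h3
  · -- h1
    intro i
    set t := i / (k : ℤ) with ht
    obtain ⟨s, hs⟩ : ∃ s : ℕ, i % (k : ℤ) = s := ⟨(i % (k : ℤ)).toNat, by
      rw [Int.toNat_of_nonneg (Int.emod_nonneg _ hkz.ne')]⟩
    have hsk : s < k := by
      have := Int.emod_lt_of_pos i hkz
      rw [hs] at this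
      exact_mod_cast this
    have e0 : i = s + t * k := by
      have := Int.emod_add_mul_ediv i k
      rw [hs] at this
      linarith
    obtain ⟨u, v, j, n, hj, hn1, hn2, hn3, he⟩ := h1 s hsk
    have hei : A (i + 1) + A i = (n : ℚ) * B (j + (t + v - u) * l) := by
      rw [hAs]
      have e3 : dext d k i = d s := by
        unfold dext
        rw [hs, Int.toNat_natCast]
      rw [e3, e0, hAmul, hBmul, hAnat, hBnat, zpow_sub₀ hddq, zpow_add₀ hddq, zpow_natCast,
        zpow_natCast]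
      have he' : (Dp d k : ℚ) ^ u * (Dp d s * (d s + 1)) =
          (Dp d k : ℚ) ^ v * (m * (Dp d' j * n)) := by exact_mod_cast he
      have hu : (Dp d k : ℚ) ^ u ≠ 0 := pow_ne_zero _ hddq
      field_simp
      linear_combination he'
    have hdj : dext d' l (j + (t + v - u) * l) = d' j := by
      unfold dext
      rw [Int.add_mul_emod_self_right]
      congr 1
      have : ((j : ℤ) % (l : ℤ)) = j := Int.emod_eq_of_lt (by positivity) (by exact_mod_cast hj)
      rw [this, Int.toNat_natCast]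
    rcases (by omega : n = d' j + 1 ∨ n < d' j) with h | h
    · left
      refine ⟨j + (t + v - u) * l, ?_⟩
      rw [hei, hBs, hdj, h]
      push_cast
      ring
    · right
      exact ⟨j + (t + v - u) * l, n, hn1, by rw [hdj]; exact h, hei⟩
  · intro i
    set t := i / (l : ℤ) with ht
    obtain ⟨s, hs⟩ : ∃ s : ℕ, i % (l : ℤ) = s := ⟨(i % (l : ℤ)).toNat, by
      rw [Int.toNat_of_nonneg (Int.emod_nonneg _ hlz.ne')]⟩
    have hsl : s < l := by
      have := Int.emod_lt_of_pos i hlz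
      rw [hs] at this
      exact_mod_cast this
    have e0 : i = s + t * l := by
      have := Int.emod_add_mul_ediv i l
      rw [hs] at this
      linarith
    obtain ⟨u, v, j, n, hj, hn1, hn2, hn3, he⟩ := h2 s hsl
    have hei : B (i + 1) + B i = (n : ℚ) * A (j + (t + u - v) * k) := by
      rw [hBs]
      have e3 : dext d' l i = d' s := by
        unfold dext
        rw [hs, Int.toNat_natCast]
      rw [e3, e0, hAmul, hBmul, hAnat, hBnat, zpow_sub₀ hddq, zpow_add₀ hddq, zpow_natCast,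
        zpow_natCast]
      have he' : (Dp d k : ℚ) ^ v * (m * (Dp d' s * (d' s + 1))) =
          (Dp d k : ℚ) ^ u * (Dp d j * n) := by exact_mod_cast he
      have hu : (Dp d k : ℚ) ^ v ≠ 0 := pow_ne_zero _ hddq
      field_simp
      linear_combination he'
    have hdj : dext d k (j + (t + u - v) * k) = d j := by
      unfold dext
      rw [Int.add_mul_emod_self_right]
      congr 1
      have : ((j : ℤ) % (k : ℤ)) = j := Int.emod_eq_of_lt (by positivity) (by exact_mod_cast hj)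
      rw [this, Int.toNat_natCast]
    rcases (by omega : n = d j + 1 ∨ n < d j) with h | h
    · left
      refine ⟨j + (t + u - v) * k, ?_⟩
      rw [hei, hAs, hdj, h]
      push_cast
      ring
    · right
      exact ⟨j + (t + u - v) * k, n, hn1, by rw [hdj]; exact h, hei⟩

end HEN
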