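import Pool.Agent.Lib.MP_e79cb7_ag.LIM

/-! # Inverse of the chart near infinity -/

open Filter Topology Polynomial Bornology

noncomputable section

namespace HEN

private theorem chi_W_open (ρ R : ℝ) : IsOpen (W ρ R) := by
  unfold W
  exact (isOpen_lt continuous_const continuous_fst.norm).inter
    (isOpen_lt (continuous_snd.norm.pow 2) (continuous_const.mul continuous_fst.norm))

private theorem chi_Z_open (ρ R : ℝ) : IsOpen (Z ρ R) := by
  unfold Z
  exact (isOpen_lt continuous_const continuous_fst.norm).inter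
    (isOpen_lt (continuous_snd.norm.pow 2) (continuous_const.mul (continuous_fst.norm.pow 3)))

private theorem chi_bound {R C X S x v : ℝ} (hR : 1 ≤ R) (hC : 0 < C)
    (hX : R + 89 * C + 64 < X) (_hS0 : 0 ≤ S) (hS : S ^ 2 < 2 * X ^ 3) (hx : X - 8 * C ≤ x)
    (hv0 : 0 ≤ v) (hv : v ≤ S + 8 * C) : R < x ∧ v ^ 2 < 3 * x ^ 3 := by
  refine ⟨by linarith, ?_⟩
  have hX1 : 89 * C < X := by linarith
  have hX2 : 64 < X := by linarith
  have hSX : S ≤ X ^ 2 := by
    by_contra hcon
    push Not at hcon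
    have e1 : (X ^ 2) ^ 2 < S ^ 2 := by
      apply pow_lt_pow_left₀ hcon (by positivity) (by norm_num)
    have e2 : 2 * X ^ 3 ≤ (X ^ 2) ^ 2 := by
      have : (X ^ 2) ^ 2 = X * X ^ 3 := by ring
      rw [this]
      apply mul_le_mul_of_nonneg_right (by linarith) (by positivity)
    linarith
  have h1 : v ^ 2 ≤ (S + 8 * C) ^ 2 := pow_le_pow_left₀ hv0 hv 2
  have h2 : (X - 8 * C) ^ 3 ≤ x ^ 3 := pow_le_pow_left₀ (by linarith) hx 3
  have h3 : (S + 8 * C) ^ 2 < 2 * X ^ 3 + 16 * C * X ^ 2 + 64 * C ^ 2 := by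
    have e1 : C * S ≤ C * X ^ 2 := mul_le_mul_of_nonneg_left hSX hC.le
    nlinarith
  have h4 : X ^ 3 - 24 * C * X ^ 2 ≤ (X - 8 * C) ^ 3 := by
    have e1 : (X - 8 * C) ^ 3 - (X ^ 3 - 24 * C * X ^ 2) = 64 * C ^ 2 * (3 * X - 8 * C) := by ring
    have e2 : 0 ≤ 64 * C ^ 2 * (3 * X - 8 * C) := mul_nonneg (by positivity) (by linarith)
    linarith
  have h5 : 64 * C ^ 2 ≤ (X - 88 * C) * X ^ 2 := by
    have e1 : 64 * C ≤ X ^ 2 := by nlinarith
    have e2 : C ≤ X - 88 * C := by linarith
    calc 64 * C ^ 2 = C * (64 * C) := by ring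
      _ ≤ (X - 88 * C) * X ^ 2 := mul_le_mul e2 e1 (by positivity) (by linarith)
  nlinarith

private theorem chi_div {U : Set (ℂ × ℂ)} {f g : ℂ × ℂ → ℂ} (hf : DifferentiableOn ℂ f U)
    (hg : DifferentiableOn ℂ g U) (h0 : ∀ x ∈ U, g x ≠ 0) :
    DifferentiableOn ℂ (fun x => f x / g x) U := by
  have h1 : DifferentiableOn ℂ (fun x => f x * (g x)⁻¹) U := hf.fun_mul (hg.fun_inv h0)
  simpa only [div_eq_mul_inv] using h1

/-- The error of the chart in the coordinates `(x, xy)`. -/
def chiEps (b z : ℂ × ℂ → ℂ) (u : ℂ × ℂ) : ℂ × ℂ :=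
  (b (u.1, u.2 / u.1) - u.1, z (u.1, u.2 / u.1) - u.2)

/-- The iterates converging to the inverse of the chart. -/
def chiIt (b z : ℂ × ℂ → ℂ) (w : ℂ × ℂ) : ℕ → ℂ × ℂ
  | 0 => w
  | n + 1 => w - chiEps b z (chiIt b z w n)

private theorem chi_toW {ρ R : ℝ} (hR : 0 ≤ R) {u : ℂ × ℂ} (hu : u ∈ Z ρ R) :
    (u.1, u.2 / u.1) ∈ W ρ R := by
  obtain ⟨h1, h2⟩ := hu
  have h3 : 0 < ‖u.1‖ := lt_of_le_of_lt hR h1
  refine ⟨h1, ?_⟩
  simp only [norm_div, div_pow]
  rw [div_lt_iff₀ (by positivity)]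
  calc ‖u.2‖ ^ 2 < ρ * ‖u.1‖ ^ 3 := h2
    _ = ρ * ‖u.1‖ * ‖u.1‖ ^ 2 := by ring

theorem chart_inverse {R C : ℝ} (hR : 1 ≤ R) (hC : 0 < C) {b z : ℂ × ℂ → ℂ}
    (hb : DifferentiableOn ℂ b (W 4 R)) (hz : DifferentiableOn ℂ z (W 4 R))
    (hbz : ∀ p ∈ W 4 R, ‖b p - p.1‖ ≤ C ∧ ‖z p - p.1 * p.2‖ ≤ C) :
    ∃ (R₁ : ℝ) (s : ℂ × ℂ → ℂ × ℂ), R ≤ R₁ ∧ DifferentiableOn ℂ s (Z 2 R₁) ∧
      (∀ w ∈ Z 2 R₁, s w ∈ W 3 R ∧ (b (s w), z (s w)) = w) ∧
      (∀ p ∈ W 3 R, (b p, z p) ∈ Z 2 R₁ → s (b p, z p) = p) := by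
  have hR0 : 0 < R := by linarith
  have h34 : ∀ u : ℂ × ℂ, u ∈ Z 3 R → u ∈ Z 4 R := by
    intro u hu
    refine ⟨hu.1, lt_of_lt_of_le hu.2 ?_⟩
    exact mul_le_mul_of_nonneg_right (by norm_num) (by positivity)
  have h34W : ∀ u : ℂ × ℂ, u ∈ W 3 R → u ∈ W 4 R := by
    intro u hu
    refine ⟨hu.1, lt_of_lt_of_le hu.2 ?_⟩
    exact mul_le_mul_of_nonneg_right (by norm_num) (by positivity)
  -- the bound on the error
  have heps : ∀ u ∈ Z 4 R, ‖chiEps b z u‖ ≤ C := by
    intro u hu
    obtain ⟨e1, e2⟩ := hbz _ (chi_toW hR0.le hu)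
    have hu1 : u.1 ≠ 0 := by
      intro h0
      have := hu.1
      rw [h0, norm_zero] at this
      linarith
    simp only at e1 e2
    rw [mul_div_cancel₀ _ hu1] at e2
    unfold chiEps
    rw [Prod.norm_def]
    exact max_le e1 e2
  -- differentiability of the error
  have hepsd : DifferentiableOn ℂ (chiEps b z) (Z 4 R) := by
    have hmap : Set.MapsTo (fun u : ℂ × ℂ => (u.1, u.2 / u.1)) (Z 4 R) (W 4 R) :=
      fun u hu => chi_toW hR0.le hu
    have hd : DifferentiableOn ℂ (fun u : ℂ × ℂ => (u.1, u.2 / u.1)) (Z 4 R) := by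
      apply DifferentiableOn.prodMk differentiableOn_fst
      apply chi_div differentiableOn_snd differentiableOn_fst
      intro u hu h0
      have := hu.1
      rw [h0, norm_zero] at this
      linarith
    have h1 : DifferentiableOn ℂ (fun u : ℂ × ℂ => b (u.1, u.2 / u.1)) (Z 4 R) :=
      hb.comp hd hmap
    have h2 : DifferentiableOn ℂ (fun u : ℂ × ℂ => z (u.1, u.2 / u.1)) (Z 4 R) :=
      hz.comp hd hmap
    exact (h1.sub differentiableOn_fst).prodMk (h2.sub differentiableOn_snd)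
  set R₁ := R + 89 * C + 64 with hR₁
  -- balls
  have hball : ∀ w ∈ Z 2 R₁, ∀ u : ℂ × ℂ, dist u w ≤ 8 * C → u ∈ Z 3 R := by
    intro w hw u hu
    rw [dist_eq_norm, Prod.norm_def] at hu
    have e1 : ‖u.1 - w.1‖ ≤ 8 * C := le_trans (le_max_left _ _) hu
    have e2 : ‖u.2 - w.2‖ ≤ 8 * C := le_trans (le_max_right _ _) hu
    have e3 : ‖w.1‖ - 8 * C ≤ ‖u.1‖ := by
      have := norm_sub_norm_le w.1 u.1
      rw [norm_sub_rev] at this
      linarith
    have e4 : ‖u.2‖ ≤ ‖w.2‖ + 8 * C := by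
      have := norm_sub_norm_le u.2 w.2
      linarith
    exact chi_bound hR hC hw.1 (norm_nonneg _) hw.2 e3 (norm_nonneg _) e4
  -- contraction
  have hcontr : ∀ w ∈ Z 2 R₁, ∀ u v : ℂ × ℂ, dist u w ≤ C → dist v w ≤ C →
      dist (chiEps b z v) (chiEps b z u) ≤ 1 / 2 * dist v u := by
    intro w hw u v hu hv
    have hsub : Metric.ball u (6 * C) ⊆ Z 4 R := by
      intro x hx
      apply h34
      apply hball w hw
      have := dist_triangle x u w
      have h' : dist x u < 6 * C := hx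
      linarith
    have huZ : u ∈ Z 4 R := hsub (Metric.mem_ball_self (by positivity))
    have hmaps : Set.MapsTo (chiEps b z) (Metric.ball u (6 * C))
        (Metric.closedBall (chiEps b z u) (3 * C)) := by
      intro x hx
      rw [Metric.mem_closedBall, dist_eq_norm]
      have e1 := heps x (hsub hx)
      have e2 := heps u huZ
      have := norm_sub_le (chiEps b z x) (chiEps b z u)
      linarith
    have hvu : v ∈ Metric.ball u (6 * C) := by
      rw [Metric.mem_ball]
      have := dist_triangle_right v u w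
      linarith
    have := Complex.dist_le_div_mul_dist_of_mapsTo_ball (hepsd.mono hsub) hmaps hvu
    have e : 3 * C / (6 * C) = 1 / 2 := by
      field_simp
      norm_num
    rwa [e] at this
  -- iterates stay near w
  have hit : ∀ w ∈ Z 2 R₁, ∀ n, dist (chiIt b z w n) w ≤ C := by
    intro w hw n
    induction n with
    | zero =>
      simp only [chiIt, dist_self]
      exact hC.le
    | succ n ih =>
      simp only [chiIt]
      rw [dist_eq_norm, sub_sub_cancel_left, norm_neg]
      exact heps _ (h34 _ (hball w hw _ (by linarith)))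
  have hitd : ∀ w ∈ Z 2 R₁, ∀ n,
      dist (chiIt b z w n) (chiIt b z w (n + 1)) ≤ C * (1 / 2) ^ n := by
    intro w hw n
    induction n with
    | zero =>
      rw [dist_comm]
      simpa [chiIt] using hit w hw 1
    | succ n ih =>
      have e1 : dist (chiIt b z w (n + 1)) (chiIt b z w (n + 1 + 1)) =
          dist (chiEps b z (chiIt b z w n)) (chiEps b z (chiIt b z w (n + 1))) := by
        simp only [chiIt]
        rw [dist_sub_left]
      rw [e1]
      have e2 := hcontr w hw _ _ (hit w hw (n + 1)) (hit w hw n)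
      calc _ ≤ 1 / 2 * dist (chiIt b z w n) (chiIt b z w (n + 1)) := e2
        _ ≤ 1 / 2 * (C * (1 / 2) ^ n) := by gcongr
        _ = C * (1 / 2) ^ (n + 1) := by ring
  have hcau : ∀ w ∈ Z 2 R₁, CauchySeq (chiIt b z w) := fun w hw =>
    cauchySeq_of_le_geometric (1 / 2) C (by norm_num) (hitd w hw)
  choose! L hL using fun w hw => cauchySeq_tendsto_of_complete (hcau w hw)
  have hLdist : ∀ w ∈ Z 2 R₁, ∀ n, dist (chiIt b z w n) (L w) ≤ C * (1 / 2) ^ n / (1 - 1 / 2) :=
    fun w hw n => dist_le_of_le_geometric_of_tendsto (1 / 2) C (by norm_num) (hitd w hw)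
      (hL w hw) n
  have hLw : ∀ w ∈ Z 2 R₁, dist (L w) w ≤ C := by
    intro w hw
    exact le_of_tendsto ((hL w hw).dist tendsto_const_nhds) (Eventually.of_forall (hit w hw))
  have hLZ : ∀ w ∈ Z 2 R₁, L w ∈ Z 3 R := fun w hw => hball w hw _ (by linarith [hLw w hw])
  have hLfix : ∀ w ∈ Z 2 R₁, L w = w - chiEps b z (L w) := by
    intro w hw
    have hc : ContinuousAt (chiEps b z) (L w) :=
      ((hepsd _ (h34 _ (hLZ w hw))).differentiableAt
        ((chi_Z_open 4 R).mem_nhds (h34 _ (hLZ w hw)))).continuousAt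
    have h1 : Tendsto (fun n => w - chiEps b z (chiIt b z w n)) atTop
        (𝓝 (w - chiEps b z (L w))) :=
      tendsto_const_nhds.sub (hc.tendsto.comp (hL w hw))
    have h2 : Tendsto (fun n => chiIt b z w (n + 1)) atTop (𝓝 (L w)) :=
      (hL w hw).comp (tendsto_add_atTop_nat 1)
    exact tendsto_nhds_unique h2 h1
  have huniq : ∀ w ∈ Z 2 R₁, ∀ u : ℂ × ℂ, dist u w ≤ C → u = w - chiEps b z u → u = L w := by
    intro w hw u hu hfix
    have e1 := hcontr w hw (L w) u (hLw w hw) hu
    have e2 : dist u (L w) = dist (chiEps b z u) (chiEps b z (L w)) := by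
      have : dist (w - chiEps b z u) (w - chiEps b z (L w)) =
          dist (chiEps b z u) (chiEps b z (L w)) := dist_sub_left _ _ _
      rw [← this, ← hfix, ← hLfix w hw]
    rw [← e2] at e1
    have e3 : dist u (L w) = 0 := le_antisymm (by linarith [dist_nonneg (x := u) (y := L w)])
      dist_nonneg
    exact dist_eq_zero.1 e3
  -- holomorphy of the iterates
  have hitdiff : ∀ n, DifferentiableOn ℂ (fun w => chiIt b z w n) (Z 2 R₁) := by
    intro n
    induction n with
    | zero =>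
      simp only [chiIt]
      exact differentiableOn_id
    | succ n ih =>
      simp only [chiIt]
      apply differentiableOn_id.sub
      exact hepsd.comp ih (fun w hw => h34 _ (hball w hw _ (by linarith [hit w hw n])))
  have hunif : TendstoUniformlyOn (fun n w => chiIt b z w n) L atTop (Z 2 R₁) := by
    rw [Metric.tendstoUniformlyOn_iff]
    intro ε hε
    have h0 : Tendsto (fun n : ℕ => C * (1 / 2 : ℝ) ^ n / (1 - 1 / 2)) atTop (𝓝 0) := by
      have := ((tendsto_pow_atTop_nhds_zero_of_lt_one (r := (1 / 2 : ℝ)) (by norm_num)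
        (by norm_num)).const_mul C).div_const (1 - 1 / 2)
      simpa using this
    filter_upwards [h0.eventually_lt_const hε] with n hn w hw
    rw [dist_comm]
    exact lt_of_le_of_lt (hLdist w hw n) hn
  have hL1 : DifferentiableOn ℂ (fun w => (L w).1) (Z 2 R₁) := by
    apply differentiableOn_of_locallyUniform (chi_Z_open 2 R₁) (g := fun n w => (chiIt b z w n).1)
    · intro n
      exact (hitdiff n).fst
    · apply TendstoUniformlyOn.tendstoLocallyUniformlyOn
      rw [Metric.tendstoUniformlyOn_iff] at hunif ⊢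
      intro ε hε
      filter_upwards [hunif ε hε] with n hn w hw
      refine lt_of_le_of_lt ?_ (hn w hw)
      rw [Prod.dist_eq]
      exact le_max_left _ _
  have hL2 : DifferentiableOn ℂ (fun w => (L w).2) (Z 2 R₁) := by
    apply differentiableOn_of_locallyUniform (chi_Z_open 2 R₁) (g := fun n w => (chiIt b z w n).2)
    · intro n
      exact (hitdiff n).snd
    · apply TendstoUniformlyOn.tendstoLocallyUniformlyOn
      rw [Metric.tendstoUniformlyOn_iff] at hunif ⊢
      intro ε hε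
      filter_upwards [hunif ε hε] with n hn w hw
      refine lt_of_le_of_lt ?_ (hn w hw)
      rw [Prod.dist_eq]
      exact le_max_right _ _
  have hL10 : ∀ w ∈ Z 2 R₁, (L w).1 ≠ 0 := by
    intro w hw h0
    have := (hLZ w hw).1
    rw [h0, norm_zero] at this
    linarith
  refine ⟨R₁, fun w => ((L w).1, (L w).2 / (L w).1), by linarith, ?_, ?_, ?_⟩
  · exact hL1.prodMk (chi_div hL2 hL1 hL10)
  · intro w hw
    refine ⟨chi_toW hR0.le (hLZ w hw), ?_⟩
    have h1 := hLfix w hw
    have h2 := congrArg Prod.fst h1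
    have h3 := congrArg Prod.snd h1
    simp only [chiEps, Prod.fst_sub, Prod.snd_sub] at h2 h3
    ext
    · simp only
      linear_combination h2
    · simp only
      linear_combination h3
  · intro p hp hw
    have hp4 := h34W p hp
    have hp1 : p.1 ≠ 0 := by
      intro h0
      have := hp.1
      rw [h0, norm_zero] at this
      linarith
    obtain ⟨e1, e2⟩ := hbz p hp4
    have h1 : (p.1, p.1 * p.2) = L (b p, z p) := by
      apply huniq _ hw
      · rw [dist_comm, dist_eq_norm, Prod.norm_def]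
        exact max_le e1 e2
      · simp only [chiEps]
        rw [mul_div_cancel_left₀ _ hp1]
        ext <;> simp
    change ((L (b p, z p)).1, (L (b p, z p)).2 / (L (b p, z p)).1) = p
    rw [← h1]
    simp only
    rw [mul_div_cancel_left₀ _ hp1]

end HEN
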