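import Pool.Agent.Lib.MP_e79cb7_ag.Cmp

/-! # The linear coefficient is constant -/

open Filter Topology Polynomial Bornology

noncomputable section

namespace HEN

theorem con_isOpen_HP : IsOpen HP := isOpen_lt continuous_const Complex.continuous_re

theorem con_convex_HP : Convex ℝ HP := convex_halfSpace_re_gt 0

theorem con_const {f : ℂ → ℂ} (hf : DifferentiableOn ℂ f HP) (h : ∀ β ∈ HP, deriv f β = 0)
    {x y : ℂ} (hx : x ∈ HP) (hy : y ∈ HP) : f x = f y :=
  con_isOpen_HP.is_const_of_deriv_eq_zero con_convex_HP.isPreconnected hf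
    (fun z hz => h z hz) hx hy

/-- a function with arbitrarily small periods has derivative zero -/
theorem con_small_period {f : ℂ → ℂ} {β : ℂ} (hf : DifferentiableAt ℂ f β) {h : ℕ → ℂ}
    (h0 : ∀ n, h n ≠ 0) (hl : Tendsto h atTop (𝓝 0)) (hper : ∀ n, f (β + h n) = f β) :
    deriv f β = 0 := by
  have h1 : Tendsto (slope f β) (𝓝[≠] β) (𝓝 (deriv f β)) :=
    hasDerivAt_iff_tendsto_slope.mp hf.hasDerivAt
  have h2 : Tendsto (fun n => β + h n) atTop (𝓝[≠] β) := by
    rw [tendsto_nhdsWithin_iff]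
    refine ⟨by simpa using hl.const_add β, Eventually.of_forall fun n => ?_⟩
    simp [h0 n]
  have h3 := h1.comp h2
  have h4 : (slope f β ∘ fun n => β + h n) = fun _ => 0 := by
    funext n
    simp [slope, hper n]
  rw [h4] at h3
  exact tendsto_nhds_unique h3 tendsto_const_nhds

/- Module CON (file CON.lean): the linear coefficient is constant -/
theorem linear_coeff_const {d : ℕ} (hd : 2 ≤ d) {A : ℂ → ℂ} {κ : ℂ}
    (hA : DifferentiableOn ℂ A HP) (hA0 : ∀ β ∈ HP, A β ≠ 0)
    (hper : ∀ β ∈ HP, A (β + 2 * Real.pi * Complex.I) = A β)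
    (hκ : ∀ β ∈ HP, A (d * β) = κ * A β) :
    ∃ α : ℂ, ∀ β ∈ HP, A β = α := by
  have hdR : (0 : ℝ) < d := by exact_mod_cast (by omega : 0 < d)
  have hdC : (d : ℂ) ≠ 0 := by exact_mod_cast (by omega : d ≠ 0)
  have hmulHP : ∀ β ∈ HP, (d : ℂ) * β ∈ HP := by
    intro β hβ
    show 0 < ((d : ℂ) * β).re
    have h0 : 0 < β.re := hβ
    have e : ((d : ℂ) * β).re = d * β.re := by simp [Complex.mul_re]
    rw [e]
    exact mul_pos hdR h0
  have htrHP : ∀ β ∈ HP, ∀ t : ℝ, β + t * Complex.I ∈ HP := by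
    intro β hβ t
    show 0 < (β + t * Complex.I).re
    have h0 : 0 < β.re := hβ
    simpa using h0
  have htwo : ∀ β ∈ HP, β + 2 * Real.pi * Complex.I ∈ HP := by
    intro β hβ
    have := htrHP β hβ (2 * Real.pi)
    push_cast at this
    exact this
  -- the logarithmic derivative
  obtain ⟨L, hL⟩ : ∃ L : ℂ → ℂ, L = fun β => deriv A β / A β := ⟨_, rfl⟩
  have hdA : ∀ β ∈ HP, DifferentiableAt ℂ A β := fun β hβ =>
    (hA β hβ).differentiableAt (con_isOpen_HP.mem_nhds hβ)
  have hAd : DifferentiableOn ℂ (deriv A) HP := hA.deriv con_isOpen_HP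
  have hLd : DifferentiableOn ℂ L HP := by
    rw [hL]
    simp only [div_eq_mul_inv]
    exact hAd.mul (hA.inv hA0)
  have hLat : ∀ β ∈ HP, DifferentiableAt ℂ L β := fun β hβ =>
    (hLd β hβ).differentiableAt (con_isOpen_HP.mem_nhds hβ)
  -- periodicity
  have hder1 : ∀ β ∈ HP, deriv A (β + 2 * Real.pi * Complex.I) = deriv A β := by
    intro β hβ
    have h1 : (fun z => A (z + 2 * Real.pi * Complex.I)) =ᶠ[𝓝 β] A := by
      filter_upwards [con_isOpen_HP.mem_nhds hβ] with z hz
      exact hper z hz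
    rw [← h1.deriv_eq, deriv_comp_add_const]
  have hL1 : ∀ β ∈ HP, L (β + 2 * Real.pi * Complex.I) = L β := by
    intro β hβ
    rw [hL]
    simp only
    rw [hder1 β hβ, hper β hβ]
  have hder2 : ∀ β ∈ HP, d * deriv A (d * β) = κ * deriv A β := by
    intro β hβ
    have h1 : (fun z => A (d * z)) =ᶠ[𝓝 β] fun z => κ * A z := by
      filter_upwards [con_isOpen_HP.mem_nhds hβ] with z hz
      exact hκ z hz
    have h2 := h1.deriv_eq
    have h3 : deriv (fun z => A (d * z)) β = d * deriv A (d * β) := by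
      have := deriv_comp_mul_left (d : ℂ) A β
      simpa using this
    rw [h3, deriv_const_mul κ (hdA β hβ)] at h2
    exact h2
  have hκ0 : κ ≠ 0 := by
    intro h
    have h1 : (1 : ℂ) ∈ HP := by show 0 < (1 : ℂ).re; simp
    have := hκ 1 h1
    rw [h, zero_mul] at this
    exact hA0 _ (hmulHP 1 h1) this
  have hL2 : ∀ β ∈ HP, d * L (d * β) = L β := by
    intro β hβ
    rw [hL]
    simp only
    rw [hκ β hβ, ← mul_div_assoc, hder2 β hβ, mul_div_mul_left _ _ hκ0]
  have hL3 : ∀ (n : ℕ), ∀ β ∈ HP, (d : ℂ) ^ n * β ∈ HP ∧ (d : ℂ) ^ n * L (d ^ n * β) = L β := by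
    intro n
    induction n with
    | zero => intro β hβ; simpa using hβ
    | succ n ih =>
      intro β hβ
      obtain ⟨h1, h2⟩ := ih β hβ
      have e : (d : ℂ) ^ (n + 1) * β = d * (d ^ n * β) := by ring
      rw [e]
      refine ⟨hmulHP _ h1, ?_⟩
      rw [pow_succ, mul_assoc, hL2 _ h1, h2]
  have hLder : ∀ β ∈ HP, deriv L β = 0 := by
    intro β hβ
    refine con_small_period (hLat β hβ)
      (h := fun n : ℕ => 2 * Real.pi * Complex.I / (d : ℂ) ^ n) ?_ ?_ ?_
    · intro n
      exact div_ne_zero Complex.two_pi_I_ne_zero (pow_ne_zero _ hdC)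
    · have h1 : Tendsto (fun n : ℕ => ((d : ℂ)⁻¹) ^ n) atTop (𝓝 0) := by
        refine tendsto_pow_atTop_nhds_zero_of_norm_lt_one ?_
        rw [norm_inv, Complex.norm_natCast]
        exact inv_lt_one_of_one_lt₀ (by exact_mod_cast (by omega : 1 < d))
      have h2 := h1.const_mul (2 * Real.pi * Complex.I)
      rw [mul_zero] at h2
      refine h2.congr fun n => ?_
      rw [inv_pow, div_eq_mul_inv]
    · intro n
      have hβ' : β + 2 * Real.pi * Complex.I / (d : ℂ) ^ n ∈ HP := by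
        have := htrHP β hβ (2 * Real.pi / (d : ℝ) ^ n)
        push_cast at this
        have e : β + 2 * Real.pi * Complex.I / (d : ℂ) ^ n =
          β + 2 * Real.pi / (d : ℂ) ^ n * Complex.I := by ring
        rw [e]
        exact this
      obtain ⟨h1, h2⟩ := hL3 n β hβ
      obtain ⟨h3, h4⟩ := hL3 n _ hβ'
      have e : (d : ℂ) ^ n * (β + 2 * Real.pi * Complex.I / (d : ℂ) ^ n) =
          d ^ n * β + 2 * Real.pi * Complex.I := by
        have : (d : ℂ) ^ n ≠ 0 := pow_ne_zero _ hdC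
        field_simp
      rw [← h4, e, hL1 _ h1, h2]
  have h1 : (1 : ℂ) ∈ HP := by show 0 < (1 : ℂ).re; simp
  have hLc : ∀ β ∈ HP, L β = 0 := by
    have h2 := hL2 1 h1
    rw [con_const hLd hLder (hmulHP 1 h1) h1] at h2
    have h3 : ((d : ℂ) - 1) * L 1 = 0 := by
      rw [sub_mul, h2, one_mul, sub_self]
    have h4 : (d : ℂ) - 1 ≠ 0 := by
      rw [sub_ne_zero]
      exact_mod_cast (by omega : d ≠ 1)
    have h5 : L 1 = 0 := (mul_eq_zero.mp h3).resolve_left h4
    intro β hβ
    rw [con_const hLd hLder hβ h1, h5]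
  have hAder : ∀ β ∈ HP, deriv A β = 0 := by
    intro β hβ
    have := hLc β hβ
    rw [hL] at this
    exact (div_eq_zero_iff.mp this).resolve_right (hA0 β hβ)
  exact ⟨A 1, fun β hβ => con_const hA hAder hβ h1⟩

end HEN
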