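import Pool.Agent.Lib.MP_e79cb7_ag.Defs

/-! # Basic facts on compositions of Hénon maps -/

open Filter Topology Polynomial Bornology

noncomputable section

namespace HEN

theorem comp_zero (a : ℤ → ℂ) (P : ℤ → ℂ[X]) (i : ℤ) (p : ℂ × ℂ) : comp a P i 0 p = p := rfl

theorem comp_succ (a : ℤ → ℂ) (P : ℤ → ℂ[X]) (i : ℤ) (n : ℕ) (p : ℂ × ℂ) :
    comp a P i (n + 1) p = H (a (i + n)) (P (i + n)) (comp a P i n p) := rfl

theorem comp_one (a : ℤ → ℂ) (P : ℤ → ℂ[X]) (i : ℤ) (p : ℂ × ℂ) :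
    comp a P i 1 p = H (a i) (P i) p := by
  simp [comp]

theorem comp_add (a : ℤ → ℂ) (P : ℤ → ℂ[X]) (i : ℤ) (m n : ℕ) (p : ℂ × ℂ) :
    comp a P i (m + n) p = comp a P (i + m) n (comp a P i m p) := by
  induction n with
  | zero => rfl
  | succ n ih =>
    rw [← Nat.add_assoc, comp_succ, ih, comp_succ]
    push_cast
    rw [← add_assoc]

theorem comp_succ' (a : ℤ → ℂ) (P : ℤ → ℂ[X]) (i : ℤ) (n : ℕ) (p : ℂ × ℂ) :
    comp a P i (n + 1) p = comp a P (i + 1) n (H (a i) (P i) p) := by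
  rw [Nat.add_comm, comp_add, comp_one]
  norm_num

theorem comp_per {k : ℕ} {a : ℤ → ℂ} {P : ℤ → ℂ[X]} (ha : ∀ i, a (i + k) = a i)
    (hP : ∀ i, P (i + k) = P i) (i : ℤ) (n : ℕ) (p : ℂ × ℂ) :
    comp a P (i + k) n p = comp a P i n p := by
  induction n with
  | zero => rfl
  | succ n ih =>
    rw [comp_succ, comp_succ, ih]
    have e : (i + (k : ℤ) + (n : ℤ)) = (i + n) + k := by ring
    rw [e, ha, hP]

theorem iterate_comp {k : ℕ} {a : ℤ → ℂ} {P : ℤ → ℂ[X]} (ha : ∀ i, a (i + k) = a i)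
    (hP : ∀ i, P (i + k) = P i) (i : ℤ) (n : ℕ) (p : ℂ × ℂ) :
    (comp a P i k)^[n] p = comp a P i (n * k) p := by
  induction n with
  | zero => simp [comp]
  | succ n ih =>
    rw [Function.iterate_succ_apply', ih, Nat.succ_mul, comp_add]
    have e : ∀ m : ℕ, comp a P (i + ((m * k : ℕ) : ℤ)) k = comp a P i k := by
      intro m
      induction m with
      | zero => simp
      | succ m ihm =>
        funext p
        have : i + (((m + 1) * k : ℕ) : ℤ) = (i + ((m * k : ℕ) : ℤ)) + k := by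
          push_cast
          ring
        rw [this, comp_per ha hP, ihm]
    rw [e n]

theorem Hinv_H {a : ℂ} (ha : a ≠ 0) (P : ℂ[X]) (p : ℂ × ℂ) :
    ((H a P p).2, (P.eval (H a P p).2 - (H a P p).1) / a) = p := by
  simp only [H]
  ext
  · rfl
  · simp
    field_simp

theorem H_injective {a : ℂ} (ha : a ≠ 0) (P : ℂ[X]) : Function.Injective (H a P) := by
  intro p q h
  rw [← Hinv_H ha P p, ← Hinv_H ha P q, h]

theorem H_differentiable (a : ℂ) (P : ℂ[X]) : Differentiable ℂ (H a P) := by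
  unfold H
  have h1 : Differentiable ℂ (fun p : ℂ × ℂ => P.eval p.1) :=
    P.differentiable.comp differentiable_fst
  exact (h1.sub (differentiable_snd.const_mul a)).prodMk differentiable_fst

/-- inverse of a Hénon map -/
def Hinv (a : ℂ) (P : ℂ[X]) (p : ℂ × ℂ) : ℂ × ℂ := (p.2, (P.eval p.2 - p.1) / a)

theorem Hinv_differentiable (a : ℂ) (P : ℂ[X]) : Differentiable ℂ (Hinv a P) := by
  unfold Hinv
  have h1 : Differentiable ℂ (fun p : ℂ × ℂ => P.eval p.2) :=
    P.differentiable.comp differentiable_snd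
  have h2 : Differentiable ℂ (fun p : ℂ × ℂ => (P.eval p.2 - p.1) / a) := by
    simpa [div_eq_mul_inv] using (h1.sub differentiable_fst).mul_const a⁻¹
  exact differentiable_snd.prodMk h2

theorem Hinv_leftInverse {a : ℂ} (ha : a ≠ 0) (P : ℂ[X]) :
    Function.LeftInverse (Hinv a P) (H a P) := fun p => Hinv_H ha P p

theorem Hinv_rightInverse {a : ℂ} (ha : a ≠ 0) (P : ℂ[X]) :
    Function.RightInverse (Hinv a P) (H a P) := by
  intro p
  simp only [H, Hinv]
  ext
  · simp
    field_simp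
    ring
  · rfl

theorem comp_differentiable (a : ℤ → ℂ) (P : ℤ → ℂ[X]) (i : ℤ) (n : ℕ) :
    Differentiable ℂ (comp a P i n) := by
  induction n with
  | zero => exact differentiable_id
  | succ n ih => exact (H_differentiable _ _).comp ih

/-- The inverse of `comp a P i n`. -/
def compInv (a : ℤ → ℂ) (P : ℤ → ℂ[X]) (i : ℤ) : ℕ → ℂ × ℂ → ℂ × ℂ
  | 0, p => p
  | n + 1, p => compInv a P i n (Hinv (a (i + n)) (P (i + n)) p)

theorem compInv_differentiable (a : ℤ → ℂ) (P : ℤ → ℂ[X]) (i : ℤ) (n : ℕ) :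
    Differentiable ℂ (compInv a P i n) := by
  induction n with
  | zero => exact differentiable_id
  | succ n ih => exact ih.comp (Hinv_differentiable _ _)

theorem compInv_leftInverse {a : ℤ → ℂ} (ha : ∀ i, a i ≠ 0) (P : ℤ → ℂ[X]) (i : ℤ) (n : ℕ) :
    Function.LeftInverse (compInv a P i n) (comp a P i n) := by
  induction n with
  | zero => exact fun _ => rfl
  | succ n ih =>
    intro p
    rw [comp_succ, compInv, Hinv_leftInverse (ha _), ih]

theorem compInv_rightInverse {a : ℤ → ℂ} (ha : ∀ i, a i ≠ 0) (P : ℤ → ℂ[X]) (i : ℤ) (n : ℕ) :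
    Function.RightInverse (compInv a P i n) (comp a P i n) := by
  induction n with
  | zero => exact fun _ => rfl
  | succ n ih =>
    intro p
    rw [compInv, comp_succ, ih, Hinv_rightInverse (ha _)]

theorem comp_injective {a : ℤ → ℂ} (ha : ∀ i, a i ≠ 0) (P : ℤ → ℂ[X]) (i : ℤ) (n : ℕ) :
    Function.Injective (comp a P i n) := (compInv_leftInverse ha P i n).injective

end HEN
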