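import Pool.Agent.Lib.MP_e79cb7_ag.Cmp
import Pool.Agent.Lib.MP_e79cb7_ag.GRO

/-! # The dichotomy escape / boundedness for arbitrary data -/

open Filter Topology Polynomial Bornology

noncomputable section

namespace HEN

theorem dic_poly {P : ℂ[X]} (hd : 2 ≤ P.natDegree) (x : ℂ) (hx : 1 ≤ ‖x‖) :
    ‖P.leadingCoeff‖ * ‖x‖ ^ P.natDegree -
      (∑ j ∈ Finset.range P.natDegree, ‖P.coeff j‖) * ‖x‖ ^ (P.natDegree - 1) ≤ ‖P.eval x‖ := by
  have e1 : P.eval x = ∑ j ∈ Finset.range P.natDegree, P.coeff j * x ^ j +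
      P.leadingCoeff * x ^ P.natDegree := by
    rw [Polynomial.eval_eq_sum_range, Finset.sum_range_succ]
    rfl
  have h1 : ‖∑ j ∈ Finset.range P.natDegree, P.coeff j * x ^ j‖ ≤
      (∑ j ∈ Finset.range P.natDegree, ‖P.coeff j‖) * ‖x‖ ^ (P.natDegree - 1) := by
    rw [Finset.sum_mul]
    refine le_trans (norm_sum_le _ _) (Finset.sum_le_sum ?_)
    intro j hj
    rw [norm_mul, norm_pow]
    refine mul_le_mul_of_nonneg_left (pow_le_pow_right₀ hx ?_) (norm_nonneg _)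
    have := Finset.mem_range.mp hj
    omega
  have h2 := norm_sub_norm_le (P.leadingCoeff * x ^ P.natDegree)
    (-∑ j ∈ Finset.range P.natDegree, P.coeff j * x ^ j)
  rw [norm_neg, norm_mul, norm_pow, sub_neg_eq_add, add_comm (P.leadingCoeff * _), ← e1] at h2
  linarith

theorem dic_step {k : ℕ} {a : ℤ → ℂ} {P : ℤ → ℂ[X]} (hD : IsData k a P) :
    ∃ R c : ℝ, 1 ≤ R ∧ 0 < c ∧ ∀ (i : ℤ) (p : ℂ × ℂ), R ≤ ‖p.1‖ → ‖p.2‖ ≤ ‖p.1‖ →
      2 * ‖p.1‖ ≤ ‖(H (a i) (P i) p).1‖ ∧ c * ‖p.1‖ ^ 2 ≤ ‖(H (a i) (P i) p).1‖ := by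
  have hlc : ∀ i, 0 < ‖(P i).leadingCoeff‖ := by
    intro i
    refine norm_pos_iff.mpr (leadingCoeff_ne_zero.mpr ?_)
    intro h0
    have := hD.hd i
    rw [h0] at this
    simp at this
  obtain ⟨L, hL, hL'⟩ := gro_bdd hD.hk (fun i => ‖(P i).leadingCoeff‖⁻¹)
    (fun i => by simp only [hD.pP])
  obtain ⟨S, hS, hS'⟩ := gro_bdd hD.hk
    (fun i => ∑ j ∈ Finset.range (P i).natDegree, ‖(P i).coeff j‖)
    (fun i => by simp only [hD.pP])
  obtain ⟨A, hA, hA'⟩ := gro_bdd hD.hk (fun i => ‖a i‖) (fun i => by simp only [hD.pa])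
  refine ⟨max 1 (2 * S * L + 4 * A * L + 8 * L), (4 * L)⁻¹, le_max_left _ _, by positivity, ?_⟩
  intro i p hp1 hp2
  have hx1 : 1 ≤ ‖p.1‖ := le_trans (le_max_left _ _) hp1
  have hxR : 2 * S * L + 4 * A * L + 8 * L ≤ ‖p.1‖ := le_trans (le_max_right _ _) hp1
  have hSL : 0 < S * L := by positivity
  have hAL : 0 < A * L := by positivity
  have hpoly := dic_poly (hD.hd i) p.1 hx1
  obtain ⟨m, hm⟩ : ∃ m, (P i).natDegree = m + 2 := ⟨(P i).natDegree - 2, by have := hD.hd i; omega⟩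
  have hc0 := hlc i
  have hcL : 1 ≤ ‖(P i).leadingCoeff‖ * L := by
    have := hL' i
    rw [inv_le_comm₀ hc0 hL] at this
    calc (1 : ℝ) = L⁻¹ * L := by field_simp
      _ ≤ _ := mul_le_mul_of_nonneg_right this hL.le
  have hSi := hS' i
  have hAi := hA' i
  have e0 : (P i).natDegree - 1 = m + 1 := by omega
  rw [e0] at hpoly
  have hH : (H (a i) (P i) p).1 = (P i).eval p.1 - a i * p.2 := rfl
  have htri : ‖(P i).eval p.1‖ - ‖a i‖ * ‖p.2‖ ≤ ‖(H (a i) (P i) p).1‖ := by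
    rw [hH, ← norm_mul]
    exact norm_sub_norm_le _ _
  rw [hm] at hpoly
  rw [hm] at hSi
  set x := ‖p.1‖ with hx
  set c := ‖(P i).leadingCoeff‖ with hc
  set T₁ := ∑ j ∈ Finset.range (m + 2), ‖(P i).coeff j‖ with hT₁
  set X := ‖(H (a i) (P i) p).1‖ with hX
  have hxm : 1 ≤ x ^ m := one_le_pow₀ hx1
  have hxm0 : 0 < x ^ m := by linarith
  have hx0 : 0 < x := by linarith
  -- c x ≥ x / L etc.
  have hcx : 2 * S + 4 * A + 8 ≤ c * x := by
    have h1 : (2 * S + 4 * A + 8) * L ≤ x := by linarith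
    have h2 : (2 * S + 4 * A + 8) * L ≤ x * (c * L) := by
      calc (2 * S + 4 * A + 8) * L ≤ x * 1 := by linarith
        _ ≤ x * (c * L) := mul_le_mul_of_nonneg_left hcL hx0.le
    have h3 : (2 * S + 4 * A + 8) * L ≤ (c * x) * L := by linarith
    exact le_of_mul_le_mul_right h3 hL
  have hcx2 : x ^ 2 ≤ c * x ^ 2 * L := by nlinarith [pow_pos hx0 2]
  -- P(x) ≥ c x^{m+2} / 2
  have hP2 : c * x ^ (m + 2) / 2 ≤ ‖(P i).eval p.1‖ := by
    have h1 : T₁ * x ^ (m + 1) ≤ c * x ^ (m + 2) / 2 := by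
      have h2 : T₁ ≤ c * x / 2 := by linarith
      calc T₁ * x ^ (m + 1) ≤ (c * x / 2) * x ^ (m + 1) :=
            mul_le_mul_of_nonneg_right h2 (by positivity)
        _ = c * x ^ (m + 2) / 2 := by ring
    linarith
  have hP3 : c * x ^ 2 / 2 ≤ ‖(P i).eval p.1‖ := by
    refine le_trans ?_ hP2
    have : c * x ^ (m + 2) = (c * x ^ 2) * x ^ m := by ring
    rw [this]
    have h0 : 0 ≤ c * x ^ 2 := by positivity
    nlinarith
  have hay : ‖a i‖ * ‖p.2‖ ≤ c * x ^ 2 / 4 := by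
    calc ‖a i‖ * ‖p.2‖ ≤ A * x := mul_le_mul hAi hp2 (norm_nonneg _) hA.le
      _ ≤ (c * x / 4) * x := mul_le_mul_of_nonneg_right (by linarith) hx0.le
      _ = c * x ^ 2 / 4 := by ring
  have hX4 : c * x ^ 2 / 4 ≤ X := by linarith
  refine ⟨?_, ?_⟩
  · have : 8 ≤ c * x := by linarith
    nlinarith
  · rw [inv_mul_le_iff₀ (by positivity)]
    nlinarith

/- Module DIC (file DIC.lean): dichotomy for arbitrary data -/
theorem dichotomy {k : ℕ} {a : ℤ → ℂ} {P : ℤ → ℂ[X]} (hD : IsData k a P) (p : ℂ × ℂ) :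
    p ∈ Omega (comp a P 0 k) ∨
      ∃ M : ℝ, ∀ n : ℕ, ‖((comp a P 0 k)^[n] p).1‖ ≤ M ∧ ‖((comp a P 0 k)^[n] p).2‖ ≤ M := by
  obtain ⟨R, c, hR, hc, hs⟩ := dic_step hD
  by_cases h : ∃ n : ℕ, R ≤ ‖(comp a P 0 n p).1‖ ∧ ‖(comp a P 0 n p).2‖ ≤ ‖(comp a P 0 n p).1‖
  · left
    obtain ⟨n₀, hn1, hn2⟩ := h
    have horb : ∀ m : ℕ, 2 ^ m * R ≤ ‖(comp a P 0 (n₀ + m) p).1‖ ∧
        ‖(comp a P 0 (n₀ + m) p).2‖ ≤ ‖(comp a P 0 (n₀ + m) p).1‖ := by
      intro m
      induction m with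
      | zero => exact ⟨by simpa using hn1, hn2⟩
      | succ m ih =>
        obtain ⟨ih1, ih2⟩ := ih
        have h2m : (1 : ℝ) ≤ 2 ^ m := one_le_pow₀ (by norm_num)
        have hRm : R ≤ ‖(comp a P 0 (n₀ + m) p).1‖ := by nlinarith
        obtain ⟨h3, h4⟩ := hs (0 + ((n₀ + m : ℕ) : ℤ)) _ hRm ih2
        rw [← Nat.add_assoc, comp_succ]
        refine ⟨?_, ?_⟩
        · rw [pow_succ]
          linarith
        · show ‖(comp a P 0 (n₀ + m) p).1‖ ≤ _
          have := norm_nonneg (comp a P 0 (n₀ + m) p).1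
          linarith
    have hrat : ∀ m : ℕ, ‖(comp a P 0 (n₀ + m + 1) p).2 / (comp a P 0 (n₀ + m + 1) p).1‖ ≤
        c⁻¹ * (2 ^ m)⁻¹ := by
      intro m
      obtain ⟨h1, h2⟩ := horb m
      have h2m : (1 : ℝ) ≤ 2 ^ m := one_le_pow₀ (by norm_num)
      have hRm : R ≤ ‖(comp a P 0 (n₀ + m) p).1‖ := by nlinarith
      obtain ⟨h3, h4⟩ := hs (0 + ((n₀ + m : ℕ) : ℤ)) _ hRm h2
      rw [comp_succ, norm_div]
      have e : (H (a (0 + ((n₀ + m : ℕ) : ℤ))) (P (0 + ((n₀ + m : ℕ) : ℤ)))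
        (comp a P 0 (n₀ + m) p)).2 = (comp a P 0 (n₀ + m) p).1 := rfl
      rw [e]
      set x := ‖(comp a P 0 (n₀ + m) p).1‖ with hx
      set X := ‖(H (a (0 + ((n₀ + m : ℕ) : ℤ))) (P (0 + ((n₀ + m : ℕ) : ℤ)))
        (comp a P 0 (n₀ + m) p)).1‖ with hX
      have hx0 : 0 < x := by linarith
      have hX0 : 0 < X := lt_of_lt_of_le (by positivity) h4
      have hmx : (2 : ℝ) ^ m ≤ x := by nlinarith
      rw [div_le_iff₀ hX0, ← mul_inv, ← div_eq_inv_mul, le_div_iff₀ (by positivity)]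
      calc x * (c * 2 ^ m) ≤ x * (c * x) :=
            mul_le_mul_of_nonneg_left (mul_le_mul_of_nonneg_left hmx hc.le) hx0.le
        _ = c * x ^ 2 := by ring
        _ ≤ X := h4
    have hT1 : Tendsto (fun m : ℕ => ‖(comp a P 0 m p).1‖) atTop atTop := by
      rw [← tendsto_add_atTop_iff_nat n₀]
      refine tendsto_atTop_mono (fun m => ?_) (tendsto_pow_atTop_atTop_of_one_lt
        (show (1 : ℝ) < 2 by norm_num))
      have := (horb m).1
      rw [Nat.add_comm m n₀]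
      have h2m : (0 : ℝ) < 2 ^ m := by positivity
      nlinarith
    have hT2 : Tendsto (fun m : ℕ => (comp a P 0 m p).2 / (comp a P 0 m p).1) atTop (𝓝 0) := by
      rw [← tendsto_add_atTop_iff_nat (n₀ + 1)]
      refine squeeze_zero_norm (a := fun m : ℕ => c⁻¹ * (2 ^ m)⁻¹) (fun m => ?_) ?_
      · have := hrat m
        have e : m + (n₀ + 1) = n₀ + m + 1 := by omega
        rw [e]
        exact this
      · have h1 : Tendsto (fun m : ℕ => ((2 : ℝ) ^ m)⁻¹) atTop (𝓝 0) :=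
          (tendsto_pow_atTop_atTop_of_one_lt (show (1 : ℝ) < 2 by norm_num)).inv_tendsto_atTop
        simpa using h1.const_mul c⁻¹
    have hsub : Tendsto (fun n : ℕ => n * k) atTop atTop :=
      tendsto_id.atTop_mul_const' hD.hk
    refine ⟨?_, ?_⟩
    · have := hT1.comp hsub
      refine this.congr fun n => ?_
      simp only [Function.comp]
      rw [iterate_comp hD.pa hD.pP]
    · have := hT2.comp hsub
      refine this.congr fun n => ?_
      simp only [Function.comp]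
      rw [iterate_comp hD.pa hD.pP]
  · right
    push Not at h
    refine ⟨max (max ‖p.1‖ ‖p.2‖) R, ?_⟩
    have hb : ∀ n : ℕ, ‖(comp a P 0 n p).1‖ ≤ max (max ‖p.1‖ ‖p.2‖) R ∧
        ‖(comp a P 0 n p).2‖ ≤ max (max ‖p.1‖ ‖p.2‖) R := by
      intro n
      induction n with
      | zero =>
        exact ⟨le_trans (le_max_left _ _) (le_max_left _ _),
          le_trans (le_max_right _ _) (le_max_left _ _)⟩
      | succ n ih =>
        have hn := h (n + 1)
        have e : (comp a P 0 (n + 1) p).2 = (comp a P 0 n p).1 := rfl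
        refine ⟨?_, ?_⟩
        · by_cases hR' : R ≤ ‖(comp a P 0 (n + 1) p).1‖
          · have := hn hR'
            rw [e] at this
            exact le_trans this.le ih.1
          · exact le_trans (not_le.mp hR').le (le_max_right _ _)
        · rw [e]
          exact ih.1
    intro n
    rw [iterate_comp hD.pa hD.pP]
    exact hb _

end HEN
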