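import Mathlib

/-!
# Generalized Hénon maps and their surfaces `S(f)`: definitions
-/

open Filter Topology Polynomial Bornology

noncomputable section

namespace HEN

/-! ## Statement level definitions -/

/-- The Hénon map `H_{a,P}(x,y) = (P(x) - a y, x)`. -/
def H (a : ℂ) (P : ℂ[X]) (p : ℂ × ℂ) : ℂ × ℂ := (P.eval p.1 - a * p.2, p.1)

/-- `comp a P i n = H_{a_{i+n-1},P_{i+n-1}} ∘ ⋯ ∘ H_{a_i,P_i}` (`n` factors). -/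
def comp (a : ℤ → ℂ) (P : ℤ → ℂ[X]) (i : ℤ) : ℕ → ℂ × ℂ → ℂ × ℂ
  | 0, p => p
  | n + 1, p => H (a (i + n)) (P (i + n)) (comp a P i n p)

/-- `(a_i, P_i)`, `i ∈ ℤ`, is Hénon data of period `k ≥ 1`. -/
structure IsData (k : ℕ) (a : ℤ → ℂ) (P : ℤ → ℂ[X]) : Prop where
  hk : 0 < k
  ha : ∀ i, a i ≠ 0
  hd : ∀ i, 2 ≤ (P i).natDegree
  pa : ∀ i, a (i + k) = a i
  pP : ∀ i, P (i + k) = P i

/-- The points of `ℂ²` whose forward orbit under `f` converges to `[1:0:0]` in `ℙ²`. -/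
def Omega (f : ℂ × ℂ → ℂ × ℂ) : Set (ℂ × ℂ) :=
  {p | Tendsto (fun n : ℕ => ‖(f^[n] p).1‖) atTop atTop ∧
    Tendsto (fun n : ℕ => (f^[n] p).2 / (f^[n] p).1) atTop (𝓝 0)}

/-- The orbit relation of `f` on `Ω(f)`. -/
def orb (f : ℂ × ℂ → ℂ × ℂ) : Setoid (Omega f) where
  r p q := ∃ n m : ℕ, f^[n] p.1 = f^[m] q.1
  iseqv := by
    refine ⟨fun p => ⟨0, 0, rfl⟩, ?_, ?_⟩
    · rintro p q ⟨n, m, h⟩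
      exact ⟨m, n, h.symm⟩
    · rintro p q r ⟨n, m, h⟩ ⟨n', m', h'⟩
      refine ⟨n' + n, m + m', ?_⟩
      rw [Function.iterate_add_apply, h, ← Function.iterate_add_apply, Nat.add_comm n' m,
        Function.iterate_add_apply, h', ← Function.iterate_add_apply]

/-- The orbit space `S(f) = Ω(f)/⟨f⟩`. -/
def Surf (f : ℂ × ℂ → ℂ × ℂ) : Type := Quotient (orb f)

instance (f : ℂ × ℂ → ℂ × ℂ) : TopologicalSpace (Surf f) :=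
  inferInstanceAs (TopologicalSpace (Quotient (orb f)))

/-- The class of a point of `Ω(f)` in `S(f)`. -/
def mk (f : ℂ × ℂ → ℂ × ℂ) (p : ℂ × ℂ) (hp : p ∈ Omega f) : Surf f :=
  Quotient.mk (orb f) ⟨p, hp⟩

/-- `Φ : S(f) → S(g)` is holomorphic: locally it is induced by holomorphic maps from open
subsets of `Ω(f)` to `Ω(g)`. -/
def IsHolo (f g : ℂ × ℂ → ℂ × ℂ) (Φ : Surf f → Surf g) : Prop :=
  ∀ p ∈ Omega f, ∃ (U : Set (ℂ × ℂ)) (φ : ℂ × ℂ → ℂ × ℂ), IsOpen U ∧ p ∈ U ∧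
    DifferentiableOn ℂ φ U ∧
    ∀ q ∈ U, ∀ hq : q ∈ Omega f, ∃ h : φ q ∈ Omega g, Φ (mk f q hq) = mk g (φ q) h

/-- `S(f)` and `S(g)` are biholomorphic. -/
def Biholo (f g : ℂ × ℂ → ℂ × ℂ) : Prop :=
  ∃ Φ : Surf f ≃ Surf g, IsHolo f g Φ ∧ IsHolo g f Φ.symm

/-- A polynomial map `ℂ² → ℂ²`. -/
def IsPolyMap (h : ℂ × ℂ → ℂ × ℂ) : Prop :=
  ∃ A B : MvPolynomial (Fin 2) ℂ, ∀ p : ℂ × ℂ,
    h p = (MvPolynomial.eval ![p.1, p.2] A, MvPolynomial.eval ![p.1, p.2] B)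

/-- A polynomial automorphism of `ℂ²`. -/
def IsPolyAut (h : ℂ × ℂ → ℂ × ℂ) : Prop :=
  IsPolyMap h ∧ ∃ h' : ℂ × ℂ → ℂ × ℂ, IsPolyMap h' ∧
    Function.LeftInverse h' h ∧ Function.RightInverse h' h

/-- The affine substitution `x_{i+r} = α_i y_i + β_i` (with `α`, `β` of period `k`) transforms the
recurrence `x_{i+1} + a_i x_{i-1} = P_i(x_i)` into `y_{i+1} + b_i y_{i-1} = Q_i(y_i)`. -/
def Rel (k : ℕ) (a : ℤ → ℂ) (P : ℤ → ℂ[X]) (b : ℤ → ℂ) (Q : ℤ → ℂ[X]) (r : ℤ)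
    (α β : ℤ → ℂ) : Prop :=
  (∀ i, α i ≠ 0) ∧ (∀ i, α (i + k) = α i) ∧ (∀ i, β (i + k) = β i) ∧
  (∀ i, b i = a (i + r) * α (i - 1) / α (i + 1)) ∧
  ∀ i y, (Q i).eval y =
    ((P (i + r)).eval (α i * y + β i) - β (i + 1) - a (i + r) * β (i - 1)) / α (i + 1)

/-! ## Definitions used in the proof -/

/-- Normalized data: all `P_i` monic and centered. -/
structure IsNorm (P : ℤ → ℂ[X]) : Prop where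
  monic : ∀ i, (P i).Monic
  cent : ∀ i, (P i).coeff ((P i).natDegree - 1) = 0

/-- `λ_i = a_i / d_i`. -/
def lm (a : ℤ → ℂ) (P : ℤ → ℂ[X]) (i : ℤ) : ℂ := a i / (P i).natDegree

/-- The region `{R < |x|, |y|² < ρ |x|}`. -/
def W (ρ R : ℝ) : Set (ℂ × ℂ) := {p | R < ‖p.1‖ ∧ ‖p.2‖ ^ 2 < ρ * ‖p.1‖}

/-- The region `{R < |b|, |z|² < ρ |b|³}`. -/
def Z (ρ R : ℝ) : Set (ℂ × ℂ) := {p | R < ‖p.1‖ ∧ ‖p.2‖ ^ 2 < ρ * ‖p.1‖ ^ 3}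

/-- The polynomial `q` attached to a monic centered `P` of degree `d`:
`P(q(b)/b^d) = b^d + O(b⁻²)`. -/
structure IsQ (P q : ℂ[X]) : Prop where
  monic : q.Monic
  deg : q.natDegree = P.natDegree + 1
  cent : q.coeff P.natDegree = 0
  lim : ∃ C R : ℝ, ∀ b : ℂ, R ≤ ‖b‖ →
    ‖P.eval (q.eval b / b ^ P.natDegree) - b ^ P.natDegree‖ ≤ C / ‖b‖ ^ 2

/-- `D_n = d_0 ⋯ d_{n-1}`. -/
def Dp (d : ℕ → ℕ) (n : ℕ) : ℕ := ∏ j ∈ Finset.range n, d j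

/-- `λ_0 ⋯ λ_{n-1}`. -/
def Lp (lam : ℕ → ℂ) (n : ℕ) : ℂ := ∏ j ∈ Finset.range n, lam j

/-- The polynomial of the composition of the maps `(b,z) ↦ (b^{d_i}, λ_i z + q_i(b))`, `i < n`. -/
def Qp (d : ℕ → ℕ) (lam : ℕ → ℂ) (q : ℕ → ℂ[X]) : ℕ → ℂ[X]
  | 0 => 0
  | n + 1 => C (lam n) * Qp d lam q n + (q n).comp (X ^ (Dp d n))

/-- Chart package of a map `f` near infinity. -/
def Pack (f : ℂ × ℂ → ℂ × ℂ) (d : ℕ) (lam : ℂ) (Q : ℂ[X]) : Prop :=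
  2 ≤ d ∧ lam ≠ 0 ∧ Q.Monic ∧ 2 * Q.natDegree ≤ 3 * d ∧
  (∃ finv : ℂ × ℂ → ℂ × ℂ, Differentiable ℂ f ∧ Differentiable ℂ finv ∧
    Function.LeftInverse finv f ∧ Function.RightInverse finv f) ∧
  ∃ (R C : ℝ) (b z : ℂ × ℂ → ℂ), 1 ≤ R ∧ 0 < C ∧
    DifferentiableOn ℂ b (W 4 R) ∧ DifferentiableOn ℂ z (W 4 R) ∧
    (∀ p ∈ W 4 R, ‖b p - p.1‖ ≤ C ∧ ‖z p - p.1 * p.2‖ ≤ C) ∧
    (∀ p ∈ W 4 R, f p ∈ W (3 / 2) R ∧ b (f p) = b p ^ d ∧ z (f p) = lam * z p + Q.eval (b p)) ∧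
    (∀ p ∈ W 4 R, ∀ R' : ℝ, ∃ N : ℕ, ∀ n ≥ N, f^[n] p ∈ W (3 / 2) R') ∧
    (∀ p, p ∈ Omega f ↔ ∃ n : ℕ, f^[n] p ∈ W 4 R)

/-- The half space `{Re β > 0} × ℂ`. -/
def E : Set (ℂ × ℂ) := {x | 0 < x.1.re}

/-- `F(β,z) = (d β, λ z + Q(e^β))`. -/
def F (d : ℕ) (lam : ℂ) (Q : ℂ[X]) (x : ℂ × ℂ) : ℂ × ℂ :=
  (d * x.1, lam * x.2 + Q.eval (Complex.exp x.1))

/-- Translation of `β` by `2πi j`. -/
def T (j : ℤ) (x : ℂ × ℂ) : ℂ × ℂ := (x.1 + 2 * Real.pi * Complex.I * j, x.2)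

/-- `Ψ : E → Ω(f)` is a global parametrization of `Ω(f)`, semiconjugating `F` to `f`. -/
structure IsCover (f : ℂ × ℂ → ℂ × ℂ) (d : ℕ) (lam : ℂ) (Q : ℂ[X])
    (Ψ : ℂ × ℂ → ℂ × ℂ) : Prop where
  hd : 2 ≤ d
  hlam : lam ≠ 0
  diff : DifferentiableOn ℂ Ψ E
  maps : ∀ x ∈ E, Ψ x ∈ Omega f
  surj : ∀ p ∈ Omega f, ∃ x ∈ E, Ψ x = p
  conj : ∀ x ∈ E, Ψ (F d lam Q x) = f (Ψ x)
  fib : ∀ x ∈ E, ∀ y ∈ E, (Ψ x = Ψ y ↔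
    ∃ (n : ℕ) (j : ℤ), (F d lam Q)^[n] x = T j ((F d lam Q)^[n] y))
  loc : ∀ x ∈ E, ∃ (U V : Set (ℂ × ℂ)) (s : ℂ × ℂ → ℂ × ℂ), IsOpen U ∧ IsOpen V ∧ x ∈ U ∧
    U ⊆ E ∧ Set.MapsTo Ψ U V ∧ Set.MapsTo s V U ∧ DifferentiableOn ℂ s V ∧
    (∀ u ∈ U, s (Ψ u) = u) ∧ ∀ v ∈ V, Ψ (s v) = v

/-- `G(b,z) = (b^d, λ z + Q(b))`. -/
def G (d : ℕ) (lam : ℂ) (Q : ℂ[X]) (w : ℂ × ℂ) : ℂ × ℂ := (w.1 ^ d, lam * w.2 + Q.eval w.1)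

/-- `(β,z) ↦ (e^β, z)`. -/
def ex (x : ℂ × ℂ) : ℂ × ℂ := (Complex.exp x.1, x.2)

/-- The inverse of `F`. -/
def Finv (d : ℕ) (lam : ℂ) (Q : ℂ[X]) (x : ℂ × ℂ) : ℂ × ℂ :=
  (x.1 / d, (x.2 - Q.eval (Complex.exp (x.1 / d))) / lam)

/-- The projection `E → S(f)`. -/
def prj {f : ℂ × ℂ → ℂ × ℂ} {d : ℕ} {lam : ℂ} {Q : ℂ[X]} {Ψ : ℂ × ℂ → ℂ × ℂ}
    (h : IsCover f d lam Q Ψ) (x : E) : Surf f := mk f (Ψ x) (h.maps x x.2)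

/-- The open right half plane. -/
def HP : Set ℂ := {β | 0 < β.re}

/-- The outcome of lifting a biholomorphic map to `E`. -/
def LiftData (d : ℕ) (lam : ℂ) (Q : ℂ[X]) (d' : ℕ) (lam' : ℂ) (Q' : ℂ[X])
    (Φ : ℂ × ℂ → ℂ × ℂ) : Prop :=
  (∃ (n m : ℕ) (j : ℤ), ∀ x ∈ E,
    (F d' lam' Q')^[n] (Φ (F d lam Q x)) = T j ((F d' lam' Q')^[m] (Φ x))) ∧
  (∃ (n m : ℕ) (j : ℤ), ∀ x ∈ E,
    (F d' lam' Q')^[n] (Φ (T 1 x)) = T j ((F d' lam' Q')^[m] (Φ x)))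

/-! ## Chart functions -/

/-- `log b - log x`. -/
def hh (a : ℤ → ℂ) (P : ℤ → ℂ[X]) (i : ℤ) (p : ℂ × ℂ) : ℂ :=
  ∑' n : ℕ, (((∏ j ∈ Finset.range (n + 1), (P (i + j)).natDegree : ℕ) : ℂ))⁻¹ *
    Complex.log ((comp a P i (n + 1) p).1 / (comp a P i n p).1 ^ (P (i + n)).natDegree)

/-- The Böttcher coordinate `b`. -/
def bb (a : ℤ → ℂ) (P : ℤ → ℂ[X]) (i : ℤ) (p : ℂ × ℂ) : ℂ := p.1 * Complex.exp (hh a P i p)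

/-- The error term `x x₊ - λ x y - q(b)`. -/
def ee (a : ℤ → ℂ) (P q : ℤ → ℂ[X]) (i : ℤ) (p : ℂ × ℂ) : ℂ :=
  p.1 * (H (a i) (P i) p).1 - lm a P i * p.1 * p.2 - (q i).eval (bb a P i p)

/-- The second coordinate `z`. -/
def zz (a : ℤ → ℂ) (P q : ℤ → ℂ[X]) (c : ℤ → ℂ) (i : ℤ) (p : ℂ × ℂ) : ℂ :=
  p.1 * p.2 + ∑' n : ℕ, (∏ j ∈ Finset.range (n + 1), lm a P (i + j))⁻¹ *
    (ee a P q (i + n) (comp a P i n p) - c (i + n))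

/-- `r = x₊ - b₊`. -/
def rr (a : ℤ → ℂ) (P : ℤ → ℂ[X]) (i : ℤ) (p : ℂ × ℂ) : ℂ :=
  (H (a i) (P i) p).1 - bb a P (i + 1) (H (a i) (P i) p)

/-- `β(x) = x (P(x)/x^d)^{1/d}`. -/
def bt (P : ℂ[X]) (x : ℂ) : ℂ :=
  x * Complex.exp ((P.natDegree : ℂ)⁻¹ * Complex.log (P.eval x / x ^ P.natDegree))

end HEN
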