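import Pool.Agent.Lib.MP_e79cb7_ag.Cmp

/-! # Algebra of the maps `F`, `T`, `ex`, `G` -/

open Filter Topology Polynomial Bornology

noncomputable section

namespace HEN

private theorem ex_T (j : ℤ) (x : ℂ × ℂ) : ex (T j x) = ex x := by
  unfold ex T
  simp only
  rw [Complex.exp_add]
  have : Complex.exp (2 * Real.pi * Complex.I * j) = 1 := by
    rw [Complex.exp_eq_one_iff]
    exact ⟨j, by ring⟩
  rw [this, mul_one]

private theorem F_T {d : ℕ} {lam : ℂ} {Q : ℂ[X]} (j : ℤ) (x : ℂ × ℂ) :
    F d lam Q (T j x) = T (d * j) (F d lam Q x) := by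
  have h := ex_T j x
  unfold ex at h
  unfold F T at *
  simp only [Prod.mk.injEq] at h ⊢
  refine ⟨?_, ?_⟩
  · push_cast
    ring
  · rw [h.1]

theorem F_facts {d : ℕ} (hd : 2 ≤ d) {lam : ℂ} (hlam : lam ≠ 0) (Q : ℂ[X]) :
    Set.MapsTo (F d lam Q) E E ∧ Set.MapsTo (Finv d lam Q) E E ∧
    (∀ x, Finv d lam Q (F d lam Q x) = x) ∧ (∀ x, F d lam Q (Finv d lam Q x) = x) ∧
    Differentiable ℂ (F d lam Q) ∧ Differentiable ℂ (Finv d lam Q) ∧
    (∀ j, Set.MapsTo (T j) E E) ∧ (∀ j, Differentiable ℂ (T j)) ∧
    (∀ i j x, T i (T j x) = T (i + j) x) ∧ (∀ x, T 0 x = x) ∧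
    (∀ (n : ℕ) (j : ℤ) x, (F d lam Q)^[n] (T j x) = T (d ^ n * j) ((F d lam Q)^[n] x)) ∧
    (∀ (n : ℕ) x, ex ((F d lam Q)^[n] x) = (G d lam Q)^[n] (ex x)) ∧
    (∀ x y, ex x = ex y ↔ ∃ j : ℤ, x = T j y) := by
  have hd0 : (d : ℂ) ≠ 0 := by exact_mod_cast (by omega : d ≠ 0)
  have hdpos : (0 : ℝ) < d := by exact_mod_cast (by omega : 0 < d)
  refine ⟨?_, ?_, ?_, ?_, ?_, ?_, ?_, ?_, ?_, ?_, ?_, ?_, ?_⟩
  · intro x hx
    simp only [E, F, Set.mem_setOf_eq] at hx ⊢
    have : ((d : ℂ) * x.1).re = d * x.1.re := by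
      have := Complex.re_ofReal_mul (d : ℝ) x.1
      simpa using this
    rw [this]
    positivity
  · intro x hx
    simp only [E, Finv, Set.mem_setOf_eq] at hx ⊢
    have : (x.1 / (d : ℂ)).re = x.1.re / d := by
      have := Complex.div_ofReal_re x.1 (d : ℝ)
      simpa using this
    rw [this]
    positivity
  · intro x
    unfold F Finv
    simp only
    rw [mul_div_cancel_left₀ _ hd0]
    ext
    · rfl
    · simp only
      rw [add_sub_cancel_right, mul_div_cancel_left₀ _ hlam]
  · intro x
    unfold F Finv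
    simp only
    ext
    · exact mul_div_cancel₀ _ hd0
    · simp only
      rw [mul_div_cancel₀ _ hlam, sub_add_cancel]
  · unfold F
    have h1 : Differentiable ℂ (fun x : ℂ × ℂ => Q.eval (Complex.exp x.1)) :=
      Q.differentiable.comp (Complex.differentiable_exp.comp differentiable_fst)
    exact (differentiable_fst.const_mul _).prodMk ((differentiable_snd.const_mul _).add h1)
  · unfold Finv
    have h0 : Differentiable ℂ (fun x : ℂ × ℂ => x.1 / (d : ℂ)) := by
      simpa [div_eq_mul_inv] using differentiable_fst.mul_const (d : ℂ)⁻¹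
    have h1 : Differentiable ℂ (fun x : ℂ × ℂ => Q.eval (Complex.exp (x.1 / d))) :=
      Q.differentiable.comp (Complex.differentiable_exp.comp h0)
    have h2 : Differentiable ℂ (fun x : ℂ × ℂ => (x.2 - Q.eval (Complex.exp (x.1 / d))) / lam) := by
      simpa [div_eq_mul_inv] using (differentiable_snd.sub h1).mul_const lam⁻¹
    exact h0.prodMk h2
  · intro j x hx
    simp only [E, T, Set.mem_setOf_eq] at hx ⊢
    have : (2 * (Real.pi : ℂ) * Complex.I * (j : ℂ)).re = 0 := by
      simp
    rw [Complex.add_re, this, add_zero]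
    exact hx
  · intro j
    unfold T
    exact (differentiable_fst.add_const _).prodMk differentiable_snd
  · intro i j x
    unfold T
    simp only [Prod.mk.injEq, and_true]
    push_cast
    ring
  · intro x
    unfold T
    simp
  · intro n
    induction n with
    | zero => intro j x; simp
    | succ n ih =>
      intro j x
      rw [Function.iterate_succ_apply, F_T, ih, Function.iterate_succ_apply]
      congr 1
      ring
  · intro n
    induction n with
    | zero => intro x; rfl
    | succ n ih =>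
      intro x
      rw [Function.iterate_succ_apply', Function.iterate_succ_apply', ← ih]
      generalize (F d lam Q)^[n] x = y
      unfold ex F G
      simp only
      rw [← Complex.exp_nat_mul]
  · intro x y
    constructor
    · intro h
      unfold ex at h
      simp only [Prod.mk.injEq] at h
      obtain ⟨n, hn⟩ := Complex.exp_eq_exp_iff_exists_int.1 h.1
      refine ⟨n, ?_⟩
      unfold T
      ext
      · simp only
        rw [hn]
        ring
      · exact h.2
    · rintro ⟨j, rfl⟩
      exact ex_T j y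

theorem E_facts : IsOpen E ∧ Convex ℝ E ∧ E.Nonempty ∧ (∀ x ∈ E, 1 < ‖(ex x).1‖) ∧
    (∀ w : ℂ × ℂ, 1 < ‖w.1‖ → ∃ x ∈ E, ex x = w) := by
  refine ⟨?_, ?_, ?_, ?_, ?_⟩
  · exact isOpen_lt continuous_const (Complex.continuous_re.comp continuous_fst)
  · intro x hx y hy s t hs ht hst
    simp only [E, Set.mem_setOf_eq] at hx hy ⊢
    have : (s • x + t • y).1.re = s * x.1.re + t * y.1.re := by
      simp
    rw [this]
    rcases hs.eq_or_lt with h | h
    · rw [← h] at hst ⊢
      rw [zero_add] at hst
      rw [hst]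
      linarith
    · have : 0 ≤ t * y.1.re := by positivity
      have : 0 < s * x.1.re := by positivity
      linarith
  · exact ⟨(1, 0), by simp [E]⟩
  · intro x hx
    simp only [E, ex, Set.mem_setOf_eq] at hx ⊢
    rw [Complex.norm_exp]
    exact Real.one_lt_exp_iff.2 hx
  · intro w hw
    have hw0 : w.1 ≠ 0 := by
      intro h
      rw [h, norm_zero] at hw
      linarith
    refine ⟨(Complex.log w.1, w.2), ?_, ?_⟩
    · simp only [E, Set.mem_setOf_eq]
      rw [Complex.log_re]
      exact Real.log_pos hw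
    · unfold ex
      simp only
      rw [Complex.exp_log hw0]

end HEN
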