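import Mathlib
import Pool.Agent.Lib.MP_e79cb7_ag.Cmp

open Filter Topology Polynomial Bornology

noncomputable section

namespace HEN

/- integral over a period along a vertical line -/
def fouI (h : ℂ → ℂ) (x : ℝ) : ℂ := ∫ y in (0 : ℝ)..(2 * Real.pi), h (x + y * Complex.I)

lemma fou_mem {x : ℝ} (hx : 0 < x) (y : ℝ) : (x + y * Complex.I : ℂ) ∈ HP := by
  change 0 < (x + y * Complex.I : ℂ).re
  simpa using hx

lemma fou_cont {h : ℂ → ℂ} (hh : DifferentiableOn ℂ h HP) {x : ℝ} (hx : 0 < x) :
    Continuous (fun y : ℝ => h (x + y * Complex.I)) := by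
  have h1 : ContinuousOn h HP := hh.continuousOn
  apply h1.comp_continuous (by fun_prop)
  intro y
  exact fou_mem hx y

lemma fou_indep {h : ℂ → ℂ} (hh : DifferentiableOn ℂ h HP)
    (hper : ∀ β ∈ HP, h (β + 2 * Real.pi * Complex.I) = h β) {x₁ x₂ : ℝ} (h1 : 0 < x₁)
    (h2 : 0 < x₂) : fouI h x₁ = fouI h x₂ := by
  have key := Complex.integral_boundary_rect_eq_zero_of_differentiableOn h
    (⟨x₁, 0⟩ : ℂ) (⟨x₂, 2 * Real.pi⟩ : ℂ) (hh.mono (by
      intro z hz
      have h3 : z.re ∈ Set.uIcc x₁ x₂ := hz.1
      have h4 : min x₁ x₂ ≤ z.re := h3.1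
      exact lt_of_lt_of_le (lt_min h1 h2) h4))
  simp only at key
  have h5 : (∫ x : ℝ in x₁..x₂, h (x + ((0 : ℝ) : ℂ) * Complex.I)) =
      ∫ x : ℝ in x₁..x₂, h (x + ((2 * Real.pi : ℝ) : ℂ) * Complex.I) := by
    apply intervalIntegral.integral_congr
    intro x hx
    have h6 : 0 < x := lt_of_lt_of_le (lt_min h1 h2) hx.1
    have h7 := hper (x : ℂ) (by
      change 0 < (x : ℂ).re
      simpa using h6)
    simp only [Complex.ofReal_zero, zero_mul, add_zero]
    rw [← h7]
    push_cast
    rfl
  rw [h5, sub_self, zero_add, sub_eq_zero] at key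
  have h8 : (∫ y : ℝ in (0 : ℝ)..(2 * Real.pi), h ((x₂ : ℂ) + y * Complex.I)) =
      ∫ y : ℝ in (0 : ℝ)..(2 * Real.pi), h ((x₁ : ℂ) + y * Complex.I) := by
    have h9 := mul_left_cancel₀ Complex.I_ne_zero key
    exact h9
  exact h8.symm

/- a rotation of a periodic function -/
lemma fou_zero {K : ℝ → ℂ} (hK : Function.Periodic K (2 * Real.pi)) (τ : ℝ) (ω : ℂ)
    (hω : ω ≠ 1) (h : ∀ y, K (y + τ) = ω * K y) :
    ∫ y in (0 : ℝ)..(2 * Real.pi), K y = 0 := by
  have h1 : ∫ y in (0 : ℝ)..(2 * Real.pi), K (y + τ) = ∫ y in (0 : ℝ)..(2 * Real.pi), K y := by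
    rw [intervalIntegral.integral_comp_add_right]
    have h2 := hK.intervalIntegral_add_eq (0 + τ) 0
    rw [zero_add (2 * Real.pi)] at h2
    rw [← h2]
    congr 1
    ring
  have h3 : ∫ y in (0 : ℝ)..(2 * Real.pi), K (y + τ) =
      ω * ∫ y in (0 : ℝ)..(2 * Real.pi), K y := by
    rw [← intervalIntegral.integral_const_mul]
    apply intervalIntegral.integral_congr
    intro y _
    exact h y
  rw [h1] at h3
  have h4 : (1 - ω) * ∫ y in (0 : ℝ)..(2 * Real.pi), K y = 0 := by
    rw [sub_mul, one_mul, ← h3, sub_self]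
  exact (mul_eq_zero.1 h4).resolve_left (sub_ne_zero.2 (Ne.symm hω))

/- change of scale -/
lemma fou_scale {h : ℂ → ℂ} (hh : DifferentiableOn ℂ h HP)
    (hper : ∀ β ∈ HP, h (β + 2 * Real.pi * Complex.I) = h β) {d : ℕ} (hd : 0 < d) {x : ℝ}
    (hx : 0 < x) : ∫ y in (0 : ℝ)..(2 * Real.pi), h (d * (x + y * Complex.I)) =
      fouI h (d * x) := by
  have hdR : (0 : ℝ) < d := by exact_mod_cast hd
  have hdx : 0 < (d : ℝ) * x := mul_pos hdR hx
  let K : ℝ → ℂ := fun y => h (((d * x : ℝ) : ℂ) + y * Complex.I)
  have hKc : Continuous K := fou_cont hh hdx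
  have hKp : Function.Periodic K (2 * Real.pi) := by
    intro y
    have h1 := hper (((d * x : ℝ) : ℂ) + y * Complex.I) (fou_mem hdx y)
    change h _ = h _
    rw [← h1]
    congr 1
    push_cast
    ring
  have h2 : ∫ y in (0 : ℝ)..(2 * Real.pi), h (d * (x + y * Complex.I)) =
      ∫ y in (0 : ℝ)..(2 * Real.pi), K (d * y) := by
    apply intervalIntegral.integral_congr
    intro y _
    change h _ = h _
    congr 1
    push_cast
    ring
  rw [h2, intervalIntegral.integral_comp_mul_left K hdR.ne', mul_zero]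
  have h3 := hKp.intervalIntegral_add_zsmul_eq (d : ℤ) 0 (fun t₁ t₂ => hKc.intervalIntegrable _ _)
  rw [zero_add, zero_add] at h3
  have h4 : ((d : ℤ) • (2 * Real.pi) : ℝ) = d * (2 * Real.pi) := by
    rw [zsmul_eq_mul, Int.cast_natCast]
  rw [h4] at h3
  rw [h3, zsmul_eq_mul, Int.cast_natCast]
  change ((d : ℝ)⁻¹ : ℝ) • ((d : ℂ) * fouI h (d * x)) = _
  rw [Complex.real_smul, ← mul_assoc]
  have h5 : (((d : ℝ)⁻¹ : ℝ) : ℂ) * (d : ℂ) = 1 := by
    push_cast
    exact inv_mul_cancel₀ (by exact_mod_cast hd.ne')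
  rw [h5, one_mul]

/- Fourier coefficients of a polynomial in the exponential -/
lemma fou_poly (g : ℂ[X]) (J : ℕ) (x : ℝ) :
    ∫ y in (0 : ℝ)..(2 * Real.pi), g.eval (Complex.exp (x + y * Complex.I)) *
      Complex.exp (-(J * (x + y * Complex.I))) = 2 * Real.pi * g.coeff J := by
  have hcont : ∀ g : ℂ[X], Continuous (fun y : ℝ => g.eval (Complex.exp (x + y * Complex.I)) *
      Complex.exp (-(J * (x + y * Complex.I)))) := by
    intro g
    have h1 : Continuous (fun z : ℂ => g.eval z) := g.continuous
    have h2 : Continuous (fun y : ℝ => Complex.exp (x + y * Complex.I)) := by fun_prop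
    exact (h1.comp h2).mul (by fun_prop)
  induction g using Polynomial.induction_on' with
  | add p q hp hq =>
    simp only [eval_add, add_mul, coeff_add]
    rw [mul_add (2 * Real.pi : ℂ), intervalIntegral.integral_add ((hcont p).intervalIntegrable _ _)
      ((hcont q).intervalIntegrable _ _), hp, hq]
  | monomial m c =>
    simp only [eval_monomial, coeff_monomial]
    by_cases hm : m = J
    · subst hm
      rw [if_pos rfl]
      have h1 : ∀ y : ℝ, c * Complex.exp (x + y * Complex.I) ^ m *
          Complex.exp (-(m * (x + y * Complex.I))) = c := by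
        intro y
        rw [← Complex.exp_nat_mul, mul_assoc, ← Complex.exp_add, add_neg_cancel, Complex.exp_zero,
          mul_one]
      simp only [h1]
      rw [intervalIntegral.integral_const, Complex.real_smul]
      push_cast
      ring
    · rw [if_neg hm, mul_zero]
      have hmJ : (m : ℝ) - J ≠ 0 := sub_ne_zero.2 (by exact_mod_cast hm)
      have h1 : ∀ y : ℝ, c * Complex.exp (x + y * Complex.I) ^ m *
          Complex.exp (-(J * (x + y * Complex.I))) =
          c * Complex.exp (((m : ℂ) - J) * (x + y * Complex.I)) := by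
        intro y
        rw [← Complex.exp_nat_mul, mul_assoc, ← Complex.exp_add]
        congr 2
        ring
      simp only [h1]
      apply fou_zero (K := fun y : ℝ => c * Complex.exp (((m : ℂ) - J) * (x + y * Complex.I)))
        (τ := Real.pi / ((m : ℝ) - J)) (ω := -1)
      · intro y
        change c * _ = c * _
        congr 1
        have h2 : ((m : ℂ) - J) * (x + ((y + 2 * Real.pi : ℝ) : ℂ) * Complex.I) =
            ((m : ℂ) - J) * (x + y * Complex.I) +
              ((m - J : ℤ) : ℂ) * (2 * Real.pi * Complex.I) := by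
          push_cast
          ring
        rw [h2, Complex.exp_add, Complex.exp_int_mul_two_pi_mul_I, mul_one]
      · norm_num
      · intro y
        have hmJ' : (m : ℂ) - J ≠ 0 := by
          intro h
          apply hmJ
          exact_mod_cast h
        have h2 : ((m : ℂ) - J) * (x + ((y + Real.pi / ((m : ℝ) - J) : ℝ) : ℂ) * Complex.I) =
            ((m : ℂ) - J) * (x + y * Complex.I) + Real.pi * Complex.I := by
          push_cast
          field_simp
          ring
        rw [h2, Complex.exp_add, Complex.exp_pi_mul_I]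
        ring

/- Module FOU (file FOU.lean): the Fourier coefficient argument -/
theorem fourier_obstruction {d : ℕ} (hd : 2 ≤ d) {lam : ℂ} (hlam : lam ≠ 0) {B : ℂ → ℂ}
    (hB : DifferentiableOn ℂ B HP)
    (hper : ∀ β ∈ HP, B (β + 2 * Real.pi * Complex.I) = B β) (g : ℂ[X])
    (hG : ∀ β ∈ HP, B (d * β) - lam * B β = g.eval (Complex.exp β)) :
    ∀ j : ℕ, 1 ≤ j → ¬ d ∣ j → ∀ᶠ N : ℕ in atTop,
      ∑ n ∈ Finset.range N, lam ^ n * g.coeff (d ^ n * j) = 0 := by
  have hdpos : 0 < d := by omega
  have hdR : (0 : ℝ) < d := by exact_mod_cast hdpos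
  -- the functions `B e^{-Jβ}`
  let h : ℕ → ℂ → ℂ := fun J β => B β * Complex.exp (-(J * β))
  have hh : ∀ J, DifferentiableOn ℂ (h J) HP := by
    intro J
    apply hB.mul
    have : Differentiable ℂ (fun β : ℂ => Complex.exp (-((J : ℂ) * β))) := by fun_prop
    exact this.differentiableOn
  have hhper : ∀ J, ∀ β ∈ HP, h J (β + 2 * Real.pi * Complex.I) = h J β := by
    intro J β hβ
    change B _ * _ = B _ * _
    rw [hper β hβ]
    congr 1
    have h2 : -((J : ℂ) * (β + 2 * Real.pi * Complex.I)) =
        -(J * β) + ((-(J : ℤ) : ℤ) : ℂ) * (2 * Real.pi * Complex.I) := by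
      push_cast
      ring
    rw [h2, Complex.exp_add, Complex.exp_int_mul_two_pi_mul_I, mul_one]
  have hdHP : ∀ β ∈ HP, (d : ℂ) * β ∈ HP := by
    intro β hβ
    change 0 < ((d : ℂ) * β).re
    have h1 : ((d : ℂ) * β).re = d * β.re := by simp
    rw [h1]
    exact mul_pos hdR hβ
  have hBd : DifferentiableOn ℂ (fun β => B (d * β)) HP := by
    apply hB.comp
    · have : Differentiable ℂ (fun β : ℂ => (d : ℂ) * β) := by fun_prop
      exact this.differentiableOn
    · exact hdHP
  -- the integrated functional equation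
  have hI : ∀ J : ℕ, (∫ y in (0 : ℝ)..(2 * Real.pi), B (d * ((1 : ℝ) + y * Complex.I)) *
      Complex.exp (-(J * ((1 : ℝ) + y * Complex.I)))) - lam * fouI (h J) 1 =
        2 * Real.pi * g.coeff J := by
    intro J
    rw [← fou_poly g J 1]
    unfold fouI
    rw [← intervalIntegral.integral_const_mul, ← intervalIntegral.integral_sub]
    · apply intervalIntegral.integral_congr
      intro y _
      change B _ * _ - lam * (B _ * _) = Polynomial.eval _ g * _
      rw [← hG _ (fou_mem one_pos y)]
      ring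
    · apply Continuous.intervalIntegrable
      have h1 := fou_cont hBd (x := 1) one_pos
      exact h1.mul (by fun_prop)
    · apply Continuous.intervalIntegrable
      exact (fou_cont (hh J) one_pos).const_mul _ 
  have hI1 : ∀ J : ℕ, ¬ d ∣ J → - (lam * fouI (h J) 1) = 2 * Real.pi * g.coeff J := by
    intro J hJ
    rw [← hI J]
    have h0 : (∫ y in (0 : ℝ)..(2 * Real.pi), B (d * ((1 : ℝ) + y * Complex.I)) *
      Complex.exp (-(J * ((1 : ℝ) + y * Complex.I)))) = 0 := by
      apply fou_zero (K := fun y : ℝ => B (d * ((1 : ℝ) + y * Complex.I)) *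
        Complex.exp (-(J * ((1 : ℝ) + y * Complex.I)))) (τ := 2 * Real.pi / d)
        (ω := Complex.exp (-(J * (2 * Real.pi / d * Complex.I))))
      · intro y
        change B _ * _ = B _ * _
        have h3 : Complex.exp (-(J * ((1 : ℝ) + ((y + 2 * Real.pi : ℝ) : ℂ) * Complex.I))) =
            Complex.exp (-(J * ((1 : ℝ) + y * Complex.I))) := by
          have h2 : -((J : ℂ) * ((1 : ℝ) + ((y + 2 * Real.pi : ℝ) : ℂ) * Complex.I)) =
              -(J * ((1 : ℝ) + y * Complex.I)) + ((-(J : ℤ) : ℤ) : ℂ) *
                (2 * Real.pi * Complex.I) := by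
            push_cast
            ring
          rw [h2, Complex.exp_add, Complex.exp_int_mul_two_pi_mul_I, mul_one]
        rw [h3]
        congr 1
        have h4 : ∀ n : ℕ, B ((d : ℂ) * ((1 : ℝ) + y * Complex.I) +
            n * (2 * Real.pi * Complex.I)) = B (d * ((1 : ℝ) + y * Complex.I)) := by
          intro n
          induction n with
          | zero => simp
          | succ n ih =>
            have h6 : (d : ℂ) * ((1 : ℝ) + y * Complex.I) + n * (2 * Real.pi * Complex.I) ∈
                HP := by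
              change 0 < ((d : ℂ) * ((1 : ℝ) + y * Complex.I) + n * (2 * Real.pi * Complex.I)).re
              have h5 : ((d : ℂ) * ((1 : ℝ) + y * Complex.I) +
                  n * (2 * Real.pi * Complex.I)).re = d := by simp
              rw [h5]
              exact hdR
            rw [← ih, ← hper _ h6]
            congr 1
            push_cast
            ring
        rw [← h4 d]
        congr 1
        push_cast
        ring
      · intro h1
        rw [Complex.exp_eq_one_iff] at h1
        obtain ⟨n, hn⟩ := h1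
        apply hJ
        have h2 : ((J : ℤ) : ℂ) = ((-(n * d) : ℤ) : ℂ) := by
          have h3 : (2 * Real.pi * Complex.I : ℂ) ≠ 0 := Complex.two_pi_I_ne_zero
          have h4 : (d : ℂ) ≠ 0 := by exact_mod_cast hdpos.ne'
          have h5 : ((J : ℂ) + n * d) * (2 * Real.pi * Complex.I) = 0 := by
            have h6 : -((J : ℂ) * (2 * Real.pi / d * Complex.I)) * d =
                n * (2 * Real.pi * Complex.I) * d := by rw [hn]
            have h7 : -((J : ℂ) * (2 * Real.pi / d * Complex.I)) * d =
                - (J * (2 * Real.pi * Complex.I)) := by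
              field_simp
            rw [h7] at h6
            linear_combination -h6
          have h6 := (mul_eq_zero.1 h5).resolve_right h3
          push_cast
          linear_combination h6
        have h3 : (J : ℤ) = -(n * d) := by exact_mod_cast h2
        have h4 : (d : ℤ) ∣ (J : ℤ) := ⟨-n, by rw [h3]; ring⟩
        exact_mod_cast h4
      · intro y
        have hd0 : (d : ℂ) ≠ 0 := by exact_mod_cast hdpos.ne'
        have h1 : B (d * ((1 : ℝ) + ((y + 2 * Real.pi / d : ℝ) : ℂ) * Complex.I)) =
            B (d * ((1 : ℝ) + y * Complex.I)) := by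
          rw [← hper (d * ((1 : ℝ) + y * Complex.I)) (hdHP _ (fou_mem one_pos y))]
          congr 1
          push_cast
          field_simp
          ring
        rw [h1]
        have h2 : Complex.exp (-(J * ((1 : ℝ) + ((y + 2 * Real.pi / d : ℝ) : ℂ) * Complex.I))) =
            Complex.exp (-(J * (2 * Real.pi / d * Complex.I))) *
              Complex.exp (-(J * ((1 : ℝ) + y * Complex.I))) := by
          rw [← Complex.exp_add]
          congr 1
          push_cast
          ring
        rw [h2]
        ring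
    rw [h0, zero_sub]
  have hI2 : ∀ J : ℕ, fouI (h J) 1 - lam * fouI (h (d * J)) 1 =
      2 * Real.pi * g.coeff (d * J) := by
    intro J
    rw [← hI (d * J)]
    congr 1
    rw [fou_indep (hh J) (hhper J) one_pos (x₂ := d * 1) (by simpa using hdR),
      ← fou_scale (hh J) (hhper J) hdpos one_pos]
    apply intervalIntegral.integral_congr
    intro y _
    change B _ * _ = B _ * _
    congr 2
    push_cast
    ring
  intro j hj1 hj
  -- telescoping
  have htel : ∀ N : ℕ, ∑ n ∈ Finset.range (N + 1), lam ^ n * (2 * Real.pi * g.coeff (d ^ n * j)) =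
      - (lam ^ (N + 1) * fouI (h (d ^ N * j)) 1) := by
    intro N
    induction N with
    | zero =>
      simp only [zero_add, Finset.range_one, Finset.sum_singleton, pow_zero, one_mul, pow_one]
      exact (hI1 j hj).symm
    | succ N ih =>
      rw [Finset.sum_range_succ, ih]
      have h1 : d ^ (N + 1) * j = d * (d ^ N * j) := by ring
      rw [h1, ← hI2 (d ^ N * j)]
      ring
  -- the bound
  obtain ⟨x, hx0, hx⟩ : ∃ x : ℝ, 0 < x ∧ ‖lam‖ * Real.exp (-x) ≤ 1 / 2 := by
    refine ⟨Real.log (2 * (‖lam‖ + 1)), Real.log_pos (by linarith [norm_nonneg lam]), ?_⟩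
    have h1 : 0 < 2 * (‖lam‖ + 1) := by linarith [norm_nonneg lam]
    rw [Real.exp_neg, Real.exp_log h1, mul_inv_le_iff₀ h1]
    linarith [norm_nonneg lam]
  obtain ⟨M, hM⟩ : ∃ M : ℝ, ∀ y ∈ Set.Icc (0 : ℝ) (2 * Real.pi), ‖B (x + y * Complex.I)‖ ≤ M := by
    have h1 := (isCompact_Icc (a := (0 : ℝ)) (b := 2 * Real.pi)).exists_bound_of_continuousOn
      (fou_cont hB hx0).continuousOn
    exact h1
  have hM0 : 0 ≤ M := le_trans (norm_nonneg _) (hM 0 ⟨le_refl _, by positivity⟩)
  have hbound : ∀ J : ℕ, ‖fouI (h J) 1‖ ≤ M * Real.exp (-(J * x)) * (2 * Real.pi) := by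
    intro J
    rw [fou_indep (hh J) (hhper J) one_pos hx0]
    unfold fouI
    have h1 := intervalIntegral.norm_integral_le_of_norm_le_const (a := (0 : ℝ))
      (b := 2 * Real.pi) (f := fun y : ℝ => h J (x + y * Complex.I))
      (C := M * Real.exp (-(J * x))) (by
        intro y hy
        rw [Set.uIoc_of_le (by positivity)] at hy
        change ‖B _ * _‖ ≤ _
        rw [norm_mul, Complex.norm_exp]
        have h2 : (-((J : ℂ) * (x + y * Complex.I))).re = -(J * x) := by simp
        rw [h2]
        exact mul_le_mul_of_nonneg_right (hM y ⟨hy.1.le, hy.2⟩) (Real.exp_pos _).le)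
    rw [sub_zero, abs_of_pos (by positivity)] at h1
    exact h1
  have hlim : Tendsto (fun N : ℕ => lam ^ (N + 1) * fouI (h (d ^ N * j)) 1) atTop (𝓝 0) := by
    apply squeeze_zero_norm (a := fun N : ℕ => ‖lam‖ * M * (2 * Real.pi) * (1 / 2 : ℝ) ^ N)
    · intro N
      rw [norm_mul, norm_pow]
      have h1 := hbound (d ^ N * j)
      have h2 : N ≤ d ^ N * j := by
        calc N ≤ d ^ N := (Nat.lt_pow_self (by omega)).le
          _ = d ^ N * 1 := (mul_one _).symm
          _ ≤ d ^ N * j := Nat.mul_le_mul_left _ hj1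
      have h3 : Real.exp (-(((d ^ N * j : ℕ) : ℝ) * x)) ≤ Real.exp (-x) ^ N := by
        rw [← Real.exp_nat_mul]
        apply Real.exp_le_exp.2
        have h4 : (N : ℝ) ≤ ((d ^ N * j : ℕ) : ℝ) := by exact_mod_cast h2
        nlinarith
      calc ‖lam‖ ^ (N + 1) * ‖fouI (h (d ^ N * j)) 1‖
          ≤ ‖lam‖ ^ (N + 1) * (M * Real.exp (-(((d ^ N * j : ℕ) : ℝ) * x)) * (2 * Real.pi)) :=
            mul_le_mul_of_nonneg_left h1 (by positivity)
        _ ≤ ‖lam‖ ^ (N + 1) * (M * Real.exp (-x) ^ N * (2 * Real.pi)) := by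
            apply mul_le_mul_of_nonneg_left _ (by positivity)
            apply mul_le_mul_of_nonneg_right _ (by positivity)
            exact mul_le_mul_of_nonneg_left h3 hM0
        _ = ‖lam‖ * M * (2 * Real.pi) * (‖lam‖ * Real.exp (-x)) ^ N := by ring
        _ ≤ ‖lam‖ * M * (2 * Real.pi) * (1 / 2 : ℝ) ^ N := by
            apply mul_le_mul_of_nonneg_left _ (by positivity)
            exact pow_le_pow_left₀ (by positivity) hx N
    · have h1 : Tendsto (fun N : ℕ => (1 / 2 : ℝ) ^ N) atTop (𝓝 0) :=
        tendsto_pow_atTop_nhds_zero_of_lt_one (by norm_num) (by norm_num)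
      have h2 := h1.const_mul (‖lam‖ * M * (2 * Real.pi))
      rw [mul_zero] at h2
      exact h2
  -- the sum is eventually constant
  have hconst : ∀ N ≥ g.natDegree + 1, ∑ n ∈ Finset.range N, lam ^ n * g.coeff (d ^ n * j) =
      ∑ n ∈ Finset.range (g.natDegree + 1), lam ^ n * g.coeff (d ^ n * j) := by
    intro N hN
    symm
    apply Finset.sum_subset
    · intro a ha
      rw [Finset.mem_range] at ha ⊢
      omega
    · intro n _ hn
      rw [Finset.mem_range, not_lt] at hn
      have h1 : g.natDegree < d ^ n * j := by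
        calc g.natDegree < n := by omega
          _ ≤ d ^ n := (Nat.lt_pow_self (by omega)).le
          _ = d ^ n * 1 := (mul_one _).symm
          _ ≤ d ^ n * j := Nat.mul_le_mul_left _ hj1
      rw [coeff_eq_zero_of_natDegree_lt h1, mul_zero]
  have hS : ∑ n ∈ Finset.range (g.natDegree + 1), lam ^ n * g.coeff (d ^ n * j) = 0 := by
    have h1 : Tendsto (fun N : ℕ => - (lam ^ (N + 1) * fouI (h (d ^ N * j)) 1)) atTop (𝓝 0) := by
      have := hlim.neg
      rwa [neg_zero] at this
    have h2 : Tendsto (fun N : ℕ => - (lam ^ (N + 1) * fouI (h (d ^ N * j)) 1)) atTop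
        (𝓝 (2 * Real.pi * ∑ n ∈ Finset.range (g.natDegree + 1),
          lam ^ n * g.coeff (d ^ n * j))) := by
      apply tendsto_const_nhds.congr'
      filter_upwards [eventually_ge_atTop (g.natDegree + 1)] with N hN
      rw [← htel N, ← hconst (N + 1) (by omega), Finset.mul_sum]
      apply Finset.sum_congr rfl
      intro n _
      ring
    have h3 := tendsto_nhds_unique h2 h1
    have h4 : (2 * Real.pi : ℂ) ≠ 0 := by
      have := Real.pi_pos.ne'
      simp [this]
    exact (mul_eq_zero.1 h3).resolve_left h4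
  filter_upwards [eventually_ge_atTop (g.natDegree + 1)] with N hN
  rw [hconst N hN, hS]

end HEN
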