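import Pool.Agent.Lib.MP_e79cb7_ag.Cmp

open Filter Topology Polynomial Bornology

noncomputable section

namespace HEN

theorem gdy_Q {Q : ℂ[X]} (hQ : Q.Monic) : ∃ C : ℝ, 0 ≤ C ∧ ∀ b : ℂ, 1 ≤ ‖b‖ →
    ‖Q.eval b‖ ≤ (1 + C / ‖b‖) * ‖b‖ ^ Q.natDegree := by
  refine ⟨∑ i ∈ Finset.range Q.natDegree, ‖Q.coeff i‖,
    Finset.sum_nonneg fun _ _ => norm_nonneg _, fun b hb => ?_⟩
  have hb0 : 0 < ‖b‖ := by linarith
  rw [Polynomial.eval_eq_sum_range, Finset.sum_range_succ, hQ.coeff_natDegree, one_mul]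
  refine (norm_add_le _ _).trans ?_
  rw [norm_pow, add_mul, one_mul, add_comm]
  refine add_le_add le_rfl ?_
  refine (norm_sum_le _ _).trans ?_
  rw [div_mul_eq_mul_div, Finset.sum_mul, Finset.sum_div]
  refine Finset.sum_le_sum fun i hi => ?_
  rw [Finset.mem_range] at hi
  rw [norm_mul, norm_pow, mul_div_assoc]
  refine mul_le_mul_of_nonneg_left ?_ (norm_nonneg _)
  rw [le_div_iff₀ hb0, ← pow_succ]
  exact pow_le_pow_right₀ hb hi

/-- one step of the dynamics; `t = √|b|`. -/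
theorem gdy_step {d : ℕ} (hd : 2 ≤ d) {lam : ℂ} {Q : ℂ[X]} (hQd : 2 * Q.natDegree ≤ 3 * d)
    {C : ℝ} (hC0 : 0 ≤ C) (hC : ∀ b : ℂ, 1 ≤ ‖b‖ → ‖Q.eval b‖ ≤ (1 + C / ‖b‖) * ‖b‖ ^ Q.natDegree)
    (w : ℂ × ℂ) (t : ℝ) (ht : 1 ≤ t) (htw : ‖w.1‖ = t ^ 2) :
    ‖(G d lam Q w).2‖ ≤ (‖lam‖ * (‖w.2‖ / t ^ 3) / t ^ 3 + 1 + C / t ^ 2) * t ^ (3 * d) := by
  have ht0 : 0 < t := by linarith
  have h1 : ‖Q.eval w.1‖ ≤ (1 + C / t ^ 2) * t ^ (3 * d) := by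
    have h2 := hC w.1 (by rw [htw]; exact one_le_pow₀ ht)
    rw [htw, ← pow_mul] at h2
    refine h2.trans (mul_le_mul_of_nonneg_left (pow_le_pow_right₀ ht hQd) (by positivity))
  have h3 : ‖lam * w.2‖ ≤ (‖lam‖ * (‖w.2‖ / t ^ 3) / t ^ 3) * t ^ (3 * d) := by
    rw [norm_mul]
    have h4 : t ^ 6 ≤ t ^ (3 * d) := pow_le_pow_right₀ ht (by omega)
    calc ‖lam‖ * ‖w.2‖ = (‖lam‖ * (‖w.2‖ / t ^ 3) / t ^ 3) * t ^ 6 := by
          field_simp
      _ ≤ (‖lam‖ * (‖w.2‖ / t ^ 3) / t ^ 3) * t ^ (3 * d) :=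
          mul_le_mul_of_nonneg_left h4 (by positivity)
  calc ‖(G d lam Q w).2‖ = ‖lam * w.2 + Q.eval w.1‖ := rfl
    _ ≤ ‖lam * w.2‖ + ‖Q.eval w.1‖ := norm_add_le _ _
    _ ≤ (‖lam‖ * (‖w.2‖ / t ^ 3) / t ^ 3) * t ^ (3 * d) + (1 + C / t ^ 2) * t ^ (3 * d) :=
        add_le_add h3 h1
    _ = _ := by ring

theorem G_maps {d : ℕ} (hd : 2 ≤ d) {lam : ℂ} {Q : ℂ[X]} (hQ : Q.Monic)
    (hQd : 2 * Q.natDegree ≤ 3 * d) :
    ∃ R₂ : ℝ, 1 ≤ R₂ ∧ ∀ R, R₂ ≤ R → ∀ w ∈ Z 2 R, G d lam Q w ∈ Z 2 R := by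
  obtain ⟨C, hC0, hC⟩ := gdy_Q hQ
  refine ⟨1 + 8 * ‖lam‖ + 5 * C, by linarith [norm_nonneg lam], fun R hR w hw => ?_⟩
  obtain ⟨h1, h2⟩ := hw
  have hlam := norm_nonneg lam
  have hR1 : 1 ≤ R := by linarith
  have hb1 : 1 < ‖w.1‖ := by linarith
  set t : ℝ := Real.sqrt ‖w.1‖ with ht
  have htw : ‖w.1‖ = t ^ 2 := by rw [ht, Real.sq_sqrt (norm_nonneg _)]
  have ht1 : 1 ≤ t := by
    rw [ht]
    exact Real.one_le_sqrt.2 hb1.le
  have ht0 : 0 < t := by linarith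
  have hstep := gdy_step hd (lam := lam) hQd hC0 hC w t ht1 htw
  have hG1 : ‖(G d lam Q w).1‖ = ‖w.1‖ ^ d := by
    simp only [G, norm_pow]
  refine ⟨?_, ?_⟩
  · rw [hG1]
    exact lt_of_lt_of_le h1 (le_self_pow₀ hb1.le (by omega))
  · rw [hG1]
    have hz : ‖w.2‖ / t ^ 3 ≤ 3 / 2 := by
      rw [div_le_iff₀ (by positivity)]
      rw [htw, ← pow_mul] at h2
      have h3 : ‖w.2‖ ^ 2 ≤ (3 / 2 * t ^ 3) ^ 2 := by
        have : (3 / 2 * t ^ 3) ^ 2 = 9 / 4 * t ^ 6 := by ring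
        rw [this]
        have h6 : (0 : ℝ) < t ^ 6 := by positivity
        norm_num at h2
        linarith
      exact (pow_le_pow_iff_left₀ (norm_nonneg _) (by positivity) two_ne_zero).1 h3
    have hfac : ‖lam‖ * (‖w.2‖ / t ^ 3) / t ^ 3 + 1 + C / t ^ 2 ≤ 7 / 5 := by
      have ht2 : 1 + 8 * ‖lam‖ + 5 * C ≤ t ^ 2 := by rw [← htw]; linarith
      have ht3 : 1 + 8 * ‖lam‖ + 5 * C ≤ t ^ 3 := by
        refine ht2.trans ?_
        exact pow_le_pow_right₀ ht1 (by norm_num)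
      have e1 : C / t ^ 2 ≤ 1 / 5 := by
        rw [div_le_iff₀ (by positivity)]
        nlinarith
      have e2 : ‖lam‖ * (‖w.2‖ / t ^ 3) / t ^ 3 ≤ 1 / 5 := by
        rw [div_le_iff₀ (by positivity)]
        nlinarith
      linarith
    have hle : ‖(G d lam Q w).2‖ ≤ 7 / 5 * t ^ (3 * d) :=
      hstep.trans (mul_le_mul_of_nonneg_right hfac (by positivity))
    calc ‖(G d lam Q w).2‖ ^ 2 ≤ (7 / 5 * t ^ (3 * d)) ^ 2 :=
          pow_le_pow_left₀ (norm_nonneg _) hle 2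
      _ = 49 / 25 * (‖w.1‖ ^ d) ^ 3 := by
          rw [htw]; ring
      _ < 2 * (‖w.1‖ ^ d) ^ 3 := by
          have : 0 < (‖w.1‖ ^ d) ^ 3 := by positivity
          linarith

theorem G_enters {d : ℕ} (hd : 2 ≤ d) {lam : ℂ} {Q : ℂ[X]} (hQ : Q.Monic)
    (hQd : 2 * Q.natDegree ≤ 3 * d) (w : ℂ × ℂ) (hw : 1 < ‖w.1‖) (R : ℝ) :
    ∃ N : ℕ, ∀ n ≥ N, (G d lam Q)^[n] w ∈ Z 2 R := by
  obtain ⟨R₂, hR₂, hmaps⟩ := G_maps hd (lam := lam) hQ hQd
  obtain ⟨C, hC0, hC⟩ := gdy_Q hQ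
  have hlam := norm_nonneg lam
  suffices h : ∃ N : ℕ, (G d lam Q)^[N] w ∈ Z 2 (max R R₂) by
    obtain ⟨N, hN⟩ := h
    refine ⟨N, fun n hn => ?_⟩
    have h1 : ∀ m : ℕ, (G d lam Q)^[N + m] w ∈ Z 2 (max R R₂) := by
      intro m
      induction m with
      | zero => exact hN
      | succ m ih =>
        rw [← Nat.add_assoc, Function.iterate_succ_apply']
        exact hmaps _ (le_max_right _ _) _ ih
    have h2 := h1 (n - N)
    rw [Nat.add_sub_cancel' hn] at h2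
    exact ⟨lt_of_le_of_lt (le_max_left _ _) h2.1, h2.2⟩
  set b : ℕ → ℝ := fun n => ‖((G d lam Q)^[n] w).1‖ with hb
  set z : ℕ → ℝ := fun n => ‖((G d lam Q)^[n] w).2‖ with hz
  have hbs : ∀ n, b (n + 1) = b n ^ d := by
    intro n
    simp only [hb, Function.iterate_succ_apply', G, norm_pow]
  have hb1 : ∀ n, ‖w.1‖ ^ (n + 1) ≤ b n := by
    intro n
    induction n with
    | zero => simp [hb]
    | succ n ih =>
      rw [hbs]
      have h1 : 1 ≤ ‖w.1‖ ^ (n + 1) := one_le_pow₀ hw.le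
      have h3 : 1 ≤ b n := h1.trans ih
      calc ‖w.1‖ ^ (n + 1 + 1) ≤ (‖w.1‖ ^ (n + 1)) ^ 2 := by
            rw [← pow_mul]
            exact pow_le_pow_right₀ hw.le (by omega)
        _ ≤ b n ^ 2 := pow_le_pow_left₀ (by positivity) ih 2
        _ ≤ b n ^ d := pow_le_pow_right₀ h3 hd
  have hbt : Tendsto b atTop atTop := by
    refine tendsto_atTop_mono hb1 ?_
    exact (tendsto_pow_atTop_atTop_of_one_lt hw).comp (tendsto_add_atTop_nat 1)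
  have hbge : ∀ n, 1 ≤ b n := fun n => (one_le_pow₀ hw.le).trans (hb1 n)
  set t : ℕ → ℝ := fun n => Real.sqrt (b n) with ht
  have htb : ∀ n, b n = t n ^ 2 := fun n => by
    rw [ht]; simp only; rw [Real.sq_sqrt (by linarith [hbge n])]
  have ht1 : ∀ n, 1 ≤ t n := fun n => Real.one_le_sqrt.2 (hbge n)
  have hts : ∀ n, t (n + 1) = t n ^ d := by
    intro n
    have h1 : t (n + 1) ^ 2 = (t n ^ d) ^ 2 := by
      rw [← htb, hbs, htb]; ring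
    exact (pow_left_inj₀ (by linarith [ht1 (n + 1)]) (by have := ht1 n; positivity) two_ne_zero).1 h1
  set r : ℕ → ℝ := fun n => z n / t n ^ 3 with hr
  have hr0 : ∀ n, 0 ≤ r n := fun n => by
    have := ht1 n
    simp only [hr, hz]; positivity
  -- large n
  obtain ⟨N₁, hN₁⟩ : ∃ N₁ : ℕ, ∀ n ≥ N₁, max (max R R₂) (10 * ‖lam‖ + 10 * C) + 1 ≤ b n :=
    (tendsto_atTop.1 hbt _).exists_forall_of_atTop
  have hrec : ∀ n ≥ N₁, r (n + 1) ≤ r n / 10 + 11 / 10 := by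
    intro n hn
    have h1 := hN₁ n hn
    have h2 : 10 * ‖lam‖ + 10 * C ≤ t n ^ 2 := by
      rw [← htb]
      linarith [le_max_right (max R R₂) (10 * ‖lam‖ + 10 * C)]
    have h3 : t n ^ 2 ≤ t n ^ 3 := pow_le_pow_right₀ (ht1 n) (by norm_num)
    have ht0 : 0 < t n := by linarith [ht1 n]
    have hstep := gdy_step hd (lam := lam) hQd hC0 hC ((G d lam Q)^[n] w) (t n) (ht1 n) (htb n)
    have e1 : C / t n ^ 2 ≤ 1 / 10 := by
      rw [div_le_iff₀ (by positivity)]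
      nlinarith
    have e2 : ‖lam‖ * r n / t n ^ 3 ≤ r n / 10 := by
      rw [div_le_iff₀ (by positivity)]
      have := hr0 n
      nlinarith
    have e3 : r (n + 1) = ‖(G d lam Q ((G d lam Q)^[n] w)).2‖ / t n ^ (3 * d) := by
      simp only [hr, hz, Function.iterate_succ_apply', hts]
      rw [← pow_mul, mul_comm d 3]
    rw [e3, div_le_iff₀ (by positivity)]
    refine hstep.trans (mul_le_mul_of_nonneg_right ?_ (by positivity))
    have e4 : ‖lam‖ * (‖((G d lam Q)^[n] w).2‖ / t n ^ 3) / t n ^ 3 = ‖lam‖ * r n / t n ^ 3 := rfl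
    rw [e4]
    linarith
  have hgeo : ∀ m : ℕ, r (N₁ + m) ≤ r N₁ * (1 / 10) ^ m + 11 / 9 := by
    intro m
    induction m with
    | zero => simp; norm_num
    | succ m ih =>
      have h1 := hrec (N₁ + m) (by omega)
      rw [← Nat.add_assoc]
      refine h1.trans ?_
      rw [pow_succ]
      linarith
  have hlim : Tendsto (fun m : ℕ => r N₁ * (1 / 10 : ℝ) ^ m) atTop (𝓝 (r N₁ * 0)) :=
    (tendsto_pow_atTop_nhds_zero_of_lt_one (by norm_num) (by norm_num)).const_mul _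
  rw [mul_zero] at hlim
  obtain ⟨m, hm⟩ := (hlim.eventually_lt_const (show (0 : ℝ) < 1 / 10 by norm_num)).exists
  refine ⟨N₁ + m, ?_, ?_⟩
  · have := hN₁ (N₁ + m) (by omega)
    have h2 := le_max_left (max R R₂) (10 * ‖lam‖ + 10 * C)
    show max R R₂ < b (N₁ + m)
    linarith
  · have h1 := hgeo m
    have h2 : r (N₁ + m) ≤ 7 / 5 := by linarith
    have ht0 : 0 < t (N₁ + m) := by linarith [ht1 (N₁ + m)]
    have h3 : z (N₁ + m) ≤ 7 / 5 * t (N₁ + m) ^ 3 := by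
      simp only [hr] at h2
      rwa [div_le_iff₀ (by positivity)] at h2
    show z (N₁ + m) ^ 2 < 2 * b (N₁ + m) ^ 3
    rw [htb]
    calc z (N₁ + m) ^ 2 ≤ (7 / 5 * t (N₁ + m) ^ 3) ^ 2 :=
          pow_le_pow_left₀ (norm_nonneg _) h3 2
      _ = 49 / 25 * (t (N₁ + m) ^ 2) ^ 3 := by ring
      _ < 2 * (t (N₁ + m) ^ 2) ^ 3 := by
          have : 0 < (t (N₁ + m) ^ 2) ^ 3 := by positivity
          linarith

end HEN
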