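import Pool.Agent.Lib.MP_e79cb7_ag.FMP

/-! # `prj : E → S(f)` is a covering map -/

open Filter Topology Polynomial Bornology

noncomputable section

namespace HEN

section
variable {f : ℂ × ℂ → ℂ × ℂ} {d : ℕ} {lam : ℂ} {Q : ℂ[X]} {Ψ : ℂ × ℂ → ℂ × ℂ}

theorem lf_F_mem (hf : IsCover f d lam Q Ψ) (n : ℕ) {x : ℂ × ℂ} (hx : x ∈ E) :
    (F d lam Q)^[n] x ∈ E :=
  (F_facts hf.hd hf.hlam Q).1.iterate n hx

theorem lf_Finv_mem (hf : IsCover f d lam Q Ψ) (n : ℕ) {x : ℂ × ℂ} (hx : x ∈ E) :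
    (Finv d lam Q)^[n] x ∈ E :=
  (F_facts hf.hd hf.hlam Q).2.1.iterate n hx

theorem lf_Finv_F (hf : IsCover f d lam Q Ψ) (n : ℕ) (x : ℂ × ℂ) :
    (Finv d lam Q)^[n] ((F d lam Q)^[n] x) = x :=
  Function.LeftInverse.iterate (F_facts hf.hd hf.hlam Q).2.2.1 n x

theorem lf_F_Finv (hf : IsCover f d lam Q Ψ) (n : ℕ) (x : ℂ × ℂ) :
    (F d lam Q)^[n] ((Finv d lam Q)^[n] x) = x :=
  Function.LeftInverse.iterate (F_facts hf.hd hf.hlam Q).2.2.2.1 n x

theorem lf_F_cont (hf : IsCover f d lam Q Ψ) (n : ℕ) : Continuous (F d lam Q)^[n] :=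
  (F_facts hf.hd hf.hlam Q).2.2.2.2.1.continuous.iterate n

theorem lf_Finv_diff (hf : IsCover f d lam Q Ψ) (n : ℕ) : Differentiable ℂ (Finv d lam Q)^[n] :=
  (F_facts hf.hd hf.hlam Q).2.2.2.2.2.1.iterate n

theorem lf_F_diff (hf : IsCover f d lam Q Ψ) (n : ℕ) : Differentiable ℂ (F d lam Q)^[n] :=
  (F_facts hf.hd hf.hlam Q).2.2.2.2.1.iterate n

theorem lf_T_mem (j : ℤ) {x : ℂ × ℂ} (hx : x ∈ E) : T j x ∈ E :=
  (F_facts (le_refl 2) one_ne_zero 0).2.2.2.2.2.2.1 j hx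

theorem lf_T_diff (j : ℤ) : Differentiable ℂ (T j) :=
  (F_facts (le_refl 2) one_ne_zero 0).2.2.2.2.2.2.2.1 j

theorem lf_T_add (i j : ℤ) (x : ℂ × ℂ) : T i (T j x) = T (i + j) x :=
  (F_facts (le_refl 2) one_ne_zero 0).2.2.2.2.2.2.2.2.1 i j x

theorem lf_T_zero (x : ℂ × ℂ) : T 0 x = x :=
  (F_facts (le_refl 2) one_ne_zero 0).2.2.2.2.2.2.2.2.2.1 x

theorem lf_conj (hf : IsCover f d lam Q Ψ) (n : ℕ) {x : ℂ × ℂ} (hx : x ∈ E) :
    Ψ ((F d lam Q)^[n] x) = f^[n] (Ψ x) := by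
  induction n with
  | zero => rfl
  | succ n ih =>
    rw [Function.iterate_succ_apply', hf.conj _ (lf_F_mem hf n hx), ih,
      Function.iterate_succ_apply']

theorem lf_F_fst (n : ℕ) (x : ℂ × ℂ) : ((F d lam Q)^[n] x).1 = (d : ℂ) ^ n * x.1 := by
  induction n with
  | zero => simp
  | succ n ih =>
    rw [Function.iterate_succ_apply']
    change (d : ℂ) * ((F d lam Q)^[n] x).1 = _
    rw [ih]
    ring

/- Module LF1 (file LF1.lean): `prj` is a covering map -/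
theorem prj_eq_iff (hf : IsCover f d lam Q Ψ) (x y : E) :
    prj hf x = prj hf y ↔ ∃ (n m : ℕ) (j : ℤ),
      (F d lam Q)^[n] (x : ℂ × ℂ) = T j ((F d lam Q)^[m] (y : ℂ × ℂ)) := by
  have h0 : prj hf x = prj hf y ↔ ∃ n m : ℕ, f^[n] (Ψ x) = f^[m] (Ψ y) := by
    unfold prj mk
    exact Quotient.eq (r := orb f)
  rw [h0]
  constructor
  · rintro ⟨n, m, h⟩
    rw [← lf_conj hf n x.2, ← lf_conj hf m y.2] at h
    obtain ⟨N, j, h'⟩ := (hf.fib _ (lf_F_mem hf n x.2) _ (lf_F_mem hf m y.2)).1 h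
    refine ⟨N + n, N + m, j, ?_⟩
    rw [Function.iterate_add_apply, Function.iterate_add_apply]
    exact h'
  · rintro ⟨n, m, j, h⟩
    refine ⟨n, m, ?_⟩
    rw [← lf_conj hf n x.2, ← lf_conj hf m y.2]
    exact (hf.fib _ (lf_F_mem hf n x.2) _ (lf_F_mem hf m y.2)).2 ⟨0, j, h⟩

/-- the deck transformations `F⁻ⁿ ∘ T_j ∘ F^m` -/
def lfSigma (hf : IsCover f d lam Q Ψ) (n m : ℕ) (j : ℤ) : E ≃ₜ E where
  toFun x := ⟨(Finv d lam Q)^[n] (T j ((F d lam Q)^[m] x)),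
    lf_Finv_mem hf n (lf_T_mem j (lf_F_mem hf m x.2))⟩
  invFun x := ⟨(Finv d lam Q)^[m] (T (-j) ((F d lam Q)^[n] x)),
    lf_Finv_mem hf m (lf_T_mem (-j) (lf_F_mem hf n x.2))⟩
  left_inv x := by
    apply Subtype.ext
    change (Finv d lam Q)^[m] (T (-j) ((F d lam Q)^[n] ((Finv d lam Q)^[n]
      (T j ((F d lam Q)^[m] (x : ℂ × ℂ)))))) = x
    rw [lf_F_Finv hf, lf_T_add, neg_add_cancel, lf_T_zero, lf_Finv_F hf]
  right_inv x := by
    apply Subtype.ext
    change (Finv d lam Q)^[n] (T j ((F d lam Q)^[m] ((Finv d lam Q)^[m]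
      (T (-j) ((F d lam Q)^[n] (x : ℂ × ℂ)))))) = x
    rw [lf_F_Finv hf, lf_T_add, add_neg_cancel, lf_T_zero, lf_Finv_F hf]
  continuous_toFun := (((lf_Finv_diff hf n).continuous.comp ((lf_T_diff j).continuous.comp
    (lf_F_cont hf m))).comp continuous_subtype_val).subtype_mk _
  continuous_invFun := (((lf_Finv_diff hf m).continuous.comp ((lf_T_diff (-j)).continuous.comp
    (lf_F_cont hf n))).comp continuous_subtype_val).subtype_mk _

theorem lfSigma_apply (hf : IsCover f d lam Q Ψ) (n m : ℕ) (j : ℤ) (x : E) :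
    (lfSigma hf n m j x : ℂ × ℂ) = (Finv d lam Q)^[n] (T j ((F d lam Q)^[m] x)) := rfl

theorem prj_lfSigma (hf : IsCover f d lam Q Ψ) (n m : ℕ) (j : ℤ) (x : E) :
    prj hf (lfSigma hf n m j x) = prj hf x := by
  rw [prj_eq_iff]
  refine ⟨n, m, j, ?_⟩
  rw [lfSigma_apply, lf_F_Finv hf]

theorem exists_lfSigma (hf : IsCover f d lam Q Ψ) {x y : E} (h : prj hf x = prj hf y) :
    ∃ (n m : ℕ) (j : ℤ), lfSigma hf n m j y = x := by
  obtain ⟨n, m, j, h⟩ := (prj_eq_iff hf x y).1 h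
  refine ⟨n, m, j, Subtype.ext ?_⟩
  rw [lfSigma_apply, ← h, lf_Finv_F hf]

theorem lf_Psi_cont (hf : IsCover f d lam Q Ψ) :
    Continuous (fun x : E => (⟨Ψ x, hf.maps x x.2⟩ : Omega f)) :=
  (continuousOn_iff_continuous_domRestrict.1 hf.diff.continuousOn).subtype_mk _

theorem lf_Psi_open (hf : IsCover f d lam Q Ψ) :
    IsOpenMap (fun x : E => (⟨Ψ x, hf.maps x x.2⟩ : Omega f)) := by
  rw [isOpenMap_iff_nhds_le]
  intro x₀ W hW
  rw [mem_map] at hW
  obtain ⟨U, V, s, hU, hV, hxU, hUE, hΨ, hs, hsd, h1, h2⟩ := hf.loc x₀ x₀.2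
  rw [nhds_subtype_eq_comap, mem_comap] at hW
  obtain ⟨O, hO, hOW⟩ := hW
  have hcont : ContinuousAt s (Ψ x₀) :=
    (hsd.differentiableAt (hV.mem_nhds (hΨ hxU))).continuousAt
  have hsx : s (Ψ x₀) = x₀ := h1 _ hxU
  have h3 : {v | s v ∈ O} ∈ 𝓝 (Ψ x₀) := hcont.preimage_mem_nhds (by rw [hsx]; exact hO)
  have h4 : V ∈ 𝓝 (Ψ x₀) := hV.mem_nhds (hΨ hxU)
  rw [nhds_subtype_eq_comap, mem_comap]
  refine ⟨{v | s v ∈ O} ∩ V, inter_mem h3 h4, ?_⟩
  intro t ht
  have h5 : s t ∈ E := hUE (hs ht.2)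
  have h6 := hOW (show (⟨s t, h5⟩ : E) ∈ Subtype.val ⁻¹' O from ht.1)
  have h7 : (⟨Ψ (s t), hf.maps _ h5⟩ : Omega f) = t := Subtype.ext (h2 _ ht.2)
  rw [← h7]
  exact h6

theorem prj_surj (hf : IsCover f d lam Q Ψ) : Function.Surjective (prj hf) := by
  intro q
  obtain ⟨p, rfl⟩ := Quotient.exists_rep q
  obtain ⟨x, hx, hxp⟩ := hf.surj p.1 p.2
  refine ⟨⟨x, hx⟩, ?_⟩
  unfold prj mk
  congr 1
  exact Subtype.ext hxp

theorem prj_quot (hf : IsCover f d lam Q Ψ) : IsQuotientMap (prj hf) := by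
  have h1 : IsQuotientMap (fun x : E => (⟨Ψ x, hf.maps x x.2⟩ : Omega f)) := by
    refine (lf_Psi_open hf).isQuotientMap (lf_Psi_cont hf) ?_
    intro p
    obtain ⟨x, hx, hxp⟩ := hf.surj p.1 p.2
    exact ⟨⟨x, hx⟩, Subtype.ext hxp⟩
  have h2 : IsQuotientMap (Quotient.mk (orb f)) := isQuotientMap_quotient_mk'
  exact h2.comp h1

theorem prj_cont (hf : IsCover f d lam Q Ψ) : Continuous (prj hf) := (prj_quot hf).continuous

theorem prj_locInj (hf : IsCover f d lam Q Ψ) : IsLocallyInjective (prj hf) := by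
  intro x₀
  obtain ⟨U, V, s, hU, hV, hxU, hUE, hΨ, hs, hsd, h1, h2⟩ := hf.loc x₀ x₀.2
  have hr : 0 < (x₀ : ℂ × ℂ).1.re := x₀.2
  set r := (x₀ : ℂ × ℂ).1.re with hrdef
  have hre : Continuous (fun x : E => (x : ℂ × ℂ).1.re) :=
    Complex.continuous_re.comp (continuous_fst.comp continuous_subtype_val)
  refine ⟨{x : E | (x : ℂ × ℂ) ∈ U} ∩ ({x : E | 3 / 4 * r < (x : ℂ × ℂ).1.re} ∩
    {x : E | (x : ℂ × ℂ).1.re < 5 / 4 * r}), ?_, ?_, ?_⟩
  · exact (hU.preimage continuous_subtype_val).inter ((isOpen_lt continuous_const hre).inter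
      (isOpen_lt hre continuous_const))
  · refine ⟨hxU, ?_, ?_⟩
    · change 3 / 4 * r < r
      linarith
    · change r < 5 / 4 * r
      linarith
  · intro x hx y hy hxy
    obtain ⟨n, m, j, h⟩ := (prj_eq_iff hf x y).1 hxy
    obtain ⟨hxU', hx1, hx2⟩ := hx
    obtain ⟨hyU', hy1, hy2⟩ := hy
    change 3 / 4 * r < (x : ℂ × ℂ).1.re at hx1
    change (x : ℂ × ℂ).1.re < 5 / 4 * r at hx2
    change 3 / 4 * r < (y : ℂ × ℂ).1.re at hy1
    change (y : ℂ × ℂ).1.re < 5 / 4 * r at hy2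
    have hd2 : (2 : ℝ) ≤ d := by exact_mod_cast hf.hd
    have hre1 : (d : ℝ) ^ n * (x : ℂ × ℂ).1.re = (d : ℝ) ^ m * (y : ℂ × ℂ).1.re := by
      have h3 := congrArg (fun z : ℂ × ℂ => z.1.re) h
      simp only [T, lf_F_fst] at h3
      have h4 : ∀ (k : ℕ) (z : ℂ), ((d : ℂ) ^ k * z).re = (d : ℝ) ^ k * z.re := by
        intro k z
        have h5 : ((d : ℂ) ^ k) = (((d : ℝ) ^ k : ℝ) : ℂ) := by push_cast; rfl
        rw [h5, Complex.re_ofReal_mul]
      rw [Complex.add_re, h4, h4] at h3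
      have h5 : (2 * (Real.pi : ℂ) * Complex.I * (j : ℂ)).re = 0 := by simp
      rw [h5, add_zero] at h3
      exact h3
    have key : ∀ (n m : ℕ) (a b : ℝ), n < m → 3 / 4 * r < b → a < 5 / 4 * r →
        (d : ℝ) ^ n * a = (d : ℝ) ^ m * b → False := by
      intro n m a b hnm hb ha hab
      obtain ⟨k, rfl⟩ := Nat.exists_eq_add_of_lt hnm
      have h3 : (d : ℝ) ^ (n + k + 1) = (d : ℝ) ^ n * ((d : ℝ) ^ k * d) := by ring
      rw [h3, mul_assoc] at hab
      have h4 : a = (d : ℝ) ^ k * d * b := mul_left_cancel₀ (by positivity) hab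
      have h5 : (1 : ℝ) ≤ (d : ℝ) ^ k := one_le_pow₀ (by linarith)
      have hb0 : 0 < b := by nlinarith
      have h6 : (2 : ℝ) ≤ (d : ℝ) ^ k * d := by nlinarith
      nlinarith
    have hnm : n = m := by
      rcases lt_trichotomy n m with h3 | h3 | h3
      · exact (key n m _ _ h3 hy1 hx2 hre1).elim
      · exact h3
      · exact (key m n _ _ h3 hx1 hy2 hre1.symm).elim
    subst hnm
    have h3 : Ψ x = Ψ y := (hf.fib _ x.2 _ y.2).2 ⟨n, j, h⟩
    apply Subtype.ext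
    rw [← h1 _ hxU', ← h1 _ hyU', h3]

instance lfNonemptyE : Nonempty E := E_facts.2.2.1.to_subtype

instance lfContractibleE : ContractibleSpace E := E_facts.2.1.contractibleSpace E_facts.2.2.1

instance lfLocPathE : LocallyPathConnectedSpace E := E_facts.1.locallyPathConnectedSpace

/-- uniqueness of lifts -/
theorem prj_lift_unique (hf : IsCover f d lam Q Ψ) {A : Type*} [TopologicalSpace A]
    [PreconnectedSpace A] {g₁ g₂ : A → E} (h1 : Continuous g₁) (h2 : Continuous g₂)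
    (h : ∀ x, prj hf (g₁ x) = prj hf (g₂ x)) (a : A) (ha : g₁ a = g₂ a) : g₁ = g₂ :=
  (T2Space.isSeparatedMap (prj hf)).eq_of_comp_eq (prj_locInj hf) h1 h2 (funext h) a ha

/-- the deck group -/
def lfDeck (hf : IsCover f d lam Q Ψ) : Subgroup (E ≃ₜ E) where
  carrier := {σ | ∀ x, prj hf (σ x) = prj hf x}
  mul_mem' := by
    intro a b ha hb x
    exact (ha (b x)).trans (hb x)
  one_mem' := fun x => rfl
  inv_mem' := by
    intro a ha x
    have h1 := ha (a.symm x)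
    rw [a.apply_symm_apply] at h1
    exact h1.symm

theorem prj_covering (hf : IsCover f d lam Q Ψ) :
    IsCoveringMap (prj hf) ∧ Function.Surjective (prj hf) := by
  refine ⟨?_, prj_surj hf⟩
  let : MulAction (lfDeck hf) E :=
    { smul := fun σ x => σ.1 x
      one_smul := fun _ => rfl
      mul_smul := fun _ _ _ => rfl }
  have hq : IsQuotientCoveringMap (prj hf) (lfDeck hf) :=
    { toIsQuotientMap := prj_quot hf
      continuous_const_smul := fun σ => σ.1.continuous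
      apply_eq_iff_mem_orbit := by
        intro x y
        constructor
        · intro h
          obtain ⟨n, m, j, h'⟩ := exists_lfSigma hf h
          exact ⟨⟨lfSigma hf n m j, prj_lfSigma hf n m j⟩, h'⟩
        · rintro ⟨σ, rfl⟩
          exact σ.2 y
      disjoint := by
        intro e
        obtain ⟨U, hU, heU, hinj⟩ := prj_locInj hf e
        refine ⟨U, hU.mem_nhds heU, ?_⟩
        rintro σ ⟨_, ⟨x, hx, rfl⟩, hy⟩
        have h1 : σ.1 x = x := hinj hy hx (σ.2 x)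
        have h2 : (σ.1 : E → E) = id := prj_lift_unique hf σ.1.continuous continuous_id
          (fun y => σ.2 y) x h1
        apply Subtype.ext
        apply Homeomorph.ext
        intro y
        exact congrFun h2 y }
  exact hq.isCoveringMap

end

end HEN
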