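import Pool.Agent.Lib.MP_e79cb7_ag.XDefs
import Pool.Agent.Lib.MP_e79cb7_ag.FMP
import Pool.Agent.Lib.MP_e79cb7_ag.LF1

/-! # Leaves `{β} × ℂ` in `S(f)` -/

open Filter Topology Polynomial Bornology

noncomputable section

namespace HEN

section
variable {f g : ℂ × ℂ → ℂ × ℂ} {d d' : ℕ} {lam lam' : ℂ} {Q Q' : ℂ[X]}
  {Ψ Ψ' : ℂ × ℂ → ℂ × ℂ}

theorem lea_iter_fst (d : ℕ) (lam : ℂ) (Q : ℂ[X]) (n : ℕ) (x : ℂ × ℂ) :
    ((F d lam Q)^[n] x).1 = d ^ n * x.1 := by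
  induction n with
  | zero => simp
  | succ n ih =>
    rw [Function.iterate_succ_apply']
    show (d : ℂ) * ((F d lam Q)^[n] x).1 = _
    rw [ih, pow_succ]; ring

theorem lea_inv_iter_fst (d : ℕ) (lam : ℂ) (Q : ℂ[X]) (n : ℕ) (x : ℂ × ℂ) :
    ((Finv d lam Q)^[n] x).1 = x.1 / d ^ n := by
  induction n with
  | zero => simp
  | succ n ih =>
    rw [Function.iterate_succ_apply']
    show ((Finv d lam Q)^[n] x).1 / (d : ℂ) = _
    rw [ih, pow_succ, div_div]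

/-- on a leaf the iterates of `F` are affine -/
theorem lea_iter_snd (d : ℕ) (lam : ℂ) (Q : ℂ[X]) (n : ℕ) (β : ℂ) :
    ∃ c : ℂ, ∀ x : ℂ × ℂ, x.1 = β → ((F d lam Q)^[n] x).2 = lam ^ n * x.2 + c := by
  induction n with
  | zero => exact ⟨0, fun x _ => by simp⟩
  | succ n ih =>
    obtain ⟨c, hc⟩ := ih
    refine ⟨lam * c + Q.eval (Complex.exp (d ^ n * β)), fun x hx => ?_⟩
    rw [Function.iterate_succ_apply']
    show lam * ((F d lam Q)^[n] x).2 + Q.eval (Complex.exp ((F d lam Q)^[n] x).1) = _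
    rw [hc x hx, lea_iter_fst, hx, pow_succ]; ring

theorem lea_inv_iter_snd (d : ℕ) (lam : ℂ) (Q : ℂ[X]) (n : ℕ) (β : ℂ) :
    ∃ c : ℂ, ∀ x : ℂ × ℂ, x.1 = β → ((Finv d lam Q)^[n] x).2 = (lam⁻¹) ^ n * x.2 + c := by
  induction n with
  | zero => exact ⟨0, fun x _ => by simp⟩
  | succ n ih =>
    obtain ⟨c, hc⟩ := ih
    refine ⟨(c - Q.eval (Complex.exp (β / d ^ n / d))) / lam, fun x hx => ?_⟩
    rw [Function.iterate_succ_apply']
    show (((Finv d lam Q)^[n] x).2 - Q.eval (Complex.exp (((Finv d lam Q)^[n] x).1 / d))) / lam = _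
    rw [hc x hx, lea_inv_iter_fst, hx, pow_succ]; ring

theorem lea_mapsTo_iter (hf : IsCover f d lam Q Ψ) (n : ℕ) :
    Set.MapsTo (F d lam Q)^[n] E E := (F_facts hf.hd hf.hlam Q).1.iterate n

theorem lea_mapsTo_inv_iter (hf : IsCover f d lam Q Ψ) (n : ℕ) :
    Set.MapsTo (Finv d lam Q)^[n] E E := (F_facts hf.hd hf.hlam Q).2.1.iterate n

theorem lea_left_iter (hf : IsCover f d lam Q Ψ) (n : ℕ) (x : ℂ × ℂ) :
    (Finv d lam Q)^[n] ((F d lam Q)^[n] x) = x :=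
  (Function.LeftInverse.iterate (f := F d lam Q) (g := Finv d lam Q)
    (F_facts hf.hd hf.hlam Q).2.2.1 n) x

theorem lea_right_iter (hf : IsCover f d lam Q Ψ) (n : ℕ) (x : ℂ × ℂ) :
    (F d lam Q)^[n] ((Finv d lam Q)^[n] x) = x :=
  (Function.LeftInverse.iterate (f := Finv d lam Q) (g := F d lam Q)
    (F_facts hf.hd hf.hlam Q).2.2.2.1 n) x

theorem lea_T_neg (hf : IsCover f d lam Q Ψ) (j : ℤ) (x : ℂ × ℂ) : T (-j) (T j x) = x := by
  have h := F_facts hf.hd hf.hlam Q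
  rw [h.2.2.2.2.2.2.2.2.1, neg_add_cancel, h.2.2.2.2.2.2.2.2.2.1]

theorem leaf_inj (hf : IsCover f d lam Q Ψ) (x y : E) (h1 : (x : ℂ × ℂ).1 = (y : ℂ × ℂ).1)
    (h : prj hf x = prj hf y) : x = y := by
  obtain ⟨n, m, j, hj⟩ := (prj_eq_iff hf x y).mp h
  have hfst := congrArg Prod.fst hj
  simp only [T, lea_iter_fst, h1] at hfst
  have hy : 0 < (y : ℂ × ℂ).1.re := y.2
  have hre := congrArg Complex.re hfst
  have e1 : ∀ k : ℕ, ((d : ℂ) ^ k * (y : ℂ × ℂ).1).re = (d : ℝ) ^ k * (y : ℂ × ℂ).1.re := by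
    intro k
    have := Complex.re_ofReal_mul ((d : ℝ) ^ k) (y : ℂ × ℂ).1
    simpa using this
  have e2 : (2 * (Real.pi : ℂ) * Complex.I * (j : ℂ)).re = 0 := by simp
  rw [Complex.add_re, e1, e1, e2, add_zero] at hre
  have hpow : (d : ℝ) ^ n = (d : ℝ) ^ m := mul_right_cancel₀ hy.ne' hre
  have hnm : n = m := by
    have h2 : d ^ n = d ^ m := by exact_mod_cast hpow
    exact Nat.pow_right_injective hf.hd h2
  subst hnm
  have hj0 : (j : ℂ) = 0 := by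
    have h3 : 2 * (Real.pi : ℂ) * Complex.I * (j : ℂ) = 0 := by
      have := hfst
      linear_combination -this
    have h4 : 2 * (Real.pi : ℂ) * Complex.I ≠ 0 := by
      simp [Real.pi_ne_zero, Complex.I_ne_zero]
    exact (mul_eq_zero.mp h3).resolve_left h4
  have hj1 : j = 0 := by exact_mod_cast hj0
  subst hj1
  have hT0 := (F_facts hf.hd hf.hlam Q).2.2.2.2.2.2.2.2.2.1
  rw [hT0] at hj
  apply Subtype.ext
  rw [← lea_left_iter hf n (x : ℂ × ℂ), hj, lea_left_iter hf n]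

/-- the deck transformations -/
def leaS (d : ℕ) (lam : ℂ) (Q : ℂ[X]) (n m : ℕ) (j : ℤ) (u : ℂ × ℂ) : ℂ × ℂ :=
  (Finv d lam Q)^[m] (T (-j) ((F d lam Q)^[n] u))

theorem leaS_mapsTo (hf : IsCover f d lam Q Ψ) (n m : ℕ) (j : ℤ) :
    Set.MapsTo (leaS d lam Q n m j) E E := fun _ hu =>
  lea_mapsTo_inv_iter hf m ((F_facts hf.hd hf.hlam Q).2.2.2.2.2.2.1 (-j) (lea_mapsTo_iter hf n hu))

theorem leaS_prj (hf : IsCover f d lam Q Ψ) (n m : ℕ) (j : ℤ) (u : E) :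
    prj hf ⟨leaS d lam Q n m j u, leaS_mapsTo hf n m j u.2⟩ = prj hf u := by
  rw [prj_eq_iff]
  exact ⟨m, n, -j, lea_right_iter hf m _⟩

theorem leaS_fst (n m : ℕ) (j : ℤ) (u : ℂ × ℂ) :
    (leaS d lam Q n m j u).1 = ((d : ℂ) ^ n * u.1 - 2 * Real.pi * Complex.I * j) / d ^ m := by
  rw [leaS, lea_inv_iter_fst]
  simp only [T, lea_iter_fst]
  push_cast
  ring

theorem leaS_eq (hf : IsCover f d lam Q Ψ) {n m : ℕ} {j : ℤ} {x y : ℂ × ℂ}
    (h : (F d lam Q)^[n] x = T j ((F d lam Q)^[m] y)) : leaS d lam Q n m j x = y := by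
  rw [leaS, h, lea_T_neg hf, lea_left_iter hf]

theorem leaf_affine (hf : IsCover f d lam Q Ψ) (x y : E) (h : prj hf x = prj hf y) :
    ∃ A B : ℂ, A ≠ 0 ∧ ∀ u v : E, (u : ℂ × ℂ).1 = (x : ℂ × ℂ).1 →
      (v : ℂ × ℂ).1 = (y : ℂ × ℂ).1 → (v : ℂ × ℂ).2 = A * (u : ℂ × ℂ).2 + B →
      prj hf u = prj hf v := by
  obtain ⟨n, m, j, hj⟩ := (prj_eq_iff hf x y).mp h
  obtain ⟨c1, hc1⟩ := lea_iter_snd d lam Q n (x : ℂ × ℂ).1
  obtain ⟨c2, hc2⟩ := lea_inv_iter_snd d lam Q m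
    ((T (-j) ((F d lam Q)^[n] (x : ℂ × ℂ))).1)
  refine ⟨(lam⁻¹) ^ m * lam ^ n, (lam⁻¹) ^ m * c1 + c2,
    mul_ne_zero (pow_ne_zero _ (inv_ne_zero hf.hlam)) (pow_ne_zero _ hf.hlam), ?_⟩
  intro u v hu hv huv
  have hS : leaS d lam Q n m j u = v := by
    apply Prod.ext
    · have h1 : leaS d lam Q n m j x = y := leaS_eq hf hj
      have h2 := congrArg Prod.fst h1
      rw [leaS_fst] at h2
      rw [leaS_fst, hu, h2, hv]
    · have h3 : (T (-j) ((F d lam Q)^[n] (u : ℂ × ℂ))).1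
          = (T (-j) ((F d lam Q)^[n] (x : ℂ × ℂ))).1 := by
        simp only [T, lea_iter_fst, hu]
      have h4 : (T (-j) ((F d lam Q)^[n] (u : ℂ × ℂ))).2 = ((F d lam Q)^[n] (u : ℂ × ℂ)).2 := rfl
      rw [leaS, hc2 _ h3, h4, hc1 _ hu, huv]
      ring
  have h5 := leaS_prj hf n m j u
  rw [← h5]
  congr 1
  exact Subtype.ext hS

theorem deck (hf : IsCover f d lam Q Ψ) (x y : E) (h : prj hf x = prj hf y) :
    ∃ (σ : ℂ × ℂ → ℂ × ℂ) (s t : ℝ) (hσ : Set.MapsTo σ E E), 0 < s ∧ Differentiable ℂ σ ∧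
      σ x = y ∧ (∀ u, (σ u).1 = s * u.1 + t * Complex.I) ∧
      ∀ u : E, prj hf ⟨σ u, hσ u.2⟩ = prj hf u := by
  obtain ⟨n, m, j, hj⟩ := (prj_eq_iff hf x y).mp h
  have hd0 : (0 : ℝ) < d := by
    have := hf.hd
    exact_mod_cast (by omega : 0 < d)
  have hF := F_facts hf.hd hf.hlam Q
  refine ⟨leaS d lam Q n m j, (d : ℝ) ^ n / (d : ℝ) ^ m, -(2 * Real.pi * j / (d : ℝ) ^ m),
    leaS_mapsTo hf n m j, by positivity, ?_, leaS_eq hf hj, ?_, leaS_prj hf n m j⟩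
  · have h1 : Differentiable ℂ (F d lam Q)^[n] := hF.2.2.2.2.1.iterate n
    have h2 : Differentiable ℂ (Finv d lam Q)^[m] := hF.2.2.2.2.2.1.iterate m
    exact h2.comp ((hF.2.2.2.2.2.2.2.1 (-j)).comp h1)
  · intro u
    rw [leaS_fst]
    push_cast
    ring

theorem leaf_shift_aux (hf : IsCover f d lam Q Ψ) (x : E) (n : ℕ) :
    ∃ u v : E, (u : ℂ × ℂ).1 = (x : ℂ × ℂ).1 ∧
      (v : ℂ × ℂ) = ((x : ℂ × ℂ).1 + 2 * Real.pi * Complex.I / d ^ n, (x : ℂ × ℂ).2) ∧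
      (F d lam Q)^[n] (u : ℂ × ℂ) = T (-1) ((F d lam Q)^[n] (v : ℂ × ℂ)) := by
  have hd0 : (d : ℂ) ≠ 0 := by
    have := hf.hd
    exact_mod_cast (by omega : d ≠ 0)
  have hx : 0 < (x : ℂ × ℂ).1.re := x.2
  set v : ℂ × ℂ := ((x : ℂ × ℂ).1 + 2 * Real.pi * Complex.I / d ^ n, (x : ℂ × ℂ).2) with hv
  have hvE : v ∈ E := by
    show 0 < ((x : ℂ × ℂ).1 + 2 * Real.pi * Complex.I / (d : ℂ) ^ n).re
    have h1 : (2 * (Real.pi : ℂ) * Complex.I / (d : ℂ) ^ n).re = 0 := by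
      have : (2 * (Real.pi : ℂ) * Complex.I / (d : ℂ) ^ n)
          = ((2 * Real.pi / (d : ℝ) ^ n : ℝ) : ℂ) * Complex.I := by
        push_cast; ring
      rw [this, Complex.re_ofReal_mul, Complex.I_re, mul_zero]
    rw [Complex.add_re, h1, add_zero]
    exact hx
  have huE : leaS d lam Q n n 1 v ∈ E := leaS_mapsTo hf n n 1 hvE
  refine ⟨⟨_, huE⟩, ⟨v, hvE⟩, ?_, rfl, ?_⟩
  · show (leaS d lam Q n n 1 v).1 = _
    rw [leaS_fst, hv]
    have : (d : ℂ) ^ n ≠ 0 := pow_ne_zero _ hd0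
    field_simp
    push_cast
    ring
  · show (F d lam Q)^[n] (leaS d lam Q n n 1 v) = _
    rw [leaS, lea_right_iter hf]

theorem leaf_shift (hf : IsCover f d lam Q Ψ) (x : E) (n : ℕ) :
    ∃ u v : E, (u : ℂ × ℂ).1 = (x : ℂ × ℂ).1 ∧
      (v : ℂ × ℂ) = ((x : ℂ × ℂ).1 + 2 * Real.pi * Complex.I / d ^ n, (x : ℂ × ℂ).2) ∧
      prj hf u = prj hf v := by
  obtain ⟨u, v, h1, h2, h3⟩ := leaf_shift_aux hf x n
  exact ⟨u, v, h1, h2, (prj_eq_iff hf u v).mpr ⟨n, n, -1, h3⟩⟩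

theorem leaf_recurrent (hf : IsCover f d lam Q Ψ) (x : E) :
    ∃ u : ℕ → E, (∀ n, (u n : ℂ × ℂ).1 = (x : ℂ × ℂ).1) ∧
      Tendsto (fun n => ‖(u n : ℂ × ℂ).2‖) atTop atTop ∧
      Tendsto (fun n => prj hf (u n)) atTop (𝓝 (prj hf x)) := by
  choose u v hu1 hv hFuv using fun n => leaf_shift_aux hf x n
  have hd1 : (1 : ℝ) < d := by
    have := hf.hd
    exact_mod_cast (by omega : 1 < d)
  have hd0 : (d : ℂ) ≠ 0 := by
    have := hf.hd
    exact_mod_cast (by omega : d ≠ 0)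
  have hprj : ∀ n, prj hf (u n) = prj hf (v n) := fun n =>
    (prj_eq_iff hf (u n) (v n)).mpr ⟨n, n, -1, hFuv n⟩
  have hΨ : ∀ n, Ψ (u n) = Ψ (v n) := fun n =>
    (hf.fib _ (u n).2 _ (v n).2).mpr ⟨n, -1, hFuv n⟩
  -- the points `v n` converge to `x`
  have hvlim0 : Tendsto (fun n => (v n : ℂ × ℂ)) atTop (𝓝 (x : ℂ × ℂ)) := by
    have h1 : Tendsto (fun n : ℕ => 2 * (Real.pi : ℂ) * Complex.I / (d : ℂ) ^ n) atTop (𝓝 0) := by
      rw [tendsto_zero_iff_norm_tendsto_zero]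
      have h2 : (fun n : ℕ => ‖2 * (Real.pi : ℂ) * Complex.I / (d : ℂ) ^ n‖)
          = fun n : ℕ => ‖2 * (Real.pi : ℂ) * Complex.I‖ * ((d : ℝ)⁻¹) ^ n := by
        funext n
        rw [norm_div, norm_pow, Complex.norm_natCast, inv_pow, div_eq_mul_inv]
      rw [h2]
      have h3 : Tendsto (fun n : ℕ => ((d : ℝ)⁻¹) ^ n) atTop (𝓝 0) :=
        tendsto_pow_atTop_nhds_zero_of_lt_one (by positivity) (inv_lt_one_of_one_lt₀ hd1)
      simpa using h3.const_mul ‖2 * (Real.pi : ℂ) * Complex.I‖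
    have h2 : (fun n => (v n : ℂ × ℂ)) = fun n : ℕ =>
        ((x : ℂ × ℂ).1 + 2 * (Real.pi : ℂ) * Complex.I / (d : ℂ) ^ n, (x : ℂ × ℂ).2) := by
      funext n; exact hv n
    rw [h2]
    have h3 := (tendsto_const_nhds (x := (x : ℂ × ℂ).1)).add h1
    rw [add_zero] at h3
    exact h3.prodMk_nhds tendsto_const_nhds
  have hvlim : Tendsto v atTop (𝓝 x) := tendsto_subtype_rng.mpr hvlim0
  have hcont : Continuous (prj hf) := (prj_covering hf).1.continuous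
  refine ⟨u, hu1, ?_, ?_⟩
  · -- the second coordinates escape
    have hcc : Tendsto (fun n => (u n : ℂ × ℂ).2) atTop (cocompact ℂ) := by
      rw [(hasBasis_cocompact).tendsto_right_iff]
      intro K hK
      by_contra hcon
      have hfreq : ∃ᶠ n in atTop, (u n : ℂ × ℂ).2 ∈ K := by
        rw [not_eventually] at hcon
        exact hcon.mono fun n hn => not_not.mp hn
      obtain ⟨ζ, -, φ, hφ, hlim⟩ := hK.tendsto_subseq' hfreq
      have hxE : 0 < (x : ℂ × ℂ).1.re := x.2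
      have hE0 : ((x : ℂ × ℂ).1, ζ) ∈ E := hxE
      have hEopen : IsOpen E := E_facts.1
      have hulim : Tendsto (fun k => (u (φ k) : ℂ × ℂ)) atTop (𝓝 ((x : ℂ × ℂ).1, ζ)) := by
        have h1 : (fun k => (u (φ k) : ℂ × ℂ))
            = fun k => ((x : ℂ × ℂ).1, (u (φ k) : ℂ × ℂ).2) := by
          funext k; rw [← hu1 (φ k)]
        rw [h1]
        exact tendsto_const_nhds.prodMk_nhds hlim
      have hΨc : ∀ y ∈ E, ContinuousAt Ψ y := fun y hy =>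
        (hf.diff.continuousOn.continuousAt (hEopen.mem_nhds hy))
      have hvlim' : Tendsto (fun k => (v (φ k) : ℂ × ℂ)) atTop (𝓝 (x : ℂ × ℂ)) :=
        hvlim0.comp hφ.tendsto_atTop
      have hΨ1 : Tendsto (fun k => Ψ (u (φ k))) atTop (𝓝 (Ψ ((x : ℂ × ℂ).1, ζ))) :=
        (hΨc _ hE0).tendsto.comp hulim
      have hΨ2 : Tendsto (fun k => Ψ (u (φ k))) atTop (𝓝 (Ψ (x : ℂ × ℂ))) := by
        have h2 : (fun k => Ψ (u (φ k))) = fun k => Ψ (v (φ k)) := by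
          funext k; exact hΨ _
        rw [h2]
        exact (hΨc _ x.2).tendsto.comp hvlim'
      have hΨeq : Ψ ((x : ℂ × ℂ).1, ζ) = Ψ (x : ℂ × ℂ) := tendsto_nhds_unique hΨ1 hΨ2
      have hpe : prj hf ⟨((x : ℂ × ℂ).1, ζ), hE0⟩ = prj hf x := by
        rw [prj_eq_iff]
        obtain ⟨n, j, hnj⟩ := (hf.fib _ hE0 _ x.2).mp hΨeq
        exact ⟨n, n, j, hnj⟩
      have hxe := leaf_inj hf ⟨((x : ℂ × ℂ).1, ζ), hE0⟩ x rfl hpe
      have hxe' : ((x : ℂ × ℂ).1, ζ) = (x : ℂ × ℂ) := congrArg Subtype.val hxe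
      rw [hxe'] at hulim
      obtain ⟨U, V, s, hU, -, hxU, -, -, -, -, hsU, -⟩ := hf.loc x x.2
      have e1 := hulim.eventually (hU.mem_nhds hxU)
      have e2 := hvlim'.eventually (hU.mem_nhds hxU)
      obtain ⟨k, hk1, hk2⟩ := (e1.and e2).exists
      have h3 : (u (φ k) : ℂ × ℂ) = v (φ k) := by
        rw [← hsU _ hk1, ← hsU _ hk2, hΨ]
      have h4 := congrArg Prod.fst h3
      rw [hu1, hv] at h4
      have h5 : 2 * (Real.pi : ℂ) * Complex.I / (d : ℂ) ^ (φ k) = 0 := by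
        have h6 : (x : ℂ × ℂ).1 = (x : ℂ × ℂ).1 + 2 * (Real.pi : ℂ) * Complex.I / (d : ℂ) ^ (φ k) :=
          h4
        linear_combination -h6
      have h6 : 2 * (Real.pi : ℂ) * Complex.I / (d : ℂ) ^ (φ k) ≠ 0 :=
        div_ne_zero (by simp [Real.pi_ne_zero, Complex.I_ne_zero]) (pow_ne_zero _ hd0)
      exact h6 h5
    exact tendsto_norm_cocompact_atTop.comp hcc
  · have h1 : (fun n => prj hf (u n)) = fun n => prj hf (v n) := by
      funext n; exact hprj n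
    rw [h1]
    exact (hcont.tendsto x).comp hvlim

end

end HEN
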