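import Pool.Agent.Lib.MP_e79cb7_ag.LF1

/-! # Continuous lifts to `E` -/

open Filter Topology Polynomial Bornology

noncomputable section

namespace HEN

section
variable {f g : ℂ × ℂ → ℂ × ℂ} {d d' : ℕ} {lam lam' : ℂ} {Q Q' : ℂ[X]}
  {Ψ Ψ' : ℂ × ℂ → ℂ × ℂ}

/-- holomorphic maps between the surfaces are continuous -/
theorem IsHolo.continuous {Φ : Surf f → Surf g} (h : IsHolo f g Φ) : Continuous Φ := by
  have h1 : @IsQuotientMap (Omega f) (Surf f) _ _ (Quotient.mk (orb f)) :=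
    isQuotientMap_quotient_mk'
  refine h1.continuous_iff.2 (continuous_iff_continuousAt.2 fun p => ?_)
  obtain ⟨U, φ, hU, hpU, hφ, h2⟩ := h p.1 p.2
  have h3 : ∀ᶠ q : Omega f in 𝓝 p, (q : ℂ × ℂ) ∈ U :=
    (hU.preimage continuous_subtype_val).mem_nhds hpU
  -- the local map into `Omega g`
  have h4 : Continuous (fun q : {q : Omega f // (q : ℂ × ℂ) ∈ U} =>
      (⟨φ q, (h2 _ q.2 q.1.2).choose⟩ : Omega g)) := by
    refine Continuous.subtype_mk ?_ _
    have h5 : ContinuousOn φ U := hφ.continuousOn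
    exact h5.comp_continuous (continuous_subtype_val.comp continuous_subtype_val) (fun q => q.2)
  have h5 : Continuous (Quotient.mk (orb g)) := continuous_quotient_mk'
  have h6 : ContinuousOn (Φ ∘ Quotient.mk (orb f)) {q : Omega f | (q : ℂ × ℂ) ∈ U} := by
    rw [continuousOn_iff_continuous_domRestrict]
    refine (h5.comp h4).congr ?_
    intro q
    exact (h2 _ q.2 q.1.2).choose_spec.symm
  exact h6.continuousAt h3

/-- existence of a lift with prescribed base point -/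
theorem lf_exists_lift (hf : IsCover f d lam Q Ψ) (hg : IsCover g d' lam' Q' Ψ')
    (S : Surf f → Surf g) (hS : Continuous S) (x₀ y₀ : E) (h0 : prj hg y₀ = S (prj hf x₀)) :
    ∃ φ : E → E, Continuous φ ∧ (∀ x, prj hg (φ x) = S (prj hf x)) ∧ φ x₀ = y₀ := by
  obtain ⟨F, ⟨hF1, hF2⟩, -⟩ := (prj_covering hg).1.existsUnique_continuousMap_lifts
    ⟨fun x => S (prj hf x), hS.comp (prj_cont hf)⟩ x₀ y₀ h0
  exact ⟨F, F.continuous, fun x => congrFun hF2 x, hF1⟩

/- Module LF2 (file LF2.lean): continuous lifts -/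
theorem lift_exists (hf : IsCover f d lam Q Ψ) (hg : IsCover g d' lam' Q' Ψ')
    (S : Surf f ≃ Surf g) (h1 : IsHolo f g S) (h2 : IsHolo g f S.symm) :
    ∃ φ φ' : E → E, Continuous φ ∧ Continuous φ' ∧ (∀ x, φ' (φ x) = x) ∧ (∀ x, φ (φ' x) = x) ∧
      (∀ x, prj hg (φ x) = S (prj hf x)) ∧ (∀ y, prj hf (φ' y) = S.symm (prj hg y)) := by
  obtain ⟨x₀⟩ := lfNonemptyE
  obtain ⟨y₀, hy₀⟩ := prj_surj hg (S (prj hf x₀))
  obtain ⟨φ, hφ, hφS, hφ0⟩ := lf_exists_lift hf hg S h1.continuous x₀ y₀ hy₀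
  obtain ⟨φ', hφ', hφS', hφ0'⟩ := lf_exists_lift hg hf S.symm h2.continuous y₀ x₀
    (by rw [hy₀, Equiv.symm_apply_apply])
  refine ⟨φ, φ', hφ, hφ', ?_, ?_, hφS, hφS'⟩
  · refine congrFun (prj_lift_unique hf (hφ'.comp hφ) continuous_id (fun x => ?_) x₀ ?_)
    · rw [hφS', hφS, Equiv.symm_apply_apply]
    · rw [hφ0, hφ0']
  · refine congrFun (prj_lift_unique hg (hφ.comp hφ') continuous_id (fun y => ?_) y₀ ?_)
    · rw [hφS, hφS', Equiv.apply_symm_apply]
    · rw [hφ0', hφ0]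

end

end HEN
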