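import Pool.Agent.Lib.MP_e79cb7_ag.LF1

/-! # Lifts are holomorphic -/

open Filter Topology Polynomial Bornology

noncomputable section

namespace HEN

section
variable {f g : ℂ × ℂ → ℂ × ℂ} {d d' : ℕ} {lam lam' : ℂ} {Q Q' : ℂ[X]}
  {Ψ Ψ' : ℂ × ℂ → ℂ × ℂ}

/- Module LF3 (file LF3.lean): lifts are holomorphic -/
theorem lift_holo (hf : IsCover f d lam Q Ψ) (hg : IsCover g d' lam' Q' Ψ')
    (S : Surf f → Surf g) (h1 : IsHolo f g S) (φ : E → E) (hφ : Continuous φ)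
    (h : ∀ x, prj hg (φ x) = S (prj hf x)) (x : E) :
    ∃ (U : Set (ℂ × ℂ)) (χ : ℂ × ℂ → ℂ × ℂ), IsOpen U ∧ (x : ℂ × ℂ) ∈ U ∧
      DifferentiableOn ℂ χ U ∧ ∀ y : E, (y : ℂ × ℂ) ∈ U → (φ y : ℂ × ℂ) = χ y := by
  obtain ⟨U₀, φ₀, hU₀, hxU₀, hφ₀, hφ₀S⟩ := h1 (Ψ x) (hf.maps x x.2)
  obtain ⟨hp₁, hSp⟩ := hφ₀S _ hxU₀ (hf.maps x x.2)
  obtain ⟨y₁, hy₁, hy₁p⟩ := hg.surj _ hp₁
  -- the deck transformation
  have h2 : prj hg (φ x) = prj hg ⟨y₁, hy₁⟩ := by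
    rw [h x]
    change S (mk f (Ψ x) (hf.maps x x.2)) = mk g (Ψ' y₁) _
    rw [hSp]
    congr 1
    exact hy₁p.symm
  obtain ⟨n, m, j, hσ⟩ := exists_lfSigma hg h2
  obtain ⟨U', V', s', hU', hV', hyU', hUE', hΨ', hs', hsd', h3, h4⟩ := hg.loc y₁ hy₁
  obtain ⟨O, hO, hxO, hinj⟩ := prj_locInj hg (φ x)
  -- the local lift
  set σ : ℂ × ℂ → ℂ × ℂ := fun z => (Finv d' lam' Q')^[n] (T j ((F d' lam' Q')^[m] z)) with hσdef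
  have hσd : Differentiable ℂ σ :=
    (lf_Finv_diff hg n).comp ((lf_T_diff j).comp (lf_F_diff hg m))
  set χ : ℂ × ℂ → ℂ × ℂ := fun z => σ (s' (φ₀ (Ψ z))) with hχdef
  set N : Set (ℂ × ℂ) := (E ∩ Ψ ⁻¹' U₀) ∩ (fun z => φ₀ (Ψ z)) ⁻¹' V' with hNdef
  have hN0 : IsOpen (E ∩ Ψ ⁻¹' U₀) := hf.diff.continuousOn.isOpen_inter_preimage E_facts.1 hU₀
  have hcomp : DifferentiableOn ℂ (fun z => φ₀ (Ψ z)) (E ∩ Ψ ⁻¹' U₀) :=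
    hφ₀.comp (hf.diff.mono Set.inter_subset_left) (fun z hz => hz.2)
  have hN : IsOpen N := hcomp.continuousOn.isOpen_inter_preimage hN0 hV'
  have hxN : (x : ℂ × ℂ) ∈ N := by
    refine ⟨⟨x.2, hxU₀⟩, ?_⟩
    change φ₀ (Ψ x) ∈ V'
    rw [← hy₁p]
    exact hΨ' hyU'
  have hχN : DifferentiableOn ℂ χ N :=
    hσd.comp_differentiableOn (hsd'.comp (hcomp.mono Set.inter_subset_left) (fun z hz => hz.2))
  have hχE : ∀ z ∈ N, χ z ∈ E := fun z hz =>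
    lf_Finv_mem hg n (lf_T_mem j (lf_F_mem hg m (hUE' (hs' hz.2))))
  have hχx : χ x = φ x := by
    rw [← hσ, lfSigma_apply]
    change σ (s' (φ₀ (Ψ x))) = σ y₁
    rw [← hy₁p, h3 _ hyU']
  -- `χ` lifts `S`
  have hχS : ∀ (z : ℂ × ℂ) (hz : z ∈ N), prj hg ⟨χ z, hχE z hz⟩ = S (prj hf ⟨z, hz.1.1⟩) := by
    intro z hz
    have h5 : s' (φ₀ (Ψ z)) ∈ E := hUE' (hs' hz.2)
    have h6 : (⟨χ z, hχE z hz⟩ : E) = lfSigma hg n m j ⟨s' (φ₀ (Ψ z)), h5⟩ := Subtype.ext rfl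
    rw [h6, prj_lfSigma]
    obtain ⟨h7, h8⟩ := hφ₀S _ hz.1.2 (hf.maps z hz.1.1)
    change mk g (Ψ' (s' (φ₀ (Ψ z)))) _ = S (mk f (Ψ z) _)
    rw [h8]
    congr 1
    exact h4 _ hz.2
  -- shrink
  have hcontχ : ContinuousOn χ N := hχN.continuousOn
  obtain ⟨O', hO', hOO'⟩ : ∃ O' : Set (ℂ × ℂ), IsOpen O' ∧ Subtype.val ⁻¹' O' = O :=
    isOpen_induced_iff.1 hO
  obtain ⟨W, hW, hWO⟩ : ∃ W : Set (ℂ × ℂ), IsOpen W ∧ Subtype.val ⁻¹' W = φ ⁻¹' O :=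
    isOpen_induced_iff.1 (hO.preimage hφ)
  have hN2 : IsOpen (N ∩ χ ⁻¹' O') := hcontχ.isOpen_inter_preimage hN hO'
  refine ⟨(N ∩ χ ⁻¹' O') ∩ W, χ, hN2.inter hW, ⟨⟨hxN, ?_⟩, ?_⟩, ?_, ?_⟩
  · change χ x ∈ O'
    rw [hχx]
    change φ x ∈ Subtype.val ⁻¹' O'
    rw [hOO']
    exact hxO
  · change x ∈ Subtype.val ⁻¹' W
    rw [hWO]
    exact hxO
  · exact hχN.mono (fun z hz => hz.1.1)
  · intro y hy
    have h5 : φ y ∈ O := by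
      have h6 : y ∈ Subtype.val ⁻¹' W := hy.2
      rw [hWO] at h6
      exact h6
    have h6 : (⟨χ y, hχE y hy.1.1⟩ : E) ∈ O := by
      rw [← hOO']
      exact hy.1.2
    have h7 := hinj h5 h6 (by rw [h y, hχS y hy.1.1])
    exact congrArg Subtype.val h7

end

end HEN
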