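import Pool.Agent.Lib.MP_e79cb7_ag.LF1

/-! # Lift data -/

open Filter Topology Polynomial Bornology

noncomputable section

namespace HEN

section
variable {f g : ℂ × ℂ → ℂ × ℂ} {d d' : ℕ} {lam lam' : ℂ} {Q Q' : ℂ[X]}
  {Ψ Ψ' : ℂ × ℂ → ℂ × ℂ}

theorem lf_equivariant (hf : IsCover f d lam Q Ψ) (hg : IsCover g d' lam' Q' Ψ')
    (S : Surf f → Surf g) (φ : E → E) (hφ : Continuous φ)
    (h : ∀ x, prj hg (φ x) = S (prj hf x)) (τ : E ≃ₜ E) (hτ : ∀ x, prj hf (τ x) = prj hf x) :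
    ∃ (n m : ℕ) (j : ℤ), ∀ x : E, (F d' lam' Q')^[n] (φ (τ x)) = T j ((F d' lam' Q')^[m] (φ x)) := by
  obtain ⟨x₀⟩ := lfNonemptyE
  have h1 : ∀ x, prj hg (φ (τ x)) = prj hg (φ x) := by
    intro x
    rw [h, h, hτ]
  obtain ⟨n, m, j, hσ⟩ := exists_lfSigma hg (h1 x₀)
  refine ⟨n, m, j, ?_⟩
  have h2 := prj_lift_unique hg (hφ.comp τ.continuous) ((lfSigma hg n m j).continuous.comp hφ)
    (fun x => (h1 x).trans (prj_lfSigma hg n m j (φ x)).symm) x₀ hσ.symm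
  intro x
  have h3 : φ (τ x) = lfSigma hg n m j (φ x) := congrFun h2 x
  rw [h3, lfSigma_apply, lf_F_Finv hg]

/- Module LF4 (file LF4.lean): lift data -/
theorem lift_data (hf : IsCover f d lam Q Ψ) (hg : IsCover g d' lam' Q' Ψ')
    (S : Surf f → Surf g) (φ : E → E) (hφ : Continuous φ)
    (h : ∀ x, prj hg (φ x) = S (prj hf x)) (Φ : ℂ × ℂ → ℂ × ℂ)
    (hΦ : ∀ x : E, Φ x = (φ x : ℂ × ℂ)) : LiftData d lam Q d' lam' Q' Φ := by
  constructor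
  · obtain ⟨n, m, j, h1⟩ := lf_equivariant hf hg S φ hφ h (lfSigma hf 0 1 0) (prj_lfSigma hf 0 1 0)
    refine ⟨n, m, j, ?_⟩
    intro x hx
    have h2 := h1 ⟨x, hx⟩
    rw [← hΦ, ← hΦ, lfSigma_apply] at h2
    simp only [Function.iterate_zero, id_eq, Function.iterate_one, lf_T_zero] at h2
    exact h2
  · obtain ⟨n, m, j, h1⟩ := lf_equivariant hf hg S φ hφ h (lfSigma hf 0 0 1) (prj_lfSigma hf 0 0 1)
    refine ⟨n, m, j, ?_⟩
    intro x hx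
    have h2 := h1 ⟨x, hx⟩
    rw [← hΦ, ← hΦ, lfSigma_apply] at h2
    simp only [Function.iterate_zero, id_eq] at h2
    exact h2

end

end HEN
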