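import Pool.Agent.Lib.MP_e79cb7_ag.LF2
import Pool.Agent.Lib.MP_e79cb7_ag.LF3
import Pool.Agent.Lib.MP_e79cb7_ag.LF4

/-! # Lifting a biholomorphic map -/

open Filter Topology Polynomial Bornology

noncomputable section

namespace HEN

section
variable {f g : ℂ × ℂ → ℂ × ℂ} {d d' : ℕ} {lam lam' : ℂ} {Q Q' : ℂ[X]}
  {Ψ Ψ' : ℂ × ℂ → ℂ × ℂ}

open Classical in
/-- extension of a map of `E` to the plane -/
def lfExt (φ : E → E) (x : ℂ × ℂ) : ℂ × ℂ := if h : x ∈ E then (φ ⟨x, h⟩ : ℂ × ℂ) else x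

theorem lfExt_coe (φ : E → E) (x : E) : lfExt φ x = (φ x : ℂ × ℂ) := by
  unfold lfExt
  rw [dif_pos x.2]

theorem lfExt_of_mem (φ : E → E) {x : ℂ × ℂ} (hx : x ∈ E) :
    lfExt φ x = (φ ⟨x, hx⟩ : ℂ × ℂ) := lfExt_coe φ ⟨x, hx⟩

theorem lfExt_maps (φ : E → E) : Set.MapsTo (lfExt φ) E E := by
  intro x hx
  rw [lfExt_of_mem φ hx]
  exact (φ _).2

theorem lfExt_diff (φ : E → E) (h : ∀ x : E, ∃ (U : Set (ℂ × ℂ)) (χ : ℂ × ℂ → ℂ × ℂ), IsOpen U ∧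
    (x : ℂ × ℂ) ∈ U ∧ DifferentiableOn ℂ χ U ∧ ∀ y : E, (y : ℂ × ℂ) ∈ U → (φ y : ℂ × ℂ) = χ y) :
    DifferentiableOn ℂ (lfExt φ) E := by
  intro x hx
  obtain ⟨U, χ, hU, hxU, hχ, h1⟩ := h ⟨x, hx⟩
  have h2 : DifferentiableAt ℂ χ x := hχ.differentiableAt (hU.mem_nhds hxU)
  refine (h2.congr_of_eventuallyEq ?_).differentiableWithinAt
  filter_upwards [(hU.inter E_facts.1).mem_nhds ⟨hxU, hx⟩] with y hy
  rw [lfExt_of_mem φ hy.2]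
  exact h1 ⟨y, hy.2⟩ hy.1

/- Module LFT (assembly of LF2, LF3, LF4; file LFT.lean) -/
theorem lift_biholo (hf : IsCover f d lam Q Ψ) (hg : IsCover g d' lam' Q' Ψ')
    (hB : Biholo f g) :
    ∃ Φ Φ' : ℂ × ℂ → ℂ × ℂ, DifferentiableOn ℂ Φ E ∧ Set.MapsTo Φ E E ∧
      DifferentiableOn ℂ Φ' E ∧ Set.MapsTo Φ' E E ∧ (∀ x ∈ E, Φ' (Φ x) = x) ∧
      (∀ x ∈ E, Φ (Φ' x) = x) ∧ LiftData d lam Q d' lam' Q' Φ ∧ LiftData d' lam' Q' d lam Q Φ' := by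
  obtain ⟨S, h1, h2⟩ := hB
  obtain ⟨φ, φ', hφ, hφ', h3, h4, h5, h6⟩ := lift_exists hf hg S h1 h2
  refine ⟨lfExt φ, lfExt φ', lfExt_diff φ (lift_holo hf hg S h1 φ hφ h5), lfExt_maps φ,
    lfExt_diff φ' (lift_holo hg hf S.symm h2 φ' hφ' h6), lfExt_maps φ', ?_, ?_,
    lift_data hf hg S φ hφ h5 _ (lfExt_coe φ), lift_data hg hf S.symm φ' hφ' h6 _ (lfExt_coe φ')⟩
  · intro x hx
    rw [lfExt_of_mem φ hx, lfExt_coe, h3]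
  · intro x hx
    rw [lfExt_of_mem φ' hx, lfExt_coe, h4]

end

end HEN
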