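import Pool.Agent.Lib.MP_e79cb7_ag.Cmp

/-!
# Normalization
-/

open Filter Topology Polynomial Bornology

noncomputable section

namespace HEN

/-- The second coefficient after an affine substitution. -/
theorem nor_coeff (P : ℂ[X]) (m : ℕ) (hm : P.natDegree = m + 1) (α β : ℂ) :
    (P.comp (C α * X + C β)).coeff m = α ^ m * (P.coeff m + (m + 1) * P.coeff (m + 1) * β) := by
  have h1 : P.comp (C α * X + C β) = (P.comp (X + C β)).comp (C α * X) := by
    rw [comp_assoc]
    simp
  rw [h1, comp_C_mul_X_coeff]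
  have h2 : (P.comp (X + C β)).coeff m = P.coeff m + (m + 1) * P.coeff (m + 1) * β := by
    rw [Polynomial.comp, eval₂_eq_sum_range, hm, finsetSum_coeff, Finset.sum_range_succ,
      Finset.sum_range_succ, Finset.sum_eq_zero, zero_add]
    · rw [coeff_C_mul, coeff_C_mul, coeff_X_add_C_pow, coeff_X_add_C_pow]
      simp
      ring
    · intro j hj
      have := Finset.mem_range.1 hj
      rw [coeff_C_mul, coeff_X_add_C_pow, Nat.choose_eq_zero_of_lt this]
      simp
  rw [h2]
  ring

theorem normalize {k : ℕ} {a : ℤ → ℂ} {P : ℤ → ℂ[X]} (hD : IsData k a P) :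
    ∃ (b : ℤ → ℂ) (Q : ℤ → ℂ[X]) (α β : ℤ → ℂ), IsData k b Q ∧ IsNorm Q ∧
      Rel k a P b Q 0 α β := by
  classical
  obtain ⟨hk, ha, hd, pa, pP⟩ := hD
  have hk0 : (0 : ℤ) < k := by exact_mod_cast hk
  have hc : ∀ i, (P i).leadingCoeff ≠ 0 := by
    intro i h
    have := hd i
    rw [leadingCoeff_eq_zero.1 h] at this
    simp at this
  -- the multipliers along the natural numbers
  let A : ℂ → ℕ → ℂ := fun z n => Nat.rec z (fun n w => (P n).leadingCoeff * w ^ (P n).natDegree) n
  have hA0 : ∀ z, A z 0 = z := fun z => rfl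
  have hAs : ∀ z n, A z (n + 1) = (P n).leadingCoeff * A z n ^ (P n).natDegree := fun z n => rfl
  have hform : ∀ n, ∃ (K : ℂ) (D : ℕ), K ≠ 0 ∧ 1 ≤ D ∧ (0 < n → 2 ≤ D) ∧ ∀ z, A z n = K * z ^ D := by
    intro n
    induction n with
    | zero => exact ⟨1, 1, one_ne_zero, le_refl _, fun h => absurd h (lt_irrefl _), fun z => by
        rw [hA0]; simp⟩
    | succ n ih =>
      obtain ⟨K, D, h1, h2, -, h3⟩ := ih
      refine ⟨(P n).leadingCoeff * K ^ (P n).natDegree, D * (P n).natDegree,
        mul_ne_zero (hc _) (pow_ne_zero _ h1), ?_, fun _ => ?_, fun z => ?_⟩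
      · have := hd n
        nlinarith
      · have := hd n
        nlinarith
      · rw [hAs, h3, mul_pow, ← pow_mul, mul_assoc]
  obtain ⟨K, D, hK, -, hD2, hKD⟩ := hform k
  have hD2 := hD2 hk
  obtain ⟨z, hz⟩ := IsAlgClosed.exists_pow_nat_eq (K⁻¹) (n := D - 1) (by omega)
  have hz0 : z ≠ 0 := by
    rintro rfl
    rw [zero_pow (by omega)] at hz
    exact inv_ne_zero hK hz.symm
  have hclose : A z k = A z 0 := by
    rw [hKD, hA0, show D = (D - 1) + 1 by omega, pow_succ, hz, ← mul_assoc, mul_inv_cancel₀ hK,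
      one_mul]
  have hAne : ∀ n, A z n ≠ 0 := by
    intro n
    obtain ⟨K', D', h1, -, -, h3⟩ := hform n
    rw [h3]
    exact mul_ne_zero h1 (pow_ne_zero _ hz0)
  have hAper : Function.Periodic (A z) k := by
    intro n
    induction n with
    | zero => rw [zero_add]; exact hclose
    | succ n ih =>
      rw [show n + 1 + k = (n + k) + 1 by ring, hAs, hAs, ih]
      have : P ((n + k : ℕ) : ℤ) = P n := by
        rw [Nat.cast_add]
        exact pP n
      rw [this]
  have hPmod : ∀ i : ℤ, P (i % k) = P i := by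
    intro i
    have h : Function.Periodic P k := pP
    have h2 := (h.int_mul (i / k)) (i % k)
    rw [← h2]
    congr 1
    have := Int.emod_add_mul_ediv i k
    push_cast
    linarith
  let α : ℤ → ℂ := fun i => A z (i % k).toNat
  have hαs : ∀ i, α (i + 1) = (P i).leadingCoeff * α i ^ (P i).natDegree := by
    intro i
    have h0 : 0 ≤ i % k := Int.emod_nonneg _ hk0.ne'
    have h1 : ((i + 1) % (k : ℤ)).toNat = ((i % k).toNat + 1) % k := by
      have e : (((i + 1) % (k : ℤ)).toNat : ℤ) = ((((i % k).toNat + 1) % k : ℕ) : ℤ) := by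
        rw [Int.toNat_of_nonneg (Int.emod_nonneg _ hk0.ne')]
        push_cast
        rw [Int.toNat_of_nonneg h0, Int.emod_add_emod]
      exact_mod_cast e
    change A z _ = _ * A z _ ^ _
    rw [h1, hAper.map_mod_nat, hAs]
    have h2 : P (((i % k).toNat : ℕ) : ℤ) = P i := by
      rw [Int.toNat_of_nonneg h0, hPmod]
    rw [h2]
  have hαne : ∀ i, α i ≠ 0 := fun i => hAne _
  have hαper : ∀ i, α (i + k) = α i := by
    intro i
    change A z _ = A z _
    rw [Int.add_emod_right]
  let β : ℤ → ℂ := fun i => -(P i).coeff ((P i).natDegree - 1) /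
    ((P i).natDegree * (P i).leadingCoeff)
  have hβper : ∀ i, β (i + k) = β i := by
    intro i
    simp only [β, pP]
  let b : ℤ → ℂ := fun i => a i * α (i - 1) / α (i + 1)
  let Q : ℤ → ℂ[X] := fun i => C (α (i + 1))⁻¹ *
    ((P i).comp (C (α i) * X + C (β i)) - C (β (i + 1) + a i * β (i - 1)))
  have hlin : ∀ i, (C (α i) * X + C (β i)).natDegree = 1 := fun i =>
    natDegree_linear (hαne i)
  have hdegc : ∀ i, ((P i).comp (C (α i) * X + C (β i))).natDegree = (P i).natDegree := by
    intro i
    rw [natDegree_comp, hlin, mul_one]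
  have hdegQ : ∀ i, (Q i).natDegree = (P i).natDegree := by
    intro i
    change (C _ * _).natDegree = _
    rw [natDegree_C_mul (inv_ne_zero (hαne _)), natDegree_sub_C, hdegc]
  have hcoefQ : ∀ i n, 1 ≤ n → (Q i).coeff n = (α (i + 1))⁻¹ *
      ((P i).comp (C (α i) * X + C (β i))).coeff n := by
    intro i n hn
    change (C _ * _).coeff n = _
    rw [coeff_C_mul, coeff_sub, coeff_C, if_neg (by omega), sub_zero]
  refine ⟨b, Q, α, β, ⟨hk, ?_, ?_, ?_, ?_⟩, ⟨?_, ?_⟩, hαne, hαper, hβper, ?_, ?_⟩
  · intro i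
    exact div_ne_zero (mul_ne_zero (ha i) (hαne _)) (hαne _)
  · intro i
    rw [hdegQ]
    exact hd i
  · intro i
    simp only [b]
    rw [pa, show i + (k : ℤ) - 1 = i - 1 + k by ring, show i + (k : ℤ) + 1 = i + 1 + k by ring,
      hαper, hαper]
  · intro i
    simp only [Q]
    rw [pa, pP, show i + (k : ℤ) - 1 = i - 1 + k by ring, show i + (k : ℤ) + 1 = i + 1 + k by ring,
      hαper, hαper, hβper, hβper, hβper]
  · intro i
    have hd2 := hd i
    rw [Monic, leadingCoeff, hdegQ, hcoefQ _ _ (by omega)]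
    have e : ((P i).comp (C (α i) * X + C (β i))).coeff (P i).natDegree =
        (P i).leadingCoeff * α i ^ (P i).natDegree := by
      have := leadingCoeff_comp (p := P i) (q := C (α i) * X + C (β i)) (by rw [hlin]; norm_num)
      rw [leadingCoeff, hdegc] at this
      rw [this, leadingCoeff_linear (hαne i)]
    rw [e, ← hαs, inv_mul_cancel₀ (hαne _)]
  · intro i
    have hd2 := hd i
    rw [hdegQ, hcoefQ _ _ (by omega)]
    obtain ⟨m, hm⟩ : ∃ m, (P i).natDegree = m + 1 := ⟨(P i).natDegree - 1, by omega⟩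
    rw [show (P i).natDegree - 1 = m by omega, nor_coeff (P i) m hm]
    have e : (P i).coeff m + (m + 1) * (P i).coeff (m + 1) * β i = 0 := by
      simp only [β]
      rw [show (P i).natDegree - 1 = m by omega, leadingCoeff, hm]
      have h1 : (P i).coeff (m + 1) ≠ 0 := by
        have := hc i
        rwa [leadingCoeff, hm] at this
      have h2 : ((m : ℂ) + 1) ≠ 0 := by exact_mod_cast Nat.succ_ne_zero m
      push_cast
      field_simp
      ring
    rw [e, mul_zero, mul_zero]
  · intro i
    simp only [b, add_zero]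
  · intro i y
    simp only [Q, add_zero, eval_mul, eval_C, eval_sub, eval_comp, eval_add, eval_X]
    field_simp
    ring

end HEN
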