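import Pool.Agent.Lib.MP_e79cb7_ag.Cmp

/-! # A relation between the data gives a polynomial conjugacy -/

open Filter Topology Polynomial Bornology

noncomputable section

namespace HEN

theorem rco_comp {g h : ℂ × ℂ → ℂ × ℂ} (hg : IsPolyMap g) (hh : IsPolyMap h) :
    IsPolyMap (h ∘ g) := by
  obtain ⟨A, B, hAB⟩ := hh
  obtain ⟨A', B', hAB'⟩ := hg
  refine ⟨MvPolynomial.bind₁ ![A', B'] A, MvPolynomial.bind₁ ![A', B'] B, fun p => ?_⟩
  have e : ∀ S : MvPolynomial (Fin 2) ℂ,
      MvPolynomial.eval ![p.1, p.2] (MvPolynomial.bind₁ ![A', B'] S) =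
      MvPolynomial.eval ![MvPolynomial.eval ![p.1, p.2] A', MvPolynomial.eval ![p.1, p.2] B'] S := by
    intro S
    unfold MvPolynomial.eval
    rw [MvPolynomial.eval₂Hom_bind₁]
    congr 2
    funext i
    fin_cases i <;> rfl
  rw [e, e, Function.comp_apply, hAB, hAB']

theorem rco_id : IsPolyMap id :=
  ⟨MvPolynomial.X 0, MvPolynomial.X 1, fun p => by simp⟩

private theorem rco_eval (P : ℂ[X]) (i : Fin 2) (v : Fin 2 → ℂ) :
    MvPolynomial.eval v (Polynomial.aeval (MvPolynomial.X i : MvPolynomial (Fin 2) ℂ) P) =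
      P.eval (v i) := by
  rw [Polynomial.aeval_def, Polynomial.hom_eval₂]
  have h1 : (MvPolynomial.eval v).comp (MvPolynomial.C : ℂ →+* MvPolynomial (Fin 2) ℂ) =
      RingHom.id ℂ := RingHom.ext fun x => MvPolynomial.eval_C x
  simp [Polynomial.eval₂_eq_eval_map, MvPolynomial.algebraMap_eq, h1]

theorem rco_H (a : ℂ) (P : ℂ[X]) : IsPolyMap (H a P) := by
  refine ⟨Polynomial.aeval (MvPolynomial.X 0 : MvPolynomial (Fin 2) ℂ) P -
    MvPolynomial.C a * MvPolynomial.X 1, MvPolynomial.X 0, fun p => ?_⟩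
  unfold H
  rw [map_sub, rco_eval]
  simp

theorem rco_Hinv (a : ℂ) (P : ℂ[X]) : IsPolyMap (Hinv a P) := by
  refine ⟨MvPolynomial.X 1, (Polynomial.aeval (MvPolynomial.X 1 : MvPolynomial (Fin 2) ℂ) P -
    MvPolynomial.X 0) * MvPolynomial.C a⁻¹, fun p => ?_⟩
  unfold Hinv
  rw [map_mul, map_sub, rco_eval]
  simp [div_eq_mul_inv]

theorem rco_polyComp (a : ℤ → ℂ) (P : ℤ → ℂ[X]) (i : ℤ) (n : ℕ) : IsPolyMap (comp a P i n) := by
  induction n with
  | zero => exact rco_id
  | succ n ih => exact rco_comp ih (rco_H _ _)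

theorem rco_polyCompInv (a : ℤ → ℂ) (P : ℤ → ℂ[X]) (i : ℤ) (n : ℕ) :
    IsPolyMap (compInv a P i n) := by
  induction n with
  | zero => exact rco_id
  | succ n ih => exact rco_comp (rco_Hinv _ _) ih

/-- A diagonal affine map. -/
def rcoA (s t u v : ℂ) (p : ℂ × ℂ) : ℂ × ℂ := (s * p.1 + t, u * p.2 + v)

theorem rco_A (s t u v : ℂ) : IsPolyMap (rcoA s t u v) :=
  ⟨MvPolynomial.C s * MvPolynomial.X 0 + MvPolynomial.C t,
    MvPolynomial.C u * MvPolynomial.X 1 + MvPolynomial.C v, fun p => by simp [rcoA]⟩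

private theorem rco_per {X : Type*} {k : ℕ} {c : ℤ → X} (hc : ∀ i, c (i + k) = c i) (i m : ℤ) :
    c (i + m * k) = c i := by
  induction m using Int.induction_on with
  | zero => simp
  | succ m ih =>
    rw [← ih, ← hc (i + m * k)]
    congr 1
    ring
  | pred m ih =>
    rw [← ih, ← hc (i + (-m - 1) * k)]
    congr 1
    ring

theorem rco_step {k : ℕ} {a b : ℤ → ℂ} {P Q : ℤ → ℂ[X]} {r : ℤ} {α β : ℤ → ℂ}
    (h : Rel k a P b Q r α β) (i : ℤ) (n : ℕ) (p : ℂ × ℂ) :
    comp a P (i + r) n (rcoA (α i) (β i) (α (i - 1)) (β (i - 1)) p) =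
      rcoA (α (i + n)) (β (i + n)) (α (i + n - 1)) (β (i + n - 1)) (comp b Q i n p) := by
  obtain ⟨h1, h2, h3, h4, h5⟩ := h
  induction n with
  | zero => simp [comp]
  | succ n ih =>
    rw [comp_succ, ih, comp_succ]
    set q := comp b Q i n p
    have e1 : i + r + (n : ℤ) = i + n + r := by ring
    have e2 : i + ((n + 1 : ℕ) : ℤ) = i + n + 1 := by push_cast; ring
    rw [e1, e2]
    generalize i + (n : ℤ) = j
    unfold rcoA H
    simp only [add_sub_cancel_right]
    rw [h4 j, h5 j q.1]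
    have h1' := h1 (j + 1)
    ext
    · simp only
      field_simp
      ring
    · rfl

theorem conj_of_rel {k : ℕ} {a b : ℤ → ℂ} {P Q : ℤ → ℂ[X]} {r : ℤ} {α β : ℤ → ℂ}
    (hD : IsData k a P) (hD' : IsData k b Q) (h : Rel k a P b Q r α β) :
    ∃ h : ℂ × ℂ → ℂ × ℂ, IsPolyAut h ∧ h ∘ comp a P 0 k = comp b Q 0 k ∘ h := by
  have hk : 0 < k := hD.hk
  have hstep := rco_step h 0 k
  obtain ⟨h1, h2, h3, h4, h5⟩ := h
  -- replace r by r' ≥ 0
  set r' : ℕ := (r % k).toNat with hr'
  have hr'2 : (r' : ℤ) = r % k := Int.toNat_of_nonneg (Int.emod_nonneg _ (by exact_mod_cast hk.ne'))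
  have hr'3 : r = r' + (r / k) * k := by
    rw [hr'2]
    have := Int.emod_add_mul_ediv r k
    linarith
  have hcomp : comp a P r k = comp a P r' k := by
    have : ∀ n, comp a P r n = comp a P r' n := by
      intro n
      funext p
      induction n with
      | zero => rfl
      | succ n ih =>
        rw [comp_succ, comp_succ, ih]
        have ea : a (r + n) = a (r' + n) := by
          rw [hr'3, add_right_comm, rco_per hD.pa]
        have eP : P (r + n) = P (r' + n) := by
          rw [hr'3, add_right_comm, rco_per hD.pP]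
        rw [ea, eP]
    exact this k
  -- the affine map
  set A : ℂ × ℂ → ℂ × ℂ := rcoA (α 0) (β 0) (α (-1)) (β (-1)) with hA
  set A' : ℂ × ℂ → ℂ × ℂ := rcoA (α 0)⁻¹ (-(β 0) / α 0) (α (-1))⁻¹ (-(β (-1)) / α (-1)) with hA'
  have hAA' : ∀ p, A (A' p) = p := by
    intro p
    simp only [hA, hA', rcoA]
    have := h1 0
    have := h1 (-1)
    ext
    · simp only
      field_simp
      ring
    · simp only
      field_simp
      ring
  have hA'A : ∀ p, A' (A p) = p := by
    intro p
    simp only [hA, hA', rcoA]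
    have := h1 0
    have := h1 (-1)
    ext
    · simp only
      field_simp
      ring
    · simp only
      field_simp
      ring
  have hstep' : ∀ p, comp a P r' k (A p) = A (comp b Q 0 k p) := by
    intro p
    have e := hstep p
    have e1 : (0 : ℤ) + r = r := zero_add r
    have e2 : (0 : ℤ) - 1 = -1 := rfl
    have e3 : α ((0 : ℤ) + (k : ℤ)) = α 0 := h2 0
    have e4 : β ((0 : ℤ) + (k : ℤ)) = β 0 := h3 0
    have e5 : α ((0 : ℤ) + (k : ℤ) - 1) = α (-1) := by
      have := h2 (-1)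
      rw [← this]
      congr 1
      ring
    have e6 : β ((0 : ℤ) + (k : ℤ) - 1) = β (-1) := by
      have := h3 (-1)
      rw [← this]
      congr 1
      ring
    rw [e1, e2, e3, e4, e5, e6, hcomp] at e
    exact e
  have hB : ∀ p, comp a P 0 r' (comp a P 0 k p) = comp a P r' k (comp a P 0 r' p) := by
    intro p
    have e1 := comp_add a P 0 k r' p
    have e2 := comp_add a P 0 r' k p
    rw [comp_per hD.pa hD.pP] at e1
    rw [zero_add] at e2
    rw [← e1, ← e2, Nat.add_comm]
  refine ⟨A' ∘ comp a P 0 r', ⟨rco_comp (rco_polyComp _ _ _ _) (rco_A _ _ _ _),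
    compInv a P 0 r' ∘ A, rco_comp (rco_A _ _ _ _) (rco_polyCompInv _ _ _ _), ?_, ?_⟩, ?_⟩
  · intro p
    simp only [Function.comp_apply]
    rw [hAA', compInv_leftInverse hD.ha]
  · intro p
    simp only [Function.comp_apply]
    rw [compInv_rightInverse hD.ha, hA'A]
  · funext p
    simp only [Function.comp_apply]
    rw [hB]
    have e := hstep' (A' (comp a P 0 r' p))
    rw [hAA'] at e
    rw [e, hA'A]

end HEN
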