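import Pool.Agent.Lib.MP_e79cb7_ag.Cmp

/-!
# Relation calculus
-/

open Filter Topology Polynomial Bornology

noncomputable section

namespace HEN

theorem rel_symm {k : ℕ} {a b : ℤ → ℂ} {P Q : ℤ → ℂ[X]} {r : ℤ} {α β : ℤ → ℂ}
    (hD : IsData k a P) (hD' : IsData k b Q) (h : Rel k a P b Q r α β) :
    ∃ (α' β' : ℤ → ℂ), Rel k b Q a P (-r) α' β' := by
  obtain ⟨h1, h2, h3, h4, h5⟩ := h
  refine ⟨fun i => (α (i - r))⁻¹, fun i => -(β (i - r)) / α (i - r), ?_, ?_, ?_, ?_, ?_⟩
  · intro i
    exact inv_ne_zero (h1 _)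
  · intro i
    simp only
    rw [show i + (k : ℤ) - r = i - r + k by ring, h2]
  · intro i
    simp only
    rw [show i + (k : ℤ) - r = i - r + k by ring, h2, h3]
  · intro i
    have e := h4 (i + -r)
    rw [show i + -r + r = i by ring] at e
    rw [e]
    have e1 : i - 1 - r = i + -r - 1 := by ring
    have e2 : i + 1 - r = i + -r + 1 := by ring
    simp only [e1, e2]
    have n1 := h1 (i + -r - 1)
    have n2 := h1 (i + -r + 1)
    field_simp
  · intro i y
    have e := h4 (i + -r)
    rw [show i + -r + r = i by ring] at e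
    rw [h5, show i + -r + r = i by ring, e]
    have e1 : i - 1 - r = i + -r - 1 := by ring
    have e2 : i + 1 - r = i + -r + 1 := by ring
    have e3 : i - r = i + -r := by ring
    simp only [e1, e2, e3]
    have n0 := h1 (i + -r)
    have n1 := h1 (i + -r - 1)
    have n2 := h1 (i + -r + 1)
    have e4 : α (i + -r) * ((α (i + -r))⁻¹ * y + -β (i + -r) / α (i + -r)) + β (i + -r) = y := by
      field_simp
      ring
    rw [e4]
    field_simp
    ring

theorem rel_trans {k : ℕ} {a b c : ℤ → ℂ} {P Q S : ℤ → ℂ[X]} {r r' : ℤ} {α β α' β' : ℤ → ℂ}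
    (hD : IsData k a P) (hD' : IsData k b Q) (hD'' : IsData k c S)
    (h : Rel k a P b Q r α β) (h' : Rel k b Q c S r' α' β') :
    ∃ (α'' β'' : ℤ → ℂ), Rel k a P c S (r + r') α'' β'' := by
  obtain ⟨h1, h2, h3, h4, h5⟩ := h
  obtain ⟨g1, g2, g3, g4, g5⟩ := h'
  refine ⟨fun i => α (i + r') * α' i, fun i => α (i + r') * β' i + β (i + r'), ?_, ?_, ?_, ?_, ?_⟩
  · intro i
    exact mul_ne_zero (h1 _) (g1 _)
  · intro i
    simp only
    rw [show i + (k : ℤ) + r' = i + r' + k by ring, h2, g2]
  · intro i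
    simp only
    rw [show i + (k : ℤ) + r' = i + r' + k by ring, h2, h3, g3]
  · intro i
    rw [g4, h4]
    have e1 : i - 1 + r' = i + r' - 1 := by ring
    have e2 : i + 1 + r' = i + r' + 1 := by ring
    have e3 : i + (r + r') = i + r' + r := by ring
    simp only [e1, e2, e3]
    have n1 := h1 (i + r' - 1)
    have n2 := h1 (i + r' + 1)
    have n3 := g1 (i - 1)
    have n4 := g1 (i + 1)
    field_simp
  · intro i y
    rw [g5, h5, h4]
    have e1 : i - 1 + r' = i + r' - 1 := by ring
    have e2 : i + 1 + r' = i + r' + 1 := by ring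
    have e3 : i + (r + r') = i + r' + r := by ring
    simp only [e1, e2, e3]
    have n1 := h1 (i + r' - 1)
    have n2 := h1 (i + r' + 1)
    have n3 := g1 (i - 1)
    have n4 := g1 (i + 1)
    have e4 : α (i + r') * (α' i * y + β' i) + β (i + r') =
        α (i + r') * α' i * y + (α (i + r') * β' i + β (i + r')) := by ring
    rw [e4]
    field_simp
    ring

end HEN
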