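import Pool.Agent.Lib.MP_e79cb7_ag.XDefs
import Pool.Agent.Lib.MP_e79cb7_ag.LEA

/-! # The parametrization `pj` is a local biholomorphism -/

open Filter Topology Polynomial Bornology
open scoped Manifold ContDiff

noncomputable section

namespace HEN

universe u

section
variable {f g : ℂ × ℂ → ℂ × ℂ} {d d' : ℕ} {lam lam' : ℂ} {Q Q' : ℂ[X]}
  {Ψ Ψ' : ℂ × ℂ → ℂ × ℂ}

theorem xm1_continuous {X : Type u} [TopologicalSpace X] [ChartedSpace (ℂ × ℂ) X]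
    {j : Surf f → X} (hj : IsComp f j) : Continuous j := by
  have hq : Topology.IsQuotientMap (Quotient.mk (orb f)) := isQuotientMap_quotient_mk'
  have h1 : Continuous (j ∘ Quotient.mk (orb f)) := by
    rw [continuous_iff_continuousAt]
    intro p
    obtain ⟨U, φ, hU, hpU, hφ, hφj⟩ := hj.holo p p.2
    have h2 : ContinuousAt φ (p : ℂ × ℂ) := hφ.continuousOn.continuousAt (hU.mem_nhds hpU)
    have h3 : ContinuousAt (fun q : Omega f => φ (q : ℂ × ℂ)) p :=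
      ContinuousAt.comp (f := fun q : Omega f => (q : ℂ × ℂ)) h2 continuous_subtype_val.continuousAt
    refine h3.congr ?_
    have h4 : ∀ᶠ q : Omega f in 𝓝 p, (q : ℂ × ℂ) ∈ U :=
      continuous_subtype_val.continuousAt.eventually (hU.mem_nhds hpU)
    filter_upwards [h4] with q hq
    exact hφj q hq q.2
  exact hq.continuous_iff.mpr h1

theorem xm1_isOpenMap {X : Type u} [TopologicalSpace X] [ChartedSpace (ℂ × ℂ) X]
    {j : Surf f → X} (hj : IsComp f j) : IsOpenMap j := by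
  intro W hW
  have hW' : IsOpen (Quotient.mk (orb f) ⁻¹' W) :=
    (continuous_quotient_mk' (s := orb f)).isOpen_preimage W hW
  obtain ⟨O, hO, hOW⟩ := isOpen_induced_iff.mp hW'
  rw [isOpen_iff_mem_nhds]
  rintro y ⟨w, hw, rfl⟩
  obtain ⟨V, s, hV, hyV, hs, hsv⟩ := hj.inv (j w) ⟨w, rfl⟩
  have hcont : ContinuousOn s V := hs.continuousOn
  have h1 : s (j w) ∈ O := by
    obtain ⟨h2, h3⟩ := hsv (j w) hyV
    have h4 : mk f (s (j w)) h2 = w := hj.inj h3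
    have h5 : (⟨s (j w), h2⟩ : Omega f) ∈ Quotient.mk (orb f) ⁻¹' W := by
      show mk f (s (j w)) h2 ∈ W
      rw [h4]; exact hw
    rw [← hOW] at h5
    exact h5
  have h2 : V ∩ s ⁻¹' O ∈ 𝓝 (j w) :=
    (hcont.isOpen_inter_preimage hV hO).mem_nhds ⟨hyV, h1⟩
  refine Filter.mem_of_superset h2 ?_
  rintro v ⟨hvV, hvO⟩
  obtain ⟨h3, h4⟩ := hsv v hvV
  refine ⟨mk f (s v) h3, ?_, h4⟩
  have h5 : (⟨s v, h3⟩ : Omega f) ∈ Subtype.val ⁻¹' O := hvO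
  rw [hOW] at h5
  exact h5

/- Module XM1 (file XM1.lean): the parametrization `pj` is a local biholomorphism -/
theorem pj_facts {X : Type u} [TopologicalSpace X] [ChartedSpace (ℂ × ℂ) X]
    [IsManifold 𝓘(ℂ, ℂ × ℂ) 1 X] (hf : IsCover f d lam Q Ψ) {j : Surf f → X}
    (hj : IsComp f j) :
    Continuous (pj hf j) ∧ IsOpenMap (pj hf j) ∧ Continuous j ∧ IsOpenMap j ∧
    Set.range (pj hf j) = Set.range j ∧
    (∀ x : E, ∃ (U : Set (ℂ × ℂ)) (φ : ℂ × ℂ → X), IsOpen U ∧ (x : ℂ × ℂ) ∈ U ∧ U ⊆ E ∧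
      MDifferentiableOn 𝓘(ℂ, ℂ × ℂ) 𝓘(ℂ, ℂ × ℂ) φ U ∧ ∀ y : E, (y : ℂ × ℂ) ∈ U →
        φ y = pj hf j y) ∧
    (∀ x : E, ∃ (V : Set X) (s : X → ℂ × ℂ), IsOpen V ∧ pj hf j x ∈ V ∧
      MDifferentiableOn 𝓘(ℂ, ℂ × ℂ) 𝓘(ℂ, ℂ × ℂ) s V ∧ s (pj hf j x) = x ∧
      ∀ v ∈ V, ∃ h : s v ∈ E, pj hf j ⟨s v, h⟩ = v) := by
  have hjc : Continuous j := xm1_continuous hj
  have hjo : IsOpenMap j := xm1_isOpenMap hj
  obtain ⟨hcov, hsurj⟩ := prj_covering hf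
  have hprjc : Continuous (prj hf) := hcov.continuous
  have hprjo : IsOpenMap (prj hf) := hcov.isOpenMap
  have hEopen : IsOpen E := E_facts.1
  have hΨc : ContinuousOn Ψ E := hf.diff.continuousOn
  refine ⟨hjc.comp hprjc, hjo.comp hprjo, hjc, hjo, ?_, ?_, ?_⟩
  · ext v
    constructor
    · rintro ⟨x, rfl⟩
      exact ⟨prj hf x, rfl⟩
    · rintro ⟨w, rfl⟩
      obtain ⟨x, rfl⟩ := hsurj w
      exact ⟨x, rfl⟩
  · intro x
    obtain ⟨U0, φ0, hU0, hxU0, hφ0, hφj⟩ := hj.holo (Ψ x) (hf.maps x x.2)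
    refine ⟨E ∩ Ψ ⁻¹' U0, φ0 ∘ Ψ, hΨc.isOpen_inter_preimage hEopen hU0, ⟨x.2, hxU0⟩,
      Set.inter_subset_left, ?_, ?_⟩
    · have h1 : MDifferentiableOn 𝓘(ℂ, ℂ × ℂ) 𝓘(ℂ, ℂ × ℂ) Ψ (E ∩ Ψ ⁻¹' U0) :=
        (hf.diff.mono Set.inter_subset_left).mdifferentiableOn
      exact hφ0.comp h1 fun y hy => hy.2
    · intro y hy
      exact hφj (Ψ y) hy.2 (hf.maps y y.2)
  · intro x
    obtain ⟨V1, s1, hV1, hxV1, hs1, hsv1⟩ := hj.inv (pj hf j x) ⟨prj hf x, rfl⟩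
    obtain ⟨hpO, hpj⟩ := hsv1 _ hxV1
    have hmk : mk f (s1 (pj hf j x)) hpO = prj hf x := hj.inj hpj
    obtain ⟨y1, hy1, hy1p⟩ := hf.surj _ hpO
    obtain ⟨U, V, s2, hU, hV, hyU, hUE, hΨUV, hs2VU, hs2, hs2Ψ, hΨs2⟩ := hf.loc y1 hy1
    have hpV : s1 (pj hf j x) ∈ V := hy1p ▸ hΨUV hyU
    have hprj1 : prj hf ⟨y1, hy1⟩ = prj hf x := by
      rw [← hmk]
      show mk f (Ψ y1) _ = _
      congr 1
    obtain ⟨σ, -, -, hσ, -, hσd, hσx, -, hσprj⟩ := deck hf ⟨y1, hy1⟩ x hprj1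
    have hs1c : ContinuousOn s1 V1 := hs1.continuousOn
    refine ⟨V1 ∩ s1 ⁻¹' V, σ ∘ (s2 ∘ s1), hs1c.isOpen_inter_preimage hV1 hV, ⟨hxV1, hpV⟩,
      ?_, ?_, ?_⟩
    · have h1 : MDifferentiableOn 𝓘(ℂ, ℂ × ℂ) 𝓘(ℂ, ℂ × ℂ) (s2 ∘ s1) (V1 ∩ s1 ⁻¹' V) :=
        hs2.mdifferentiableOn.comp (hs1.mono Set.inter_subset_left) fun v hv => hv.2
      exact hσd.mdifferentiable.comp_mdifferentiableOn h1
    · show σ (s2 (s1 (pj hf j x))) = x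
      rw [← hy1p, hs2Ψ y1 hyU]
      exact hσx
    · intro v hv
      have hu : s2 (s1 v) ∈ E := hUE (hs2VU hv.2)
      refine ⟨hσ hu, ?_⟩
      obtain ⟨hO, hvj⟩ := hsv1 v hv.1
      show j (prj hf ⟨σ (s2 (s1 v)), _⟩) = v
      rw [hσprj ⟨s2 (s1 v), hu⟩]
      refine Eq.trans ?_ hvj
      congr 1
      show mk f (Ψ (s2 (s1 v))) _ = mk f (s1 v) hO
      congr 1
      exact hΨs2 _ hv.2

end

end HEN
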