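import Pool.Agent.Lib.MP_e79cb7_ag.XDefs

/-! # The trace of a curve on a leaf -/

open Filter Topology Polynomial Bornology
open scoped Manifold ContDiff

noncomputable section

namespace HEN

universe u

theorem leaf_trace {X : Type u} [TopologicalSpace X] [ChartedSpace (ℂ × ℂ) X]
    [IsManifold 𝓘(ℂ, ℂ × ℂ) 1 X] {χ : ℂ → X} (hχ : MDifferentiable 𝓘(ℂ, ℂ) 𝓘(ℂ, ℂ × ℂ) χ)
    {D : Set X} (hD : IsCurve D) {z₁ : ℂ} (hz₁ : χ z₁ ∉ D) :
    IsClosed {z | χ z ∈ D} ∧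
      ∀ p ∈ {z | χ z ∈ D}, ∃ ε : ℝ, 0 < ε ∧ ∀ q ∈ {z | χ z ∈ D}, q ≠ p → ε ≤ ‖q - p‖ := by
  have hc : Continuous χ := hχ.continuous
  have hcl : IsClosed {z | χ z ∈ D} := hD.closed.preimage hc
  set S : Set ℂ := {z | χ z ∈ D} with hS
  -- local dichotomy
  have hdich : ∀ p ∈ S, (∀ᶠ z in 𝓝 p, z ∈ S) ∨ (∀ᶠ z in 𝓝[≠] p, z ∉ S) := by
    intro p hp
    obtain ⟨V, h, hV, hpV, hh, hVD⟩ := hD.loc (χ p) hp
    have hU0 : IsOpen (χ ⁻¹' V) := hV.preimage hc
    have hpU : p ∈ χ ⁻¹' V := hpV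
    have hcomp : MDifferentiableOn 𝓘(ℂ, ℂ) 𝓘(ℂ, ℂ) (h ∘ χ) (χ ⁻¹' V) :=
      hh.comp hχ.mdifferentiableOn (fun z hz => hz)
    have hdiff : DifferentiableOn ℂ (h ∘ χ) (χ ⁻¹' V) :=
      mdifferentiableOn_iff_differentiableOn.mp hcomp
    have han : AnalyticAt ℂ (h ∘ χ) p := hdiff.analyticAt (hU0.mem_nhds hpU)
    have hev : ∀ᶠ z in 𝓝 p, z ∈ χ ⁻¹' V := hU0.mem_nhds hpU
    rcases han.eventually_eq_zero_or_eventually_ne_zero with h0 | h0
    · left
      filter_upwards [h0, hev] with z hz hzV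
      exact (hVD _ hzV).mpr hz
    · right
      filter_upwards [h0, hev.filter_mono nhdsWithin_le_nhds] with z hz hzV
      intro hzS
      exact hz ((hVD _ hzV).mp hzS)
  -- the interior is clopen
  set A : Set ℂ := {z | ∀ᶠ w in 𝓝 z, w ∈ S} with hA
  have hAS : A ⊆ S := fun z hz => hz.self_of_nhds
  have hAo : IsOpen A := isOpen_setOf_eventually_nhds
  have hAc : IsClosed A := by
    rw [isClosed_iff_frequently]
    intro p hp
    have hpS : p ∈ S := isClosed_iff_frequently.mp hcl p (hp.mono fun z hz => hAS hz)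
    rcases hdich p hpS with h1 | h1
    · exact h1
    · by_contra hpA
      have h2 : ∀ᶠ z in 𝓝 p, z ≠ p → z ∉ S := eventually_nhdsWithin_iff.mp h1
      obtain ⟨z, hz1, hz2⟩ := (hp.and_eventually h2).exists
      by_cases hzp : z = p
      · exact hpA (hzp ▸ hz1)
      · exact hz2 hzp (hAS hz1)
  have hA0 : A = ∅ := by
    rcases isClopen_iff.mp ⟨hAc, hAo⟩ with h | h
    · exact h
    · exact absurd (hAS (h ▸ Set.mem_univ z₁)) hz₁
  refine ⟨hcl, fun p hp => ?_⟩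
  rcases hdich p hp with h1 | h1
  · have : p ∈ A := h1
    rw [hA0] at this
    exact absurd this (Set.notMem_empty _)
  · have h2 : ∀ᶠ z in 𝓝 p, z ≠ p → z ∉ S := eventually_nhdsWithin_iff.mp h1
    obtain ⟨ε, hε, hb⟩ := Metric.eventually_nhds_iff.mp h2
    refine ⟨ε, hε, fun q hq hqp => ?_⟩
    by_contra hlt
    push Not at hlt
    exact hb (by rwa [dist_eq_norm]) hqp hq

end HEN
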