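import Pool.Agent.Lib.MP_e79cb7_ag.PA1

/-! Liouville theorem for multivalued positive harmonic functions outside a discrete set. -/

open Filter Topology MeasureTheory
open scoped ContDiff

noncomputable section

namespace HEN

theorem theta_facts {θ : ℂ → ℂ} {z : ℂ} {U : Set ℂ} {β : ℂ → ℂ} (hU : IsOpen U) (hz : z ∈ U)
    (hβ : DifferentiableOn ℂ β U) (hre : ∀ w ∈ U, 0 < (β w).re)
    (hθ : ∀ w ∈ U, θ w = deriv β w / (β w).re) :
    ContDiffAt ℝ 1 θ z ∧
      fderiv ℝ θ z 1 + Complex.I * fderiv ℝ θ z Complex.I = -((‖θ z‖ ^ 2 : ℝ) : ℂ) := by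
  have hUz : U ∈ 𝓝 z := hU.mem_nhds hz
  have hd1 : DifferentiableOn ℂ (deriv β) U := hβ.deriv hU
  have hc0 : ContDiffAt ℝ 1 β z := ((hβ.contDiffOn hU (n := 1)).contDiffAt hUz).restrict_scalars ℝ
  have hc1 : ContDiffAt ℝ 1 (deriv β) z :=
    ((hd1.contDiffOn hU (n := 1)).contDiffAt hUz).restrict_scalars ℝ
  have hr0 : (β z).re ≠ 0 := (hre z hz).ne'
  have hcr : ContDiffAt ℝ 1 (fun w => (β w).re) z :=
    Complex.reCLM.contDiff.contDiffAt.comp z hc0
  have hev : θ =ᶠ[𝓝 z] fun w => ((β w).re)⁻¹ • deriv β w := by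
    filter_upwards [hUz] with w hw
    rw [hθ w hw, Complex.real_smul, Complex.ofReal_inv]
    ring
  have hcθ : ContDiffAt ℝ 1 θ z := by
    refine ContDiffAt.congr_of_eventuallyEq ?_ hev
    exact (hcr.inv hr0).smul hc1
  refine ⟨hcθ, ?_⟩
  have hdθ : DifferentiableAt ℝ θ z := hcθ.differentiableAt (by simp)
  have hβz : HasDerivAt β (deriv β z) z := (hβ.differentiableAt hUz).hasDerivAt
  have hβz1 : HasDerivAt (deriv β) (deriv (deriv β) z) z := (hd1.differentiableAt hUz).hasDerivAt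
  have e1 : ∀ v : ℂ, HasDerivAt (fun t : ℝ => β (z + t • v)) (v * deriv β z) 0 := by
    intro v
    have := (hβz.hasFDerivAt.restrictScalars ℝ).hasLineDerivAt v
    simpa [HasLineDerivAt] using this
  have e2 : ∀ v : ℂ, HasDerivAt (fun t : ℝ => deriv β (z + t • v)) (v * deriv (deriv β) z) 0 := by
    intro v
    have := (hβz1.hasFDerivAt.restrictScalars ℝ).hasLineDerivAt v
    simpa [HasLineDerivAt] using this
  have e3 : ∀ v : ℂ, HasDerivAt (fun t : ℝ => (((β (z + t • v)).re : ℝ) : ℂ))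
      (((v * deriv β z).re : ℝ) : ℂ) 0 := by
    intro v
    have := Complex.reCLM.hasFDerivAt.comp_hasDerivAt (0 : ℝ) (e1 v)
    exact HasDerivAt.ofReal_comp this
  have e4 : ∀ v : ℂ, fderiv ℝ θ z v =
      ((v * deriv (deriv β) z) * ((β z).re : ℂ) - deriv β z * (((v * deriv β z).re : ℝ) : ℂ)) /
        ((β z).re : ℂ) ^ 2 := by
    intro v
    have h1 : HasDerivAt (fun t : ℝ => θ (z + t • v)) (fderiv ℝ θ z v) 0 :=
      hdθ.hasFDerivAt.hasLineDerivAt v
    have h2 := (e2 v).div (e3 v) (by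
      simp only [zero_smul, add_zero]
      exact_mod_cast hr0)
    have h3 : (fun t : ℝ => θ (z + t • v)) =ᶠ[𝓝 0]
        ((fun t : ℝ => deriv β (z + t • v)) / fun t : ℝ => (((β (z + t • v)).re : ℝ) : ℂ)) := by
      have hcont : Continuous (fun t : ℝ => z + t • v) := by fun_prop
      have : ∀ᶠ t : ℝ in 𝓝 0, z + t • v ∈ U := by
        apply hcont.continuousAt.eventually_mem
        rw [zero_smul, add_zero]
        exact hUz
      filter_upwards [this] with t ht
      rw [hθ _ ht]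
      rfl
    have h4 := h1.unique (h2.congr_of_eventuallyEq h3)
    rw [h4]
    simp
  rw [e4 1, e4 Complex.I, hθ z hz]
  have hrc : ((β z).re : ℂ) ≠ 0 := by exact_mod_cast hr0
  have hI : ((Complex.I * deriv β z).re : ℝ) = -(deriv β z).im := by simp
  have hnorm : ((‖deriv β z / ((β z).re : ℂ)‖ ^ 2 : ℝ) : ℂ) =
      (deriv β z * (((deriv β z).re : ℂ) - Complex.I * (deriv β z).im)) / ((β z).re : ℂ) ^ 2 := by
    rw [norm_div, div_pow, Complex.norm_real, Real.norm_eq_abs, sq_abs, ← Complex.normSq_eq_norm_sq]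
    push_cast
    congr 1
    rw [Complex.normSq_apply]
    apply Complex.ext
    · simp
    · simp
      ring
  rw [hnorm, hI, one_mul]
  field_simp
  have hI2 : Complex.I ^ 2 = -1 := Complex.I_sq
  push_cast
  linear_combination (deriv (deriv β) z * ((β z).re : ℂ)) * hI2

theorem parabolic {Δ : Set ℂ} (hc : IsClosed Δ)
    (hd : ∀ p ∈ Δ, ∃ ε : ℝ, 0 < ε ∧ ∀ q ∈ Δ, q ≠ p → ε ≤ ‖q - p‖)
    {θ : ℂ → ℂ}
    (h : ∀ z, z ∉ Δ → ∃ (U : Set ℂ) (β : ℂ → ℂ), IsOpen U ∧ z ∈ U ∧ DifferentiableOn ℂ β U ∧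
      (∀ w ∈ U, 0 < (β w).re) ∧ ∀ w ∈ U, θ w = deriv β w / (β w).re) :
    ∀ z, z ∉ Δ → θ z = 0 := by
  intro z₀ hz₀
  by_contra hne
  obtain ⟨r, hr, hcut⟩ := cutoff hc hd z₀ hz₀
  have hfacts : ∀ z, z ∉ Δ → ContDiffAt ℝ 1 θ z ∧
      fderiv ℝ θ z 1 + Complex.I * fderiv ℝ θ z Complex.I = -((‖θ z‖ ^ 2 : ℝ) : ℂ) := by
    intro z hz
    obtain ⟨U, β, hU, hzU, hβ, hre, hθ⟩ := h z hz
    exact theta_facts hU hzU hβ hre hθ
  have hΔo : IsOpen Δᶜ := hc.isOpen_compl
  have hCD : ContDiffOn ℝ 1 θ Δᶜ := fun z hz => (hfacts z hz).1.contDiffWithinAt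
  have hθc : ContinuousOn θ Δᶜ := hCD.continuousOn
  have hfc : ContinuousOn (fderiv ℝ θ) Δᶜ := hCD.continuousOn_fderiv_of_isOpen hΔo (by simp)
  -- lower bound near z₀
  have hpos : 0 < ‖θ z₀‖ := norm_pos_iff.mpr hne
  have hcont : ContinuousAt θ z₀ := hθc.continuousAt (hΔo.mem_nhds hz₀)
  have hev : ∀ᶠ z in 𝓝 z₀, ‖θ z₀‖ / 2 < ‖θ z‖ := by
    have h1 : Tendsto (fun z => ‖θ z‖) (𝓝 z₀) (𝓝 ‖θ z₀‖) := hcont.norm
    exact h1.eventually (lt_mem_nhds (by linarith))
  obtain ⟨δ, hδ, hδb⟩ := Metric.eventually_nhds_iff_ball.mp hev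
  set ρ := min δ r with hρ
  have hρpos : 0 < ρ := lt_min hδ hr
  set V : ℝ := (volume : Measure ℂ).real (Metric.ball z₀ ρ) with hV
  have hVpos : 0 < V := by
    rw [hV, Measure.real, ENNReal.toReal_pos_iff]
    exact ⟨Metric.measure_ball_pos volume z₀ hρpos, measure_ball_lt_top⟩
  set c0 : ℝ := (‖θ z₀‖ / 2) ^ 2 * V with hc0
  have hc0pos : 0 < c0 := by positivity
  obtain ⟨χ, hχs, hχc, hχΔ, hχ1, hχe⟩ := hcut (c0 / 32) (by positivity)
  set K := tsupport χ with hK
  have hKc : IsCompact K := hχc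
  have hKΔ : K ⊆ Δᶜ := fun z hz hzΔ => Set.disjoint_left.mp hχΔ hz hzΔ
  have hχcont : Continuous χ := hχs.continuous
  have hχd : Differentiable ℝ χ := hχs.differentiable (by simp)
  have hχfc : Continuous (fderiv ℝ χ) := hχs.continuous_fderiv (by simp)
  -- integrability criterion
  have hint : ∀ {G : Type} [NormedAddCommGroup G] {g : ℂ → G}, ContinuousOn g K →
      (∀ z, z ∉ K → g z = 0) → Integrable g := by
    intro G _ g hg hg0
    have h1 : IntegrableOn g K := hg.integrableOn_compact hKc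
    exact (integrableOn_iff_integrable_of_support_subset (fun z hz => by
      by_contra hcon
      exact hz (hg0 z hcon))).mp h1
  have hχ0 : ∀ z, z ∉ K → χ z = 0 := fun z hz => image_eq_zero_of_notMem_tsupport hz
  have hχ0' : ∀ z, z ∉ K → fderiv ℝ χ z = 0 := fun z hz =>
    image_eq_zero_of_notMem_tsupport (fun hz' => hz (tsupport_fderiv_subset ℝ hz'))
  set f : ℂ → ℂ := fun z => ((χ z : ℝ) : ℂ) ^ 2 with hf
  have hfd : ∀ z, HasFDerivAt f ((2 * ((χ z : ℝ) : ℂ)) • (Complex.ofRealCLM.comp (fderiv ℝ χ z))) z := by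
    intro z
    have h1 : HasFDerivAt (fun z => ((χ z : ℝ) : ℂ)) (Complex.ofRealCLM.comp (fderiv ℝ χ z)) z :=
      Complex.ofRealCLM.hasFDerivAt.comp z (hχd z).hasFDerivAt
    have h2 := h1.pow 2
    simpa using h2
  have hffd : ∀ z, fderiv ℝ f z = (2 * ((χ z : ℝ) : ℂ)) • (Complex.ofRealCLM.comp (fderiv ℝ χ z)) :=
    fun z => (hfd z).fderiv
  have hffv : ∀ z v, fderiv ℝ f z v = 2 * ((χ z : ℝ) : ℂ) * ((fderiv ℝ χ z v : ℝ) : ℂ) := by
    intro z v
    rw [hffd z]
    simp
  have hfcont : Continuous f := by fun_prop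
  have hffcont : ∀ v, Continuous (fun z => fderiv ℝ f z v) := by
    intro v
    simp_rw [hffv]
    have : Continuous fun z => fderiv ℝ χ z v := hχfc.clm_apply continuous_const
    fun_prop
  have hfsupp : tsupport f ⊆ K := by
    apply closure_mono
    intro z hz hz0
    apply hz
    simp [hf, hz0]
  have hparts : ∀ v : ℂ, ∫ z, f z * fderiv ℝ θ z v = - ∫ z, fderiv ℝ f z v * θ z := by
    intro v
    apply integral_mul_fderiv_eq_neg_fderiv_mul_of_integrable
    · apply hint
      · exact (hffcont v).continuousOn.mul (hθc.mono hKΔ)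
      · intro z hz
        rw [hffv, hχ0 z hz]
        simp
    · apply hint
      · exact hfcont.continuousOn.mul ((hfc.mono hKΔ).clm_apply continuousOn_const)
      · intro z hz
        simp [hf, hχ0 z hz]
    · apply hint
      · exact hfcont.continuousOn.mul (hθc.mono hKΔ)
      · intro z hz
        simp [hf, hχ0 z hz]
    · exact fun z _ => (hfd z).differentiableAt
    · intro z hz
      exact (hfacts z (hKΔ (hfsupp hz))).1.differentiableAt (by simp)
  have hi1 : ∀ v : ℂ, Integrable fun z => f z * fderiv ℝ θ z v := by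
    intro v
    apply hint
    · exact hfcont.continuousOn.mul ((hfc.mono hKΔ).clm_apply continuousOn_const)
    · intro z hz
      simp [hf, hχ0 z hz]
  have hi2 : ∀ v : ℂ, Integrable fun z => fderiv ℝ f z v * θ z := by
    intro v
    apply hint
    · exact (hffcont v).continuousOn.mul (hθc.mono hKΔ)
    · intro z hz
      rw [hffv, hχ0 z hz]
      simp
  have hsum : ∫ z, f z * (fderiv ℝ θ z 1 + Complex.I * fderiv ℝ θ z Complex.I) =
      - ∫ z, (fderiv ℝ f z 1 + Complex.I * fderiv ℝ f z Complex.I) * θ z := by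
    have h1 : ∀ z, f z * (fderiv ℝ θ z 1 + Complex.I * fderiv ℝ θ z Complex.I) =
        f z * fderiv ℝ θ z 1 + Complex.I * (f z * fderiv ℝ θ z Complex.I) := fun z => by ring
    have h2 : ∀ z, (fderiv ℝ f z 1 + Complex.I * fderiv ℝ f z Complex.I) * θ z =
        fderiv ℝ f z 1 * θ z + Complex.I * (fderiv ℝ f z Complex.I * θ z) := fun z => by ring
    simp_rw [h1, h2]
    rw [integral_add (hi1 1) ((hi1 Complex.I).const_mul _), integral_const_mul,
      integral_add (hi2 1) ((hi2 Complex.I).const_mul _), integral_const_mul, hparts 1,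
      hparts Complex.I]
    ring
  -- the energy of θ
  set e : ℂ → ℝ := fun z => χ z ^ 2 * ‖θ z‖ ^ 2 with he
  have hei : Integrable e := by
    apply hint
    · exact (hχcont.pow 2).continuousOn.mul (((hθc.mono hKΔ).norm).pow 2)
    · intro z hz
      simp [he, hχ0 z hz]
  have hLHS : ∫ z, f z * (fderiv ℝ θ z 1 + Complex.I * fderiv ℝ θ z Complex.I) =
      -((∫ z, e z : ℝ) : ℂ) := by
    rw [← integral_complex_ofReal, ← integral_neg]
    congr 1
    funext z
    by_cases hz : z ∈ K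
    · rw [(hfacts z (hKΔ hz)).2]
      simp only [hf, he]
      push_cast
      ring
    · simp [hf, he, hχ0 z hz]
  have hA : ∫ z, e z ≤ (∫ z, e z) / 2 + 8 * (c0 / 32) := by
    have hA0 : 0 ≤ ∫ z, e z := integral_nonneg fun z => by positivity
    have h1 : ‖((∫ z, e z : ℝ) : ℂ)‖ ≤
        ∫ z, ‖(fderiv ℝ f z 1 + Complex.I * fderiv ℝ f z Complex.I) * θ z‖ := by
      have : ((∫ z, e z : ℝ) : ℂ) =
          ∫ z, (fderiv ℝ f z 1 + Complex.I * fderiv ℝ f z Complex.I) * θ z := by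
        have h3 := hLHS.symm.trans hsum
        linear_combination -h3
      rw [this]
      exact norm_integral_le_integral_norm _
    rw [Complex.norm_real, Real.norm_eq_abs, abs_of_nonneg hA0] at h1
    have hei2 : Integrable (fun z => ‖fderiv ℝ χ z‖ ^ 2) := by
      apply hint
      · exact (hχfc.norm.pow 2).continuousOn
      · intro z hz
        simp [hχ0' z hz]
    have h2 : ∫ z, ‖(fderiv ℝ f z 1 + Complex.I * fderiv ℝ f z Complex.I) * θ z‖ ≤
        ∫ z, (e z / 2 + 8 * ‖fderiv ℝ χ z‖ ^ 2) := by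
      apply integral_mono _ ((hei.div_const 2).add (hei2.const_mul 8))
      · intro z
        show ‖(fderiv ℝ f z 1 + Complex.I * fderiv ℝ f z Complex.I) * θ z‖ ≤
          e z / 2 + 8 * ‖fderiv ℝ χ z‖ ^ 2
        rw [norm_mul]
        have hb : ∀ v : ℂ, ‖v‖ = 1 → ‖fderiv ℝ f z v‖ ≤ 2 * |χ z| * ‖fderiv ℝ χ z‖ := by
          intro v hv
          rw [hffv, norm_mul, norm_mul, Complex.norm_real, Complex.norm_real, Real.norm_eq_abs]
          have h5 : ‖fderiv ℝ χ z v‖ ≤ ‖fderiv ℝ χ z‖ * ‖v‖ := (fderiv ℝ χ z).le_opNorm v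
          rw [hv, mul_one] at h5
          have h6 : ‖(2 : ℂ)‖ = 2 := by simp
          rw [h6]
          exact mul_le_mul_of_nonneg_left h5 (by positivity)
        have h7 : ‖fderiv ℝ f z 1 + Complex.I * fderiv ℝ f z Complex.I‖ ≤
            4 * |χ z| * ‖fderiv ℝ χ z‖ := by
          refine (norm_add_le _ _).trans ?_
          rw [norm_mul, Complex.norm_I, one_mul]
          have := hb 1 (by simp)
          have := hb Complex.I (by simp)
          linarith
        have h8 : ‖fderiv ℝ f z 1 + Complex.I * fderiv ℝ f z Complex.I‖ * ‖θ z‖ ≤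
            4 * |χ z| * ‖fderiv ℝ χ z‖ * ‖θ z‖ := mul_le_mul_of_nonneg_right h7 (norm_nonneg _)
        have h9 : e z = (|χ z| * ‖θ z‖) ^ 2 := by
          simp only [he]
          rw [mul_pow, sq_abs]
        rw [h9]
        nlinarith [sq_nonneg (|χ z| * ‖θ z‖ - 4 * ‖fderiv ℝ χ z‖)]
      · have : (fun z => ‖(fderiv ℝ f z 1 + Complex.I * fderiv ℝ f z Complex.I) * θ z‖) =
            fun z => ‖fderiv ℝ f z 1 * θ z + Complex.I * (fderiv ℝ f z Complex.I * θ z)‖ := by
          funext z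
          congr 1
          ring
        rw [this]
        exact ((hi2 1).add ((hi2 Complex.I).const_mul _)).norm
    have h3 : ∫ z, (e z / 2 + 8 * ‖fderiv ℝ χ z‖ ^ 2) =
        (∫ z, e z) / 2 + 8 * ∫ z, ‖fderiv ℝ χ z‖ ^ 2 := by
      rw [integral_add (hei.div_const 2) (hei2.const_mul 8), integral_div, integral_const_mul]
    rw [h3] at h2
    linarith
  have hB : c0 ≤ ∫ z, e z := by
    have h1 : ∫ z in Metric.ball z₀ ρ, (‖θ z₀‖ / 2) ^ 2 ≤ ∫ z in Metric.ball z₀ ρ, e z := by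
      apply setIntegral_mono_on _ hei.integrableOn measurableSet_ball
      · intro z hz
        have hzδ : z ∈ Metric.ball z₀ δ := Metric.ball_subset_ball (min_le_left _ _) hz
        have hzr : z ∈ Metric.closedBall z₀ r :=
          Metric.ball_subset_closedBall (Metric.ball_subset_ball (min_le_right _ _) hz)
        have h2 := hδb z hzδ
        simp only [he, hχ1 z hzr, one_pow, one_mul]
        exact pow_le_pow_left₀ (by positivity) h2.le 2
      · exact integrableOn_const (measure_ball_lt_top.ne)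
    rw [setIntegral_const, smul_eq_mul] at h1
    have h2 : ∫ z in Metric.ball z₀ ρ, e z ≤ ∫ z, e z :=
      setIntegral_le_integral hei (Filter.Eventually.of_forall fun z => by
        show 0 ≤ χ z ^ 2 * ‖θ z‖ ^ 2
        positivity)
    calc c0 = V * (‖θ z₀‖ / 2) ^ 2 := by rw [hc0]; ring
      _ ≤ _ := h1.trans h2
  linarith

end HEN
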