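import Pool.Agent.Lib.MP_e79cb7_ag.XDefs
import Pool.Agent.Lib.MP_e79cb7_ag.LEA
import Pool.Agent.Lib.MP_e79cb7_ag.XM1
import Pool.Agent.Lib.MP_e79cb7_ag.PA2

/-! # Maps from `ℂ ∖ Δ` to `S(g)` go to leaves -/

open Filter Topology Polynomial Bornology
open scoped Manifold ContDiff

noncomputable section

namespace HEN

universe u

section
variable {f g : ℂ × ℂ → ℂ × ℂ} {d d' : ℕ} {lam lam' : ℂ} {Q Q' : ℂ[X]}
  {Ψ Ψ' : ℂ × ℂ → ℂ × ℂ}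

/-- `L` is a lift of `χ` on `U`. -/
structure XM3Lift {X : Type u} (hg : IsCover g d' lam' Q' Ψ') (j : Surf g → X) (χ : ℂ → X)
    (U : Set ℂ) (L : ℂ → ℂ × ℂ) : Prop where
  op : IsOpen U
  diff : DifferentiableOn ℂ L U
  lift : ∀ w ∈ U, ∃ h : L w ∈ E, pj hg j ⟨L w, h⟩ = χ w

theorem xm3_countable {Δ : Set ℂ}
    (hd : ∀ p ∈ Δ, ∃ ε : ℝ, 0 < ε ∧ ∀ q ∈ Δ, q ≠ p → ε ≤ ‖q - p‖) : Δ.Countable := by
  have h1 : DiscreteTopology Δ := by
    rw [discreteTopology_subtype_iff]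
    intro p hp
    rw [Filter.inf_principal_eq_bot]
    obtain ⟨ε, hε, h2⟩ := hd p hp
    rw [mem_nhdsWithin]
    refine ⟨Metric.ball p ε, Metric.isOpen_ball, Metric.mem_ball_self hε, ?_⟩
    rintro q ⟨hq1, hq2⟩ hqΔ
    have h3 := h2 q hqΔ hq2
    rw [Metric.mem_ball, dist_eq_norm] at hq1
    linarith
  have h2 : Countable Δ := TopologicalSpace.separableSpace_iff_countable.mp inferInstance
  exact Set.countable_coe_iff.mp h2

/-- existence of local lifts -/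
theorem xm3_exists {X : Type u} [TopologicalSpace X] [ChartedSpace (ℂ × ℂ) X]
    [IsManifold 𝓘(ℂ, ℂ × ℂ) 1 X] (hg : IsCover g d' lam' Q' Ψ') {j : Surf g → X}
    (hj : IsComp g j) {χ : ℂ → X} (hχ : MDifferentiable 𝓘(ℂ, ℂ) 𝓘(ℂ, ℂ × ℂ) χ) {z : ℂ}
    (hz : χ z ∈ Set.range j) :
    ∃ (U : Set ℂ) (L : ℂ → ℂ × ℂ), z ∈ U ∧ XM3Lift hg j χ U L := by
  obtain ⟨-, -, -, -, hrange, -, hloc⟩ := pj_facts hg hj
  rw [← hrange] at hz
  obtain ⟨x, hx⟩ := hz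
  obtain ⟨V, s, hV, hxV, hs, -, hsv⟩ := hloc x
  have hc : Continuous χ := hχ.continuous
  have hU : IsOpen (χ ⁻¹' V) := hV.preimage hc
  refine ⟨χ ⁻¹' V, s ∘ χ, ?_, hU, ?_, fun w hw => hsv _ hw⟩
  · show χ z ∈ V
    rw [← hx]; exact hxV
  · have h1 : MDifferentiableOn 𝓘(ℂ, ℂ) 𝓘(ℂ, ℂ × ℂ) (s ∘ χ) (χ ⁻¹' V) :=
      hs.comp hχ.mdifferentiableOn fun w hw => hw
    exact mdifferentiableOn_iff_differentiableOn.mp h1

/-- comparison of two lifts -/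
theorem xm3_compare {X : Type u} (hg : IsCover g d' lam' Q' Ψ') {j : Surf g → X}
    (hj : Function.Injective j) {χ : ℂ → X} {U U' : Set ℂ} {L L' : ℂ → ℂ × ℂ}
    (h : XM3Lift hg j χ U L) (h' : XM3Lift hg j χ U' L') {w : ℂ} (hw : w ∈ U) (hw' : w ∈ U') :
    ∃ s t : ℝ, 0 < s ∧ ∀ᶠ u in 𝓝 w, (L' u).1 = s * (L u).1 + t * Complex.I := by
  obtain ⟨hE, hE1⟩ := h.lift w hw
  obtain ⟨hE', hE1'⟩ := h'.lift w hw'
  have hprj : prj hg ⟨L w, hE⟩ = prj hg ⟨L' w, hE'⟩ := hj (hE1.trans hE1'.symm)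
  obtain ⟨σ, s, t, hσ, hs, hσd, hσx, hσ1, hσprj⟩ := deck hg _ _ hprj
  obtain ⟨N, hN, hwN, hinj⟩ :=
    (prj_covering hg).1.isLocalHomeomorph.isLocallyInjective ⟨L' w, hE'⟩
  obtain ⟨O, hO, hON⟩ := isOpen_induced_iff.mp hN
  have hL'c : ContinuousAt L' w := h'.diff.continuousOn.continuousAt (h'.op.mem_nhds hw')
  have hLc : ContinuousAt L w := h.diff.continuousOn.continuousAt (h.op.mem_nhds hw)
  have hσL : ContinuousAt (fun u => σ (L u)) w := hσd.continuous.continuousAt.comp hLc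
  have e1 : L' w ∈ O := by
    have : (⟨L' w, hE'⟩ : E) ∈ Subtype.val ⁻¹' O := by rw [hON]; exact hwN
    exact this
  have e2 : σ (L w) ∈ O := by
    rw [hσx]; exact e1
  refine ⟨s, t, hs, ?_⟩
  filter_upwards [hL'c.eventually (hO.mem_nhds e1), hσL.eventually (hO.mem_nhds e2),
    h.op.mem_nhds hw, h'.op.mem_nhds hw'] with u hu1 hu2 hu3 hu4
  obtain ⟨hEu, hEu1⟩ := h.lift u hu3
  obtain ⟨hEu', hEu1'⟩ := h'.lift u hu4
  have h5 : prj hg ⟨σ (L u), hσ hEu⟩ = prj hg ⟨L' u, hEu'⟩ := by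
    rw [hσprj ⟨L u, hEu⟩]
    exact hj (hEu1.trans hEu1'.symm)
  have h6 : (⟨σ (L u), hσ hEu⟩ : E) ∈ N := by
    rw [← hON]; exact hu2
  have h7 : (⟨L' u, hEu'⟩ : E) ∈ N := by
    rw [← hON]; exact hu1
  have h8 := congrArg Subtype.val (hinj h6 h7 h5)
  have h9 : σ (L u) = L' u := h8
  rw [← h9, hσ1]

/-- all lifts have the same logarithmic derivative -/
theorem xm3_theta {X : Type u} (hg : IsCover g d' lam' Q' Ψ') {j : Surf g → X}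
    (hj : Function.Injective j) {χ : ℂ → X} {U U' : Set ℂ} {L L' : ℂ → ℂ × ℂ}
    (h : XM3Lift hg j χ U L) (h' : XM3Lift hg j χ U' L') {w : ℂ} (hw : w ∈ U) (hw' : w ∈ U') :
    deriv (fun u => (L' u).1) w / ((L' w).1.re : ℂ) =
      deriv (fun u => (L u).1) w / ((L w).1.re : ℂ) := by
  obtain ⟨s, t, hs, hst⟩ := xm3_compare hg hj h h' hw hw'
  have hdL : DifferentiableAt ℂ (fun u => (L u).1) w :=
    (h.diff.differentiableAt (h.op.mem_nhds hw)).fst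
  have h1 : deriv (fun u => (L' u).1) w = s * deriv (fun u => (L u).1) w := by
    rw [Filter.EventuallyEq.deriv_eq hst, deriv_add_const, deriv_const_mul _ hdL]
  have h2 : (L' w).1 = s * (L w).1 + t * Complex.I := hst.self_of_nhds
  have h3 : (L' w).1.re = s * (L w).1.re := by
    rw [h2, Complex.add_re, Complex.re_ofReal_mul, Complex.re_ofReal_mul, Complex.I_re, mul_zero,
      add_zero]
  rw [h1, h3]
  push_cast
  have hs0 : (s : ℂ) ≠ 0 := by exact_mod_cast hs.ne'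
  rw [mul_div_mul_left _ _ hs0]

theorem map_to_leaf {X : Type u} [TopologicalSpace X] [ChartedSpace (ℂ × ℂ) X] [T2Space X]
    [IsManifold 𝓘(ℂ, ℂ × ℂ) 1 X] (hg : IsCover g d' lam' Q' Ψ') {j : Surf g → X}
    (hj : IsComp g j) {χ : ℂ → X} (hχ : MDifferentiable 𝓘(ℂ, ℂ) 𝓘(ℂ, ℂ × ℂ) χ)
    {Δ : Set ℂ} (hΔ : ∀ z, z ∈ Δ ↔ χ z ∉ Set.range j) (hc : IsClosed Δ)
    (hd : ∀ p ∈ Δ, ∃ ε : ℝ, 0 < ε ∧ ∀ q ∈ Δ, q ≠ p → ε ≤ ‖q - p‖) :
    ∃ (β : ℂ) (ζ : ℂ → ℂ) (hE : ∀ w, (β, w) ∈ E), DifferentiableOn ℂ ζ Δᶜ ∧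
      ∀ z, z ∉ Δ → χ z = pj hg j ⟨(β, ζ z), hE _⟩ := by
  classical
  obtain ⟨-, -, -, -, hrange, -, -⟩ := pj_facts hg hj
  have hmem : ∀ z, z ∉ Δ → χ z ∈ Set.range j := fun z hz => by
    by_contra h
    exact hz ((hΔ z).mpr h)
  have hmem' : ∀ {U : Set ℂ} {L : ℂ → ℂ × ℂ}, XM3Lift hg j χ U L → ∀ w ∈ U, w ∉ Δ := by
    intro U L hL w hw hwΔ
    obtain ⟨hE, h1⟩ := hL.lift w hw
    exact (hΔ w).mp hwΔ ⟨_, h1⟩
  -- chosen lifts
  have hex : ∀ z : ℂ, ∃ (U : Set ℂ) (L : ℂ → ℂ × ℂ), z ∉ Δ → (z ∈ U ∧ XM3Lift hg j χ U L) := by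
    intro z
    by_cases hz : z ∈ Δ
    · exact ⟨∅, fun _ => 0, fun h => absurd hz h⟩
    · obtain ⟨U, L, hzU, hL⟩ := xm3_exists hg hj hχ (hmem z hz)
      exact ⟨U, L, fun _ => ⟨hzU, hL⟩⟩
  choose UU LL hUL using hex
  have hθ : ∀ z, z ∉ Δ → deriv (fun u => (LL z u).1) z / ((LL z z).1.re : ℂ) = 0 := by
    refine parabolic hc hd (θ := fun z => deriv (fun u => (LL z u).1) z / ((LL z z).1.re : ℂ)) ?_
    intro z hz
    obtain ⟨hzU, hL⟩ := hUL z hz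
    refine ⟨UU z, fun u => (LL z u).1, hL.op, hzU, hL.diff.fst, ?_, ?_⟩
    · intro w hw
      exact (hL.lift w hw).1
    · intro w hw
      obtain ⟨hwU, hLw⟩ := hUL w (hmem' hL w hw)
      exact xm3_theta hg hj.inj hL hLw hw hwU
  -- every lift has locally constant first coordinate
  have hconst : ∀ z, z ∉ Δ → ∃ (r : ℝ) (L : ℂ → ℂ × ℂ) (β : ℂ), 0 < r ∧
      XM3Lift hg j χ (Metric.ball z r) L ∧ ∀ w ∈ Metric.ball z r, (L w).1 = β := by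
    intro z hz
    obtain ⟨hzU, hL⟩ := hUL z hz
    obtain ⟨r, hr, hrU⟩ := Metric.isOpen_iff.mp hL.op z hzU
    have hL2 : XM3Lift hg j χ (Metric.ball z r) (LL z) :=
      ⟨Metric.isOpen_ball, hL.diff.mono hrU, fun w hw => hL.lift w (hrU hw)⟩
    refine ⟨r, LL z, (LL z z).1, hr, hL2, ?_⟩
    intro w hw
    have hder : ∀ v ∈ Metric.ball z r, deriv (fun u => (LL z u).1) v = 0 := by
      intro v hv
      have hvΔ := hmem' hL v (hrU hv)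
      obtain ⟨hvU, hLv⟩ := hUL v hvΔ
      have h1 := xm3_theta hg hj.inj hLv hL hvU (hrU hv)
      rw [hθ v hvΔ] at h1
      have h2 : 0 < (LL z v).1.re := (hL.lift v (hrU hv)).1
      have h3 : (((LL z v).1.re : ℝ) : ℂ) ≠ 0 := by exact_mod_cast h2.ne'
      exact (div_eq_zero_iff.mp h1).resolve_right h3
    exact Metric.isOpen_ball.is_const_of_deriv_eq_zero (convex_ball z r).isPreconnected
      (hL2.diff.fst) (fun v hv => hder v hv) hw (Metric.mem_ball_self hr)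
  by_cases hne : ∃ z₁, z₁ ∉ Δ
  swap
  · push Not at hne
    refine ⟨1, fun _ => 0, fun w => ?_, ?_, fun z hz => absurd (hne z) hz⟩
    · show (0 : ℝ) < (1 : ℂ).re
      norm_num
    · have : Δᶜ = ∅ := by
        ext z; simp [hne z]
      rw [this]; exact differentiableOn_empty
  obtain ⟨z₁, hz₁⟩ := hne
  obtain ⟨x₁, hx₁⟩ : ∃ x₁ : E, pj hg j x₁ = χ z₁ := by
    have h1 := hmem z₁ hz₁
    rw [← hrange] at h1
    exact h1
  set β : ℂ := (x₁ : ℂ × ℂ).1 with hβ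
  have hE : ∀ w, (β, w) ∈ E := fun w => by
    show 0 < β.re
    exact x₁.2
  set A : Set ℂ := {z | z ∉ Δ ∧ ∃ w, pj hg j ⟨(β, w), hE w⟩ = χ z} with hA
  -- local structure of A
  have hlocA : ∀ z, z ∉ Δ → ∃ r : ℝ, 0 < r ∧ ((∃ w ∈ Metric.ball z r, w ∈ A) →
      (∀ w ∈ Metric.ball z r, w ∈ A) ∧ ∃ ζ₀ : ℂ → ℂ, DifferentiableOn ℂ ζ₀ (Metric.ball z r) ∧
        ∀ w ∈ Metric.ball z r, pj hg j ⟨(β, ζ₀ w), hE _⟩ = χ w) := by
    intro z hz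
    obtain ⟨r, L, β', hr, hL, hLβ⟩ := hconst z hz
    refine ⟨r, hr, ?_⟩
    rintro ⟨w, hw, hwΔ, ζw, hζw⟩
    obtain ⟨hLE, hLw⟩ := hL.lift w hw
    have hprj : prj hg ⟨L w, hLE⟩ = prj hg ⟨(β, ζw), hE ζw⟩ := hj.inj (hLw.trans hζw.symm)
    obtain ⟨a, b, ha, hab⟩ := leaf_affine hg _ _ hprj
    have key : ∀ w' ∈ Metric.ball z r, pj hg j ⟨(β, a * (L w').2 + b), hE _⟩ = χ w' := by
      intro w' hw'
      obtain ⟨hLE', hLw'⟩ := hL.lift w' hw'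
      rw [← hLw']
      have h1 := hab ⟨L w', hLE'⟩ ⟨(β, a * (L w').2 + b), hE _⟩
        (by rw [hLβ w' hw']; exact (hLβ w hw).symm) rfl rfl
      exact (congrArg j h1).symm
    refine ⟨fun w' hw' => ⟨hmem' hL w' hw', _, key w' hw'⟩, fun w' => a * (L w').2 + b, ?_, key⟩
    exact (hL.diff.snd.const_mul a).add_const b
  -- connectedness
  have hconn : IsPreconnected Δᶜ := by
    have h1 : 1 < Module.rank ℝ ℂ := by
      rw [Complex.rank_real_complex]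
      exact_mod_cast (by norm_num : (1 : ℕ) < 2)
    exact ((xm3_countable hd).isConnected_compl_of_one_lt_rank h1).isPreconnected
  have hAall : ∀ z, z ∉ Δ → z ∈ A := by
    have hAopen : IsOpen A := by
      rw [isOpen_iff_mem_nhds]
      intro z hz
      obtain ⟨r, hr, h1⟩ := hlocA z hz.1
      exact Filter.mem_of_superset (Metric.ball_mem_nhds z hr)
        (h1 ⟨z, Metric.mem_ball_self hr, hz⟩).1
    have hBopen : IsOpen (Δᶜ \ A) := by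
      rw [isOpen_iff_mem_nhds]
      intro z hz
      obtain ⟨r, hr, h1⟩ := hlocA z hz.1
      have h2 : ∀ w ∈ Metric.ball z r, w ∉ A := by
        intro w hw hwA
        exact hz.2 ((h1 ⟨w, hw, hwA⟩).1 z (Metric.mem_ball_self hr))
      filter_upwards [Metric.ball_mem_nhds z hr, hc.isOpen_compl.mem_nhds hz.1] with w hw1 hw2
      exact ⟨hw2, h2 w hw1⟩
    intro z hz
    by_contra hzA
    have hne := hconn A (Δᶜ \ A) hAopen hBopen
      (fun w hw => by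
        by_cases h : w ∈ A
        · exact Or.inl h
        · exact Or.inr ⟨hw, h⟩)
      ⟨z₁, hz₁, hz₁, (x₁ : ℂ × ℂ).2, hx₁⟩ ⟨z, hz, hz, hzA⟩
    obtain ⟨w, -, hw1, hw2⟩ := hne
    exact hw2.2 hw1
  have hexζ : ∀ z, ∃ w, z ∉ Δ → pj hg j ⟨(β, w), hE w⟩ = χ z := by
    intro z
    by_cases hz : z ∈ Δ
    · exact ⟨0, fun h => absurd hz h⟩
    · obtain ⟨-, w, hw⟩ := hAall z hz
      exact ⟨w, fun _ => hw⟩
  choose ζ hζ using hexζ
  refine ⟨β, ζ, hE, ?_, fun z hz => (hζ z hz).symm⟩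
  intro z hz
  obtain ⟨r, hr, h1⟩ := hlocA z hz
  obtain ⟨-, ζ₀, hζ₀, hζ₀χ⟩ := h1 ⟨z, Metric.mem_ball_self hr, hAall z hz⟩
  have h2 : DifferentiableAt ℂ ζ₀ z :=
    hζ₀.differentiableAt (Metric.ball_mem_nhds z hr)
  refine (h2.congr_of_eventuallyEq ?_).differentiableWithinAt
  filter_upwards [Metric.ball_mem_nhds z hr, hc.isOpen_compl.mem_nhds hz] with w hw1 hw2
  have h3 : pj hg j ⟨(β, ζ w), hE _⟩ = pj hg j ⟨(β, ζ₀ w), hE _⟩ :=
    (hζ w hw2).trans (hζ₀χ w hw1).symm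
  have h4 : (⟨(β, ζ w), hE _⟩ : E) = ⟨(β, ζ₀ w), hE _⟩ := leaf_inj hg _ _ rfl (hj.inj h3)
  have h5 : ((β, ζ w) : ℂ × ℂ) = (β, ζ₀ w) := congrArg Subtype.val h4
  exact congrArg Prod.snd h5

end

end HEN
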