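import Pool.Agent.Lib.MP_e79cb7_ag.XM1
import Pool.Agent.Lib.MP_e79cb7_ag.LEA

/-! # No punctures (module HEN-XM4) -/

open Filter Topology Polynomial Bornology
open scoped Manifold ContDiff

noncomputable section

namespace HEN

universe u

section
variable {g : ℂ × ℂ → ℂ × ℂ} {d' : ℕ} {lam' : ℂ} {Q' : ℂ[X]} {Ψ' : ℂ × ℂ → ℂ × ℂ}

/- Module XM4 (file XM4.lean): no punctures -/
theorem no_puncture {X : Type u} [TopologicalSpace X] [ChartedSpace (ℂ × ℂ) X] [T2Space X]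
    [IsManifold 𝓘(ℂ, ℂ × ℂ) 1 X] (hg : IsCover g d' lam' Q' Ψ') {j : Surf g → X}
    (hj : IsComp g j) {χ : ℂ → X} (hχ : Continuous χ) (hi : Function.Injective χ)
    {Δ : Set ℂ} (hΔ : ∀ z, z ∈ Δ ↔ χ z ∉ Set.range j) (hc : IsClosed Δ)
    (hd : ∀ p ∈ Δ, ∃ ε : ℝ, 0 < ε ∧ ∀ q ∈ Δ, q ≠ p → ε ≤ ‖q - p‖)
    {β : ℂ} {ζ : ℂ → ℂ} (hE : ∀ w, (β, w) ∈ E) (hζ : DifferentiableOn ℂ ζ Δᶜ)
    (h : ∀ z, z ∉ Δ → χ z = pj hg j ⟨(β, ζ z), hE _⟩) : Δ = ∅ := by
  classical
  obtain ⟨hpc, -, hjc, -, -, -, -⟩ := pj_facts hg hj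
  have hinj : ∀ z, z ∉ Δ → ∀ z', z' ∉ Δ → ζ z = ζ z' → z = z' := by
    intro z hz z' hz' hzz
    apply hi
    rw [h z hz, h z' hz']
    congr 2
    rw [hzz]
  by_contra hne
  obtain ⟨p, hp⟩ := Set.nonempty_iff_ne_empty.2 hne
  obtain ⟨ε, hε, hεd⟩ := hd p hp
  -- a point outside of `Δ`
  obtain ⟨q, hq⟩ : ∃ q, q ∉ Δ := by
    refine ⟨p + (ε / 2 : ℝ), fun hq => ?_⟩
    have h1 : ‖p + ((ε / 2 : ℝ) : ℂ) - p‖ = ε / 2 := by
      rw [add_sub_cancel_left, Complex.norm_real, Real.norm_of_nonneg (by linarith)]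
    have h2 := hεd _ hq (by
      intro h3
      rw [h3, sub_self, norm_zero] at h1
      linarith)
    rw [h1] at h2
    linarith
  have hpq : p ≠ q := fun h1 => hq (h1 ▸ hp)
  have hopen : IsOpen Δᶜ := hc.isOpen_compl
  -- separate `p` and `q`
  obtain ⟨A, B, hA, hB, hpA, hqB, hAB⟩ := t2_separation hpq
  have hζq : AnalyticAt ℂ ζ q := hζ.analyticAt (hopen.mem_nhds hq)
  have hmapq : 𝓝 (ζ q) ≤ Filter.map ζ (𝓝 q) := by
    rcases hζq.eventually_constant_or_nhds_le_map_nhds with h1 | h1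
    · exfalso
      have h2 : ∀ᶠ z in 𝓝 q, z = q := by
        filter_upwards [h1, hopen.mem_nhds hq] with z hz hz'
        exact hinj z hz' q hq hz
      have h3 : {q} ∈ 𝓝 q := by
        filter_upwards [h2] with z hz
        exact hz
      have h4 : IsOpen ({q} : Set ℂ) := isOpen_singleton_iff_nhds_eq_pure q |>.2
        (le_antisymm (le_pure_iff.2 h3) (pure_le_nhds q))
      exact not_isOpen_singleton q h4
    · exact h1
  have hBn : ζ '' (B ∩ Δᶜ) ∈ 𝓝 (ζ q) := by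
    apply hmapq
    rw [Filter.mem_map]
    filter_upwards [hB.mem_nhds hqB, hopen.mem_nhds hq] with z hz hz'
    exact ⟨z, ⟨hz, hz'⟩, rfl⟩
  obtain ⟨δ, hδ, hδB⟩ := Metric.mem_nhds_iff.1 hBn
  -- a punctured neighbourhood of `p`
  set s : Set ℂ := A ∩ Metric.ball p ε with hs
  have hsn : s ∈ 𝓝 p := Filter.inter_mem (hA.mem_nhds hpA) (Metric.ball_mem_nhds p hε)
  have hsΔ : ∀ z ∈ s, z ≠ p → z ∉ Δ := by
    intro z hz hzp hzΔ
    have h1 := hεd z hzΔ hzp
    have h2 := hz.2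
    rw [Metric.mem_ball, dist_eq_norm] at h2
    linarith
  have hfar : ∀ z ∈ s, z ≠ p → δ ≤ ‖ζ z - ζ q‖ := by
    intro z hz hzp
    by_contra h1
    rw [not_le] at h1
    have h2 : ζ z ∈ Metric.ball (ζ q) δ := by rwa [Metric.mem_ball, dist_eq_norm]
    obtain ⟨z', ⟨hz'B, hz'Δ⟩, hz'⟩ := hδB h2
    have h3 := hinj z' hz'Δ z (hsΔ z hz hzp) hz'
    rw [h3] at hz'B
    exact Set.disjoint_left.1 hAB hz.1 hz'B
  set k : ℂ → ℂ := fun z => (ζ z - ζ q)⁻¹ with hk
  have hne0 : ∀ z ∈ s, z ≠ p → ζ z - ζ q ≠ 0 := by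
    intro z hz hzp h1
    have := hfar z hz hzp
    rw [h1, norm_zero] at this
    linarith
  have hkd : DifferentiableOn ℂ k (s \ {p}) := by
    refine DifferentiableOn.inv ?_ ?_
    · refine DifferentiableOn.sub_const ?_ _
      exact hζ.mono fun z hz => hsΔ z hz.1 hz.2
    · intro z hz
      exact hne0 z hz.1 hz.2
  have hkb : BddAbove (norm ∘ k '' (s \ {p})) := by
    refine ⟨δ⁻¹, ?_⟩
    rintro _ ⟨z, hz, rfl⟩
    simp only [Function.comp, hk, norm_inv]
    exact inv_anti₀ hδ (hfar z hz.1 hz.2)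
  have hKd := Complex.differentiableOn_update_limUnder_of_bddAbove hsn hkd hkb
  set K : ℂ → ℂ := Function.update k p (limUnder (𝓝[≠] p) k) with hK
  have hKk : ∀ z, z ≠ p → K z = k z := fun z hz => Function.update_of_ne hz _ _
  have hKan : AnalyticAt ℂ K p := by
    obtain ⟨t, hts, hto, hpt⟩ := mem_nhds_iff.1 hsn
    exact (hKd.mono hts).analyticAt (hto.mem_nhds hpt)
  have hKc : Tendsto K (𝓝[≠] p) (𝓝 (K p)) := hKan.continuousAt.continuousWithinAt
  have hχp : Tendsto χ (𝓝[≠] p) (𝓝 (χ p)) := hχ.continuousAt.continuousWithinAt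
  have hsn' : s \ {p} ∈ 𝓝[≠] p := by
    rw [Set.sdiff_eq, Set.inter_comm]
    exact Filter.inter_mem self_mem_nhdsWithin (mem_nhdsWithin_of_mem_nhds hsn)
  have hpr : χ p ∉ Set.range j := (hΔ p).1 hp
  have hemb : Continuous fun w : ℂ => (⟨(β, w), hE w⟩ : E) :=
    Continuous.subtype_mk (by fun_prop) _
  by_cases hKp : K p = 0
  · -- the leaf closes up at infinity
    have hmapp : 𝓝 (K p) ≤ Filter.map K (𝓝 p) := by
      rcases hKan.eventually_constant_or_nhds_le_map_nhds with h1 | h1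
      · exfalso
        have h2 : ∀ᶠ z in 𝓝[≠] p, False := by
          filter_upwards [h1.filter_mono nhdsWithin_le_nhds, hsn'] with z hz hz'
          rw [hKk z hz'.2, hKp] at hz
          exact inv_ne_zero (hne0 z hz'.1 hz'.2) hz
        rw [Filter.eventually_false_iff_eq_bot] at h2
        exact NeBot.ne (inferInstance : (𝓝[≠] p).NeBot) h2
      · exact h1
    have hinf : Tendsto (fun w : ℂ => pj hg j ⟨(β, w), hE w⟩) (cobounded ℂ) (𝓝 (χ p)) := by
      intro O hO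
      rw [Filter.mem_map]
      have h1 : K '' (χ ⁻¹' O ∩ s) ∈ 𝓝 (K p) := by
        apply hmapp
        rw [Filter.mem_map]
        filter_upwards [hχ.continuousAt hO, hsn] with z hz hz'
        exact ⟨z, ⟨hz, hz'⟩, rfl⟩
      rw [hKp] at h1
      have h2 : Tendsto (fun w : ℂ => (w - ζ q)⁻¹) (cobounded ℂ) (𝓝 0) := by
        refine tendsto_inv₀_cobounded.comp ?_
        exact tendsto_sub_const_cobounded (ζ q)
      have h3 : ∀ᶠ w in cobounded ℂ, w ≠ ζ q := by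
        have : ({ζ q} : Set ℂ)ᶜ ∈ cobounded ℂ := by
          rw [← Bornology.isCobounded_def, Bornology.isCobounded_compl_iff]
          exact Bornology.isBounded_singleton
        filter_upwards [this] with w hw
        exact hw
      filter_upwards [h2 h1, h3] with w hw hw'
      obtain ⟨z, ⟨hzO, hzs⟩, hz⟩ := hw
      have hw0 : (w - ζ q)⁻¹ ≠ 0 := inv_ne_zero (sub_ne_zero.2 hw')
      have hzp : z ≠ p := by
        rintro rfl
        rw [hKp] at hz
        exact hw0 hz.symm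
      rw [hKk z hzp] at hz
      have h4 : ζ z = w := by
        have h5 : ζ z - ζ q = w - ζ q := inv_injective hz
        exact sub_left_injective h5
      have h5 := h z (hsΔ z hzs hzp)
      have h6 : pj hg j ⟨(β, w), hE w⟩ = χ z := by
        rw [h5]
        congr 2
        rw [h4]
      rw [Set.mem_preimage, h6]
      exact hzO
    obtain ⟨u, hu1, hu2, hu3⟩ := leaf_recurrent hg ⟨(β, 0), hE 0⟩
    have hueq : ∀ n, u n = ⟨(β, (u n : ℂ × ℂ).2), hE _⟩ := by
      intro n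
      apply Subtype.ext
      exact Prod.ext (hu1 n) rfl
    have hlim1 : Tendsto (fun n => pj hg j (u n)) atTop (𝓝 (χ p)) := by
      have h1 : Tendsto (fun n => (u n : ℂ × ℂ).2) atTop (cobounded ℂ) :=
        tendsto_norm_atTop_iff_cobounded.1 hu2
      have h2 := hinf.comp h1
      refine h2.congr fun n => ?_
      rw [Function.comp, ← hueq n]
    have hlim2 : Tendsto (fun n => pj hg j (u n)) atTop (𝓝 (j (prj hg ⟨(β, 0), hE 0⟩))) :=
      (hjc.tendsto _).comp hu3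
    have h7 := tendsto_nhds_unique hlim1 hlim2
    exact hpr (h7 ▸ Set.mem_range_self _)
  · -- the map extends
    have hζlim : Tendsto ζ (𝓝[≠] p) (𝓝 (ζ q + (K p)⁻¹)) := by
      have h1 : Tendsto (fun z => ζ q + (K z)⁻¹) (𝓝[≠] p) (𝓝 (ζ q + (K p)⁻¹)) :=
        tendsto_const_nhds.add (hKc.inv₀ hKp)
      refine h1.congr' ?_
      filter_upwards [hsn'] with z hz
      rw [hKk z hz.2]
      simp only [hk, inv_inv]
      ring
    have h2 : Tendsto (fun z => pj hg j ⟨(β, ζ z), hE _⟩) (𝓝[≠] p)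
        (𝓝 (pj hg j ⟨(β, ζ q + (K p)⁻¹), hE _⟩)) :=
      ((hpc.comp hemb).tendsto _).comp hζlim
    have h3 : Tendsto χ (𝓝[≠] p) (𝓝 (pj hg j ⟨(β, ζ q + (K p)⁻¹), hE _⟩)) := by
      refine h2.congr' ?_
      filter_upwards [hsn'] with z hz
      exact (h z (hsΔ z hz.1 hz.2)).symm
    have h4 := tendsto_nhds_unique hχp h3
    exact hpr (h4 ▸ Set.mem_range_self _)

end

end HEN
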