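import Pool.Agent.Lib.MP_e79cb7_ag.LEA
import Pool.Agent.Lib.MP_e79cb7_ag.XM1
import Pool.Agent.Lib.MP_e79cb7_ag.XM2
import Pool.Agent.Lib.MP_e79cb7_ag.XM3
import Pool.Agent.Lib.MP_e79cb7_ag.XM4

/-! # The complement of `S(f)` in a complex surface is intrinsic -/

open Filter Topology Polynomial Bornology
open scoped Manifold ContDiff

noncomputable section

namespace HEN

universe u

section
variable {f g : ℂ × ℂ → ℂ × ℂ} {d d' : ℕ} {lam lam' : ℂ} {Q Q' : ℂ[X]}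
  {Ψ Ψ' : ℂ × ℂ → ℂ × ℂ}

private theorem xm5_leaf_mdiff {X : Type u} [TopologicalSpace X] [ChartedSpace (ℂ × ℂ) X]
    [IsManifold 𝓘(ℂ, ℂ × ℂ) 1 X] (hf : IsCover f d lam Q Ψ) {j : Surf f → X}
    (hj : IsComp f j) {β : ℂ} (hβ : ∀ w : ℂ, (β, w) ∈ E) :
    MDifferentiable 𝓘(ℂ, ℂ) 𝓘(ℂ, ℂ × ℂ) (fun w : ℂ => pj hf j ⟨(β, w), hβ w⟩) := by
  intro z
  obtain ⟨-, -, -, -, -, hloc, -⟩ := pj_facts hf hj
  obtain ⟨U, φ, hU, hxU, hUE, hφ, hφe⟩ := hloc ⟨(β, z), hβ z⟩
  have hc : Continuous (fun w : ℂ => ((β, w) : ℂ × ℂ)) := by fun_prop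
  have hnb : ∀ᶠ w in 𝓝 z, ((β, w) : ℂ × ℂ) ∈ U := hc.continuousAt.eventually_mem (hU.mem_nhds hxU)
  have h1 : MDifferentiableAt 𝓘(ℂ, ℂ × ℂ) 𝓘(ℂ, ℂ × ℂ) φ (β, z) :=
    hφ.mdifferentiableAt (hU.mem_nhds hxU)
  have h2 : MDifferentiableAt 𝓘(ℂ, ℂ) 𝓘(ℂ, ℂ × ℂ) (fun w : ℂ => ((β, w) : ℂ × ℂ)) z := by
    rw [mdifferentiableAt_iff_differentiableAt]
    fun_prop
  have h3 : MDifferentiableAt 𝓘(ℂ, ℂ) 𝓘(ℂ, ℂ × ℂ) (fun w : ℂ => φ (β, w)) z :=
    MDifferentiableAt.comp z h1 h2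
  refine h3.congr_of_eventuallyEq ?_
  filter_upwards [hnb] with w hw
  exact (hφe ⟨(β, w), hβ w⟩ hw).symm

/-- The complement of `S(f)` is intrinsic. -/
theorem range_subset {X : Type u} [TopologicalSpace X] [ChartedSpace (ℂ × ℂ) X] [T2Space X]
    [IsManifold 𝓘(ℂ, ℂ × ℂ) 1 X] (hf : IsCover f d lam Q Ψ) (hg : IsCover g d' lam' Q' Ψ')
    {j : Surf f → X} {j' : Surf g → X} (hj : IsComp f j) (hj' : IsComp g j') :
    Set.range j ⊆ Set.range j' := by
  obtain ⟨hcont, hopen, -, -, hrange, hloc, -⟩ := pj_facts hf hj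
  intro y hy
  by_contra hyn
  rw [← hrange] at hy
  obtain ⟨⟨⟨β, z₀⟩, hx⟩, rfl⟩ := hy
  have hβ : ∀ w : ℂ, (β, w) ∈ E := fun _ => hx
  set χ : ℂ → X := fun w => pj hf j ⟨(β, w), hβ w⟩ with hχdef
  have hχ : MDifferentiable 𝓘(ℂ, ℂ) 𝓘(ℂ, ℂ × ℂ) χ := xm5_leaf_mdiff hf hj hβ
  have hinj : Function.Injective χ := by
    intro u v huv
    have h1 : prj hf ⟨(β, u), hβ u⟩ = prj hf ⟨(β, v), hβ v⟩ := hj.inj huv
    have h2 := leaf_inj hf ⟨(β, u), hβ u⟩ ⟨(β, v), hβ v⟩ rfl h1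
    have h3 := congrArg (fun e : E => (e : ℂ × ℂ).2) h2
    exact h3
  have hcurve := hj'.curve
  by_cases hcase : ∃ z₁, χ z₁ ∈ Set.range j'
  · obtain ⟨z₁, hz₁⟩ := hcase
    have hz₁' : χ z₁ ∉ (Set.range j')ᶜ := by simpa using hz₁
    obtain ⟨hc, hd⟩ := leaf_trace hχ hcurve hz₁'
    have hΔ : ∀ z, z ∈ {z | χ z ∈ (Set.range j')ᶜ} ↔ χ z ∉ Set.range j' := fun z => Iff.rfl
    obtain ⟨β', ζ, hE, hζ, hχζ⟩ := map_to_leaf hg hj' hχ hΔ hc hd
    have hemp := no_puncture hg hj' hχ.continuous hinj hΔ hc hd hE hζ hχζ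
    have : z₀ ∈ {z | χ z ∈ (Set.range j')ᶜ} := hyn
    rw [hemp] at this
    exact this
  · push Not at hcase
    -- the whole leaf is in the complement of the range of `j'`
    have hshift : ∀ (n : ℕ) (w : ℂ) (hE : ((β + 2 * Real.pi * Complex.I / d ^ n, w) : ℂ × ℂ) ∈ E),
        pj hf j ⟨(β + 2 * Real.pi * Complex.I / d ^ n, w), hE⟩ ∉ Set.range j' := by
      intro n w hE
      obtain ⟨u, v, hu, hv, huv⟩ := leaf_shift hf ⟨(β, w), hβ w⟩ n
      have hv' : v = ⟨(β + 2 * Real.pi * Complex.I / d ^ n, w), hE⟩ := Subtype.ext hv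
      have hu' : u = ⟨(β, (u : ℂ × ℂ).2), hβ _⟩ := by
        apply Subtype.ext
        exact Prod.ext hu rfl
      rw [← hv']
      have h1 : pj hf j v = pj hf j u := by
        simp only [pj]; rw [huv]
      rw [h1, hu']
      exact hcase _
    -- local equation near the point
    obtain ⟨V, h, hV, hyV, hh, hVD⟩ := hcurve.loc (χ z₀) hyn
    obtain ⟨U, φ, hU, hxU, hUE, hφ, hφe⟩ := hloc ⟨(β, z₀), hx⟩
    have hφc : ContinuousOn φ U := hφ.continuousOn
    have hU' : IsOpen (U ∩ φ ⁻¹' V) := hφc.isOpen_inter_preimage hU hV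
    have hxU' : ((β, z₀) : ℂ × ℂ) ∈ U ∩ φ ⁻¹' V := by
      refine ⟨hxU, ?_⟩
      show φ (β, z₀) ∈ V
      rw [hφe ⟨(β, z₀), hx⟩ hxU]
      exact hyV
    have hHd : DifferentiableOn ℂ (fun q => h (φ q)) (U ∩ φ ⁻¹' V) := by
      intro q hq
      have h1 : MDifferentiableAt 𝓘(ℂ, ℂ × ℂ) 𝓘(ℂ, ℂ × ℂ) φ q :=
        hφ.mdifferentiableAt (hU.mem_nhds hq.1)
      have h2 : MDifferentiableAt 𝓘(ℂ, ℂ × ℂ) 𝓘(ℂ, ℂ) h (φ q) :=
        hh.mdifferentiableAt (hV.mem_nhds hq.2)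
      have h3 : MDifferentiableAt 𝓘(ℂ, ℂ × ℂ) 𝓘(ℂ, ℂ) (fun q => h (φ q)) q :=
        MDifferentiableAt.comp q h2 h1
      rw [mdifferentiableAt_iff_differentiableAt] at h3
      exact h3.differentiableWithinAt
    obtain ⟨r, hr, hball⟩ := Metric.isOpen_iff.1 hU' _ hxU'
    have hsub : ∀ b w : ℂ, b ∈ Metric.ball β r → w ∈ Metric.ball z₀ r →
        ((b, w) : ℂ × ℂ) ∈ U ∩ φ ⁻¹' V := by
      intro b w hb hw
      apply hball
      rw [Metric.mem_ball, Prod.dist_eq]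
      exact max_lt hb hw
    have hd0 : 2 ≤ d := hf.hd
    -- the sequence of points
    have htend : Tendsto (fun n : ℕ => β + 2 * Real.pi * Complex.I / (d : ℂ) ^ n) atTop (𝓝 β) := by
      have h1 : Tendsto (fun n : ℕ => (2 * Real.pi * Complex.I) * ((d : ℂ)⁻¹) ^ n) atTop (𝓝 0) := by
        have h2 : ‖((d : ℂ)⁻¹)‖ < 1 := by
          rw [norm_inv, Complex.norm_natCast]
          apply inv_lt_one_of_one_lt₀
          exact_mod_cast (by omega : 1 < d)
        have := (tendsto_pow_atTop_nhds_zero_of_norm_lt_one h2).const_mul (2 * Real.pi * Complex.I)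
        simpa using this
      have h3 := h1.const_add β
      simp only [add_zero] at h3
      refine h3.congr (fun n => ?_)
      rw [inv_pow, div_eq_mul_inv]
    have hzero : ∀ w ∈ Metric.ball z₀ r, ∀ b ∈ Metric.ball β r, h (φ (b, w)) = 0 := by
      intro w hw
      have hdiff : DifferentiableOn ℂ (fun b => h (φ (b, w))) (Metric.ball β r) := by
        have hm : Set.MapsTo (fun b : ℂ => ((b, w) : ℂ × ℂ)) (Metric.ball β r) (U ∩ φ ⁻¹' V) :=
          fun b hb => hsub b w hb hw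
        exact hHd.comp (f := fun b : ℂ => ((b, w) : ℂ × ℂ)) (by fun_prop) hm
      have han : AnalyticOnNhd ℂ (fun b => h (φ (b, w))) (Metric.ball β r) :=
        hdiff.analyticOnNhd Metric.isOpen_ball
      have hfr : ∃ᶠ b in 𝓝[≠] β, h (φ (b, w)) = 0 := by
        have htend' : Tendsto (fun n : ℕ => β + 2 * Real.pi * Complex.I / (d : ℂ) ^ n) atTop
            (𝓝[≠] β) := by
          rw [tendsto_nhdsWithin_iff]
          refine ⟨htend, Eventually.of_forall fun n => ?_⟩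
          intro hcon
          have h1 : 2 * Real.pi * Complex.I / (d : ℂ) ^ n = 0 := by
            have : β + 2 * Real.pi * Complex.I / (d : ℂ) ^ n = β := hcon
            simpa using this
          have h2 : (d : ℂ) ^ n ≠ 0 := pow_ne_zero _ (by exact_mod_cast (by omega : d ≠ 0))
          rw [div_eq_zero_iff] at h1
          rcases h1 with h1 | h1
          · have : (2 * Real.pi * Complex.I : ℂ) ≠ 0 := by
              simp [Real.pi_ne_zero]
            exact this h1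
          · exact h2 h1
        refine htend'.frequently (Eventually.frequently ?_)
        have hev : ∀ᶠ n : ℕ in atTop, β + 2 * Real.pi * Complex.I / (d : ℂ) ^ n ∈ Metric.ball β r :=
          htend.eventually_mem (Metric.ball_mem_nhds β hr)
        filter_upwards [hev] with n hn
        have hmem := hsub _ w hn hw
        have hE : ((β + 2 * Real.pi * Complex.I / (d : ℂ) ^ n, w) : ℂ × ℂ) ∈ E := hUE hmem.1
        have hnot := hshift n w hE
        rw [← hφe ⟨_, hE⟩ hmem.1] at hnot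
        exact (hVD _ hmem.2).1 hnot
      have hpre : IsPreconnected (Metric.ball β r) := (convex_ball β r).isPreconnected
      have heq := han.eqOn_zero_of_preconnected_of_frequently_eq_zero hpre
        (Metric.mem_ball_self hr) hfr
      intro b hb
      exact heq hb
    -- the image of the polydisc is an open subset of the curve
    set S : Set E := Subtype.val ⁻¹' (Metric.ball β r ×ˢ Metric.ball z₀ r) with hS
    have hSo : IsOpen S := (Metric.isOpen_ball.prod Metric.isOpen_ball).preimage continuous_subtype_val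
    have himg : IsOpen (pj hf j '' S) := hopen S hSo
    have himgsub : pj hf j '' S ⊆ (Set.range j')ᶜ := by
      rintro _ ⟨⟨⟨b, w⟩, hE⟩, hbw, rfl⟩
      have hb : b ∈ Metric.ball β r := hbw.1
      have hw : w ∈ Metric.ball z₀ r := hbw.2
      have hmem := hsub b w hb hw
      rw [← hφe ⟨(b, w), hE⟩ hmem.1]
      exact (hVD _ hmem.2).2 (hzero w hw b hb)
    have hint : pj hf j '' S ⊆ interior (Set.range j')ᶜ := interior_maximal himgsub himg
    rw [hcurve.thin] at hint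
    have hmem : pj hf j ⟨(β, z₀), hx⟩ ∈ pj hf j '' S :=
      ⟨⟨(β, z₀), hx⟩, ⟨Metric.mem_ball_self hr, Metric.mem_ball_self hr⟩, rfl⟩
    exact hint hmem

end

end HEN
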