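import Pool.Agent.Lib.MP_e79cb7_ag.XDefs

/-! Module XM6: formal consequences. -/

open Filter Topology Polynomial Bornology
open scoped Manifold ContDiff

noncomputable section

namespace HEN

universe u

/-- composition of `MDifferentiableOn` maps, with open domain -/
theorem xm6_comp {A B C : Type*} [TopologicalSpace A] [ChartedSpace (ℂ × ℂ) A]
    [TopologicalSpace B] [ChartedSpace (ℂ × ℂ) B] [TopologicalSpace C] [ChartedSpace (ℂ × ℂ) C]
    {φ : A → B} {s : B → C} {U : Set A} {V : Set B} (hU : IsOpen U) (hV : IsOpen V)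
    (hφ : MDifferentiableOn 𝓘(ℂ, ℂ × ℂ) 𝓘(ℂ, ℂ × ℂ) φ U)
    (hs : MDifferentiableOn 𝓘(ℂ, ℂ × ℂ) 𝓘(ℂ, ℂ × ℂ) s V) :
    IsOpen (U ∩ φ ⁻¹' V) ∧
      MDifferentiableOn 𝓘(ℂ, ℂ × ℂ) 𝓘(ℂ, ℂ × ℂ) (fun x => s (φ x)) (U ∩ φ ⁻¹' V) := by
  refine ⟨hφ.continuousOn.isOpen_inter_preimage hU hV, ?_⟩
  exact hs.comp (hφ.mono Set.inter_subset_left) Set.inter_subset_right

theorem xm6_holo {f g : ℂ × ℂ → ℂ × ℂ} {X : Type u} [TopologicalSpace X]
    [ChartedSpace (ℂ × ℂ) X] {j : Surf f → X} {j' : Surf g → X} (hj : IsComp f j)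
    (hj' : IsComp g j') (Φ : Surf f → Surf g) (h : ∀ s, j' (Φ s) = j s) : IsHolo f g Φ := by
  intro p hp
  obtain ⟨U, φ, hU, hpU, hφ, hφj⟩ := hj.holo p hp
  have hx : φ p ∈ Set.range j' := by
    rw [hφj p hpU hp, ← h]
    exact Set.mem_range_self _
  obtain ⟨V, s, hV, hxV, hs, hsj⟩ := hj'.inv (φ p) hx
  obtain ⟨h1, h2⟩ := xm6_comp hU hV hφ hs
  refine ⟨U ∩ φ ⁻¹' V, fun x => s (φ x), h1, ⟨hpU, hxV⟩, mdifferentiableOn_iff_differentiableOn.1 h2,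
    ?_⟩
  intro q hq hqΩ
  obtain ⟨h3, h4⟩ := hsj (φ q) hq.2
  refine ⟨h3, hj'.inj ?_⟩
  rw [h, h4, hφj q hq.1 hqΩ]

theorem biholo_of_range_eq {f g : ℂ × ℂ → ℂ × ℂ} {X : Type u} [TopologicalSpace X]
    [ChartedSpace (ℂ × ℂ) X] {j : Surf f → X} {j' : Surf g → X} (hj : IsComp f j)
    (hj' : IsComp g j') (h : Set.range j = Set.range j') : Biholo f g := by
  set Φ : Surf f ≃ Surf g := (Equiv.ofInjective j hj.inj).trans
    ((Equiv.setCongr h).trans (Equiv.ofInjective j' hj'.inj).symm) with hΦ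
  have h1 : ∀ s, j' (Φ s) = j s := by
    intro s
    have h2 : (Equiv.ofInjective j' hj'.inj) (Φ s) = Equiv.setCongr h (Equiv.ofInjective j hj.inj s) := by
      rw [hΦ]
      simp
    have h3 := congrArg Subtype.val h2
    simpa using h3
  refine ⟨Φ, xm6_holo hj hj' Φ h1, xm6_holo hj' hj Φ.symm fun s => ?_⟩
  rw [← h1, Equiv.apply_symm_apply]

theorem comp_of_biholo {f g : ℂ × ℂ → ℂ × ℂ} {X : Type u} [TopologicalSpace X]
    [ChartedSpace (ℂ × ℂ) X] {j : Surf f → X} (hj : IsComp f j) (h : Biholo f g) :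
    ∃ j' : Surf g → X, IsComp g j' := by
  obtain ⟨Φ, hΦ, hΦ'⟩ := h
  refine ⟨fun s => j (Φ.symm s), ?_, ?_, ?_, ?_⟩
  · exact hj.inj.comp Φ.symm.injective
  · intro p hp
    obtain ⟨U, φ, hU, hpU, hφ, hφΩ⟩ := hΦ' p hp
    obtain ⟨hφp, hφp2⟩ := hφΩ p hpU hp
    obtain ⟨U₂, φ₂, hU₂, hpU₂, hφ₂, hφ₂j⟩ := hj.holo (φ p) hφp
    obtain ⟨h1, h2⟩ := xm6_comp hU hU₂ (mdifferentiableOn_iff_differentiableOn.2 hφ) hφ₂
    refine ⟨U ∩ φ ⁻¹' U₂, fun x => φ₂ (φ x), h1, ⟨hpU, hpU₂⟩, h2, ?_⟩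
    intro q hq hqΩ
    obtain ⟨h3, h4⟩ := hφΩ q hq.1 hqΩ
    simp only
    rw [hφ₂j (φ q) hq.2 h3, h4]
  · rintro _ ⟨t, rfl⟩
    obtain ⟨V, s, hV, hxV, hs, hsj⟩ := hj.inv (j (Φ.symm t)) (Set.mem_range_self _)
    obtain ⟨hsx, _⟩ := hsj _ hxV
    obtain ⟨U, φ, hU, hpU, hφ, hφΩ⟩ := hΦ (s (j (Φ.symm t))) hsx
    obtain ⟨h1, h2⟩ := xm6_comp hV hU hs (mdifferentiableOn_iff_differentiableOn.2 hφ)
    refine ⟨V ∩ s ⁻¹' U, fun x => φ (s x), h1, ⟨hxV, hpU⟩, h2, ?_⟩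
    intro v hv
    obtain ⟨h3, h4⟩ := hsj v hv.1
    obtain ⟨h5, h6⟩ := hφΩ (s v) hv.2 h3
    refine ⟨h5, ?_⟩
    rw [← h6, Equiv.symm_apply_apply, h4]
  · have : Set.range (fun s => j (Φ.symm s)) = Set.range j := by
      ext x
      constructor
      · rintro ⟨s, rfl⟩
        exact ⟨_, rfl⟩
      · rintro ⟨s, rfl⟩
        exact ⟨Φ s, by simp⟩
    rw [this]
    exact hj.curve

theorem comp_transport {f : ℂ × ℂ → ℂ × ℂ} {X Y : Type u} [TopologicalSpace X]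
    [ChartedSpace (ℂ × ℂ) X] [TopologicalSpace Y] [ChartedSpace (ℂ × ℂ) Y]
    {j : Surf f → Y} (hj : IsComp f j) {e : X ≃ Y} (he : IsBiholo e) :
    IsComp f (fun s => e.symm (j s)) := by
  have hrange : Set.range (fun s => e.symm (j s)) = e ⁻¹' (Set.range j) := by
    ext x
    constructor
    · rintro ⟨s, rfl⟩
      exact ⟨s, by simp⟩
    · rintro ⟨s, hs⟩
      exact ⟨s, by simp [hs]⟩
  refine ⟨e.symm.injective.comp hj.inj, ?_, ?_, ?_⟩
  · intro p hp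
    obtain ⟨U, φ, hU, hpU, hφ, hφj⟩ := hj.holo p hp
    refine ⟨U, fun x => e.symm (φ x), hU, hpU, ?_, ?_⟩
    · exact he.bwd.comp_mdifferentiableOn hφ
    · intro q hq hqΩ
      simp only
      rw [hφj q hq hqΩ]
  · intro x hx
    rw [hrange] at hx
    obtain ⟨V, s, hV, hxV, hs, hsj⟩ := hj.inv (e x) hx
    obtain ⟨h1, h2⟩ := xm6_comp isOpen_univ hV (he.fwd.mdifferentiableOn) hs
    refine ⟨Set.univ ∩ e ⁻¹' V, fun x => s (e x), h1, ⟨Set.mem_univ _, hxV⟩, h2, ?_⟩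
    intro v hv
    obtain ⟨h3, h4⟩ := hsj (e v) hv.2
    refine ⟨h3, ?_⟩
    simp only
    rw [h4, Equiv.symm_apply_apply]
  · rw [hrange, ← Set.preimage_compl]
    refine ⟨hj.curve.closed.preimage he.fwd.continuous, ?_, ?_⟩
    · have h1 : e.symm ⁻¹' (interior (e ⁻¹' (Set.range j)ᶜ)) ⊆ interior (Set.range j)ᶜ := by
        refine interior_maximal ?_ (isOpen_interior.preimage he.bwd.continuous)
        intro y hy
        have := interior_subset hy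
        simpa using this
      rw [hj.curve.thin] at h1
      ext x
      constructor
      · intro hx
        have : e x ∈ e.symm ⁻¹' (interior (e ⁻¹' (Set.range j)ᶜ)) := by
          simpa using hx
        exact (h1 this).elim
      · intro hx
        exact hx.elim
    · intro x hx
      obtain ⟨V, h, hV, hxV, hh, hh0⟩ := hj.curve.loc (e x) hx
      refine ⟨e ⁻¹' V, fun x => h (e x), hV.preimage he.fwd.continuous, hxV, ?_, ?_⟩
      · exact hh.comp he.fwd.mdifferentiableOn (fun _ hx => hx)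
      · intro v hv
        exact hh0 (e v) hv

end HEN
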