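import Pool.Agent.Lib.MP_e79cb7_ag.NRM
import Pool.Agent.Lib.MP_e79cb7_ag.NOR
import Pool.Agent.Lib.MP_e79cb7_ag.REL
import Pool.Agent.Lib.MP_e79cb7_ag.RCO
import Pool.Agent.Lib.MP_e79cb7_ag.CBI
import Pool.Agent.Lib.MP_e79cb7_ag.XM5
import Pool.Agent.Lib.MP_e79cb7_ag.XM6

/-! # Main theorems: `S(f) ≅ S(g)` iff `f`, `g` are conjugate -/

open Filter Topology Polynomial Bornology
open scoped Manifold ContDiff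

noncomputable section

namespace HEN

universe u

theorem main {k l : ℕ} {a b : ℤ → ℂ} {P Q : ℤ → ℂ[X]} (hD : IsData k a P)
    (hD' : IsData l b Q) :
    List.TFAE [Biholo (comp a P 0 k) (comp b Q 0 l),
      ∃ h : ℂ × ℂ → ℂ × ℂ, IsPolyAut h ∧ h ∘ comp a P 0 k = comp b Q 0 l ∘ h,
      l = k ∧ ∃ (r : ℤ) (α β : ℤ → ℂ), Rel k a P b Q r α β] := by
  tfae_have 3 → 2 := by
    rintro ⟨rfl, r, α, β, h⟩
    exact conj_of_rel hD hD' h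
  tfae_have 2 → 1 := by
    rintro ⟨h, hh, hc⟩
    exact biholo_of_conj hD hD' hh hc
  tfae_have 1 → 3 := by
    intro hB
    obtain ⟨a₁, P₁, α₁, β₁, hD₁, hN₁, hR₁⟩ := normalize hD
    obtain ⟨b₁, Q₁, α₂, β₂, hD₂, hN₂, hR₂⟩ := normalize hD'
    obtain ⟨h₁, hh₁, hc₁⟩ := conj_of_rel hD hD₁ hR₁
    obtain ⟨h₂, hh₂, hc₂⟩ := conj_of_rel hD' hD₂ hR₂
    have hB₁ := biholo_of_conj hD hD₁ hh₁ hc₁
    have hB₂ := biholo_of_conj hD' hD₂ hh₂ hc₂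
    obtain ⟨rfl, r, α, β, hR⟩ := rel_of_norm hD₁ hN₁ hD₂ hN₂
      (biholo_trans (biholo_trans (biholo_symm hB₁) hB) hB₂)
    obtain ⟨α₃, β₃, hR₃⟩ := rel_symm hD' hD₂ hR₂
    obtain ⟨α₄, β₄, hR₄⟩ := rel_trans hD hD₁ hD₂ hR₁ hR
    obtain ⟨α₅, β₅, hR₅⟩ := rel_trans hD hD₂ hD' hR₄ hR₃
    exact ⟨rfl, _, α₅, β₅, hR₅⟩
  tfae_finish

theorem comp_of_biholo_range {f g : ℂ × ℂ → ℂ × ℂ} {X : Type u} [TopologicalSpace X]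
    [ChartedSpace (ℂ × ℂ) X] {j : Surf f → X} (hj : IsComp f j) (h : Biholo f g) :
    ∃ j' : Surf g → X, IsComp g j' ∧ Set.range j' = Set.range j := by
  obtain ⟨Φ, hΦ, hΦ'⟩ := h
  have hr : Set.range (fun s => j (Φ.symm s)) = Set.range j := by
    ext x
    constructor
    · rintro ⟨s, rfl⟩
      exact ⟨_, rfl⟩
    · rintro ⟨s, rfl⟩
      exact ⟨Φ s, by simp⟩
  refine ⟨fun s => j (Φ.symm s), ⟨?_, ?_, ?_, ?_⟩, hr⟩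
  · exact hj.inj.comp Φ.symm.injective
  · intro p hp
    obtain ⟨U, φ, hU, hpU, hφ, hφΩ⟩ := hΦ' p hp
    obtain ⟨hφp, hφp2⟩ := hφΩ p hpU hp
    obtain ⟨U₂, φ₂, hU₂, hpU₂, hφ₂, hφ₂j⟩ := hj.holo (φ p) hφp
    obtain ⟨h1, h2⟩ := xm6_comp hU hU₂ (mdifferentiableOn_iff_differentiableOn.2 hφ) hφ₂
    refine ⟨U ∩ φ ⁻¹' U₂, fun x => φ₂ (φ x), h1, ⟨hpU, hpU₂⟩, h2, ?_⟩
    intro q hq hqΩ
    obtain ⟨h3, h4⟩ := hφΩ q hq.1 hqΩ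
    simp only
    rw [hφ₂j (φ q) hq.2 h3, h4]
  · rintro _ ⟨t, rfl⟩
    obtain ⟨V, s, hV, hxV, hs, hsj⟩ := hj.inv (j (Φ.symm t)) (Set.mem_range_self _)
    obtain ⟨hsx, _⟩ := hsj _ hxV
    obtain ⟨U, φ, hU, hpU, hφ, hφΩ⟩ := hΦ (s (j (Φ.symm t))) hsx
    obtain ⟨h1, h2⟩ := xm6_comp hV hU hs (mdifferentiableOn_iff_differentiableOn.2 hφ)
    refine ⟨V ∩ s ⁻¹' U, fun x => φ (s x), h1, ⟨hxV, hpU⟩, h2, ?_⟩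
    intro v hv
    obtain ⟨h3, h4⟩ := hsj v hv.1
    obtain ⟨h5, h6⟩ := hφΩ (s v) hv.2 h3
    refine ⟨h5, ?_⟩
    rw [← h6, Equiv.symm_apply_apply, h4]
  · rw [hr]
    exact hj.curve

theorem comp_facts {k l : ℕ} {a b : ℤ → ℂ} {P Q : ℤ → ℂ[X]} (hD : IsData k a P)
    (hD' : IsData l b Q) {X : Type u} [TopologicalSpace X] [ChartedSpace (ℂ × ℂ) X] [T2Space X]
    [IsManifold 𝓘(ℂ, ℂ × ℂ) 1 X] {j : Surf (comp a P 0 k) → X} {j' : Surf (comp b Q 0 l) → X}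
    (hj : IsComp (comp a P 0 k) j) (hj' : IsComp (comp b Q 0 l) j') :
    Set.range j' = Set.range j ∧ Biholo (comp a P 0 k) (comp b Q 0 l) := by
  obtain ⟨a₁, P₁, α₁, β₁, hD₁, hN₁, hR₁⟩ := normalize hD
  obtain ⟨b₁, Q₁, α₂, β₂, hD₂, hN₂, hR₂⟩ := normalize hD'
  obtain ⟨h₁, hh₁, hc₁⟩ := conj_of_rel hD hD₁ hR₁
  obtain ⟨h₂, hh₂, hc₂⟩ := conj_of_rel hD' hD₂ hR₂
  have hB₁ := biholo_of_conj hD hD₁ hh₁ hc₁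
  have hB₂ := biholo_of_conj hD' hD₂ hh₂ hc₂
  obtain ⟨j₁, hj₁, hr₁⟩ := comp_of_biholo_range hj hB₁
  obtain ⟨j₂, hj₂, hr₂⟩ := comp_of_biholo_range hj' hB₂
  obtain ⟨q, c, hq, hqk, hck, hp⟩ := pack_of_norm hD₁ hN₁
  obtain ⟨q', c', hq', hqk', hck', hp'⟩ := pack_of_norm hD₂ hN₂
  obtain ⟨Ψ, hΨ⟩ := cover_of_pack hp
  obtain ⟨Ψ', hΨ'⟩ := cover_of_pack hp'
  have hr : Set.range j₁ = Set.range j₂ :=
    Set.Subset.antisymm (range_subset hΨ hΨ' hj₁ hj₂) (range_subset hΨ' hΨ hj₂ hj₁)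
  exact ⟨by rw [← hr₁, ← hr₂, hr],
    biholo_trans (biholo_trans hB₁ (biholo_of_range_eq hj₁ hj₂ hr)) (biholo_symm hB₂)⟩

end HEN
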