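import Pool.Agent.Lib.MP_e79cb7_ag.FMP
import Pool.Agent.Lib.MP_e79cb7_ag.CHI
import Pool.Agent.Lib.MP_e79cb7_ag.GDY

/-! # Construction of the global parametrization `Ψ` -/

open Filter Topology Polynomial Bornology

noncomputable section

namespace HEN

theorem psi_W_open (ρ R : ℝ) : IsOpen (W ρ R) := by
  unfold W
  exact (isOpen_lt continuous_const continuous_fst.norm).inter
    (isOpen_lt (continuous_snd.norm.pow 2) (continuous_const.mul continuous_fst.norm))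

theorem psi_Z_open (ρ R : ℝ) : IsOpen (Z ρ R) := by
  unfold Z
  exact (isOpen_lt continuous_const continuous_fst.norm).inter
    (isOpen_lt (continuous_snd.norm.pow 2) (continuous_const.mul (continuous_fst.norm.pow 3)))

theorem psi_W_mono {ρ ρ' R R' : ℝ} (hρ : ρ ≤ ρ') (hR : R ≤ R') {p : ℂ × ℂ} (hp : p ∈ W ρ R') :
    p ∈ W ρ' R := by
  obtain ⟨h1, h2⟩ := hp
  refine ⟨lt_of_le_of_lt hR h1, lt_of_lt_of_le h2 ?_⟩
  exact mul_le_mul_of_nonneg_right hρ (norm_nonneg _)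

theorem psi_Z_mono {ρ R R' : ℝ} (hR : R ≤ R') {p : ℂ × ℂ} (hp : p ∈ Z ρ R') :
    p ∈ Z ρ R := ⟨lt_of_le_of_lt hR hp.1, hp.2⟩

/-- Bundle of the data used in the construction. -/
structure PsiCtx (f finv s : ℂ × ℂ → ℂ × ℂ) (b z : ℂ × ℂ → ℂ) (d : ℕ) (lam : ℂ) (Q : ℂ[X])
    (R R' : ℝ) : Prop where
  hd : 2 ≤ d
  hlam : lam ≠ 0
  fd : Differentiable ℂ f
  fid : Differentiable ℂ finv
  li : Function.LeftInverse finv f
  ri : Function.RightInverse finv f
  hR' : 1 ≤ R'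
  bd : DifferentiableOn ℂ b (W 4 R)
  zd : DifferentiableOn ℂ z (W 4 R)
  hf : ∀ p ∈ W 4 R, f p ∈ W (3 / 2) R ∧ b (f p) = b p ^ d ∧ z (f p) = lam * z p + Q.eval (b p)
  om : ∀ p, p ∈ Omega f ↔ ∃ n : ℕ, f^[n] p ∈ W 4 R
  Gm : ∀ w ∈ Z 2 R', G d lam Q w ∈ Z 2 R'
  Ge : ∀ w : ℂ × ℂ, 1 < ‖w.1‖ → ∃ N : ℕ, ∀ n ≥ N, (G d lam Q)^[n] w ∈ Z 2 R'
  sd : DifferentiableOn ℂ s (Z 2 R')
  s1 : ∀ w ∈ Z 2 R', s w ∈ W 3 R ∧ (b (s w), z (s w)) = w
  s2 : ∀ p ∈ W 3 R, (b p, z p) ∈ Z 2 R' → s (b p, z p) = p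
  en : ∀ p ∈ Omega f, ∃ n : ℕ, f^[n] p ∈ W 3 R ∧ (b (f^[n] p), z (f^[n] p)) ∈ Z 2 R'

section
variable {f finv s : ℂ × ℂ → ℂ × ℂ} {b z : ℂ × ℂ → ℂ} {d : ℕ} {lam : ℂ} {Q : ℂ[X]}
    {R R' : ℝ}

theorem PsiCtx.W34 {p : ℂ × ℂ} (hp : p ∈ W 3 R) : p ∈ W 4 R :=
  psi_W_mono (by norm_num) le_rfl hp

theorem PsiCtx.sconj (h : PsiCtx f finv s b z d lam Q R R') {w : ℂ × ℂ} (hw : w ∈ Z 2 R') :
    s (G d lam Q w) = f (s w) := by
  obtain ⟨h1, h2⟩ := h.s1 w hw
  obtain ⟨h3, h4, h5⟩ := h.hf (s w) (PsiCtx.W34 h1)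
  have hb : b (s w) = w.1 := congrArg Prod.fst h2
  have hz : z (s w) = w.2 := congrArg Prod.snd h2
  have h6 : (b (f (s w)), z (f (s w))) = G d lam Q w := by
    rw [h4, h5, hb, hz]
    rfl
  have h7 := h.s2 (f (s w)) (psi_W_mono (by norm_num) le_rfl h3) (by
    rw [h6]
    exact h.Gm w hw)
  rw [h6] at h7
  exact h7

theorem PsiCtx.Giter (h : PsiCtx f finv s b z d lam Q R R') {w : ℂ × ℂ} (hw : w ∈ Z 2 R')
    (n : ℕ) : (G d lam Q)^[n] w ∈ Z 2 R' := by
  induction n with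
  | zero => exact hw
  | succ n ih =>
    rw [Function.iterate_succ_apply']
    exact h.Gm _ ih

theorem PsiCtx.sconj_iter (h : PsiCtx f finv s b z d lam Q R R') {w : ℂ × ℂ} (hw : w ∈ Z 2 R')
    (n : ℕ) : s ((G d lam Q)^[n] w) = f^[n] (s w) := by
  induction n with
  | zero => rfl
  | succ n ih =>
    rw [Function.iterate_succ_apply', h.sconj (h.Giter hw n), ih, Function.iterate_succ_apply']

theorem PsiCtx.finj (h : PsiCtx f finv s b z d lam Q R R') (n : ℕ) :
    Function.Injective (f^[n]) := h.li.injective.iterate n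

theorem PsiCtx.f_finv (h : PsiCtx f finv s b z d lam Q R R') (n : ℕ) (p : ℂ × ℂ) :
    f^[n] (finv^[n] p) = p := h.ri.iterate n p

open Classical in
/-- The parametrization, before composing with `ex`. -/
def psi0 (f' : ℂ × ℂ → ℂ × ℂ) (s : ℂ × ℂ → ℂ × ℂ) (g : ℂ × ℂ → ℂ × ℂ) (Z' : Set (ℂ × ℂ))
    (w : ℂ × ℂ) : ℂ × ℂ :=
  if h : ∃ n : ℕ, g^[n] w ∈ Z' then f'^[h.choose] (s (g^[h.choose] w)) else 0

theorem PsiCtx.psi0_spec (h : PsiCtx f finv s b z d lam Q R R') {w : ℂ × ℂ} {n : ℕ}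
    (hn : (G d lam Q)^[n] w ∈ Z 2 R') :
    f^[n] (psi0 finv s (G d lam Q) (Z 2 R') w) = s ((G d lam Q)^[n] w) := by
  have hex : ∃ n : ℕ, (G d lam Q)^[n] w ∈ Z 2 R' := ⟨n, hn⟩
  unfold psi0
  rw [dif_pos hex]
  set m := hex.choose with hm
  have hmZ : (G d lam Q)^[m] w ∈ Z 2 R' := hex.choose_spec
  rcases le_total m n with hmn | hmn
  · obtain ⟨t, rfl⟩ := Nat.exists_eq_add_of_le' hmn
    rw [Function.iterate_add_apply, h.f_finv, Function.iterate_add_apply, h.sconj_iter hmZ]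
  · obtain ⟨t, ht⟩ := Nat.exists_eq_add_of_le' hmn
    apply h.finj t
    rw [← Function.iterate_add_apply, ← ht, h.f_finv, ht, Function.iterate_add_apply,
      h.sconj_iter hn]

theorem PsiCtx.psi0_eq (h : PsiCtx f finv s b z d lam Q R R') {w : ℂ × ℂ} {n : ℕ}
    (hn : (G d lam Q)^[n] w ∈ Z 2 R') :
    psi0 finv s (G d lam Q) (Z 2 R') w = finv^[n] (s ((G d lam Q)^[n] w)) := by
  apply h.finj n
  rw [h.psi0_spec hn, h.f_finv]

theorem psi_G_diff (d : ℕ) (lam : ℂ) (Q : ℂ[X]) : Differentiable ℂ (G d lam Q) := by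
  unfold G
  have h1 : Differentiable ℂ (fun w : ℂ × ℂ => Q.eval w.1) :=
    Q.differentiable.comp differentiable_fst
  exact (differentiable_fst.pow d).prodMk ((differentiable_snd.const_mul _).add h1)

theorem PsiCtx.psi0_diff (h : PsiCtx f finv s b z d lam Q R R') {w : ℂ × ℂ}
    (hw : 1 < ‖w.1‖) :
    DifferentiableAt ℂ (psi0 finv s (G d lam Q) (Z 2 R')) w := by
  obtain ⟨N, hN⟩ := h.Ge w hw
  have hN := hN N le_rfl
  have hGd : Differentiable ℂ ((G d lam Q)^[N]) := (psi_G_diff d lam Q).iterate N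
  have hopen : IsOpen ((G d lam Q)^[N] ⁻¹' (Z 2 R')) := (psi_Z_open 2 R').preimage hGd.continuous
  have hev : psi0 finv s (G d lam Q) (Z 2 R') =ᶠ[𝓝 w]
      fun w => finv^[N] (s ((G d lam Q)^[N] w)) := by
    filter_upwards [hopen.mem_nhds hN] with v hv
    exact h.psi0_eq hv
  have h2 : DifferentiableAt ℂ (fun w => finv^[N] (s ((G d lam Q)^[N] w))) w := by
    have h3 : DifferentiableAt ℂ s ((G d lam Q)^[N] w) :=
      (h.sd _ hN).differentiableAt ((psi_Z_open 2 R').mem_nhds hN)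
    have h4 : DifferentiableAt ℂ (s ∘ (G d lam Q)^[N]) w := h3.comp w (hGd w)
    exact ((h.fid.iterate N) _).comp w h4
  exact h2.congr_of_eventuallyEq hev

theorem PsiCtx.main (h : PsiCtx f finv s b z d lam Q R R') : ∃ Ψ, IsCover f d lam Q Ψ := by
  obtain ⟨FE, FiE, FiF, FFi, Fd, Fid, TE, Td, TT, T0, FT, exF, exT⟩ := F_facts h.hd h.hlam Q
  obtain ⟨Eo, Ec, Ene, Eex, Esurj⟩ := E_facts
  set Ψ : ℂ × ℂ → ℂ × ℂ := fun x => psi0 finv s (G d lam Q) (Z 2 R') (ex x) with hΨ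
  have exd : Differentiable ℂ ex := by
    unfold ex
    exact (Complex.differentiable_exp.comp differentiable_fst).prodMk differentiable_snd
  have key : ∀ (x : ℂ × ℂ) (n : ℕ), ex ((F d lam Q)^[n] x) ∈ Z 2 R' →
      f^[n] (Ψ x) = s (ex ((F d lam Q)^[n] x)) := by
    intro x n hn
    rw [exF] at hn ⊢
    exact h.psi0_spec hn
  have ev : ∀ x ∈ E, ∃ N : ℕ, ∀ n ≥ N, ex ((F d lam Q)^[n] x) ∈ Z 2 R' := by
    intro x hx
    obtain ⟨N, hN⟩ := h.Ge (ex x) (Eex x hx)
    refine ⟨N, fun n hn => ?_⟩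
    rw [exF]
    exact hN n hn
  have FEn : ∀ n, Set.MapsTo ((F d lam Q)^[n]) E E := fun n => FE.iterate n
  have FiEn : ∀ n, Set.MapsTo ((Finv d lam Q)^[n]) E E := fun n => FiE.iterate n
  have FFin : ∀ n x, (F d lam Q)^[n] ((Finv d lam Q)^[n] x) = x := fun n x =>
    Function.RightInverse.iterate (f := F d lam Q) (g := Finv d lam Q) FFi n x
  have FiFn : ∀ n x, (Finv d lam Q)^[n] ((F d lam Q)^[n] x) = x := fun n x =>
    Function.LeftInverse.iterate (f := F d lam Q) (g := Finv d lam Q) FiF n x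
  refine ⟨Ψ, ⟨h.hd, h.hlam, ?_, ?_, ?_, ?_, ?_, ?_⟩⟩
  · -- differentiability
    intro x hx
    have h1 := h.psi0_diff (Eex x hx)
    exact (h1.comp x (exd x)).differentiableWithinAt
  · -- values in Ω
    intro x hx
    obtain ⟨N, hN⟩ := ev x hx
    rw [h.om]
    refine ⟨N, ?_⟩
    rw [key x N (hN N le_rfl)]
    exact PsiCtx.W34 (h.s1 _ (hN N le_rfl)).1
  · -- surjectivity
    intro p hp
    obtain ⟨n, hn1, hn2⟩ := h.en p hp
    have h1 : 1 < ‖(b (f^[n] p), z (f^[n] p)).1‖ := lt_of_le_of_lt h.hR' hn2.1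
    obtain ⟨x', hx', hx'2⟩ := Esurj _ h1
    refine ⟨(Finv d lam Q)^[n] x', FiEn n hx', ?_⟩
    apply h.finj n
    rw [key _ n, FFin, hx'2]
    · exact h.s2 _ hn1 hn2
    · rw [FFin, hx'2]
      exact hn2
  · -- conjugacy
    intro x hx
    obtain ⟨N, hN⟩ := ev x hx
    apply h.finj N
    have e1 : (F d lam Q)^[N] (F d lam Q x) = (F d lam Q)^[N + 1] x := by
      rw [Function.iterate_succ_apply]
    rw [key _ N, e1, Function.iterate_succ_apply']
    · rw [← Function.iterate_succ_apply, Function.iterate_succ_apply', key x N (hN N le_rfl),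
        ← h.sconj (hN N le_rfl)]
      congr 1
      have := exF 1 ((F d lam Q)^[N] x)
      simpa using this
    · rw [e1]
      exact hN _ (Nat.le_succ N)
  · -- fibres
    intro x hx y hy
    obtain ⟨N1, hN1⟩ := ev x hx
    obtain ⟨N2, hN2⟩ := ev y hy
    constructor
    · intro hxy
      set N := max N1 N2 with hN
      have hx' := hN1 N (le_max_left _ _)
      have hy' := hN2 N (le_max_right _ _)
      have e1 := key x N hx'
      have e2 := key y N hy'
      rw [hxy, e2] at e1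
      have e3 := (h.s1 _ hx').2
      have e4 := (h.s1 _ hy').2
      rw [e1] at e4
      rw [e4] at e3
      obtain ⟨j, hj⟩ := (exT _ _).1 e3
      obtain ⟨j', hj'⟩ := (exT _ _).1 e3.symm
      exact ⟨N, j', hj'⟩
    · rintro ⟨n, j, hnj⟩
      have e0 : ex ((F d lam Q)^[n] x) = ex ((F d lam Q)^[n] y) := (exT _ _).2 ⟨j, hnj⟩
      set N := max N1 N2 with hN
      have hx' := hN1 (N + n) (le_trans (le_max_left _ _) (Nat.le_add_right _ _))
      have hy' := hN2 (N + n) (le_trans (le_max_right _ _) (Nat.le_add_right _ _))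
      apply h.finj (N + n)
      rw [key x _ hx', key y _ hy']
      congr 1
      rw [Function.iterate_add_apply, Function.iterate_add_apply, exF, exF N, e0]
  · -- local inverses
    intro x₀ hx₀
    obtain ⟨N, hN⟩ := ev x₀ hx₀
    have hN := hN N le_rfl
    set β₁ : ℂ := ((F d lam Q)^[N] x₀).1 with hβ₁
    set b₁ : ℂ := Complex.exp β₁ with hb₁
    have hb₁0 : b₁ ≠ 0 := Complex.exp_ne_zero _
    have Fdn : Differentiable ℂ ((F d lam Q)^[N]) := Fd.iterate N
    have fdn : Differentiable ℂ (f^[N]) := h.fd.iterate N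
    set U : Set (ℂ × ℂ) := {x | x ∈ E ∧ ex ((F d lam Q)^[N] x) ∈ Z 2 R' ∧
      |(((F d lam Q)^[N] x).1 - β₁).im| < Real.pi} with hU
    set V : Set (ℂ × ℂ) := {p | f^[N] p ∈ W 3 R ∧ (b (f^[N] p), z (f^[N] p)) ∈ Z 2 R' ∧
      b (f^[N] p) / b₁ ∈ Complex.slitPlane} with hV
    set sl : ℂ × ℂ → ℂ × ℂ := fun p => (Finv d lam Q)^[N]
      (β₁ + Complex.log (b (f^[N] p) / b₁), z (f^[N] p)) with hsl
    have hVW : ∀ p ∈ V, f^[N] p ∈ W 4 R := fun p hp => PsiCtx.W34 hp.1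
    have hbcont : ContinuousOn (fun p => b (f^[N] p)) (f^[N] ⁻¹' W 4 R) :=
      h.bd.continuousOn.comp fdn.continuous.continuousOn (fun p hp => hp)
    have hzcont : ContinuousOn (fun p => z (f^[N] p)) (f^[N] ⁻¹' W 4 R) :=
      h.zd.continuousOn.comp fdn.continuous.continuousOn (fun p hp => hp)
    have hWo : IsOpen (f^[N] ⁻¹' W 4 R) := (psi_W_open 4 R).preimage fdn.continuous
    refine ⟨U, V, sl, ?_, ?_, ?_, ?_, ?_, ?_, ?_, ?_, ?_⟩
    · -- U open
      have o1 : IsOpen {x | ex ((F d lam Q)^[N] x) ∈ Z 2 R'} :=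
        (psi_Z_open 2 R').preimage (exd.continuous.comp Fdn.continuous)
      have o2 : IsOpen {x : ℂ × ℂ | |(((F d lam Q)^[N] x).1 - β₁).im| < Real.pi} := by
        apply isOpen_lt _ continuous_const
        exact (Complex.continuous_im.comp
          ((continuous_fst.comp Fdn.continuous).sub continuous_const)).abs
      exact Eo.inter (o1.inter o2)
    · -- V open
      have o1 : IsOpen (f^[N] ⁻¹' W 3 R) := (psi_W_open 3 R).preimage fdn.continuous
      have o2 : IsOpen ((f^[N] ⁻¹' W 4 R) ∩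
          (fun p => (b (f^[N] p), z (f^[N] p))) ⁻¹' (Z 2 R')) :=
        (hbcont.prodMk hzcont).isOpen_inter_preimage hWo (psi_Z_open 2 R')
      have o3 : IsOpen ((f^[N] ⁻¹' W 4 R) ∩
          (fun p => b (f^[N] p) / b₁) ⁻¹' Complex.slitPlane) :=
        (hbcont.div_const b₁).isOpen_inter_preimage hWo Complex.isOpen_slitPlane
      have : V = (f^[N] ⁻¹' W 3 R) ∩ (((f^[N] ⁻¹' W 4 R) ∩
          (fun p => (b (f^[N] p), z (f^[N] p))) ⁻¹' (Z 2 R')) ∩ ((f^[N] ⁻¹' W 4 R) ∩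
          (fun p => b (f^[N] p) / b₁) ⁻¹' Complex.slitPlane)) := by
        ext p
        constructor
        · rintro ⟨q1, q2, q3⟩
          exact ⟨q1, ⟨PsiCtx.W34 q1, q2⟩, ⟨PsiCtx.W34 q1, q3⟩⟩
        · rintro ⟨q1, ⟨_, q2⟩, ⟨_, q3⟩⟩
          exact ⟨q1, q2, q3⟩
      rw [this]
      exact o1.inter (o2.inter o3)
    · -- x₀ ∈ U
      refine ⟨hx₀, hN, ?_⟩
      rw [← hβ₁, sub_self, Complex.zero_im, abs_zero]
      exact Real.pi_pos
    · exact fun x hx => hx.1
    · -- Ψ maps U to V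
      intro x hx
      obtain ⟨q1, q2, q3⟩ := hx
      have e1 := key x N q2
      obtain ⟨e2, e3⟩ := h.s1 _ q2
      have e4 : b (s (ex ((F d lam Q)^[N] x))) = Complex.exp ((F d lam Q)^[N] x).1 :=
        congrArg Prod.fst e3
      refine ⟨?_, ?_, ?_⟩
      · rw [e1]
        exact e2
      · rw [e1, e3]
        exact q2
      · rw [e1, e4, hb₁, ← Complex.exp_sub]
        rw [Complex.mem_slitPlane_iff_arg]
        refine ⟨?_, Complex.exp_ne_zero _⟩
        have e5 := Complex.log_exp (x := ((F d lam Q)^[N] x).1 - β₁) (abs_lt.1 q3).1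
          (abs_lt.1 q3).2.le
        have e6 : (Complex.exp (((F d lam Q)^[N] x).1 - β₁)).arg =
            (((F d lam Q)^[N] x).1 - β₁).im := by
          rw [← Complex.log_im, e5]
        rw [e6]
        exact ne_of_lt (abs_lt.1 q3).2
    · -- sl maps V to U
      intro p hp
      obtain ⟨q1, q2, q3⟩ := hp
      have hb0 : b (f^[N] p) ≠ 0 := by
        intro h0
        have := q2.1
        simp only [h0, norm_zero] at this
        linarith [h.hR']
      have hbb : b (f^[N] p) / b₁ ≠ 0 := div_ne_zero hb0 hb₁0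
      set x' : ℂ × ℂ := (β₁ + Complex.log (b (f^[N] p) / b₁), z (f^[N] p)) with hx'
      have hexx' : ex x' = (b (f^[N] p), z (f^[N] p)) := by
        unfold ex
        rw [hx']
        simp only
        rw [Complex.exp_add, Complex.exp_log hbb, ← hb₁, mul_div_cancel₀ _ hb₁0]
      have hx'E : x' ∈ E := by
        have e1 : ‖(ex x').1‖ = Real.exp x'.1.re := by
          unfold ex
          exact Complex.norm_exp _
        have e2 : 1 < ‖(ex x').1‖ := by
          rw [hexx']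
          exact lt_of_le_of_lt h.hR' q2.1
        rw [e1] at e2
        exact Real.one_lt_exp_iff.1 e2
      refine ⟨FiEn N hx'E, ?_, ?_⟩
      · simp only [hsl]
        rw [FFin, ← hx', hexx']
        exact q2
      · simp only [hsl]
        rw [FFin]
        simp only [add_sub_cancel_left, Complex.log_im]
        rw [abs_lt]
        exact ⟨Complex.neg_pi_lt_arg _,
          lt_of_le_of_ne (Complex.arg_le_pi _) (Complex.mem_slitPlane_iff_arg.1 q3).1⟩
    · -- sl differentiable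
      have d1 : DifferentiableOn ℂ (fun p => b (f^[N] p)) V :=
        h.bd.comp fdn.differentiableOn hVW
      have d2 : DifferentiableOn ℂ (fun p => z (f^[N] p)) V :=
        h.zd.comp fdn.differentiableOn hVW
      have d3 : DifferentiableOn ℂ (fun p => Complex.log (b (f^[N] p) / b₁)) V := by
        have d4 : DifferentiableOn ℂ (fun p => b (f^[N] p) / b₁) V := by
          simpa [div_eq_mul_inv] using d1.mul_const b₁⁻¹
        exact d4.clog (fun p hp => hp.2.2)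
      have d5 : DifferentiableOn ℂ (fun p => ((β₁ + Complex.log (b (f^[N] p) / b₁),
          z (f^[N] p)) : ℂ × ℂ)) V := (d3.const_add β₁).prodMk d2
      exact (Fid.iterate N).comp_differentiableOn d5
    · -- left inverse
      intro x hx
      obtain ⟨q1, q2, q3⟩ := hx
      have e1 := key x N q2
      obtain ⟨e2, e3⟩ := h.s1 _ q2
      have e4 : b (s (ex ((F d lam Q)^[N] x))) = Complex.exp ((F d lam Q)^[N] x).1 :=
        congrArg Prod.fst e3
      have e4' : z (s (ex ((F d lam Q)^[N] x))) = ((F d lam Q)^[N] x).2 :=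
        congrArg Prod.snd e3
      simp only [hsl]
      rw [e1, e4, e4', hb₁, ← Complex.exp_sub, Complex.log_exp (abs_lt.1 q3).1 (abs_lt.1 q3).2.le,
        add_sub_cancel]
      exact FiFn N x
    · -- right inverse
      intro p hp
      obtain ⟨q1, q2, q3⟩ := hp
      have hb0 : b (f^[N] p) ≠ 0 := by
        intro h0
        have := q2.1
        simp only [h0, norm_zero] at this
        linarith [h.hR']
      have hbb : b (f^[N] p) / b₁ ≠ 0 := div_ne_zero hb0 hb₁0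
      have hexx' : ex (β₁ + Complex.log (b (f^[N] p) / b₁), z (f^[N] p)) =
          (b (f^[N] p), z (f^[N] p)) := by
        unfold ex
        simp only
        rw [Complex.exp_add, Complex.exp_log hbb, ← hb₁, mul_div_cancel₀ _ hb₁0]
      apply h.finj N
      rw [key _ N]
      · simp only [hsl]
        rw [FFin, hexx']
        exact h.s2 _ q1 q2
      · simp only [hsl]
        rw [FFin, hexx']
        exact q2

end

private theorem psi_bound {C R' X Y B S M : ℝ} (hC : 0 < C) (hM1 : R' + C ≤ M)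
    (hM2 : 18 * C ≤ M) (hM3 : 2 ≤ M) (hX : M < X) (hY0 : 0 ≤ Y) (hY : Y ^ 2 < 3 / 2 * X)
    (hB : X - C ≤ B) (hS0 : 0 ≤ S) (hS : S ≤ X * Y + C) : R' < B ∧ S ^ 2 < 2 * B ^ 3 := by
  refine ⟨by linarith, ?_⟩
  have hXC : 18 * C < X := by linarith
  have hX2 : 2 < X := by linarith
  have hYX : Y ≤ X := by
    by_contra hcon
    push Not at hcon
    nlinarith
  have h1 : S ^ 2 ≤ (X * Y + C) ^ 2 := by
    apply pow_le_pow_left₀ hS0 hS
  have h2 : (X - C) ^ 3 ≤ B ^ 3 := by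
    apply pow_le_pow_left₀ (by linarith) hB
  have h3 : (X * Y + C) ^ 2 < 3 / 2 * X ^ 3 + 2 * C * X ^ 2 + C ^ 2 := by
    have e1 : X ^ 2 * Y ^ 2 < X ^ 2 * (3 / 2 * X) := by
      apply mul_lt_mul_of_pos_left hY (by positivity)
    have e2 : C * X * Y ≤ C * X * X := mul_le_mul_of_nonneg_left hYX (by positivity)
    nlinarith
  have h4 : X ^ 3 - 3 * C * X ^ 2 ≤ (X - C) ^ 3 := by
    have e1 : (X - C) ^ 3 - (X ^ 3 - 3 * C * X ^ 2) = C ^ 2 * (3 * X - C) := by ring
    have e2 : 0 ≤ C ^ 2 * (3 * X - C) := mul_nonneg (by positivity) (by linarith)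
    linarith
  have h5 : C ^ 2 ≤ C * X ^ 2 := by
    have e1 : C ≤ X ^ 2 := by nlinarith
    nlinarith
  have h6 : 9 * C * X ^ 2 ≤ 1 / 2 * X ^ 3 := by
    have e1 : 0 < X ^ 2 := by positivity
    nlinarith
  nlinarith

theorem cover_of_pack {f : ℂ × ℂ → ℂ × ℂ} {d : ℕ} {lam : ℂ} {Q : ℂ[X]} (h : Pack f d lam Q) :
    ∃ Ψ, IsCover f d lam Q Ψ := by
  obtain ⟨hd, hlam, hQ, hQd, ⟨finv, fd, fid, li, ri⟩, R, C, b, z, hR, hC, bd, zd, hbz, hf, hen,
    om⟩ := h
  obtain ⟨R₁, s, hR₁, sd, s1, s2⟩ := chart_inverse hR hC bd zd hbz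
  obtain ⟨R₂, hR₂, Gm⟩ := G_maps hd (lam := lam) hQ hQd
  set R' := max R₁ R₂ with hR'
  have hR'1 : 1 ≤ R' := le_trans hR₂ (le_max_right _ _)
  have hZ : ∀ w, w ∈ Z 2 R' → w ∈ Z 2 R₁ := fun w hw => psi_Z_mono (le_max_left _ _) hw
  refine PsiCtx.main (finv := finv) (s := s) (b := b) (z := z) (R := R) (R' := R')
    ⟨hd, hlam, fd, fid, li, ri, hR'1, bd, zd, hf, om, Gm R' (le_max_right _ _), ?_, ?_, ?_, ?_, ?_⟩
  · intro w hw
    exact G_enters hd hQ hQd w hw R'
  · exact sd.mono hZ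
  · exact fun w hw => s1 w (hZ w hw)
  · exact fun p hp hw => s2 p hp (hZ _ hw)
  · intro p hp
    obtain ⟨m, hm⟩ := (om p).1 hp
    set M := R + R' + 18 * C + 2 with hM
    obtain ⟨N, hN⟩ := hen _ hm M
    have hq := hN N le_rfl
    rw [← Function.iterate_add_apply] at hq
    refine ⟨N + m, psi_W_mono (by norm_num) (by linarith) hq, ?_⟩
    set q := f^[N + m] p
    have hq4 : q ∈ W 4 R := psi_W_mono (by norm_num) (by linarith) hq
    obtain ⟨hb, hz⟩ := hbz q hq4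
    obtain ⟨hq1, hq2⟩ := hq
    have e1 : ‖q.1‖ - C ≤ ‖b q‖ := by
      have := norm_sub_norm_le q.1 (b q)
      rw [norm_sub_rev] at this
      linarith
    have e2 : ‖z q‖ ≤ ‖q.1‖ * ‖q.2‖ + C := by
      have := norm_sub_norm_le (z q) (q.1 * q.2)
      rw [norm_mul] at this
      linarith
    exact psi_bound hC (M := M) (by linarith) (by linarith) (by linarith) hq1 (norm_nonneg _) hq2
      e1 (norm_nonneg _) e2

end HEN
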