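import Pool.Agent.Lib.MP_e79cb7_ag.Cmp

open Filter Topology Polynomial Bornology

noncomputable section

namespace HEN

private lemma pun_bound (p : ℂ[X]) (m : ℕ) (hm : p.natDegree ≤ m) : ∃ K : ℝ, 0 ≤ K ∧
    ∀ (M : ℝ) (z : ℂ), 1 ≤ M → ‖z‖ ≤ M → ‖p.eval z‖ ≤ K * M ^ m := by
  refine ⟨∑ i ∈ Finset.range (p.natDegree + 1), ‖p.coeff i‖,
    Finset.sum_nonneg fun i _ => norm_nonneg _, fun M z hM hz => ?_⟩
  rw [eval_eq_sum_range, Finset.sum_mul]
  refine (norm_sum_le _ _).trans (Finset.sum_le_sum fun i hi => ?_)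
  rw [norm_mul, norm_pow]
  apply mul_le_mul_of_nonneg_left _ (norm_nonneg _)
  have hi' : i ≤ m := by
    have := Finset.mem_range.1 hi
    omega
  exact (pow_le_pow_left₀ (norm_nonneg _) hz i).trans (pow_le_pow_right₀ hM hi')

private lemma pun_lip (p : ℂ[X]) (m : ℕ) (hm : p.natDegree ≤ m + 1) : ∃ K : ℝ, 0 ≤ K ∧
    ∀ (M : ℝ) (x y : ℂ), 1 ≤ M → ‖x‖ ≤ M → ‖y‖ ≤ M →
      ‖p.eval x - p.eval y‖ ≤ K * M ^ m * ‖x - y‖ := by
  obtain ⟨K, hK0, hK⟩ := pun_bound (derivative p) m ((natDegree_derivative_le p).trans (by omega))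
  refine ⟨K, hK0, fun M x y hM hx hy => ?_⟩
  have := Convex.norm_image_sub_le_of_norm_deriv_le (f := fun z => p.eval z) (C := K * M ^ m)
    (s := Metric.closedBall (0 : ℂ) M) (x := y) (y := x)
    (fun z _ => p.differentiable z) (fun z hz => by
      rw [Polynomial.deriv]
      exact hK M z hM (by simpa using hz)) (convex_closedBall _ _)
    (by simpa using hy) (by simpa using hx)
  exact this

private lemma pun_near (q : ℂ[X]) (d : ℕ) (hq : q.Monic) (hd : q.natDegree = d + 1) :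
    ∃ K : ℝ, 0 ≤ K ∧ ∀ t : ℝ, 1 ≤ t → ‖q.eval (t : ℂ) / (t : ℂ) ^ d - t‖ ≤ K := by
  have h1 : (q - X ^ (d + 1)).natDegree ≤ d := by
    rw [natDegree_le_iff_coeff_eq_zero]
    intro n hn
    rw [coeff_sub, coeff_X_pow]
    split_ifs with h
    · have : q.coeff n = 1 := by
        rw [h, ← hd]; exact hq
      rw [this, sub_self]
    · rw [coeff_eq_zero_of_natDegree_lt (by omega), sub_zero]
  obtain ⟨K, hK0, hK⟩ := pun_bound _ d h1
  refine ⟨K, hK0, fun t ht => ?_⟩
  have ht0 : (t : ℂ) ≠ 0 := by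
    have : t ≠ 0 := by linarith
    exact_mod_cast this
  have e : q.eval (t : ℂ) / (t : ℂ) ^ d - t = (q - X ^ (d + 1)).eval (t : ℂ) / (t : ℂ) ^ d := by
    rw [eval_sub, eval_pow, eval_X, sub_div, pow_succ,
      mul_div_cancel_left₀ _ (pow_ne_zero d ht0)]
  have hn : ‖(t : ℂ)‖ = t := by
    rw [Complex.norm_real, Real.norm_eq_abs, abs_of_nonneg (by linarith)]
  rw [e, norm_div, norm_pow, hn, div_le_iff₀ (by positivity)]
  exact hK t t ht hn.le

/- Module PUN (file PUN.lean): `P` is determined by `q` -/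
theorem P_of_q {P P' q q' : ℂ[X]} {ν : ℂ} (hP : P.Monic) (hP' : P'.Monic)
    (hd : 2 ≤ P.natDegree) (hdd : P'.natDegree = P.natDegree) (hq : IsQ P q) (hq' : IsQ P' q')
    (hν : ν ≠ 0) (h : ∀ n, 1 ≤ n → n ≤ P.natDegree + 1 →
      q'.coeff n = ν ^ (P.natDegree + 1 - n) * q.coeff n) (y : ℂ) :
    P'.eval y = ν ^ P.natDegree * P.eval (y / ν) := by
  obtain ⟨d, hdeq⟩ : ∃ d, P.natDegree = d + 1 := ⟨P.natDegree - 1, by omega⟩
  set P2 : ℂ[X] := C (ν ^ (d + 1)) * P.comp (C ν⁻¹ * X) with hP2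
  have hP2e : ∀ z, P2.eval z = ν ^ (d + 1) * P.eval (z / ν) := by
    intro z
    rw [hP2, eval_mul, eval_C, eval_comp, eval_mul, eval_C, eval_X, div_eq_inv_mul]
  have hP2d : P2.natDegree ≤ d + 1 := by
    refine (natDegree_C_mul_le _ _).trans ?_
    refine natDegree_comp_le.trans ?_
    rw [hdeq]
    have : (C ν⁻¹ * X : ℂ[X]).natDegree ≤ 1 := (natDegree_C_mul_le _ _).trans natDegree_X_le
    nlinarith
  set q2 : ℂ[X] := C (ν ^ (d + 2)) * q.comp (C ν⁻¹ * X) with hq2
  have hq2e : ∀ z, q2.eval z = ν ^ (d + 2) * q.eval (z / ν) := by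
    intro z
    rw [hq2, eval_mul, eval_C, eval_comp, eval_mul, eval_C, eval_X, div_eq_inv_mul]
  set κ : ℂ := q'.coeff 0 - q2.coeff 0 with hκ
  have hqq : q' - q2 = C κ := by
    ext n
    rw [coeff_sub, coeff_C]
    split_ifs with h0
    · rw [h0]
    · rcases le_or_gt n (d + 2) with hn | hn
      · rw [h n (by omega) (by omega), hq2, coeff_C_mul, comp_C_mul_X_coeff, hdeq, sub_eq_zero]
        have e1 : ν ^ (d + 2) = ν ^ (d + 1 + 1 - n) * ν ^ n := by
          rw [← pow_add]; congr 1; omega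
        rw [e1, inv_pow]
        field_simp
      · have h1 : q'.coeff n = 0 := coeff_eq_zero_of_natDegree_lt (by rw [hq'.deg]; omega)
        have h2 : q.coeff n = 0 := coeff_eq_zero_of_natDegree_lt (by rw [hq.deg]; omega)
        rw [h1, hq2, coeff_C_mul, comp_C_mul_X_coeff, h2]
        ring
  have hqqe : ∀ z, q'.eval z - q2.eval z = κ := by
    intro z
    rw [← eval_sub, hqq, eval_C]
  obtain ⟨C1, R1, h1⟩ := hq.lim
  obtain ⟨C2, R2, h2⟩ := hq'.lim
  obtain ⟨C3, hC3, h3⟩ := pun_near q' (d + 1) hq'.monic (by rw [hq'.deg, hdd, hdeq])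
  obtain ⟨C4, hC4, h4⟩ := pun_lip P2 d hP2d
  rw [hdd, hdeq] at h2
  rw [hdeq] at h1
  set x : ℝ → ℂ := fun t => q'.eval (t : ℂ) / (t : ℂ) ^ (d + 1) with hx
  set x2 : ℝ → ℂ := fun t => q2.eval (t : ℂ) / (t : ℂ) ^ (d + 1) with hx2
  -- first limit
  have L1 : Tendsto (fun t : ℝ => P'.eval (x t) - (t : ℂ) ^ (d + 1)) atTop (𝓝 0) := by
    apply squeeze_zero_norm' (a := fun t : ℝ => C2 / t ^ 2)
    · filter_upwards [eventually_ge_atTop (max R2 1)] with t ht
      have ht1 : 1 ≤ t := (le_max_right _ _).trans ht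
      have hn : ‖(t : ℂ)‖ = t := by
        rw [Complex.norm_real, Real.norm_eq_abs, abs_of_nonneg (by linarith)]
      have := h2 t (by rw [hn]; exact (le_max_left _ _).trans ht)
      rw [hn] at this
      exact this
    · exact tendsto_const_nhds.div_atTop (tendsto_pow_atTop two_ne_zero)
  have hν0 : 0 < ‖ν‖ := norm_pos_iff.2 hν
  have L2 : Tendsto (fun t : ℝ => P2.eval (x2 t) - (t : ℂ) ^ (d + 1)) atTop (𝓝 0) := by
    apply squeeze_zero_norm' (a := fun t : ℝ => ‖ν‖ ^ (d + 1) * (C1 / (t / ‖ν‖) ^ 2))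
    · filter_upwards [eventually_ge_atTop (max (‖ν‖ * R1) 1)] with t ht
      have ht1 : 1 ≤ t := (le_max_right _ _).trans ht
      have ht0 : (t : ℂ) ≠ 0 := by
        have : t ≠ 0 := by linarith
        exact_mod_cast this
      have hn : ‖(t : ℂ)‖ = t := by
        rw [Complex.norm_real, Real.norm_eq_abs, abs_of_nonneg (by linarith)]
      have hb : ‖(t : ℂ) / ν‖ = t / ‖ν‖ := by rw [norm_div, hn]
      have h5 := h1 ((t : ℂ) / ν) (by
        rw [hb, le_div_iff₀ hν0, mul_comm]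
        exact (le_max_left _ _).trans ht)
      rw [hb] at h5
      have e1 : P2.eval (x2 t) - (t : ℂ) ^ (d + 1) =
          ν ^ (d + 1) * (P.eval (q.eval ((t : ℂ) / ν) / ((t : ℂ) / ν) ^ (d + 1)) -
            ((t : ℂ) / ν) ^ (d + 1)) := by
        rw [hP2e, hx2]
        simp only [hq2e]
        have e2 : ν ^ (d + 2) * q.eval ((t : ℂ) / ν) / (t : ℂ) ^ (d + 1) / ν =
            q.eval ((t : ℂ) / ν) / ((t : ℂ) / ν) ^ (d + 1) := by
          rw [div_pow]
          field_simp
          ring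
        rw [e2, mul_sub, div_pow, mul_div_cancel₀ _ (pow_ne_zero _ hν)]
      rw [e1, norm_mul, norm_pow]
      exact mul_le_mul_of_nonneg_left h5 (by positivity)
    · have h6 : Tendsto (fun t : ℝ => (t / ‖ν‖) ^ 2) atTop atTop :=
        (tendsto_pow_atTop two_ne_zero).comp (tendsto_id.atTop_div_const hν0)
      have h7 := (tendsto_const_nhds (x := C1)).div_atTop h6
      simpa using h7.const_mul (‖ν‖ ^ (d + 1))
  have L3 : Tendsto (fun t : ℝ => P2.eval (x t) - P2.eval (x2 t)) atTop (𝓝 0) := by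
    apply squeeze_zero_norm' (a := fun t : ℝ => C4 * (1 + C3 + ‖κ‖) ^ d * ‖κ‖ / t)
    · filter_upwards [eventually_ge_atTop 1] with t ht1
      have ht0 : (t : ℂ) ≠ 0 := by
        have : t ≠ 0 := by linarith
        exact_mod_cast this
      have hn : ‖(t : ℂ)‖ = t := by
        rw [Complex.norm_real, Real.norm_eq_abs, abs_of_nonneg (by linarith)]
      have k1 : ‖x t - t‖ ≤ C3 := h3 t ht1
      have k2 : x t - x2 t = κ / (t : ℂ) ^ (d + 1) := by
        rw [hx, hx2]
        simp only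
        rw [← sub_div, hqqe]
      have k3 : ‖x t - x2 t‖ = ‖κ‖ / t ^ (d + 1) := by
        rw [k2, norm_div, norm_pow, hn]
      have k4 : ‖κ‖ / t ^ (d + 1) ≤ ‖κ‖ :=
        div_le_self (norm_nonneg _) (one_le_pow₀ ht1)
      have k5 : ‖x t‖ ≤ t + C3 := by
        have := norm_add_le (x t - t) (t : ℂ)
        rw [sub_add_cancel, hn] at this
        linarith
      have k6 : ‖x2 t‖ ≤ t + C3 + ‖κ‖ := by
        have := norm_sub_le (x t) (x t - x2 t)
        rw [sub_sub_cancel, k3] at this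
        linarith
      have hκ0 := norm_nonneg κ
      have k7 := h4 ((1 + C3 + ‖κ‖) * t) (x t) (x2 t) (by nlinarith) (by nlinarith) (by nlinarith)
      refine k7.trans (le_of_eq ?_)
      rw [k3, mul_pow, pow_succ]
      have : t ≠ 0 := by linarith
      field_simp
    · exact tendsto_const_nhds.div_atTop tendsto_id
  set D : ℂ[X] := P' - P2 with hD
  have L4 : Tendsto (fun t : ℝ => D.eval (x t)) atTop (𝓝 0) := by
    have := (L1.sub L2).sub L3
    simp only [sub_zero] at this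
    refine this.congr fun t => ?_
    rw [hD, eval_sub]
    ring
  have L5 : Tendsto (fun t : ℝ => ‖x t‖) atTop atTop := by
    apply tendsto_atTop_mono' (f₁ := fun t : ℝ => t - C3)
    · filter_upwards [eventually_ge_atTop 1] with t ht1
      have hn : ‖(t : ℂ)‖ = t := by
        rw [Complex.norm_real, Real.norm_eq_abs, abs_of_nonneg (by linarith)]
      have k1 : ‖x t - t‖ ≤ C3 := h3 t ht1
      have := norm_sub_le (x t) (x t - t)
      rw [sub_sub_cancel, hn] at this
      linarith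
    · exact tendsto_atTop_add_const_right _ _ tendsto_id
  have hdeg : ¬ 0 < D.degree := by
    intro hpos
    have h8 := D.tendsto_norm_atTop hpos L5
    have h9 := L4.norm
    rw [norm_zero] at h9
    exact not_tendsto_nhds_of_tendsto_atTop h8 0 h9
  have hconst := eq_C_of_degree_le_zero (not_lt.1 hdeg)
  have hc0 : D.coeff 0 = 0 := by
    have h9 : Tendsto (fun _ : ℝ => D.coeff 0) atTop (𝓝 0) := by
      refine L4.congr fun t => ?_
      rw [hconst, eval_C, coeff_C_zero]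
    exact tendsto_nhds_unique tendsto_const_nhds h9
  have hD0 : D = 0 := by rw [hconst, hc0, C_0]
  have hPP : P' = P2 := by rw [← sub_eq_zero, ← hD, hD0]
  rw [hPP, hP2e, hdeq]

end HEN
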