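import Pool.Agent.Lib.MP_e79cb7_ag.Cmp
import Pool.Agent.Lib.MP_e79cb7_ag.AU1
import Pool.Agent.Lib.MP_e79cb7_ag.AU2

open Filter Topology Polynomial Bornology

noncomputable section

namespace HEN

/-- A differentiable function `ℂ → ℂ` with values in the right half plane is constant. -/
theorem st1_const_of_re_pos {f : ℂ → ℂ} (hf : Differentiable ℂ f) (hp : ∀ z, 0 < (f z).re)
    (z w : ℂ) : f z = f w := by
  have hne : ∀ z, f z + 1 ≠ 0 := by
    intro z h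
    have := congrArg Complex.re h
    simp at this
    linarith [hp z]
  have hd : Differentiable ℂ (fun z => (f z + 1)⁻¹) := by
    intro z
    exact ((hf z).add_const 1).inv (hne z)
  have hb : IsBounded (Set.range (fun z => (f z + 1)⁻¹)) := by
    rw [isBounded_iff_forall_norm_le]
    refine ⟨1, ?_⟩
    rintro _ ⟨z, rfl⟩
    have h1 : (1 : ℝ) ≤ ‖f z + 1‖ := by
      have h2 : (f z + 1).re ≤ ‖f z + 1‖ := Complex.re_le_norm _
      have h3 : (f z + 1).re = (f z).re + 1 := by simp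
      linarith [hp z]
    rw [norm_inv]
    exact inv_le_one_of_one_le₀ h1
  have := hd.apply_eq_apply_of_bounded hb z w
  have h2 : f z + 1 = f w + 1 := inv_injective this
  exact add_right_cancel h2

theorem st1_fst_const {Φ : ℂ × ℂ → ℂ × ℂ} (h1 : DifferentiableOn ℂ Φ E) (h2 : Set.MapsTo Φ E E)
    {β : ℂ} (hβ : β ∈ HP) (z w : ℂ) : (Φ (β, z)).1 = (Φ (β, w)).1 := by
  have hE : IsOpen E := isOpen_lt continuous_const (Complex.continuous_re.comp continuous_fst)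
  have hmem : ∀ z : ℂ, (β, z) ∈ E := fun z => hβ
  have hd : Differentiable ℂ (fun z : ℂ => (Φ (β, z)).1) := by
    intro z
    have hΦ : DifferentiableAt ℂ Φ (β, z) := (h1 _ (hmem z)).differentiableAt (hE.mem_nhds (hmem z))
    have hi : DifferentiableAt ℂ (fun z : ℂ => (β, z)) z :=
      (differentiableAt_const β).prodMk differentiableAt_id
    exact (hΦ.comp z hi).fst
  exact st1_const_of_re_pos hd (fun z => h2 (hmem z)) z w

/- Module ST1 (file ST1.lean): fibre structure of automorphisms of E -/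
theorem fiber_structure {Φ Φ' : ℂ × ℂ → ℂ × ℂ}
    (h1 : DifferentiableOn ℂ Φ E) (h2 : Set.MapsTo Φ E E)
    (h3 : DifferentiableOn ℂ Φ' E) (h4 : Set.MapsTo Φ' E E) (h5 : ∀ x ∈ E, Φ' (Φ x) = x)
    (h6 : ∀ x ∈ E, Φ (Φ' x) = x) :
    ∃ M A B : ℂ → ℂ, DifferentiableOn ℂ M HP ∧ DifferentiableOn ℂ A HP ∧
      DifferentiableOn ℂ B HP ∧ (∀ β ∈ HP, A β ≠ 0) ∧
      (∀ x ∈ E, Φ x = (M x.1, A x.1 * x.2 + B x.1)) ∧ Set.MapsTo M HP HP ∧ Set.InjOn M HP ∧
      Set.SurjOn M HP HP ∧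
      ∃ a b c e : ℂ, ∀ β ∈ HP, c * β + e ≠ 0 ∧ M β = (a * β + b) / (c * β + e) := by
  have hE : IsOpen E := isOpen_lt continuous_const (Complex.continuous_re.comp continuous_fst)
  -- differentiability of sections
  have hsec : ∀ (Θ : ℂ × ℂ → ℂ × ℂ), DifferentiableOn ℂ Θ E → ∀ z : ℂ,
      DifferentiableOn ℂ (fun β : ℂ => Θ (β, z)) HP := by
    intro Θ hΘ z
    have hi : DifferentiableOn ℂ (fun β : ℂ => (β, z)) HP :=
      (differentiableOn_id).prodMk (differentiableOn_const z)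
    exact hΘ.comp hi (fun β hβ => hβ)
  have hmem : ∀ {β : ℂ}, β ∈ HP → ∀ z : ℂ, (β, z) ∈ E := fun h z => h
  -- the affine structure
  have haff : ∀ β ∈ HP, ∃ a b : ℂ, a ≠ 0 ∧ ∀ z, (Φ (β, z)).2 = a * z + b := by
    intro β hβ
    apply injective_entire_affine
    · intro z
      have hΦ : DifferentiableAt ℂ Φ (β, z) :=
        (h1 _ (hmem hβ z)).differentiableAt (hE.mem_nhds (hmem hβ z))
      have hi : DifferentiableAt ℂ (fun z : ℂ => (β, z)) z :=
        (differentiableAt_const β).prodMk differentiableAt_id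
      exact (hΦ.comp z hi).snd
    · intro z w hzw
      have e : Φ (β, z) = Φ (β, w) := Prod.ext (st1_fst_const h1 h2 hβ z w) hzw
      have e2 := congrArg Φ' e
      rw [h5 _ (hmem hβ z), h5 _ (hmem hβ w)] at e2
      exact (Prod.ext_iff.1 e2).2
  set M : ℂ → ℂ := fun β => (Φ (β, 0)).1 with hM
  set M' : ℂ → ℂ := fun β => (Φ' (β, 0)).1 with hM'
  have hMd : DifferentiableOn ℂ M HP := (hsec Φ h1 0).fst
  have hM'd : DifferentiableOn ℂ M' HP := (hsec Φ' h3 0).fst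
  have hMm : Set.MapsTo M HP HP := fun β hβ => h2 (hmem hβ 0)
  have hM'm : Set.MapsTo M' HP HP := fun β hβ => h4 (hmem hβ 0)
  have hMM : ∀ β ∈ HP, M' (M β) = β := by
    intro β hβ
    have e1 : M' (M β) = (Φ' (Φ (β, 0))).1 := by
      show (Φ' ((Φ (β, 0)).1, 0)).1 = (Φ' (Φ (β, 0))).1
      exact st1_fst_const h3 h4 (hMm hβ) 0 (Φ (β, 0)).2
    rw [e1, h5 _ (hmem hβ 0)]
  have hMM' : ∀ β ∈ HP, M (M' β) = β := by
    intro β hβ
    have e1 : M (M' β) = (Φ (Φ' (β, 0))).1 := by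
      show (Φ ((Φ' (β, 0)).1, 0)).1 = (Φ (Φ' (β, 0))).1
      exact st1_fst_const h1 h2 (hM'm hβ) 0 (Φ' (β, 0)).2
    rw [e1, h6 _ (hmem hβ 0)]
  refine ⟨M, fun β => (Φ (β, 1)).2 - (Φ (β, 0)).2, fun β => (Φ (β, 0)).2, hMd,
    (hsec Φ h1 1).snd.sub (hsec Φ h1 0).snd, (hsec Φ h1 0).snd, ?_, ?_, hMm, ?_, ?_, ?_⟩
  · intro β hβ
    obtain ⟨a, b, ha, hab⟩ := haff β hβ
    show (Φ (β, 1)).2 - (Φ (β, 0)).2 ≠ 0
    rw [hab 1, hab 0]
    simpa using ha
  · rintro ⟨β, z⟩ hx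
    have hβ : β ∈ HP := hx
    obtain ⟨a, b, ha, hab⟩ := haff β hβ
    refine Prod.ext (st1_fst_const h1 h2 hβ z 0) ?_
    show (Φ (β, z)).2 = ((Φ (β, 1)).2 - (Φ (β, 0)).2) * z + (Φ (β, 0)).2
    rw [hab z, hab 1, hab 0]
    ring
  · intro β hβ γ hγ h
    rw [← hMM β hβ, ← hMM γ hγ, h]
  · intro β hβ
    exact ⟨M' β, hM'm hβ, hMM' β hβ⟩
  · exact halfplane_mobius hMd hM'd hMm hM'm hMM hMM'

end HEN
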