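import Pool.Agent.Lib.MP_e79cb7_ag.Cmp

/-! # The first coordinate is affine -/

open Filter Topology Polynomial Bornology

noncomputable section

namespace HEN

/-- `(a β + b)/(c β + e) → a/c` along `β + 2πi N`, `N → ±∞` -/
theorem st2_lim {a b c e β : ℂ} (hc : c ≠ 0) (s : ℂ) (hs : s ≠ 0) :
    Tendsto (fun N : ℕ => (a * (β + s * N) + b) / (c * (β + s * N) + e)) atTop (𝓝 (a / c)) := by
  have h1 : Tendsto (fun N : ℕ => ((N : ℂ))⁻¹) atTop (𝓝 0) := tendsto_inv_atTop_nhds_zero_nat
  have h2 : Tendsto (fun N : ℕ => (a * s + (a * β + b) * (N : ℂ)⁻¹) /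
      (c * s + (c * β + e) * (N : ℂ)⁻¹)) atTop (𝓝 ((a * s + (a * β + b) * 0) /
      (c * s + (c * β + e) * 0))) := by
    refine Tendsto.div ((h1.const_mul _).const_add _) ((h1.const_mul _).const_add _) ?_
    rw [mul_zero, add_zero]
    exact mul_ne_zero hc hs
  have e1 : (a * s + (a * β + b) * 0) / (c * s + (c * β + e) * 0) = a / c := by
    rw [mul_zero, mul_zero, add_zero, add_zero, mul_div_mul_right _ _ hs]
  rw [e1] at h2
  refine h2.congr' ?_
  filter_upwards [eventually_gt_atTop 0] with N hN
  have hN0 : (N : ℂ) ≠ 0 := by exact_mod_cast hN.ne'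
  have e2 : a * (β + s * N) + b = (a * s + (a * β + b) * (N : ℂ)⁻¹) * N := by
    field_simp
    ring
  have e3 : c * (β + s * N) + e = (c * s + (c * β + e) * (N : ℂ)⁻¹) * N := by
    field_simp
    ring
  rw [e2, e3, mul_div_mul_right _ _ hN0]

/- Module ST2 (file ST2.lean): the first coordinate is affine -/
theorem first_coord {M : ℂ → ℂ} (h1 : Set.MapsTo M HP HP) (h2 : Set.InjOn M HP)
    (h3 : Set.SurjOn M HP HP)
    (h4 : ∃ a b c e : ℂ, ∀ β ∈ HP, c * β + e ≠ 0 ∧ M β = (a * β + b) / (c * β + e))
    {u v : ℝ} {w : ℝ} (hu : 0 < u) (hv : 0 < v)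
    (h5 : ∀ β ∈ HP, u * M (β + 2 * Real.pi * Complex.I) = v * M β + w * Complex.I) :
    ∃ μ ν : ℝ, 0 < μ ∧ ∀ β ∈ HP, M β = μ * β + ν * Complex.I := by
  obtain ⟨a, b, c, e, hM⟩ := h4
  have htr : ∀ β ∈ HP, ∀ t : ℝ, β + t * Complex.I ∈ HP := by
    intro β hβ t
    show 0 < (β + t * Complex.I).re
    have h0 : 0 < β.re := hβ
    simpa using h0
  have hone : (1 : ℂ) ∈ HP := by show 0 < (1 : ℂ).re; simp
  have hc : c = 0 := by
    by_contra hc
    obtain ⟨s, hs⟩ : ∃ s : ℂ, s = 2 * Real.pi * Complex.I := ⟨_, rfl⟩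
    have hs0 : s ≠ 0 := hs ▸ Complex.two_pi_I_ne_zero
    have hmem : ∀ N : ℤ, 1 + s * N ∈ HP := by
      intro N
      have := htr 1 hone (2 * Real.pi * N)
      push_cast at this
      have e1 : 1 + s * N = 1 + 2 * Real.pi * N * Complex.I := by rw [hs]; ring
      rw [e1]
      exact this
    obtain ⟨f, hf⟩ : ∃ f : ℤ → ℂ, f = fun N : ℤ => M (1 + s * (N : ℂ)) := ⟨_, rfl⟩
    have hrec : ∀ N : ℤ, u * f (N + 1) = v * f N + w * Complex.I := by
      intro N
      have := h5 _ (hmem N)
      rw [hf]
      simp only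
      rw [← this, hs]
      congr 2
      push_cast
      ring
    have hlimp : Tendsto (fun N : ℕ => f N) atTop (𝓝 (a / c)) := by
      have := st2_lim (a := a) (b := b) (c := c) (e := e) (β := 1) hc s hs0
      refine this.congr fun N => ?_
      rw [hf]
      simp only
      rw [(hM _ (hmem N)).2]
      push_cast
      rfl
    have hlimm : Tendsto (fun N : ℕ => f (-N)) atTop (𝓝 (a / c)) := by
      have := st2_lim (a := a) (b := b) (c := c) (e := e) (β := 1) hc (-s) (neg_ne_zero.mpr hs0)
      refine this.congr fun N => ?_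
      rw [hf]
      simp only
      rw [(hM _ (hmem (-N))).2]
      push_cast
      ring_nf
    have hre : ∀ N : ℤ, u * (f (N + 1)).re = v * (f N).re := by
      intro N
      have := congrArg Complex.re (hrec N)
      simpa using this
    have hpos : 0 < (f 0).re := by
      rw [hf]
      exact h1 (hmem 0)
    have hprod : ∀ N : ℕ, (f N).re * (f (-N)).re = (f 0).re ^ 2 := by
      intro N
      induction N with
      | zero => simp; ring
      | succ N ih =>
        have e1 := hre N
        have e2 := hre (-((N + 1 : ℕ) : ℤ))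
        have e3 : -((N + 1 : ℕ) : ℤ) + 1 = -(N : ℤ) := by push_cast; ring
        rw [e3] at e2
        have e4 : ((N + 1 : ℕ) : ℤ) = (N : ℤ) + 1 := by push_cast; ring
        rw [← ih]
        have e5 : (f ((N + 1 : ℕ) : ℤ)).re = v / u * (f N).re := by
          rw [e4]
          field_simp
          linarith
        have e6 : (f (-((N + 1 : ℕ) : ℤ))).re = u / v * (f (-(N : ℤ))).re := by
          field_simp
          linarith
        rw [e5, e6]
        field_simp
    have hρ2 : (a / c).re * (a / c).re = (f 0).re ^ 2 := by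
      have hl1 : Tendsto (fun N : ℕ => (f N).re * (f (-N)).re) atTop
          (𝓝 ((a / c).re * (a / c).re)) :=
        ((Complex.continuous_re.tendsto _).comp hlimp).mul
          ((Complex.continuous_re.tendsto _).comp hlimm)
      refine tendsto_nhds_unique hl1 ?_
      simp only [hprod]
      exact tendsto_const_nhds
    have hρ : (a / c).re ≠ 0 := by
      intro h0
      rw [h0] at hρ2
      nlinarith
    have hlimp1 : Tendsto (fun N : ℕ => f ((N : ℤ) + 1)) atTop (𝓝 (a / c)) := by
      have := (tendsto_add_atTop_iff_nat 1).mpr hlimp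
      refine this.congr fun N => ?_
      push_cast
      rfl
    have hlimrec : u * (a / c) = v * (a / c) + w * Complex.I := by
      have hl1 : Tendsto (fun N : ℕ => (u : ℂ) * f ((N : ℤ) + 1)) atTop (𝓝 (u * (a / c))) :=
        hlimp1.const_mul _
      have hl2 : Tendsto (fun N : ℕ => (v : ℂ) * f N + w * Complex.I) atTop
          (𝓝 (v * (a / c) + w * Complex.I)) := (hlimp.const_mul _).add_const _
      refine tendsto_nhds_unique hl1 (hl2.congr fun N => (hrec N).symm)
    have huv : u = v := by
      have := congrArg Complex.re hlimrec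
      simp only [Complex.add_re, Complex.mul_re, Complex.ofReal_re,
        Complex.I_re, mul_zero, Complex.ofReal_im, Complex.I_im, mul_one, sub_self,
        add_zero] at this
      exact mul_right_cancel₀ hρ (by linarith)
    have hw : w = 0 := by
      rw [huv] at hlimrec
      have h6 : (w : ℂ) * Complex.I = 0 := by
        have := hlimrec
        have h7 : (v : ℂ) * (a / c) + 0 = v * (a / c) + w * Complex.I := by
          rw [add_zero]; exact this
        exact (add_left_cancel h7).symm
      have h8 := (mul_eq_zero.mp h6).resolve_right Complex.I_ne_zero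
      exact_mod_cast h8
    have h9 := hrec 0
    rw [huv, hw] at h9
    have hv0 : (v : ℂ) ≠ 0 := by exact_mod_cast hv.ne'
    have h10 : f (0 + 1) = f 0 := by
      have : (v : ℂ) * f (0 + 1) = v * f 0 := by simpa using h9
      exact mul_left_cancel₀ hv0 this
    rw [hf] at h10
    simp only at h10
    have h11 := h2 (hmem (0 + 1)) (hmem 0) h10
    have h12 : s = 0 := by
      push_cast at h11
      have h13 : (1 : ℂ) + s = 1 + 0 := by simpa using h11
      exact add_left_cancel h13
    exact hs0 h12
  -- the affine case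
  have he : e ≠ 0 := by
    have := (hM 1 hone).1
    rw [hc] at this
    simpa using this
  obtain ⟨m, hm⟩ : ∃ m : ℂ, m = a / e := ⟨_, rfl⟩
  obtain ⟨n, hn⟩ : ∃ n : ℂ, n = b / e := ⟨_, rfl⟩
  have hMa : ∀ β ∈ HP, M β = m * β + n := by
    intro β hβ
    rw [(hM β hβ).2, hc, hm, hn, zero_mul, zero_add, add_div, mul_div_right_comm]
  have him : m.im = 0 := by
    by_contra him
    -- choose t with m.re - t m.im + n.re = 0
    obtain ⟨t, ht⟩ : ∃ t : ℝ, t = (m.re + n.re) / m.im := ⟨_, rfl⟩
    have h6 := h1 (htr 1 hone t)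
    rw [hMa _ (htr 1 hone t)] at h6
    have h7 : 0 < (m * (1 + t * Complex.I) + n).re := h6
    simp only [Complex.add_re, Complex.mul_re, Complex.one_re, Complex.ofReal_re, Complex.I_re,
      mul_zero, Complex.ofReal_im, Complex.I_im, mul_one, sub_self, add_zero, Complex.add_im,
      Complex.one_im, Complex.mul_im, zero_add] at h7
    have h8 : m.im * t = m.re + n.re := by rw [ht]; field_simp
    linarith
  have hreM : ∀ x : ℝ, 0 < x → 0 < m.re * x + n.re := by
    intro x hx
    have hxHP : (x : ℂ) ∈ HP := by show 0 < (x : ℂ).re; simpa using hx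
    have h6 : 0 < (M x).re := h1 hxHP
    rw [hMa _ hxHP] at h6
    simpa using h6
  have hn0 : 0 ≤ n.re := by
    by_contra hneg
    push Not at hneg
    by_cases hm0 : m.re ≤ 0
    · have := hreM 1 one_pos
      linarith
    · push Not at hm0
      have h6 := hreM (-n.re / (2 * m.re)) (by
        apply div_pos <;> linarith)
      have h7 : m.re * (-n.re / (2 * m.re)) = -n.re / 2 := by field_simp
      rw [h7] at h6
      linarith
  have hmre : 0 < m.re := by
    by_contra hneg
    push Not at hneg
    rcases hneg.lt_or_eq with hlt | heq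
    · have h6 := hreM ((n.re + 1) / (-m.re)) (by
        apply div_pos <;> linarith)
      have hne : m.re ≠ 0 := hlt.ne
      have h7 : m.re * ((n.re + 1) / (-m.re)) = -(n.re + 1) := by field_simp
      rw [h7] at h6
      linarith
    · have hm0 : m = 0 := Complex.ext heq him
      have htwo : (2 : ℂ) ∈ HP := by show 0 < (2 : ℂ).re; simp
      have h6 : M 1 = M 2 := by rw [hMa 1 hone, hMa 2 htwo, hm0]; ring
      have h7 := h2 hone htwo h6
      norm_num at h7
  have hn00 : n.re = 0 := by
    refine le_antisymm ?_ hn0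
    refine le_of_forall_pos_lt_add fun ε hε => ?_
    have hεHP : (ε : ℂ) ∈ HP := by show 0 < (ε : ℂ).re; simpa using hε
    obtain ⟨β, hβ, hβε⟩ := h3 hεHP
    rw [hMa β hβ] at hβε
    have h6 := congrArg Complex.re hβε
    have h7 : (m * β + n).re = m.re * β.re + n.re := by
      rw [Complex.add_re, Complex.mul_re, him]
      ring
    rw [h7, Complex.ofReal_re] at h6
    have h8 : 0 < β.re := hβ
    have h9 := mul_pos hmre h8
    linarith
  refine ⟨m.re, n.im, hmre, fun β hβ => ?_⟩
  rw [hMa β hβ]
  have e1 : m = (m.re : ℂ) := Complex.ext (by simp) (by simp [him])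
  have e2 : n = (n.im : ℂ) * Complex.I := Complex.ext (by simp [hn00]) (by simp)
  rw [← e1, ← e2]

end HEN
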