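import Pool.Agent.Lib.MP_e79cb7_ag.FMP
import Pool.Agent.Lib.MP_e79cb7_ag.FOU
import Pool.Agent.Lib.MP_e79cb7_ag.CON1
import Pool.Agent.Lib.MP_e79cb7_ag.ST1
import Pool.Agent.Lib.MP_e79cb7_ag.ST2

open Filter Topology Polynomial Bornology

noncomputable section

namespace HEN


private theorem st3_F_iter_fst {d : ℕ} {lam : ℂ} {Q : ℂ[X]} (n : ℕ) (x : ℂ × ℂ) :
    ((F d lam Q)^[n] x).1 = (d : ℂ) ^ n * x.1 := by
  induction n with
  | zero => simp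
  | succ n ih =>
    rw [Function.iterate_succ_apply']
    show (d : ℂ) * ((F d lam Q)^[n] x).1 = _
    rw [ih, pow_succ]
    ring

private theorem st3_HP_E {β : ℂ} (h : β ∈ HP) (z : ℂ) : (β, z) ∈ E := h

private theorem st3_HP_shift {β : ℂ} (h : β ∈ HP) : β + 2 * Real.pi * Complex.I ∈ HP := by
  show 0 < (β + 2 * Real.pi * Complex.I).re
  have h1 : 0 < β.re := h
  simpa using h1

private theorem st3_HP_mul {d : ℕ} (hd : 2 ≤ d) {β : ℂ} (h : β ∈ HP) : (d : ℂ) * β ∈ HP := by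
  show 0 < ((d : ℂ) * β).re
  have h1 : 0 < β.re := h
  have hdpos : (0 : ℝ) < d := by exact_mod_cast (by omega : 0 < d)
  have h2 : ((d : ℂ) * β).re = d * β.re := by
    have := Complex.re_ofReal_mul (d : ℝ) β
    simpa using this
  rw [h2]
  positivity

private theorem st3_one : (1 : ℂ) ∈ HP := by
  show 0 < (1 : ℂ).re
  simp

private theorem st3_two : (2 : ℂ) ∈ HP := by
  show 0 < (2 : ℂ).re
  simp

/-- first half: the first coordinate -/
private theorem st3_first {d d' : ℕ} (hd' : 2 ≤ d') {lam lam' : ℂ}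
    {Q Q' : ℂ[X]} {Φ : ℂ × ℂ → ℂ × ℂ} {M A B : ℂ → ℂ}
    (hΦ : ∀ x ∈ E, Φ x = (M x.1, A x.1 * x.2 + B x.1)) (hM1 : Set.MapsTo M HP HP)
    (hM2 : Set.InjOn M HP) (hM3 : Set.SurjOn M HP HP)
    (hM4 : ∃ a b c e : ℂ, ∀ β ∈ HP, c * β + e ≠ 0 ∧ M β = (a * β + b) / (c * β + e))
    (hd : 2 ≤ d) (h7 : LiftData d lam Q d' lam' Q' Φ) :
    ∃ μ ν : ℝ, 0 < μ ∧ (∀ β ∈ HP, M β = μ * β + ν * Complex.I) ∧
      (∃ (n m : ℕ) (j : ℤ), d' ^ n * d = d' ^ m ∧ ∀ x ∈ E,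
        (F d' lam' Q')^[n] (Φ (F d lam Q x)) = T j ((F d' lam' Q')^[m] (Φ x))) ∧
      (∃ (n : ℕ) (j : ℤ), ∀ x ∈ E,
        (F d' lam' Q')^[n] (Φ (T 1 x)) = T j ((F d' lam' Q')^[n] (Φ x))) := by
  obtain ⟨⟨n₁, m₁, j₁, ha⟩, ⟨n, m, j, hb⟩⟩ := h7
  have hdp : (0 : ℝ) < d' := by exact_mod_cast (by omega : 0 < d')
  have hdp0 : (d' : ℂ) ≠ 0 := by exact_mod_cast (by omega : d' ≠ 0)
  -- first coordinates of `hb`
  have hb1 : ∀ β ∈ HP, (d' : ℂ) ^ n * M (β + 2 * Real.pi * Complex.I) =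
      (d' : ℂ) ^ m * M β + 2 * Real.pi * Complex.I * j := by
    intro β hβ
    have h1 := congrArg Prod.fst (hb (β, 0) (st3_HP_E hβ 0))
    have h2 : T 1 (β, 0) = (β + 2 * Real.pi * Complex.I, 0) := by
      unfold T
      simp
    rw [st3_F_iter_fst, h2, hΦ _ (st3_HP_E (st3_HP_shift hβ) 0)] at h1
    unfold T at h1
    simp only at h1
    rw [st3_F_iter_fst, hΦ _ (st3_HP_E hβ 0)] at h1
    exact h1
  have ha1 : ∀ β ∈ HP, (d' : ℂ) ^ n₁ * M (d * β) =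
      (d' : ℂ) ^ m₁ * M β + 2 * Real.pi * Complex.I * j₁ := by
    intro β hβ
    have h1 := congrArg Prod.fst (ha (β, 0) (st3_HP_E hβ 0))
    have h2 : F d lam Q (β, 0) = (d * β, lam * 0 + Q.eval (Complex.exp β)) := rfl
    rw [st3_F_iter_fst, h2, hΦ _ (st3_HP_E (st3_HP_mul hd hβ) _)] at h1
    unfold T at h1
    simp only at h1
    rw [st3_F_iter_fst, hΦ _ (st3_HP_E hβ 0)] at h1
    exact h1
  obtain ⟨μ, ν, hμ, hM⟩ := first_coord hM1 hM2 hM3 hM4 (u := (d' : ℝ) ^ n) (v := (d' : ℝ) ^ m)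
    (w := 2 * Real.pi * j) (by positivity) (by positivity) (by
      intro β hβ
      have h1 := hb1 β hβ
      push_cast
      rw [h1]
      ring)
  have hμ0 : (μ : ℂ) ≠ 0 := by exact_mod_cast hμ.ne'
  refine ⟨μ, ν, hμ, hM, ⟨n₁, m₁, j₁, ?_, ha⟩, ?_⟩
  · -- compare at 1 and 2
    have e1 := ha1 1 st3_one
    have e2 := ha1 2 st3_two
    rw [hM _ (st3_HP_mul hd st3_one), hM _ st3_one] at e1
    rw [hM _ (st3_HP_mul hd st3_two), hM _ st3_two] at e2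
    have e3 : (μ : ℂ) * ((d' : ℂ) ^ n₁ * d) = μ * (d' : ℂ) ^ m₁ := by
      linear_combination e2 - e1
    have e4 := mul_left_cancel₀ hμ0 e3
    exact_mod_cast e4
  · have e1 := hb1 1 st3_one
    have e2 := hb1 2 st3_two
    rw [hM _ (st3_HP_shift st3_one), hM _ st3_one] at e1
    rw [hM _ (st3_HP_shift st3_two), hM _ st3_two] at e2
    have e3 : (μ : ℂ) * ((d' : ℂ) ^ n) = μ * (d' : ℂ) ^ m := by
      linear_combination e2 - e1
    have e4 := mul_left_cancel₀ hμ0 e3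
    have e5 : d' ^ n = d' ^ m := by exact_mod_cast e4
    have e6 : n = m := Nat.pow_right_injective hd' e5
    subst e6
    exact ⟨n, j, hb⟩

private theorem st3_pow {d d' : ℕ} (hd : 2 ≤ d) (hd' : 2 ≤ d') {n m : ℕ}
    (h : d' ^ n * d = d' ^ m) : ∃ s, 1 ≤ s ∧ m = n + s ∧ d = d' ^ s := by
  have hlt : d' ^ n < d' ^ m := by
    rw [← h]
    have : 0 < d' ^ n := by positivity
    nlinarith
  have hnm : n < m := (Nat.pow_lt_pow_iff_right hd').mp hlt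
  refine ⟨m - n, by omega, by omega, ?_⟩
  have h2 : d' ^ m = d' ^ n * d' ^ (m - n) := by
    rw [← pow_add]
    congr 1
    omega
  rw [h2] at h
  exact Nat.eq_of_mul_eq_mul_left (by positivity) h

/-- the form of the iterates -/
private theorem st3_form {d : ℕ} (hd : 2 ≤ d) {lam' : ℂ} (hlam' : lam' ≠ 0) {Q' : ℂ[X]}
    {Φ : ℂ × ℂ → ℂ × ℂ} {M A B : ℂ → ℂ} (hMd : DifferentiableOn ℂ M HP)
    (hAd : DifferentiableOn ℂ A HP) (hBd : DifferentiableOn ℂ B HP) (hA0 : ∀ β ∈ HP, A β ≠ 0)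
    (hΦ : ∀ x ∈ E, Φ x = (M x.1, A x.1 * x.2 + B x.1)) (N : ℕ) :
    ∃ A₁ B₁ : ℂ → ℂ, DifferentiableOn ℂ A₁ HP ∧ DifferentiableOn ℂ B₁ HP ∧
      (∀ β ∈ HP, A₁ β ≠ 0) ∧
      ∀ x ∈ E, (F d lam' Q')^[N] (Φ x) = ((d : ℂ) ^ N * M x.1, A₁ x.1 * x.2 + B₁ x.1) := by
  induction N with
  | zero =>
    refine ⟨A, B, hAd, hBd, hA0, fun x hx => ?_⟩
    rw [Function.iterate_zero, id, hΦ x hx, pow_zero, one_mul]
  | succ N ih =>
    obtain ⟨A₁, B₁, h1, h2, h3, h4⟩ := ih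
    refine ⟨fun β => lam' * A₁ β,
      fun β => lam' * B₁ β + Q'.eval (Complex.exp ((d : ℂ) ^ N * M β)), h1.const_mul _, ?_, ?_, ?_⟩
    · refine (h2.const_mul _).add ?_
      have h5 : DifferentiableOn ℂ (fun β => Complex.exp ((d : ℂ) ^ N * M β)) HP :=
        (hMd.const_mul _).cexp
      exact Q'.differentiable.comp_differentiableOn h5
    · intro β hβ
      exact mul_ne_zero hlam' (h3 β hβ)
    · intro x hx
      rw [Function.iterate_succ_apply', h4 x hx]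
      unfold F
      simp only
      ext
      · simp only
        rw [pow_succ]
        ring
      · simp only
        ring

/- Module ST3 (file ST3.lean): structure theorem (assembly of ST1, ST2, CON, FOU) -/
theorem structure_thm {d d' : ℕ} (hd : 2 ≤ d) (hd' : 2 ≤ d') {lam lam' : ℂ} (hlam : lam ≠ 0)
    (hlam' : lam' ≠ 0) {Q Q' : ℂ[X]} {Φ Φ' : ℂ × ℂ → ℂ × ℂ}
    (h1 : DifferentiableOn ℂ Φ E) (h2 : Set.MapsTo Φ E E)
    (h3 : DifferentiableOn ℂ Φ' E) (h4 : Set.MapsTo Φ' E E) (h5 : ∀ x ∈ E, Φ' (Φ x) = x)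
    (h6 : ∀ x ∈ E, Φ (Φ' x) = x) (h7 : LiftData d lam Q d' lam' Q' Φ)
    (h8 : LiftData d' lam' Q' d lam Q Φ') :
    d = d' ∧ lam = lam' ∧ ∃ (m : ℕ) (ζ α : ℂ), 1 ≤ m ∧ ζ ^ (d - 1) = 1 ∧ α ≠ 0 ∧
      ∀ j : ℕ, 1 ≤ j → ¬ d ∣ j → ∀ᶠ N : ℕ in atTop, ∑ n ∈ Finset.range N,
        lam ^ n * ((Q'.comp (C ζ * X ^ m)) - C α * Q).coeff (d ^ n * j) = 0 := by
  obtain ⟨M, A, B, hMd, hAd, hBd, hA0, hΦ, hM1, hM2, hM3, hM4⟩ :=
    fiber_structure h1 h2 h3 h4 h5 h6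
  obtain ⟨M', A', B', _, _, _, _, hΦ', hM1', hM2', hM3', hM4'⟩ :=
    fiber_structure h3 h4 h1 h2 h6 h5
  obtain ⟨μ, ν, hμ, hM, ⟨n₁, m₁, j₁, hpow, ha⟩, ⟨n₂, j₂, hb⟩⟩ :=
    st3_first hd' hΦ hM1 hM2 hM3 hM4 hd h7
  obtain ⟨_, _, _, _, ⟨n₃, m₃, j₃, hpow', _⟩, _⟩ :=
    st3_first hd hΦ' hM1' hM2' hM3' hM4' hd' h8
  obtain ⟨s, hs1, hs2, hs3⟩ := st3_pow hd hd' hpow
  obtain ⟨t, ht1, _, ht3⟩ := st3_pow hd' hd hpow'
  have hdd : d = d' := by
    have h9 : d = d ^ (t * s) := by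
      conv_lhs => rw [hs3, ht3]
      rw [← pow_mul]
    have h10 : t * s = 1 := by
      have h11 : d ^ 1 = d ^ (t * s) := by rw [pow_one]; exact h9
      exact (Nat.pow_right_injective hd h11).symm
    have h12 : s = 1 := Nat.eq_one_of_mul_eq_one_left h10
    rw [hs3, h12, pow_one]
  subst hdd
  have hs : s = 1 := by
    have h11 : d ^ 1 = d ^ s := by rw [pow_one]; exact hs3
    exact (Nat.pow_right_injective hd h11).symm
  subst hs
  subst hs2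
  obtain ⟨hFm, -, -, -, -, -, hTm, -, hTT, -, hFT, -, -⟩ := F_facts hd hlam Q
  obtain ⟨-, -, -, -, -, -, -, -, -, -, hFT', -, -⟩ := F_facts hd hlam' Q'
  -- a large iterate
  set N : ℕ := n₁ + n₂ with hN
  obtain ⟨A₁, B₁, hA₁, hB₁, hA₁0, hform⟩ := st3_form hd hlam' (Q' := Q') hMd hAd hBd hA0 hΦ N
  have hF1 : ∀ x ∈ E, (F d lam' Q')^[N] (Φ (F d lam Q x)) =
      T (d ^ n₂ * j₁) (F d lam' Q' ((F d lam' Q')^[N] (Φ x))) := by
    intro x hx
    have e1 : (F d lam' Q')^[N] (Φ (F d lam Q x)) =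
        (F d lam' Q')^[n₂] ((F d lam' Q')^[n₁] (Φ (F d lam Q x))) := by
      rw [← Function.iterate_add_apply, hN, Nat.add_comm]
    rw [e1, ha x hx, hFT', ← Function.iterate_succ_apply' (F d lam' Q') N,
      ← Function.iterate_add_apply]
    congr 2
    omega
  have hT1 : ∀ x ∈ E, (F d lam' Q')^[N] (Φ (T 1 x)) =
      T (d ^ n₁ * j₂) ((F d lam' Q')^[N] (Φ x)) := by
    intro x hx
    rw [hN, Function.iterate_add_apply, hb x hx, hFT', ← Function.iterate_add_apply]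
  set m' : ℤ := d ^ n₁ * j₂ with hm'
  set j' : ℤ := d ^ n₂ * j₁ with hj'
  have hpi : (2 * Real.pi * Complex.I : ℂ) ≠ 0 := Complex.two_pi_I_ne_zero
  have hT2 : ∀ β : ℂ, ∀ z : ℂ, T 1 (β, z) = (β + 2 * Real.pi * Complex.I, z) := by
    intro β z
    unfold T
    simp
  -- coordinates of hT1
  have hTc : ∀ β ∈ HP, ∀ z : ℂ, (d : ℂ) ^ N * M (β + 2 * Real.pi * Complex.I) =
      (d : ℂ) ^ N * M β + 2 * Real.pi * Complex.I * m' ∧
      A₁ (β + 2 * Real.pi * Complex.I) * z + B₁ (β + 2 * Real.pi * Complex.I) =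
      A₁ β * z + B₁ β := by
    intro β hβ z
    have e1 := hT1 (β, z) (st3_HP_E hβ z)
    rw [hT2, hform _ (st3_HP_E (st3_HP_shift hβ) z), hform _ (st3_HP_E hβ z)] at e1
    unfold T at e1
    simp only [Prod.mk.injEq] at e1
    exact e1
  have hFc : ∀ β ∈ HP, ∀ z : ℂ, (d : ℂ) ^ N * M (d * β) =
      d * ((d : ℂ) ^ N * M β) + 2 * Real.pi * Complex.I * j' ∧
      A₁ (d * β) * (lam * z + Q.eval (Complex.exp β)) + B₁ (d * β) =
      lam' * (A₁ β * z + B₁ β) + Q'.eval (Complex.exp ((d : ℂ) ^ N * M β)) := by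
    intro β hβ z
    have e1 := hF1 (β, z) (st3_HP_E hβ z)
    have e2 : F d lam Q (β, z) = (d * β, lam * z + Q.eval (Complex.exp β)) := rfl
    rw [e2, hform _ (st3_HP_E (st3_HP_mul hd hβ) _), hform _ (st3_HP_E hβ z)] at e1
    unfold T F at e1
    simp only [Prod.mk.injEq] at e1
    exact e1
  -- the integer m
  have hμm : (d : ℝ) ^ N * μ = m' := by
    have e1 := (hTc 1 st3_one 0).1
    rw [hM _ (st3_HP_shift st3_one), hM _ st3_one] at e1
    have e2 : (2 * Real.pi * Complex.I : ℂ) * ((d : ℂ) ^ N * μ) =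
        2 * Real.pi * Complex.I * m' := by
      linear_combination e1
    have e3 := mul_left_cancel₀ hpi e2
    exact_mod_cast e3
  have hdpos : (0 : ℝ) < d := by exact_mod_cast (by omega : 0 < d)
  have hm'pos : 0 < m' := by
    have : (0 : ℝ) < (m' : ℝ) := by
      rw [← hμm]
      positivity
    exact_mod_cast this
  obtain ⟨m, hm⟩ : ∃ m : ℕ, (m : ℤ) = m' := ⟨m'.toNat, Int.toNat_of_nonneg hm'pos.le⟩
  have hm1 : 1 ≤ m := by omega
  have hmμ : (d : ℂ) ^ N * μ = m := by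
    have : (d : ℝ) ^ N * μ = m := by
      rw [hμm, ← hm]
      push_cast
      rfl
    exact_mod_cast this
  set ν₁ : ℂ := (d : ℂ) ^ N * (ν * Complex.I) with hν₁
  have hM₁ : ∀ β ∈ HP, (d : ℂ) ^ N * M β = m * β + ν₁ := by
    intro β hβ
    rw [hM β hβ, ← hmμ, hν₁]
    ring
  set ζ : ℂ := Complex.exp ν₁ with hζ
  have hζ1 : ζ ^ (d - 1) = 1 := by
    have e1 := (hFc 1 st3_one 0).1
    rw [hM₁ _ (st3_HP_mul hd st3_one), hM₁ _ st3_one] at e1
    have e2 : ((d - 1 : ℕ) : ℂ) * ν₁ = ((-j' : ℤ) : ℂ) * (2 * Real.pi * Complex.I) := by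
      have e3 : ((d - 1 : ℕ) : ℂ) = d - 1 := by
        rw [Nat.cast_sub (by omega)]
        push_cast
        rfl
      rw [e3]
      push_cast
      linear_combination -e1
    rw [hζ, ← Complex.exp_nat_mul, e2, Complex.exp_int_mul_two_pi_mul_I]
  -- the linear coefficient
  have hAper : ∀ β ∈ HP, A₁ (β + 2 * Real.pi * Complex.I) = A₁ β := by
    intro β hβ
    have e0 := (hTc β hβ 0).2
    have e1 := (hTc β hβ 1).2
    linear_combination e1 - e0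
  have hBper : ∀ β ∈ HP, B₁ (β + 2 * Real.pi * Complex.I) = B₁ β := by
    intro β hβ
    have e0 := (hTc β hβ 0).2
    linear_combination e0
  have hAd2 : ∀ β ∈ HP, lam * A₁ (d * β) = lam' * A₁ β := by
    intro β hβ
    have e0 := (hFc β hβ 0).2
    have e1 := (hFc β hβ 1).2
    linear_combination e1 - e0
  obtain ⟨α, hα⟩ := linear_coeff_const hd (κ := lam' / lam) hA₁ hA₁0 hAper (by
    intro β hβ
    have e1 := hAd2 β hβ
    field_simp
    linear_combination e1)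
  have hα0 : α ≠ 0 := by
    rw [← hα 1 st3_one]
    exact hA₁0 1 st3_one
  have hll : lam = lam' := by
    have e1 := hAd2 1 st3_one
    rw [hα _ (st3_HP_mul hd st3_one), hα _ st3_one] at e1
    exact mul_right_cancel₀ hα0 e1
  subst hll
  refine ⟨rfl, rfl, m, ζ, α, hm1, hζ1, hα0, ?_⟩
  refine fourier_obstruction hd hlam hB₁ hBper _ ?_
  intro β hβ
  have e0 := (hFc β hβ 0).2
  rw [hα _ (st3_HP_mul hd hβ), hα _ hβ, hM₁ β hβ] at e0
  have e1 : Complex.exp (m * β + ν₁) = ζ * Complex.exp β ^ m := by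
    rw [Complex.exp_add, Complex.exp_nat_mul, hζ]
    ring
  rw [e1] at e0
  rw [eval_sub, eval_comp, eval_mul, eval_mul, eval_C, eval_C, eval_pow, eval_X]
  linear_combination e0

end HEN
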