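import Pool.Agent.Lib.MP_e79cb7_ag.PCK
import Pool.Agent.Lib.MP_e79cb7_ag.PSI
import Pool.Agent.Lib.MP_e79cb7_ag.LFT
import Pool.Agent.Lib.MP_e79cb7_ag.ST3
import Pool.Agent.Lib.MP_e79cb7_ag.AL3
import Pool.Agent.Lib.MP_e79cb7_ag.PUN

/-! # Main theorem for normalized data -/

open Filter Topology Polynomial Bornology

noncomputable section

namespace HEN

/-! ## Periodicity helpers -/

private theorem per_int {α : Type*} {k : ℕ} {u : ℤ → α} (h : ∀ i, u (i + k) = u i) (i : ℤ)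
    (m : ℤ) : u (i + m * k) = u i := by
  induction m using Int.induction_on with
  | zero => simp
  | succ m ih =>
    have : i + ((m : ℤ) + 1) * k = (i + m * k) + k := by ring
    rw [this, h, ih]
  | pred m ih =>
    have := h (i + (-(m : ℤ) - 1) * k)
    rw [← this]
    have e : i + (-(m : ℤ) - 1) * k + k = i + -(m : ℤ) * k := by ring
    rw [e, ih]

private theorem exists_nat {k : ℕ} (hk : 0 < k) (i : ℤ) : ∃ (n : ℕ) (m : ℤ), i + m * k = n + 1 := by
  refine ⟨((i - 1) + (|i| + 1) * k).toNat, |i| + 1, ?_⟩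
  have h1 : 0 ≤ (i - 1) + (|i| + 1) * k := by
    have h2 : (1 : ℤ) ≤ k := by exact_mod_cast hk
    have h3 : -|i| ≤ i := neg_abs_le i
    have h4 : 0 ≤ |i| := abs_nonneg i
    nlinarith
  rw [Int.toNat_of_nonneg h1]
  ring

private theorem Dp_add (d : ℕ → ℕ) {k : ℕ} (hd : ∀ i, d (i + k) = d i) (i : ℕ) :
    Dp d (i + k) = Dp d k * Dp d i := by
  unfold Dp
  rw [Nat.add_comm, Finset.prod_range_add]
  congr 1
  refine Finset.prod_congr rfl (fun j _ => ?_)
  rw [Nat.add_comm, hd]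

private theorem Dp_pos {d : ℕ → ℕ} (hd : ∀ i, 2 ≤ d i) (n : ℕ) : 0 < Dp d n :=
  Finset.prod_pos (fun i _ => by have := hd i; omega)

private theorem two_le_Dp {d : ℕ → ℕ} (hd : ∀ i, 2 ≤ d i) {n : ℕ} (hn : 0 < n) : 2 ≤ Dp d n := by
  obtain ⟨m, rfl⟩ : ∃ m, n = m + 1 := ⟨n - 1, by omega⟩
  unfold Dp
  rw [Finset.prod_range_succ]
  have h1 : 0 < ∏ x ∈ Finset.range m, d x := Dp_pos hd m
  have h2 := hd m
  nlinarith

theorem rel_of_norm {k l : ℕ} {a b : ℤ → ℂ} {P Q : ℤ → ℂ[X]} (hD : IsData k a P)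
    (hN : IsNorm P) (hD' : IsData l b Q) (hN' : IsNorm Q)
    (hB : Biholo (comp a P 0 k) (comp b Q 0 l)) :
    l = k ∧ ∃ (r : ℤ) (α β : ℤ → ℂ), Rel k a P b Q r α β := by
  obtain ⟨q, c, hq, hqk, hck, hp⟩ := pack_of_norm hD hN
  obtain ⟨q', c', hq', hqk', hck', hp'⟩ := pack_of_norm hD' hN'
  obtain ⟨Ψ, hΨ⟩ := cover_of_pack hp
  obtain ⟨Ψ', hΨ'⟩ := cover_of_pack hp'
  obtain ⟨Φ, Φ', g1, g2, g3, g4, g5, g6, g7, g8⟩ := lift_biholo hΨ hΨ' hB
  obtain ⟨e1, e2, m, ζ, α, hm, hζ, hα, hO⟩ := structure_thm hp.1 hp'.1 hp.2.1 hp'.2.1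
    g1 g2 g3 g4 g5 g6 g7 g8
  -- sequences
  have hdge : ∀ i : ℕ, 2 ≤ (P (i : ℤ)).natDegree := fun i => hD.hd _
  have hdge' : ∀ i : ℕ, 2 ≤ (Q (i : ℤ)).natDegree := fun i => hD'.hd _
  have hlam : ∀ i : ℤ, lm a P i ≠ 0 := fun i => by
    unfold lm
    have := hD.hd i
    exact div_ne_zero (hD.ha i) (by exact_mod_cast (by omega : (P i).natDegree ≠ 0))
  have hlam' : ∀ i : ℤ, lm b Q i ≠ 0 := fun i => by
    unfold lm
    have := hD'.hd i
    exact div_ne_zero (hD'.ha i) (by exact_mod_cast (by omega : (Q i).natDegree ≠ 0))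
  have hper1 : ∀ i : ℕ, (P ((i + k : ℕ) : ℤ)).natDegree = (P (i : ℤ)).natDegree := fun i => by
    push_cast
    rw [hD.pP]
  have hper1' : ∀ i : ℕ, (Q ((i + l : ℕ) : ℤ)).natDegree = (Q (i : ℤ)).natDegree := fun i => by
    push_cast
    rw [hD'.pP]
  have hlmk : ∀ i : ℤ, lm a P (i + k) = lm a P i := fun i => by
    unfold lm
    rw [hD.pa, hD.pP]
  have hlml : ∀ i : ℤ, lm b Q (i + l) = lm b Q i := fun i => by
    unfold lm
    rw [hD'.pa, hD'.pP]
  have hcoef : ∀ (q : ℤ → ℂ[X]) (c : ℤ → ℂ) (P : ℤ → ℂ[X]) (hq : ∀ i, IsQ (P i) (q i))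
      (hd : ∀ i, 2 ≤ (P i).natDegree) (i : ℤ),
      (q i + C (c i)).Monic ∧ (q i + C (c i)).natDegree = (P i).natDegree + 1 ∧
        (q i + C (c i)).coeff (P i).natDegree = 0 := by
    intro q c P hq hd i
    have h1 := hd i
    have hdeg : (q i + C (c i)).natDegree = (P i).natDegree + 1 := by
      rw [natDegree_add_C, (hq i).deg]
    refine ⟨?_, hdeg, ?_⟩
    · rw [Monic, leadingCoeff, hdeg, coeff_add, coeff_C, if_neg (by omega), add_zero,
        ← (hq i).deg]
      exact (hq i).monic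
    · rw [coeff_add, coeff_C, if_neg (by omega), add_zero]
      exact (hq i).cent
  obtain ⟨hlk, r, hd1, hl1, hc1⟩ := algebra_thm (k := k) (l := l) hD.hk hD'.hk
    (d := fun n => (P (n : ℤ)).natDegree) (d' := fun n => (Q (n : ℤ)).natDegree)
    (lam := fun n => lm a P (n : ℤ)) (lam' := fun n => lm b Q (n : ℤ))
    (q := fun n => q (n : ℤ) + C (c (n : ℤ))) (q' := fun n => q' (n : ℤ) + C (c' (n : ℤ)))
    hdge hdge' (fun i => hlam _) (fun i => hlam' _) hper1 hper1'
    (fun i => by push_cast; exact hlmk _) (fun i => by push_cast; exact hlml _)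
    (fun i => by push_cast; rw [hqk, hck]) (fun i => by push_cast; rw [hqk', hck'])
    (fun i => hcoef q c P hq hD.hd i) (fun i => hcoef q' c' Q hq' hD'.hd i)
    e1 e2 hm hζ hα hO
  subst hlk
  refine ⟨rfl, r, ?_⟩
  -- now k = l
  set D' : ℕ → ℕ := fun n => Dp (fun n => (Q (n : ℤ)).natDegree) n with hD'def
  have hζ0 : ζ ≠ 0 := by
    intro h0
    rw [h0, zero_pow] at hζ
    · exact zero_ne_one hζ
    · have := two_le_Dp hdge hD.hk
      omega
  have hζd : ζ ^ (D' l) = ζ := by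
    have h1 : D' l = Dp (fun n => (P (n : ℤ)).natDegree) l := e1.symm
    have h2 := two_le_Dp hdge hD.hk
    rw [h1]
    calc ζ ^ Dp (fun n => (P (n : ℤ)).natDegree) l
        = ζ ^ (Dp (fun n => (P (n : ℤ)).natDegree) l - 1 + 1) := by
          congr 1
          omega
      _ = ζ := by rw [pow_succ, hζ, one_mul]
  have hν1 : ∀ i : ℕ, ζ ^ (D' (i + l)) = ζ ^ (D' i) := by
    intro i
    have : D' (i + l) = D' l * D' i := Dp_add _ hper1' i
    rw [this, pow_mul, hζd]
  -- the sequence ν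
  let ν : ℤ → ℂ := fun i => ζ ^ (D' (i % (l : ℤ)).toNat)
  have hlpos : (0 : ℤ) < l := by exact_mod_cast hD'.hk
  have hνper : ∀ i : ℤ, ν (i + l) = ν i := by
    intro i
    simp only [ν]
    rw [Int.add_emod_right]
  have hνnat : ∀ i : ℕ, ν (i : ℤ) = ζ ^ (D' i) := by
    intro i
    have h1 : ∀ m s : ℕ, ζ ^ (D' (s + m * l)) = ζ ^ (D' s) := by
      intro m s
      induction m with
      | zero => simp
      | succ m ih =>
        have : s + (m + 1) * l = (s + m * l) + l := by ring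
        rw [this, hν1, ih]
    have h2 : ((i : ℤ) % (l : ℤ)).toNat = i % l := by
      have : ((i : ℤ) % (l : ℤ)) = ((i % l : ℕ) : ℤ) := by push_cast; rfl
      rw [this, Int.toNat_natCast]
    simp only [ν, h2]
    conv_rhs => rw [← Nat.mod_add_div i l, Nat.mul_comm]
    rw [h1]
  have hν0 : ∀ i, ν i ≠ 0 := fun i => pow_ne_zero _ hζ0
  have hd2 : ∀ i : ℤ, (Q i).natDegree = (P (i + r)).natDegree := by
    intro i
    obtain ⟨n, s, hn⟩ := exists_nat hD'.hk i
    have h1 := per_int (u := fun i => (Q i).natDegree) (fun i => by rw [hD'.pP]) i s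
    have h2 := per_int (u := fun i => (P i).natDegree) (fun i => by rw [hD.pP]) (i + r) s
    have h3 := hd1 (n + 1)
    rw [← h1, ← h2]
    have e : i + (r : ℤ) + s * (l : ℤ) = (i + s * l) + r := by ring
    rw [e, hn]
    push_cast at h3
    exact h3
  have hνsucc : ∀ i : ℤ, ν i ^ (Q i).natDegree = ν (i + 1) := by
    intro i
    obtain ⟨n, s, hn⟩ := exists_nat hD'.hk i
    have h1 := per_int (u := fun i => (Q i).natDegree) (fun i => by rw [hD'.pP]) i s
    have h2 := per_int hνper i s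
    have h3 := per_int hνper (i + 1) s
    rw [← h1, ← h2, ← h3]
    have e : i + 1 + s * (l : ℤ) = (i + s * l) + 1 := by ring
    rw [e, hn]
    have h4 : ν ((n : ℤ) + 1) = ζ ^ (D' (n + 1)) := by
      have := hνnat (n + 1)
      push_cast at this
      exact this
    have h5 : ν ((n : ℤ) + 1 + 1) = ζ ^ (D' (n + 1 + 1)) := by
      have := hνnat (n + 1 + 1)
      push_cast at this
      exact this
    rw [h4, h5, ← pow_mul]
    congr 1
    simp only [hD'def, Dp]
    rw [Finset.prod_range_succ _ (n + 1)]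
    push_cast
    rfl
  refine ⟨fun i => (ν i)⁻¹, fun _ => 0, fun i => inv_ne_zero (hν0 i), fun i => ?_, fun i => rfl,
    ?_, ?_⟩
  · simp only [hνper]
  · -- the coefficients b
    intro i
    obtain ⟨n, s, hn⟩ := exists_nat hD'.hk i
    have h1 := per_int hD'.pa i s
    have h2 := per_int hD.pa (i + r) s
    have h3 := per_int hνper (i - 1) s
    have h4 := per_int hνper (i + 1) s
    simp only
    rw [← h1, ← h2, ← h3, ← h4]
    have e1 : i + (r : ℤ) + s * (l : ℤ) = (i + s * l) + r := by ring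
    have e2 : i - 1 + s * (l : ℤ) = (i + s * l) - 1 := by ring
    have e3 : i + 1 + s * (l : ℤ) = (i + s * l) + 1 := by ring
    rw [e1, e2, e3, hn]
    have h5 : ν ((n : ℤ) + 1 - 1) = ζ ^ (D' n) := by
      rw [add_sub_cancel_right]
      exact hνnat n
    have h6 : ν ((n : ℤ) + 1 + 1) = ζ ^ (D' (n + 2)) := by
      have := hνnat (n + 2)
      push_cast at this
      rw [← this]
      congr 1
    rw [h5, h6]
    have h7 := hl1 n
    have h8 := hd2 ((n : ℤ) + 1)
    unfold lm at h7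
    push_cast at h7
    have e4 : (n : ℤ) + 1 + (r : ℤ) = (n : ℤ) + 1 + r := rfl
    rw [h8] at h7
    have hdne : ((P ((n : ℤ) + 1 + r)).natDegree : ℂ) ≠ 0 := by
      have := hD.hd ((n : ℤ) + 1 + r)
      exact_mod_cast (by omega : (P ((n : ℤ) + 1 + r)).natDegree ≠ 0)
    have hA : ζ ^ (D' n) ≠ 0 := pow_ne_zero _ hζ0
    have hB : ζ ^ (D' (n + 2)) ≠ 0 := pow_ne_zero _ hζ0
    change b ((n : ℤ) + 1) / _ * ζ ^ (D' n) = a ((n : ℤ) + 1 + r) / _ * ζ ^ (D' (n + 2)) at h7
    field_simp at h7 ⊢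
    linear_combination h7
  · -- the polynomials Q
    intro i y
    obtain ⟨n, s, hn⟩ := exists_nat hD'.hk i
    have h1 := per_int (u := fun i => Q i) hD'.pP i s
    have h2 := per_int (u := fun i => P i) hD.pP (i + r) s
    have h3 := per_int hνper i s
    have h4 := per_int hνper (i + 1) s
    simp only at h1 h2 ⊢
    rw [← h1, ← h2, ← h3, ← h4]
    have e1 : i + (r : ℤ) + s * (l : ℤ) = (i + s * l) + r := by ring
    have e3 : i + 1 + s * (l : ℤ) = (i + s * l) + 1 := by ring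
    rw [e1, e3, hn]
    have hνn : ν ((n : ℤ) + 1) = ζ ^ (D' (n + 1)) := by
      have := hνnat (n + 1)
      push_cast at this
      exact this
    have hdeg := hd2 ((n : ℤ) + 1)
    have hP := P_of_q (P := P ((n : ℤ) + 1 + r)) (P' := Q ((n : ℤ) + 1))
      (q := q ((n : ℤ) + 1 + r)) (q' := q' ((n : ℤ) + 1)) (ν := ν ((n : ℤ) + 1))
      (hN.monic _) (hN'.monic _) (hD.hd _) hdeg (hq _) (hq' _) (hν0 _) ?_ y
    · rw [hP]
      have h5 := hνsucc ((n : ℤ) + 1)
      rw [hdeg] at h5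
      rw [← h5]
      have h6 := hν0 ((n : ℤ) + 1)
      have e : (ν ((n : ℤ) + 1))⁻¹ * y + 0 = y / ν ((n : ℤ) + 1) := by
        rw [add_zero, div_eq_inv_mul]
      rw [e]
      field_simp
      ring
    · intro t ht1 ht2
      have h5 := hc1 (n + 1) t ht1 (by
        have := hdeg
        push_cast
        omega)
      push_cast at h5
      simp only [coeff_add, coeff_C, if_neg (by omega : ¬ t = 0), add_zero] at h5
      rw [h5, hνn, hdeg]

end HEN
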