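import Pool.Agent.Lib.MP_e79cb7_ag.Cmp
import Pool.Agent.Lib.MP_e79cb7_ag.GRO

/-! # Characterization of `Ω(f)` for normalized data -/

open Filter Topology Polynomial Bornology

noncomputable section

namespace HEN

/-- the orbit of a point of `W 4 R` stays there, and the moduli double -/
theorem omg_orbit {a : ℤ → ℂ} {P : ℤ → ℂ[X]} {R : ℝ} (hR : 0 ≤ R)
    (h : ∀ (i : ℤ) (p : ℂ × ℂ), p ∈ W 4 R →
      2 * ‖p.1‖ ≤ ‖(H (a i) (P i) p).1‖ ∧ ∀ R', R ≤ R' → p ∈ W 4 R' →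
        H (a i) (P i) p ∈ W (3 / 2) R') (i : ℤ) (p : ℂ × ℂ) (hp : p ∈ W 4 R) (n : ℕ) :
    comp a P i n p ∈ W 4 R ∧ 2 ^ n * ‖p.1‖ ≤ ‖(comp a P i n p).1‖ := by
  induction n with
  | zero => exact ⟨hp, by simp [comp]⟩
  | succ n ih =>
    obtain ⟨ih1, ih2⟩ := ih
    rw [comp_succ]
    obtain ⟨h1, h2⟩ := h (i + n) _ ih1
    have h3 := h2 R le_rfl ih1
    refine ⟨⟨h3.1, ?_⟩, ?_⟩
    · have := h3.2
      have h0 : 0 < ‖(H (a (i + n)) (P (i + n)) (comp a P i n p)).1‖ :=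
        lt_of_le_of_lt hR h3.1
      linarith
    · rw [pow_succ]
      linarith

/-- after at least one step one is in `W (3/2) R'` as soon as `R' < 2^(n-1) |x|` -/
theorem omg_enter {a : ℤ → ℂ} {P : ℤ → ℂ[X]} {R : ℝ} (hR : 0 ≤ R)
    (h : ∀ (i : ℤ) (p : ℂ × ℂ), p ∈ W 4 R →
      2 * ‖p.1‖ ≤ ‖(H (a i) (P i) p).1‖ ∧ ∀ R', R ≤ R' → p ∈ W 4 R' →
        H (a i) (P i) p ∈ W (3 / 2) R') (i : ℤ) (p : ℂ × ℂ) (hp : p ∈ W 4 R) (n : ℕ)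
    (R' : ℝ) (hR' : R' < 2 ^ n * ‖p.1‖) : comp a P i (n + 1) p ∈ W (3 / 2) R' := by
  obtain ⟨h1, h2⟩ := omg_orbit hR h i p hp n
  rw [comp_succ]
  have h3 := (h (i + n) _ h1).2 (max R R') (le_max_left _ _)
    ⟨max_lt h1.1 (lt_of_lt_of_le hR' h2), h1.2⟩
  exact ⟨lt_of_le_of_lt (le_max_right _ _) h3.1, h3.2⟩

theorem omg_pos {a : ℤ → ℂ} {P : ℤ → ℂ[X]} {k : ℕ} (hk : 0 < k) {R : ℝ} (hR : 1 ≤ R)
    (ha : ∀ i, a (i + k) = a i) (hP : ∀ i, P (i + k) = P i)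
    (h : ∀ (i : ℤ) (p : ℂ × ℂ), p ∈ W 4 R →
      2 * ‖p.1‖ ≤ ‖(H (a i) (P i) p).1‖ ∧ ∀ R', R ≤ R' → p ∈ W 4 R' →
        H (a i) (P i) p ∈ W (3 / 2) R') (p : ℂ × ℂ) (hp : p ∈ W 4 R) (R' : ℝ) :
    ∃ N : ℕ, ∀ n ≥ N, (comp a P 0 k)^[n] p ∈ W (3 / 2) R' := by
  obtain ⟨N, hN⟩ := exists_nat_gt R'
  refine ⟨N + 1, fun n hn => ?_⟩
  rw [iterate_comp ha hP]
  obtain ⟨m, hm⟩ : ∃ m, n * k = m + 1 := ⟨n * k - 1, by
    have : 1 ≤ n * k := Nat.mul_pos (by omega) hk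
    omega⟩
  rw [hm]
  refine omg_enter (by linarith) h 0 p hp m R' ?_
  have hNm : N ≤ m := by
    have : n * 1 ≤ n * k := Nat.mul_le_mul_left n hk
    omega
  have h1 : (N : ℝ) ≤ m := by exact_mod_cast hNm
  have h2 : (m : ℝ) < 2 ^ m := by exact_mod_cast Nat.lt_two_pow_self
  have h3 : 1 ≤ ‖p.1‖ := le_trans hR hp.1.le
  have h4 : (0 : ℝ) < 2 ^ m := by positivity
  nlinarith

/-- points with `|y| ≤ |x|`, `|x|` large, are mapped into `W 4 R` by one factor -/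
theorem omg_one {k : ℕ} {a : ℤ → ℂ} {P : ℤ → ℂ[X]} (hD : IsData k a P) (hN : IsNorm P) :
    ∃ R₁ : ℝ, 1 ≤ R₁ ∧ ∀ (i : ℤ) (p : ℂ × ℂ) (R : ℝ), R₁ ≤ R → R < ‖p.1‖ → ‖p.2‖ ≤ ‖p.1‖ →
      H (a i) (P i) p ∈ W 4 R := by
  obtain ⟨C, hC, hg⟩ := growth hD hN
  refine ⟨max 2 (8 * C), le_trans (by norm_num) (le_max_left _ _), ?_⟩
  intro i p R hR hp1 hp2
  have hR2 : 2 ≤ R := le_trans (le_max_left _ _) hR
  have hRC : 8 * C ≤ R := le_trans (le_max_right _ _) hR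
  have hx2 : 2 < ‖p.1‖ := by linarith
  obtain ⟨m, hm⟩ : ∃ m, (P i).natDegree = m + 2 := ⟨(P i).natDegree - 2, by have := hD.hd i; omega⟩
  obtain ⟨_, hg2⟩ := hg i p (by linarith)
  have e0 : (P i).natDegree - 2 = m := by omega
  rw [e0] at hg2
  set x := ‖p.1‖ with hx
  set X := ‖(H (a i) (P i) p).1‖ with hX
  set d := (P i).natDegree with hdd
  have hxm : 1 ≤ x ^ m := one_le_pow₀ (by linarith)
  have hxd : x ^ d = x ^ m * x ^ 2 := by rw [hm, pow_add]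
  have hxC : 8 * C ≤ x := by linarith
  have herr : ‖(H (a i) (P i) p).1 - p.1 ^ d‖ ≤ x ^ d / 4 := by
    refine le_trans hg2 ?_
    rw [hxd]
    have h1 : C * x ^ m ≤ x ^ m * x ^ 2 / 8 := by
      have : C ≤ x ^ 2 / 8 := by nlinarith
      nlinarith
    have h2 : C * ‖p.2‖ ≤ x ^ m * x ^ 2 / 8 := by
      have h3 : C * ‖p.2‖ ≤ C * x := mul_le_mul_of_nonneg_left hp2 hC.le
      have h4 : C * x ≤ x ^ 2 / 8 := by nlinarith
      have h5 : x ^ 2 / 8 ≤ x ^ m * x ^ 2 / 8 := by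
        have : 0 ≤ x ^ 2 := by positivity
        nlinarith
      linarith
    linarith [mul_add C (x ^ m) ‖p.2‖]
  have hpow : ‖p.1 ^ d‖ = x ^ d := norm_pow _ _
  have hlow : x ^ d - x ^ d / 4 ≤ X := by
    have := norm_sub_norm_le (p.1 ^ d) ((H (a i) (P i) p).1)
    rw [hpow, norm_sub_rev] at this
    linarith
  have hxdge : x ^ 2 ≤ x ^ d := by
    rw [hxd]
    have : 0 ≤ x ^ 2 := by positivity
    nlinarith
  refine ⟨?_, ?_⟩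
  · show R < X
    nlinarith
  · show ‖(H (a i) (P i) p).2‖ ^ 2 < 4 * X
    have : (H (a i) (P i) p).2 = p.1 := rfl
    rw [this, ← hx]
    nlinarith

/- Module OMG (file OMG.lean): characterization of Ω(f) for normalized data -/
theorem omega_iff {k : ℕ} {a : ℤ → ℂ} {P : ℤ → ℂ[X]} (hD : IsData k a P) (hN : IsNorm P) :
    ∃ R₀ : ℝ, 1 ≤ R₀ ∧ ∀ R, R₀ ≤ R →
      (∀ p ∈ W 4 R, ∀ R' : ℝ, ∃ N : ℕ, ∀ n ≥ N, (comp a P 0 k)^[n] p ∈ W (3 / 2) R') ∧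
      (∀ p, p ∈ Omega (comp a P 0 k) ↔ ∃ n : ℕ, (comp a P 0 k)^[n] p ∈ W 4 R) := by
  obtain ⟨R₁, hR₁, hr⟩ := region hD hN 2
  obtain ⟨R₂, hR₂, ho⟩ := omg_one hD hN
  refine ⟨max R₁ R₂, le_trans hR₁ (le_max_left _ _), ?_⟩
  intro R hR
  have hRR₁ : R₁ ≤ R := le_trans (le_max_left _ _) hR
  have hRR₂ : R₂ ≤ R := le_trans (le_max_right _ _) hR
  have hR1 : 1 ≤ R := le_trans hR₁ hRR₁
  have hstep : ∀ (i : ℤ) (p : ℂ × ℂ), p ∈ W 4 R →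
      2 * ‖p.1‖ ≤ ‖(H (a i) (P i) p).1‖ ∧ ∀ R', R ≤ R' → p ∈ W 4 R' →
        H (a i) (P i) p ∈ W (3 / 2) R' := by
    intro i p hp
    obtain ⟨h1, _, _, h4⟩ := hr i p ⟨lt_of_le_of_lt hRR₁ hp.1, hp.2⟩
    exact ⟨h1, fun R' hR' hp' => h4 R' (le_trans hRR₁ hR') hp'⟩
  have hfirst : ∀ p ∈ W 4 R, ∀ R' : ℝ, ∃ N : ℕ, ∀ n ≥ N,
      (comp a P 0 k)^[n] p ∈ W (3 / 2) R' := fun p hp R' =>
    omg_pos hD.hk hR1 hD.pa hD.pP hstep p hp R'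
  refine ⟨hfirst, ?_⟩
  intro p
  constructor
  · rintro ⟨h1, h2⟩
    have h3 : ∀ᶠ n : ℕ in atTop, R < ‖((comp a P 0 k)^[n] p).1‖ := h1.eventually_gt_atTop R
    have h4 : ∀ᶠ n : ℕ in atTop,
        ‖((comp a P 0 k)^[n] p).2 / ((comp a P 0 k)^[n] p).1‖ < 1 := by
      have := h2.norm
      rw [norm_zero] at this
      exact this.eventually_lt_const (by norm_num)
    obtain ⟨n, hn1, hn2⟩ := (h3.and h4).exists
    refine ⟨n + 1, ?_⟩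
    rw [Function.iterate_succ_apply']
    set q := (comp a P 0 k)^[n] p with hq
    have hq0 : 0 < ‖q.1‖ := by linarith
    have hq2 : ‖q.2‖ ≤ ‖q.1‖ := by
      rw [norm_div, div_lt_one hq0] at hn2
      exact hn2.le
    obtain ⟨m, hm⟩ : ∃ m, k = m + 1 := ⟨k - 1, by have := hD.hk; omega⟩
    rw [hm, comp_succ']
    exact (omg_orbit (by linarith) hstep _ _ (ho 0 q R hRR₂ hn1 hq2) m).1
  · rintro ⟨n₀, hn₀⟩
    have key := hfirst _ hn₀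
    have key' : ∀ R' : ℝ, ∃ N : ℕ, ∀ n ≥ N, (comp a P 0 k)^[n] p ∈ W (3 / 2) R' := by
      intro R'
      obtain ⟨N, hN⟩ := key R'
      refine ⟨N + n₀, fun n hn => ?_⟩
      have := hN (n - n₀) (by omega)
      rw [← Function.iterate_add_apply] at this
      rwa [Nat.sub_add_cancel (by omega)] at this
    refine ⟨?_, ?_⟩
    · rw [tendsto_atTop]
      intro b
      obtain ⟨N, hN⟩ := key' b
      exact eventually_atTop.mpr ⟨N, fun n hn => (hN n hn).1.le⟩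
    · rw [Metric.tendsto_atTop]
      intro ε hε
      obtain ⟨N, hN⟩ := key' (max 1 (3 / 2 / ε ^ 2))
      refine ⟨N, fun n hn => ?_⟩
      obtain ⟨h5, h6⟩ := hN n hn
      rw [dist_zero_right, norm_div]
      have h7 : 1 < ‖((comp a P 0 k)^[n] p).1‖ := lt_of_le_of_lt (le_max_left _ _) h5
      have h8 : 3 / 2 / ε ^ 2 < ‖((comp a P 0 k)^[n] p).1‖ := lt_of_le_of_lt (le_max_right _ _) h5
      rw [div_lt_iff₀ (by linarith)]
      rw [div_lt_iff₀ (by positivity)] at h8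
      refine lt_of_pow_lt_pow_left₀ 2 (by positivity) ?_
      rw [mul_pow]
      nlinarith

end HEN
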