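import Mathlib

/-! Cutoff functions with small Dirichlet energy in the plane. -/

open Filter Topology MeasureTheory
open scoped ContDiff

noncomputable section

namespace HEN

/-- Functions used as cutoffs: smooth, between `0` and `1`, derivative of compact support and
Dirichlet energy at most `δ`. -/
structure IsCut (χ : ℂ → ℝ) (δ : ℝ) : Prop where
  smooth : ContDiff ℝ ∞ χ
  nonneg : ∀ z, 0 ≤ χ z
  le_one : ∀ z, χ z ≤ 1
  supp : HasCompactSupport (fderiv ℝ χ)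
  energy : ∫ z : ℂ, ‖fderiv ℝ χ z‖ ^ 2 ≤ δ

theorem integrable_sq_fderiv {χ : ℂ → ℝ} (h : ContDiff ℝ ∞ χ) (hs : HasCompactSupport (fderiv ℝ χ)) :
    Integrable (fun z : ℂ => ‖fderiv ℝ χ z‖ ^ 2) := by
  have hc : Continuous (fderiv ℝ χ) := h.continuous_fderiv (by simp)
  apply Continuous.integrable_of_hasCompactSupport
  · exact (hc.norm).pow 2
  · have : (fun z : ℂ => ‖fderiv ℝ χ z‖ ^ 2) = (fun v : ℂ →L[ℝ] ℝ => ‖v‖ ^ 2) ∘ (fderiv ℝ χ) := rfl
    rw [this]
    exact hs.comp_left (by simp)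

/-- scaling invariance of the Dirichlet energy -/
theorem fderiv_scale (φ : ℂ → ℝ) (hφ : Differentiable ℝ φ) (c : ℝ) (p z : ℂ) :
    fderiv ℝ (fun z => φ (c • (z - p))) z = c • fderiv ℝ φ (c • (z - p)) := by
  have h2 : HasFDerivAt (fun z : ℂ => c • (z - p)) (c • ContinuousLinearMap.id ℝ ℂ) z :=
    ((hasFDerivAt_id z).sub_const p).const_smul c
  have h3 := (hφ (c • (z - p))).hasFDerivAt.comp z h2
  have h4 : fderiv ℝ (fun z => φ (c • (z - p))) z = _ := h3.fderiv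
  rw [h4]
  ext v
  simp

theorem dirichlet_scale (φ : ℂ → ℝ) (hφ : Differentiable ℝ φ) (c : ℝ) (hc : 0 < c) (p : ℂ) :
    ∫ z : ℂ, ‖fderiv ℝ (fun z => φ (c • (z - p))) z‖ ^ 2 = ∫ z : ℂ, ‖fderiv ℝ φ z‖ ^ 2 := by
  simp_rw [fderiv_scale φ hφ c p, norm_smul, mul_pow]
  rw [integral_const_mul]
  have h4 : ∫ z : ℂ, ‖fderiv ℝ φ (c • (z - p))‖ ^ 2 = ∫ z : ℂ, ‖fderiv ℝ φ (c • z)‖ ^ 2 :=
    integral_sub_right_eq_self (fun z => ‖fderiv ℝ φ (c • z)‖ ^ 2) p
  rw [h4, Measure.integral_comp_smul volume (fun z => ‖fderiv ℝ φ z‖ ^ 2) c]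
  rw [Complex.finrank_real_complex, abs_of_pos (by positivity), Real.norm_eq_abs, sq_abs,
    smul_eq_mul, ← mul_assoc, mul_inv_cancel₀ (by positivity), one_mul]

theorem cut_scale {φ : ℂ → ℝ} {δ : ℝ} (h : IsCut φ δ) (c : ℝ) (hc : 0 < c) (p : ℂ) :
    IsCut (fun z => φ (c • (z - p))) δ := by
  have hd : Differentiable ℝ φ := h.smooth.differentiable (by simp)
  refine ⟨?_, fun z => h.nonneg _, fun z => h.le_one _, ?_, ?_⟩
  · exact h.smooth.comp ((contDiff_id.sub contDiff_const).const_smul c)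
  · have h1 : fderiv ℝ (fun z => φ (c • (z - p))) =
        fun z => c • fderiv ℝ φ (c • (z - p)) := by
      funext z
      exact fderiv_scale φ hd c p z
    rw [h1]
    have h2 : HasCompactSupport (fun z => fderiv ℝ φ (c • (z - p))) := by
      let e : ℂ ≃ₜ ℂ := (Homeomorph.subRight p).trans (Homeomorph.smulOfNeZero c hc.ne')
      have : (fun z => fderiv ℝ φ (c • (z - p))) = (fderiv ℝ φ) ∘ e := rfl
      rw [this]
      exact h.supp.comp_homeomorph e
    exact h2.smul_left (f := fun _ => c)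
  · rw [dirichlet_scale φ hd c hc p]
    exact h.energy

theorem norm_sum_sq_le {ι : Type*} {E : Type*} [SeminormedAddCommGroup E] (s : Finset ι) (v : ι → E)
    (h : ∀ i ∈ s, ∀ j ∈ s, v i ≠ 0 → v j ≠ 0 → i = j) :
    ‖∑ i ∈ s, v i‖ ^ 2 ≤ ∑ i ∈ s, ‖v i‖ ^ 2 := by
  classical
  by_cases hz : ∃ i ∈ s, v i ≠ 0
  · obtain ⟨i, hi, hv⟩ := hz
    have h1 : ∑ i ∈ s, v i = v i := by
      apply Finset.sum_eq_single i
      · intro j hj hji
        by_contra hne
        exact hji (h j hj i hi hne hv)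
      · intro hn; exact absurd hi hn
    rw [h1]
    exact Finset.single_le_sum (f := fun i => ‖v i‖ ^ 2) (fun _ _ => by positivity) hi
  · push Not at hz
    rw [Finset.sum_eq_zero hz]
    simp only [norm_zero, ne_eq, OfNat.ofNat_ne_zero, not_false_eq_true, zero_pow]
    exact Finset.sum_nonneg fun _ _ => by positivity

/-- base cutoff with small energy -/
theorem exists_base (ε : ℝ) (hε : 0 < ε) :
    ∃ (Λ : ℝ) (ψ : ℂ → ℝ), 1 ≤ Λ ∧ IsCut ψ ε ∧ (∀ z, ‖z‖ ≤ 1 → ψ z = 1) ∧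
      ∀ z, Λ < ‖z‖ → ψ z = 0 := by
  let φ : ContDiffBump (0 : ℂ) := ⟨1, 2, by norm_num, by norm_num⟩
  have hφ1 : ∀ z : ℂ, ‖z‖ ≤ 1 → φ z = 1 := fun z hz =>
    φ.one_of_mem_closedBall (by simpa [Metric.mem_closedBall, dist_zero_right] using hz)
  have hφ0 : ∀ z : ℂ, 2 ≤ ‖z‖ → φ z = 0 := fun z hz =>
    φ.zero_of_le_dist (by simpa [dist_zero_right] using hz)
  have hφs : ContDiff ℝ ∞ φ := φ.contDiff
  have hφd : Differentiable ℝ φ := hφs.differentiable (by simp)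
  have hφc : HasCompactSupport (fderiv ℝ φ) := φ.hasCompactSupport.fderiv ℝ
  set Dφ : ℝ := ∫ z : ℂ, ‖fderiv ℝ φ z‖ ^ 2 with hDφ
  have hφcut : IsCut φ Dφ := ⟨hφs, fun z => φ.nonneg, fun z => φ.le_one, hφc, le_rfl⟩
  -- support of the derivative
  have hder : ∀ z : ℂ, fderiv ℝ φ z ≠ 0 → 1 ≤ ‖z‖ ∧ ‖z‖ ≤ 2 := by
    intro z hz
    constructor
    · by_contra hlt
      push Not at hlt
      apply hz
      have h1 : (φ : ℂ → ℝ) =ᶠ[𝓝 z] fun _ => (1 : ℝ) := by
        have : Metric.ball (0 : ℂ) 1 ∈ 𝓝 z :=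
          Metric.isOpen_ball.mem_nhds (by simpa [dist_zero_right] using hlt)
        filter_upwards [this] with w hw
        exact hφ1 w (by simpa [dist_zero_right] using (Metric.mem_ball.mp hw).le)
      rw [h1.fderiv_eq]
      simp
    · by_contra hlt
      push Not at hlt
      apply hz
      have h1 : (φ : ℂ → ℝ) =ᶠ[𝓝 z] fun _ => (0 : ℝ) := by
        have : {w : ℂ | 2 < ‖w‖} ∈ 𝓝 z := (isOpen_lt continuous_const continuous_norm).mem_nhds hlt
        filter_upwards [this] with w hw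
        exact hφ0 w (le_of_lt hw)
      rw [h1.fderiv_eq]
      simp
  obtain ⟨N, hN⟩ := exists_nat_gt (Dφ / ε)
  have hDnn : 0 ≤ Dφ := integral_nonneg fun z => by positivity
  have hNpos : (0 : ℝ) < N := lt_of_le_of_lt (by positivity) hN
  have hNpos' : 0 < N := by exact_mod_cast hNpos
  let c : ℕ → ℝ := fun k => ((4 : ℝ) ^ k)⁻¹
  have hc : ∀ k, 0 < c k := fun k => by positivity
  let φk : ℕ → ℂ → ℝ := fun k z => φ (c k • (z - 0))
  have hk : ∀ k, IsCut (φk k) Dφ := fun k => cut_scale hφcut (c k) (hc k) 0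
  let ψ : ℂ → ℝ := fun z => (N : ℝ)⁻¹ * ∑ k ∈ Finset.range N, φk k z
  have hψd : ∀ z, fderiv ℝ ψ z = (N : ℝ)⁻¹ • ∑ k ∈ Finset.range N, fderiv ℝ (φk k) z := by
    intro z
    have h1 : ∀ k ∈ Finset.range N, HasFDerivAt (φk k) (fderiv ℝ (φk k) z) z := fun k _ =>
      (((hk k).smooth.differentiable (by simp)) z).hasFDerivAt
    have h2 := (HasFDerivAt.fun_sum h1).const_mul ((N : ℝ)⁻¹)
    exact h2.fderiv
  have hψpt : ∀ z, ‖fderiv ℝ ψ z‖ ^ 2 ≤
      ((N : ℝ)⁻¹) ^ 2 * ∑ k ∈ Finset.range N, ‖fderiv ℝ (φk k) z‖ ^ 2 := by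
    intro z
    rw [hψd z, norm_smul, mul_pow, Real.norm_eq_abs, sq_abs]
    apply mul_le_mul_of_nonneg_left _ (by positivity)
    apply norm_sum_sq_le
    intro i _ j _ hi hj
    have key : ∀ k, fderiv ℝ (φk k) z ≠ 0 → (4 : ℝ) ^ k ≤ ‖z‖ ∧ ‖z‖ ≤ 2 * 4 ^ k := by
      intro k hk0
      have h1 : fderiv ℝ (φk k) z = c k • fderiv ℝ φ (c k • (z - 0)) := fderiv_scale φ hφd (c k) 0 z
      rw [h1] at hk0
      have h2 : fderiv ℝ φ (c k • (z - 0)) ≠ 0 := fun h => hk0 (by rw [h, smul_zero])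
      have h3 := hder _ h2
      rw [sub_zero, norm_smul, Real.norm_eq_abs, abs_of_pos (hc k)] at h3
      have h4k : (0 : ℝ) < 4 ^ k := by positivity
      constructor
      · have := h3.1
        rw [inv_mul_eq_div, le_div_iff₀ h4k] at this
        linarith
      · have := h3.2
        rw [inv_mul_eq_div, div_le_iff₀ h4k] at this
        linarith
    have hi' := key i hi
    have hj' := key j hj
    rcases lt_trichotomy i j with hij | hij | hij
    · exfalso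
      have : (4 : ℝ) ^ (i + 1) ≤ 4 ^ j := pow_le_pow_right₀ (by norm_num) hij
      rw [pow_succ] at this
      have h4k : (0 : ℝ) < 4 ^ i := by positivity
      linarith [hi'.2, hj'.1]
    · exact hij
    · exfalso
      have : (4 : ℝ) ^ (j + 1) ≤ 4 ^ i := pow_le_pow_right₀ (by norm_num) hij
      rw [pow_succ] at this
      have h4k : (0 : ℝ) < 4 ^ j := by positivity
      linarith [hj'.2, hi'.1]
  have hψsm : ContDiff ℝ ∞ ψ := by
    apply contDiff_const.mul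
    exact ContDiff.sum fun k _ => (hk k).smooth
  have hψ0 : ∀ z, (2 * 4 ^ N : ℝ) < ‖z‖ → ψ z = 0 := by
    intro z hz
    have : ∀ k ∈ Finset.range N, φk k z = 0 := by
      intro k hk1
      apply hφ0
      rw [sub_zero, norm_smul, Real.norm_eq_abs, abs_of_pos (hc k), inv_mul_eq_div,
        le_div_iff₀ (by positivity)]
      have : (4 : ℝ) ^ k ≤ 4 ^ N :=
        pow_le_pow_right₀ (by norm_num) (Finset.mem_range.mp hk1).le
      linarith
    show (N : ℝ)⁻¹ * ∑ k ∈ Finset.range N, φk k z = 0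
    rw [Finset.sum_eq_zero this, mul_zero]
  have hψcs : HasCompactSupport ψ := by
    apply HasCompactSupport.intro (isCompact_closedBall (0 : ℂ) (2 * 4 ^ N))
    intro z hz
    apply hψ0
    simpa [dist_zero_right] using hz
  refine ⟨2 * 4 ^ N, ψ, ?_, ⟨hψsm, ?_, ?_, hψcs.fderiv ℝ, ?_⟩, ?_, hψ0⟩
  · have : (1 : ℝ) ≤ 4 ^ N := one_le_pow₀ (by norm_num)
    linarith
  · intro z
    exact mul_nonneg (by positivity) (Finset.sum_nonneg fun k _ => (hk k).nonneg z)
  · intro z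
    show (N : ℝ)⁻¹ * ∑ k ∈ Finset.range N, φk k z ≤ 1
    rw [inv_mul_le_iff₀ hNpos, mul_one]
    calc ∑ k ∈ Finset.range N, φk k z ≤ ∑ k ∈ Finset.range N, (1 : ℝ) :=
          Finset.sum_le_sum fun k _ => (hk k).le_one z
      _ = N := by simp
  · calc ∫ z : ℂ, ‖fderiv ℝ ψ z‖ ^ 2
        ≤ ∫ z : ℂ, ((N : ℝ)⁻¹) ^ 2 * ∑ k ∈ Finset.range N, ‖fderiv ℝ (φk k) z‖ ^ 2 := by
          apply integral_mono (integrable_sq_fderiv hψsm (hψcs.fderiv ℝ)) _ hψpt
          apply Integrable.const_mul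
          exact integrable_finsetSum _ fun k _ => integrable_sq_fderiv (hk k).smooth (hk k).supp
      _ = ((N : ℝ)⁻¹) ^ 2 * ∑ k ∈ Finset.range N, ∫ z : ℂ, ‖fderiv ℝ (φk k) z‖ ^ 2 := by
          rw [integral_const_mul, integral_finsetSum]
          exact fun k _ => integrable_sq_fderiv (hk k).smooth (hk k).supp
      _ ≤ ((N : ℝ)⁻¹) ^ 2 * ∑ k ∈ Finset.range N, Dφ := by
          apply mul_le_mul_of_nonneg_left _ (by positivity)
          exact Finset.sum_le_sum fun k _ => (hk k).energy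
      _ = Dφ / N := by
          rw [Finset.sum_const, Finset.card_range, nsmul_eq_mul]
          field_simp
      _ ≤ ε := by
          rw [div_le_iff₀ hNpos]
          rw [div_lt_iff₀ hε] at hN
          linarith
  · intro z hz
    have : ∀ k ∈ Finset.range N, φk k z = 1 := by
      intro k _
      apply hφ1
      rw [sub_zero, norm_smul, Real.norm_eq_abs, abs_of_pos (hc k), inv_mul_eq_div,
        div_le_iff₀ (by positivity)]
      have : (1 : ℝ) ≤ 4 ^ k := one_le_pow₀ (by norm_num)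
      linarith
    show (N : ℝ)⁻¹ * ∑ k ∈ Finset.range N, φk k z = 1
    rw [Finset.sum_congr rfl this]
    simp [hNpos.ne']

/-- product of two cutoffs -/
theorem cut_mul {χ₁ χ₂ : ℂ → ℝ} {δ₁ δ₂ : ℝ} (h₁ : IsCut χ₁ δ₁) (h₂ : IsCut χ₂ δ₂) :
    IsCut (fun z => χ₁ z * χ₂ z) (2 * δ₁ + 2 * δ₂) := by
  have hd₁ : Differentiable ℝ χ₁ := h₁.smooth.differentiable (by simp)
  have hd₂ : Differentiable ℝ χ₂ := h₂.smooth.differentiable (by simp)
  have hf : fderiv ℝ (fun z => χ₁ z * χ₂ z) =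
      fun z => χ₁ z • fderiv ℝ χ₂ z + χ₂ z • fderiv ℝ χ₁ z := by
    funext z
    exact fderiv_fun_mul (hd₁ z) (hd₂ z)
  have hsm : ContDiff ℝ ∞ (fun z => χ₁ z * χ₂ z) := h₁.smooth.mul h₂.smooth
  have hcs : HasCompactSupport (fderiv ℝ (fun z => χ₁ z * χ₂ z)) := by
    rw [hf]
    exact (h₂.supp.smul_left (f := χ₁)).add (h₁.supp.smul_left (f := χ₂))
  refine ⟨hsm, fun z => mul_nonneg (h₁.nonneg z) (h₂.nonneg z),
    fun z => mul_le_one₀ (h₁.le_one z) (h₂.nonneg z) (h₂.le_one z), hcs, ?_⟩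
  have hi₁ := integrable_sq_fderiv h₁.smooth h₁.supp
  have hi₂ := integrable_sq_fderiv h₂.smooth h₂.supp
  calc ∫ z : ℂ, ‖fderiv ℝ (fun z => χ₁ z * χ₂ z) z‖ ^ 2
      ≤ ∫ z : ℂ, (2 * ‖fderiv ℝ χ₁ z‖ ^ 2 + 2 * ‖fderiv ℝ χ₂ z‖ ^ 2) := by
        apply integral_mono (integrable_sq_fderiv hsm hcs) ((hi₁.const_mul 2).add (hi₂.const_mul 2))
        intro z
        simp only [hf]
        have h3 : ‖χ₁ z • fderiv ℝ χ₂ z + χ₂ z • fderiv ℝ χ₁ z‖ ≤
            ‖fderiv ℝ χ₂ z‖ + ‖fderiv ℝ χ₁ z‖ := by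
          refine (norm_add_le _ _).trans (add_le_add ?_ ?_)
          · rw [norm_smul, Real.norm_eq_abs, abs_of_nonneg (h₁.nonneg z)]
            exact mul_le_of_le_one_left (norm_nonneg _) (h₁.le_one z)
          · rw [norm_smul, Real.norm_eq_abs, abs_of_nonneg (h₂.nonneg z)]
            exact mul_le_of_le_one_left (norm_nonneg _) (h₂.le_one z)
        have h4 := pow_le_pow_left₀ (norm_nonneg _) h3 2
        show ‖χ₁ z • fderiv ℝ χ₂ z + χ₂ z • fderiv ℝ χ₁ z‖ ^ 2 ≤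
          2 * ‖fderiv ℝ χ₁ z‖ ^ 2 + 2 * ‖fderiv ℝ χ₂ z‖ ^ 2
        nlinarith [sq_nonneg (‖fderiv ℝ χ₂ z‖ - ‖fderiv ℝ χ₁ z‖)]
    _ = 2 * (∫ z : ℂ, ‖fderiv ℝ χ₁ z‖ ^ 2) + 2 * (∫ z : ℂ, ‖fderiv ℝ χ₂ z‖ ^ 2) := by
        rw [integral_add (hi₁.const_mul 2) (hi₂.const_mul 2), integral_const_mul,
          integral_const_mul]
    _ ≤ 2 * δ₁ + 2 * δ₂ := by
        have := h₁.energy
        have := h₂.energy
        linarith

/-- complement of a cutoff -/
theorem cut_compl {χ : ℂ → ℝ} {δ : ℝ} (h : IsCut χ δ) : IsCut (fun z => 1 - χ z) δ := by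
  have hf : fderiv ℝ (fun z => 1 - χ z) = fun z => -fderiv ℝ χ z := by
    funext z
    exact fderiv_const_sub 1
  refine ⟨contDiff_const.sub h.smooth, fun z => by linarith [h.le_one z],
    fun z => by linarith [h.nonneg z], ?_, ?_⟩
  · rw [hf]
    exact h.supp.neg
  · simp only [hf, norm_neg]
    exact h.energy

/-- cutoffs vanishing near finitely many points -/
theorem exists_cut_finset (z₀ : ℂ) (r : ℝ) (hr : 0 < r) (s : Finset ℂ)
    (hs : ∀ p ∈ s, 2 * r ≤ ‖z₀ - p‖) : ∀ δ : ℝ, 0 < δ → ∃ χ : ℂ → ℝ, IsCut χ δ ∧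
      (∀ z ∈ Metric.closedBall z₀ r, χ z = 1) ∧ ∀ p ∈ s, ∀ᶠ z in 𝓝 p, χ z = 0 := by
  classical
  induction s using Finset.induction_on with
  | empty =>
    intro δ hδ
    refine ⟨fun _ => 1, ⟨contDiff_const, fun _ => zero_le_one, fun _ => le_rfl, ?_, ?_⟩,
      fun _ _ => rfl, by simp⟩
    · have : fderiv ℝ (fun _ : ℂ => (1 : ℝ)) = 0 := by
        funext z
        simp
      rw [this]
      exact HasCompactSupport.zero
    · simp [hδ.le]
  | insert p s hp ih =>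
    intro δ hδ
    obtain ⟨χ, hχ, hχ1, hχ0⟩ := ih (fun q hq => hs q (Finset.mem_insert_of_mem hq)) (δ / 4)
      (by positivity)
    obtain ⟨Λ, ψ, hΛ, hψ, hψ1, hψ0⟩ := exists_base (δ / 4) (by positivity)
    have hΛ0 : 0 < Λ := by linarith
    have hc : 0 < 2 * Λ / r := by positivity
    have h1 := cut_mul hχ (cut_compl (cut_scale hψ (2 * Λ / r) hc p))
    refine ⟨_, ⟨h1.smooth, h1.nonneg, h1.le_one, h1.supp, h1.energy.trans (by linarith)⟩, ?_, ?_⟩
    · intro z hz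
      have h2 : ψ ((2 * Λ / r) • (z - p)) = 0 := by
        apply hψ0
        rw [norm_smul, Real.norm_eq_abs, abs_of_pos hc]
        have h3 := hs p (Finset.mem_insert_self p s)
        have h4 : ‖z - z₀‖ ≤ r := by simpa [dist_eq_norm] using hz
        have h5 : ‖z₀ - p‖ ≤ ‖z - z₀‖ + ‖z - p‖ := by
          have : z₀ - p = -(z - z₀) + (z - p) := by ring
          rw [this]
          refine (norm_add_le _ _).trans ?_
          rw [norm_neg]
        have h6 : r ≤ ‖z - p‖ := by linarith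
        have h7 : 2 * Λ / r * r ≤ 2 * Λ / r * ‖z - p‖ := mul_le_mul_of_nonneg_left h6 hc.le
        rw [div_mul_cancel₀ _ hr.ne'] at h7
        linarith
      simp only [h2, hχ1 z hz]
      norm_num
    · intro q hq
      rw [Finset.mem_insert] at hq
      rcases hq with rfl | hq
      · have : Metric.ball q (r / (2 * Λ)) ∈ 𝓝 q := Metric.ball_mem_nhds q (by positivity)
        filter_upwards [this] with z hz
        have h2 : ψ ((2 * Λ / r) • (z - q)) = 1 := by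
          apply hψ1
          rw [norm_smul, Real.norm_eq_abs, abs_of_pos hc]
          have h4 : ‖z - q‖ < r / (2 * Λ) := by simpa [dist_eq_norm] using hz
          calc 2 * Λ / r * ‖z - q‖ ≤ 2 * Λ / r * (r / (2 * Λ)) :=
                mul_le_mul_of_nonneg_left h4.le hc.le
            _ = 1 := by field_simp
        simp only [h2, sub_self, mul_zero]
      · filter_upwards [hχ0 q hq] with z hz
        simp only [hz, zero_mul]

/-- Cutoff functions with small Dirichlet energy, vanishing near a closed discrete set. -/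
theorem cutoff {Δ : Set ℂ} (hc : IsClosed Δ)
    (hd : ∀ p ∈ Δ, ∃ ε : ℝ, 0 < ε ∧ ∀ q ∈ Δ, q ≠ p → ε ≤ ‖q - p‖)
    (z₀ : ℂ) (hz₀ : z₀ ∉ Δ) :
    ∃ r : ℝ, 0 < r ∧ ∀ ε : ℝ, 0 < ε → ∃ χ : ℂ → ℝ, ContDiff ℝ ∞ χ ∧ HasCompactSupport χ ∧
      Disjoint (tsupport χ) Δ ∧ (∀ z ∈ Metric.closedBall z₀ r, χ z = 1) ∧
      ∫ z : ℂ, ‖fderiv ℝ χ z‖ ^ 2 ≤ ε := by
  obtain ⟨ρ, hρ, hρΔ⟩ := Metric.isOpen_iff.mp hc.isOpen_compl z₀ hz₀
  refine ⟨ρ / 2, by positivity, ?_⟩
  have hfar : ∀ p ∈ Δ, 2 * (ρ / 2) ≤ ‖z₀ - p‖ := by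
    intro p hp
    by_contra hlt
    push Not at hlt
    have : p ∈ Metric.ball z₀ ρ := by
      rw [Metric.mem_ball, dist_eq_norm, ← norm_neg, neg_sub]
      linarith
    exact hρΔ this hp
  intro ε hε
  obtain ⟨Λ, ψ, hΛ, hψ, hψ1, hψ0⟩ := exists_base (ε / 4) (by positivity)
  have hΛ0 : 0 < Λ := by linarith
  set R : ℝ := ‖z₀‖ + ρ with hR
  have hRpos : 0 < R := by positivity
  have hcut := cut_scale hψ R⁻¹ (inv_pos.mpr hRpos) 0
  -- finite set of points in the ball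
  have hfin : (Δ ∩ Metric.closedBall 0 (Λ * R)).Finite := by
    have hK : IsCompact (Δ ∩ Metric.closedBall 0 (Λ * R)) :=
      (isCompact_closedBall 0 (Λ * R)).inter_left hc
    have hex : ∀ p : ℂ, ∃ e : ℝ, 0 < e ∧ (p ∈ Δ → ∀ q ∈ Δ, q ≠ p → e ≤ ‖q - p‖) := by
      intro p
      by_cases hp : p ∈ Δ
      · obtain ⟨e, he, h⟩ := hd p hp
        exact ⟨e, he, fun _ => h⟩
      · exact ⟨1, one_pos, fun h => absurd h hp⟩
    choose e he0 he using hex
    obtain ⟨t, ht, htK⟩ := hK.elim_nhds_subcover (fun p => Metric.ball p (e p))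
      (fun p _ => Metric.ball_mem_nhds p (he0 p))
    apply t.finite_toSet.subset
    intro q hq
    have := htK hq
    simp only [Set.mem_iUnion, exists_prop] at this
    obtain ⟨p, hpt, hqp⟩ := this
    by_cases hqp' : q = p
    · rw [hqp']; exact hpt
    · exfalso
      have h1 := he p (ht p hpt).1 q hq.1 hqp'
      rw [Metric.mem_ball, dist_eq_norm] at hqp
      linarith
  obtain ⟨χ, hχ, hχ1, hχ0⟩ := exists_cut_finset z₀ (ρ / 2) (by positivity) hfin.toFinset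
    (by
      intro p hp
      rw [Set.Finite.mem_toFinset] at hp
      exact hfar p hp.1) (ε / 4) (by positivity)
  have hprod := cut_mul hcut hχ
  have hz0 : ∀ z, Λ * R < ‖z‖ → ψ (R⁻¹ • (z - 0)) = 0 := by
    intro z hz
    apply hψ0
    rw [sub_zero, norm_smul, Real.norm_eq_abs, abs_of_pos (inv_pos.mpr hRpos), inv_mul_eq_div,
      lt_div_iff₀ hRpos]
    exact hz
  have hcs : HasCompactSupport (fun z => ψ (R⁻¹ • (z - 0))) := by
    apply HasCompactSupport.intro (isCompact_closedBall (0 : ℂ) (Λ * R))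
    intro z hz
    apply hz0
    simpa [dist_zero_right] using hz
  refine ⟨_, hprod.smooth, hcs.mul_right, ?_, ?_, hprod.energy.trans (by linarith)⟩
  · rw [Set.disjoint_left]
    intro p hp hpΔ
    have h1 : p ∈ tsupport (fun z => ψ (R⁻¹ • (z - 0))) := tsupport_mul_subset_left hp
    have h2 : p ∈ tsupport χ := tsupport_mul_subset_right hp
    have h3 : p ∈ Metric.closedBall (0 : ℂ) (Λ * R) := by
      have : tsupport (fun z => ψ (R⁻¹ • (z - 0))) ⊆ Metric.closedBall (0 : ℂ) (Λ * R) := by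
        apply closure_minimal _ Metric.isClosed_closedBall
        intro z hz
        by_contra hcon
        apply hz
        apply hz0
        simpa [dist_zero_right] using hcon
      exact this h1
    have h4 := hχ0 p (hfin.mem_toFinset.mpr ⟨hpΔ, h3⟩)
    exact notMem_tsupport_iff_eventuallyEq.mpr h4 h2
  · intro z hz
    have h1 : ψ (R⁻¹ • (z - 0)) = 1 := by
      apply hψ1
      rw [sub_zero, norm_smul, Real.norm_eq_abs, abs_of_pos (inv_pos.mpr hRpos), inv_mul_eq_div,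
        div_le_iff₀ hRpos, one_mul, hR]
      have h4 : ‖z - z₀‖ ≤ ρ / 2 := by simpa [dist_eq_norm] using hz
      calc ‖z‖ = ‖z₀ + (z - z₀)‖ := by congr 1; ring
        _ ≤ ‖z₀‖ + ‖z - z₀‖ := norm_add_le _ _
        _ ≤ ‖z₀‖ + ρ := by linarith
    simp only [h1, hχ1 z hz, mul_one]

end HEN
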