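import Pool.Agent.Lib.MP_e79cb7_ag.Cmp

/-! # Module QEX: existence of `q` -/

open Filter Topology Polynomial Bornology

noncomputable section

namespace HEN

/-- `U^(m+2) + Σ_{j ≤ m} p_j t^{m+2-j} U^j - 1`. -/
private def qex_Phi (c : ℕ → ℂ) (m : ℕ) (U : ℂ[X]) : ℂ[X] :=
  U ^ (m + 2) + (∑ j ∈ Finset.range (m + 1), C (c j) * X ^ (m + 2 - j) * U ^ j) - 1

private theorem qex_step (c : ℕ → ℂ) (m n : ℕ) (hn : 2 ≤ n) (U : ℂ[X]) (h0 : U.eval 0 = 1)
    (hU : X ^ n ∣ qex_Phi c m U) :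
    ∃ κ : ℂ, X ^ (n + 1) ∣ qex_Phi c m (U + C κ * X ^ n) := by
  obtain ⟨G, hG⟩ := hU
  have hd0 : ((m + 2 : ℕ) : ℂ) ≠ 0 := by exact_mod_cast Nat.succ_ne_zero (m + 1)
  refine ⟨-(G.eval 0) / ((m + 2 : ℕ) : ℂ), ?_⟩
  set κ : ℂ := -(G.eval 0) / ((m + 2 : ℕ) : ℂ) with hκ
  set V : ℂ[X] := U + C κ * X ^ n with hV
  have hV0 : V.eval 0 = 1 := by
    rw [hV]
    simp [h0, show n ≠ 0 by omega]
  have hdiff : V - U = C κ * X ^ n := by rw [hV]; ring
  have hpow : ∀ j : ℕ, V ^ j - U ^ j = C κ * X ^ n *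
      ∑ i ∈ Finset.range j, V ^ i * U ^ (j - 1 - i) := by
    intro j
    rw [← hdiff, mul_comm]
    exact (geom_sum₂_mul V U j).symm
  -- the main part
  set S : ℂ[X] := ∑ i ∈ Finset.range (m + 2), V ^ i * U ^ (m + 2 - 1 - i) with hS
  have hS0 : S.eval 0 = ((m + 2 : ℕ) : ℂ) := by
    rw [hS, eval_finsetSum]
    simp [hV0, h0]
  have h1 : X ∣ (C κ * S + G) := by
    rw [X_dvd_iff, coeff_zero_eq_eval_zero]
    rw [eval_add, eval_mul, eval_C, hS0, hκ]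
    field_simp
    ring
  have h2 : X ^ (n + 1) ∣ X ^ n * G + C κ * X ^ n * S := by
    have : X ^ n * G + C κ * X ^ n * S = X ^ n * (C κ * S + G) := by ring
    rw [this, pow_succ]
    exact mul_dvd_mul_left _ h1
  have h3 : X ^ (n + 1) ∣ ∑ j ∈ Finset.range (m + 1), C (c j) * X ^ (m + 2 - j) *
      (V ^ j - U ^ j) := by
    refine Finset.dvd_sum fun j hj => ?_
    have hj' : 1 ≤ m + 2 - j := by
      have := Finset.mem_range.mp hj
      omega
    rw [hpow]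
    have : C (c j) * X ^ (m + 2 - j) *
        (C κ * X ^ n * ∑ i ∈ Finset.range j, V ^ i * U ^ (j - 1 - i)) =
        (X ^ (m + 2 - j) * X ^ n) *
          (C (c j) * C κ * ∑ i ∈ Finset.range j, V ^ i * U ^ (j - 1 - i)) := by ring
    rw [this, ← pow_add]
    exact Dvd.dvd.mul_right (pow_dvd_pow _ (by omega)) _
  have e : qex_Phi c m V = (X ^ n * G + C κ * X ^ n * S) +
      ∑ j ∈ Finset.range (m + 1), C (c j) * X ^ (m + 2 - j) * (V ^ j - U ^ j) := by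
    rw [← hG, hS, ← hpow (m + 2)]
    unfold qex_Phi
    simp only [mul_sub, Finset.sum_sub_distrib]
    ring
  rw [e]
  exact dvd_add h2 h3

private theorem qex_exists (c : ℕ → ℂ) (m n : ℕ) : ∃ U : ℂ[X], U.eval 0 = 1 ∧ U.coeff 1 = 0 ∧
    U.natDegree ≤ n + 1 ∧ X ^ (n + 2) ∣ qex_Phi c m U := by
  induction n with
  | zero =>
    refine ⟨1, by simp, by rw [coeff_one]; simp, by simp, ?_⟩
    unfold qex_Phi
    have : (1 : ℂ[X]) ^ (m + 2) + (∑ j ∈ Finset.range (m + 1), C (c j) * X ^ (m + 2 - j) * 1 ^ j) -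
        1 = ∑ j ∈ Finset.range (m + 1), C (c j) * X ^ (m + 2 - j) := by
      simp
    rw [this]
    refine Finset.dvd_sum fun j hj => ?_
    have hj' : 0 + 2 ≤ m + 2 - j := by
      have := Finset.mem_range.mp hj
      omega
    exact Dvd.dvd.mul_left (pow_dvd_pow _ hj') _
  | succ n ih =>
    obtain ⟨U, h0, h1, hdeg, hU⟩ := ih
    obtain ⟨κ, hκ⟩ := qex_step c m (n + 2) (by omega) U h0 hU
    refine ⟨U + C κ * X ^ (n + 2), by simp [h0], ?_, ?_, hκ⟩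
    · rw [coeff_add, h1, coeff_C_mul, coeff_X_pow, if_neg (by omega)]
      simp
    · refine (natDegree_add_le _ _).trans (max_le (by omega) ?_)
      refine (natDegree_C_mul_le _ _).trans ?_
      rw [natDegree_X_pow]

private theorem qex_bd (G : ℂ[X]) : ∃ K : ℝ, ∀ t : ℂ, ‖t‖ ≤ 1 → ‖G.eval t‖ ≤ K := by
  refine ⟨∑ n ∈ Finset.range (G.natDegree + 1), ‖G.coeff n‖, fun t ht => ?_⟩
  rw [eval_eq_sum_range]
  refine (norm_sum_le _ _).trans (Finset.sum_le_sum fun n _ => ?_)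
  rw [norm_mul, norm_pow]
  exact mul_le_of_le_one_right (norm_nonneg _) (pow_le_one₀ (norm_nonneg _) ht)

/-- Existence of `q`. -/
theorem exists_isQ {P : ℂ[X]} (hm : P.Monic) (hd : 2 ≤ P.natDegree)
    (hc : P.coeff (P.natDegree - 1) = 0) : ∃ q, IsQ P q := by
  obtain ⟨m, hdm⟩ : ∃ m, P.natDegree = m + 2 := ⟨P.natDegree - 2, by omega⟩
  have hcm : P.coeff (m + 1) = 0 := by
    have e1 : P.natDegree - 1 = m + 1 := by omega
    rwa [e1] at hc
  have hPe : ∀ z : ℂ, P.eval z = (∑ n ∈ Finset.range (m + 1), P.coeff n * z ^ n) + z ^ (m + 2) := by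
    intro z
    rw [Polynomial.eval_eq_sum_range' (n := m + 3) (by omega), Finset.sum_range_succ,
      Finset.sum_range_succ, hcm]
    have : P.coeff (m + 2) = 1 := by rw [← hdm]; exact hm
    rw [this]
    ring
  obtain ⟨U, h0, h1, hdeg, G, hG⟩ := qex_exists (fun n => P.coeff n) m (m + 2)
  obtain ⟨K, hK⟩ := qex_bd G
  have hU0 : U.coeff 0 = 1 := by rw [coeff_zero_eq_eval_zero]; exact h0
  refine ⟨reflect (m + 3) U, ?_⟩
  have hnd : (reflect (m + 3) U).natDegree ≤ m + 3 := by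
    rw [natDegree_le_iff_coeff_eq_zero]
    intro N hN
    rw [coeff_reflect, revAt_eq_self_of_lt hN]
    exact coeff_eq_zero_of_natDegree_lt (by omega)
  have hlc : (reflect (m + 3) U).coeff (m + 3) = 1 := by
    rw [coeff_reflect, revAt_le le_rfl, Nat.sub_self, hU0]
  refine ⟨monic_of_natDegree_le_of_coeff_eq_one _ hnd hlc, ?_, ?_, K, 1, ?_⟩
  · rw [hdm]
    refine le_antisymm hnd ?_
    exact le_natDegree_of_ne_zero (by rw [hlc]; exact one_ne_zero)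
  · rw [hdm, coeff_reflect, revAt_le (by omega)]
    have : m + 3 - (m + 2) = 1 := by omega
    rw [this, h1]
  intro b hb
  have hb0' : 0 < ‖b‖ := by linarith
  have hb0 : b ≠ 0 := norm_pos_iff.mp hb0'
  have hq : (reflect (m + 3) U).eval b / b ^ P.natDegree = b * U.eval b⁻¹ := by
    let _ : Invertible b⁻¹ := ⟨b, mul_inv_cancel₀ hb0, inv_mul_cancel₀ hb0⟩
    have h2 := eval₂_reflect_mul_pow (RingHom.id ℂ) b⁻¹ (m + 3) U (by omega)
    have h3 : (reflect (m + 3) U).eval b * (b⁻¹) ^ (m + 3) = U.eval b⁻¹ := h2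
    rw [← h3, hdm, inv_pow]
    field_simp
    ring
  have hPhi : (qex_Phi (fun n => P.coeff n) m U).eval b⁻¹ = (U.eval b⁻¹) ^ (m + 2) +
      (∑ j ∈ Finset.range (m + 1), P.coeff j * (b⁻¹) ^ (m + 2 - j) * (U.eval b⁻¹) ^ j) - 1 := by
    unfold qex_Phi
    simp [eval_finsetSum]
  have hval : P.eval ((reflect (m + 3) U).eval b / b ^ P.natDegree) - b ^ P.natDegree =
      (b⁻¹) ^ 2 * G.eval b⁻¹ := by
    have h3 : b ^ (m + 2) * (qex_Phi (fun n => P.coeff n) m U).eval b⁻¹ =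
        (b⁻¹) ^ 2 * G.eval b⁻¹ := by
      have h6 : b ^ (m + 2) * (b⁻¹) ^ (m + 2) = 1 := by
        rw [← mul_pow, mul_inv_cancel₀ hb0, one_pow]
      rw [hG, eval_mul, eval_pow, eval_X, pow_add (b⁻¹) (m + 2) 2]
      linear_combination ((b⁻¹) ^ 2 * G.eval b⁻¹) * h6
    rw [hq, hdm, ← h3, hPhi, hPe, mul_sub, mul_add, Finset.mul_sum, mul_one, ← mul_pow]
    have h4 : ∀ j ∈ Finset.range (m + 1), P.coeff j * (b * U.eval b⁻¹) ^ j =
        b ^ (m + 2) * (P.coeff j * (b⁻¹) ^ (m + 2 - j) * (U.eval b⁻¹) ^ j) := by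
      intro j hj
      have hj' : j ≤ m + 2 := by
        have := Finset.mem_range.mp hj
        omega
      obtain ⟨l, hl⟩ : ∃ l, m + 2 = j + l := ⟨m + 2 - j, by omega⟩
      rw [hl, Nat.add_sub_cancel_left, pow_add, mul_pow]
      have h5 : b ^ l * (b⁻¹) ^ l = 1 := by rw [← mul_pow, mul_inv_cancel₀ hb0, one_pow]
      linear_combination (-(P.coeff j * b ^ j * (U.eval b⁻¹) ^ j)) * h5
    rw [Finset.sum_congr rfl h4]
    ring
  rw [hval, norm_mul, norm_pow, norm_inv]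
  have hb1 : ‖b⁻¹‖ ≤ 1 := by
    rw [norm_inv]
    exact inv_le_one_of_one_le₀ hb
  calc ‖b‖⁻¹ ^ 2 * ‖G.eval b⁻¹‖ ≤ ‖b‖⁻¹ ^ 2 * K := by
        gcongr
        exact hK _ hb1
    _ = K / ‖b‖ ^ 2 := by
        rw [inv_pow]
        ring

end HEN
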