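import Pool.Agent.Lib.MP_e79cb7_ag.Cmp

/-! # Degree and leading coefficient of `Qp` -/

open Filter Topology Polynomial Bornology

noncomputable section

namespace HEN

theorem qpd_Dp_pos {d : ℕ → ℕ} (hd : ∀ i, 2 ≤ d i) (n : ℕ) : 0 < Dp d n := by
  unfold Dp
  exact Finset.prod_pos fun i _ => by have := hd i; omega

theorem qpd_Dp_succ (d : ℕ → ℕ) (n : ℕ) : Dp d (n + 1) = Dp d n * d n := by
  unfold Dp
  rw [Finset.prod_range_succ]

theorem qpd_comp {q : ℂ[X]} {m D : ℕ} (hq : q.Monic) (hqd : q.natDegree = m) (hD : 0 < D) :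
    (q.comp (X ^ D)).Monic ∧ (q.comp (X ^ D)).natDegree = m * D := by
  refine ⟨hq.comp (monic_X_pow D) (by rw [natDegree_X_pow]; omega), ?_⟩
  rw [natDegree_comp, natDegree_X_pow, hqd]

/- Module QPD (file QPD.lean): degree and leading coefficient of `Qp` -/
theorem Qp_monic {d : ℕ → ℕ} {lam : ℕ → ℂ} {q : ℕ → ℂ[X]} (hd : ∀ i, 2 ≤ d i)
    (hq : ∀ i, (q i).Monic ∧ (q i).natDegree = d i + 1) (n : ℕ) :
    (Qp d lam q (n + 1)).Monic ∧ (Qp d lam q (n + 1)).natDegree = Dp d (n + 1) + Dp d n := by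
  -- the degree of `Qp n` is smaller than `(d n + 1) D_n`
  have key : ∀ n, (Qp d lam q n).degree < (((d n + 1) * Dp d n : ℕ) : WithBot ℕ) →
      (Qp d lam q (n + 1)).Monic ∧
        (Qp d lam q (n + 1)).natDegree = Dp d (n + 1) + Dp d n := by
    intro n hn
    obtain ⟨h1, h2⟩ := qpd_comp (hq n).1 (hq n).2 (qpd_Dp_pos hd n)
    have h3 : ((q n).comp (X ^ Dp d n)).degree = (((d n + 1) * Dp d n : ℕ) : WithBot ℕ) := by
      rw [degree_eq_natDegree h1.ne_zero, h2]
    have h4 : (C (lam n) * Qp d lam q n).degree < ((q n).comp (X ^ Dp d n)).degree := by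
      rw [h3]
      refine lt_of_le_of_lt ?_ hn
      refine le_trans (degree_mul_le _ _) ?_
      calc (C (lam n)).degree + (Qp d lam q n).degree ≤ 0 + (Qp d lam q n).degree :=
            add_le_add degree_C_le le_rfl
        _ = _ := zero_add _
    refine ⟨Monic.add_of_right h1 h4, ?_⟩
    show (C (lam n) * Qp d lam q n + (q n).comp (X ^ Dp d n)).natDegree = _
    rw [natDegree_add_eq_right_of_degree_lt h4, h2, qpd_Dp_succ]
    ring
  have hdeg : ∀ n, (Qp d lam q n).degree < (((d n + 1) * Dp d n : ℕ) : WithBot ℕ) := by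
    intro n
    induction n with
    | zero =>
      show (0 : ℂ[X]).degree < _
      rw [degree_zero]
      exact WithBot.bot_lt_coe _
    | succ n ih =>
      obtain ⟨h1, h2⟩ := key n ih
      rw [degree_eq_natDegree h1.ne_zero, h2]
      have h3 := qpd_Dp_pos hd n
      have h4 := qpd_Dp_succ d n
      have h5 := hd n
      have h6 := hd (n + 1)
      have : Dp d (n + 1) + Dp d n < (d (n + 1) + 1) * Dp d (n + 1) := by
        nlinarith
      exact_mod_cast this
  exact key n (hdeg n)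

end HEN
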