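import Pool.Agent.Lib.MP_e79cb7_ag.Cmp
import Pool.Agent.Lib.MP_e79cb7_ag.LIM
import Pool.Agent.Lib.MP_e79cb7_ag.GRO
import Pool.Agent.Lib.MP_e79cb7_ag.BOT
import Pool.Agent.Lib.MP_e79cb7_ag.AS4

/-! # The second coordinate -/

open Filter Topology Polynomial Bornology

noncomputable section

namespace HEN

/-- the terms of the series defining `zz` -/
def zco_t (a : ℤ → ℂ) (P q : ℤ → ℂ[X]) (c : ℤ → ℂ) (i : ℤ) (n : ℕ) (p : ℂ × ℂ) : ℂ :=
  (∏ j ∈ Finset.range (n + 1), lm a P (i + j))⁻¹ *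
    (ee a P q (i + n) (comp a P i n p) - c (i + n))

theorem zco_zz (a : ℤ → ℂ) (P q : ℤ → ℂ[X]) (c : ℤ → ℂ) (i : ℤ) (p : ℂ × ℂ) :
    zz a P q c i p = p.1 * p.2 + ∑' n, zco_t a P q c i n p := rfl

theorem zco_t_zero (a : ℤ → ℂ) (P q : ℤ → ℂ[X]) (c : ℤ → ℂ) (i : ℤ) (p : ℂ × ℂ) :
    zco_t a P q c i 0 p = (lm a P i)⁻¹ * (ee a P q i p - c i) := by
  simp [zco_t, comp]

theorem zco_t_succ (a : ℤ → ℂ) (P q : ℤ → ℂ[X]) (c : ℤ → ℂ) (i : ℤ) (n : ℕ) (p : ℂ × ℂ)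
    (h0 : lm a P i ≠ 0) :
    lm a P i * zco_t a P q c i (n + 1) p = zco_t a P q c (i + 1) n (H (a i) (P i) p) := by
  unfold zco_t
  rw [Finset.prod_range_succ', comp_succ' a P i n]
  have e1 : i + ((n + 1 : ℕ) : ℤ) = i + 1 + (n : ℤ) := by push_cast; ring
  have e2 : ∀ j : ℕ, i + ((j + 1 : ℕ) : ℤ) = i + 1 + (j : ℤ) := by intro j; push_cast; ring
  rw [e1]
  simp only [e2]
  simp only [Nat.cast_zero, add_zero]
  rw [mul_inv]
  field_simp

theorem zco_lm_ne {k : ℕ} {a : ℤ → ℂ} {P : ℤ → ℂ[X]} (hD : IsData k a P) (i : ℤ) :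
    lm a P i ≠ 0 := by
  unfold lm
  refine div_ne_zero (hD.ha i) ?_
  have := hD.hd i
  exact_mod_cast (by omega : (P i).natDegree ≠ 0)

theorem zco_prod {a : ℤ → ℂ} {P : ℤ → ℂ[X]} {L : ℝ}
    (h : ∀ i, ‖(lm a P i)⁻¹‖ ≤ L) (i : ℤ) (n : ℕ) :
    ‖(∏ j ∈ Finset.range n, lm a P (i + j))⁻¹‖ ≤ L ^ n := by
  rw [norm_inv, norm_prod, ← Finset.prod_inv_distrib]
  calc ∏ j ∈ Finset.range n, ‖lm a P (i + j)‖⁻¹ ≤ ∏ j ∈ Finset.range n, L := by
        refine Finset.prod_le_prod (fun j _ => by positivity) fun j _ => ?_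
        have := h (i + j)
        rwa [norm_inv] at this
    _ = L ^ n := by simp

/- Module ZCO (file ZCO.lean): the second coordinate -/
theorem zcoord {k : ℕ} {a : ℤ → ℂ} {P q : ℤ → ℂ[X]} (hD : IsData k a P) (hN : IsNorm P)
    (hq : ∀ i, IsQ (P i) (q i)) (hqk : ∀ i, q (i + k) = q i) :
    ∃ (c : ℤ → ℂ) (R₀ C : ℝ), 1 ≤ R₀ ∧ 0 < C ∧ (∀ i, c (i + k) = c i) ∧
      ∀ i : ℤ, DifferentiableOn ℂ (zz a P q c i) (W 4 R₀) ∧
      ∀ p ∈ W 4 R₀, ‖zz a P q c i p - p.1 * p.2‖ ≤ C ∧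
        zz a P q c (i + 1) (H (a i) (P i) p) =
          lm a P i * zz a P q c i p + (q i).eval (bb a P i p) + c i := by
  obtain ⟨c, R₁, C, hR₁, hC, hck, has⟩ := asym hD hN hq hqk
  obtain ⟨R₂, C₂, hR₂, _, hbott⟩ := bott hD hN
  obtain ⟨L₀, hL₀, hL₀'⟩ := gro_bdd hD.hk (fun i => ‖(lm a P i)⁻¹‖)
    (fun i => by simp only [lm, hD.pa, hD.pP])
  obtain ⟨L, hLdef⟩ : ∃ L, L = max 1 L₀ := ⟨_, rfl⟩
  have hL1 : 1 ≤ L := hLdef ▸ le_max_left _ _
  have hL : ∀ i, ‖(lm a P i)⁻¹‖ ≤ L := fun i => le_trans (hL₀' i) (hLdef ▸ le_max_right _ _)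
  obtain ⟨B, hB, hB'⟩ := gro_bdd hD.hk (fun i => ‖c i‖) (fun i => by simp only [hck])
  obtain ⟨R₃, hR₃, hr⟩ := region hD hN (2 * L)
  obtain ⟨R₀, hR₀def⟩ : ∃ R₀, R₀ = max (max R₁ R₂) R₃ := ⟨_, rfl⟩
  have h01 : R₁ ≤ R₀ := hR₀def ▸ le_trans (le_max_left _ _) (le_max_left _ _)
  have h02 : R₂ ≤ R₀ := hR₀def ▸ le_trans (le_max_right _ _) (le_max_left _ _)
  have h03 : R₃ ≤ R₀ := hR₀def ▸ le_max_right _ _
  have hR₀1 : 1 ≤ R₀ := le_trans hR₁ h01
  have hR₀0 : 0 ≤ R₀ := by linarith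
  have hsub1 : ∀ p ∈ W 4 R₀, p ∈ W 4 R₁ := fun p hp => ⟨lt_of_le_of_lt h01 hp.1, hp.2⟩
  have hsub2 : W 4 R₀ ⊆ W 4 R₂ := fun p hp => ⟨lt_of_le_of_lt h02 hp.1, hp.2⟩
  have hsub3 : ∀ p ∈ W 4 R₀, p ∈ W 4 R₃ := fun p hp => ⟨lt_of_le_of_lt h03 hp.1, hp.2⟩
  have horb : ∀ (i : ℤ) (n : ℕ) (p : ℂ × ℂ), p ∈ W 4 R₀ → comp a P i n p ∈ W 4 R₀ :=
    bot_orbit hR₀0 (fun i p hp => (hr i p (hsub3 p hp)).2.2.2 R₀ h03 hp)
  have hgrow : ∀ (i : ℤ) (n : ℕ) (p : ℂ × ℂ), p ∈ W 4 R₀ →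
      (2 * L) ^ n * ‖p.1‖ ≤ ‖(comp a P i n p).1‖ := by
    intro i n p hp
    induction n with
    | zero => simp [comp]
    | succ n ih =>
      rw [comp_succ, pow_succ]
      have h1 := (hr (i + n) _ (hsub3 _ (horb i n p hp))).1
      nlinarith
  -- bounds of the terms
  obtain ⟨M, hMdef⟩ : ∃ M, M = 2 * L ^ 2 * (C + B) := ⟨_, rfl⟩
  have hM : 0 < M := by rw [hMdef]; positivity
  have hterm : ∀ (i : ℤ) (n : ℕ) (p : ℂ × ℂ), p ∈ W 4 R₀ →
      ‖zco_t a P q c i n p‖ ≤ M * (1 / 2) ^ n := by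
    intro i n p hp
    have hx1 : (1 : ℝ) < ‖p.1‖ := lt_of_le_of_lt hR₀1 hp.1
    unfold zco_t
    rw [norm_mul]
    have h1 := zco_prod hL i (n + 1)
    cases n with
    | zero =>
      have h2 : ‖ee a P q (i + ((0 : ℕ) : ℤ)) (comp a P i 0 p) - c (i + ((0 : ℕ) : ℤ))‖ ≤ C + B := by
        refine le_trans (norm_sub_le _ _) (add_le_add ?_ (hB' _))
        exact (has _ _ (hsub1 p hp)).1
      calc _ ≤ L ^ (0 + 1) * (C + B) := mul_le_mul h1 h2 (norm_nonneg _) (by positivity)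
        _ ≤ M * (1 / 2) ^ 0 := by
            rw [hMdef]
            have hCB : 0 < C + B := by positivity
            have : L ≤ 2 * L ^ 2 := by nlinarith
            simp only [zero_add, pow_one, pow_zero, mul_one]
            exact mul_le_mul_of_nonneg_right this hCB.le
    | succ n =>
      have hn := horb i n p hp
      have hg := hgrow i n p hp
      have hxn : (0 : ℝ) < ‖(comp a P i n p).1‖ := lt_of_le_of_lt hR₀0 hn.1
      have e1 : i + ((n + 1 : ℕ) : ℤ) = i + (n : ℤ) + 1 := by push_cast; ring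
      have h2 : ‖ee a P q (i + ((n + 1 : ℕ) : ℤ)) (comp a P i (n + 1) p) -
          c (i + ((n + 1 : ℕ) : ℤ))‖ ≤ C / ‖(comp a P i n p).1‖ := by
        rw [e1, comp_succ]
        exact (has (i + n) _ (hsub1 _ hn)).2
      have hLn : (0 : ℝ) < (2 * L) ^ n := by positivity
      have h3 : C / ‖(comp a P i n p).1‖ ≤ C / (2 * L) ^ n := by
        refine div_le_div_of_nonneg_left hC.le hLn ?_
        nlinarith
      calc _ ≤ L ^ (n + 1 + 1) * (C / (2 * L) ^ n) :=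
            mul_le_mul h1 (le_trans h2 h3) (norm_nonneg _) (by positivity)
        _ = L ^ 2 * C * (1 / 2) ^ n := by
            rw [mul_pow, one_div, inv_pow]
            field_simp
            ring
        _ ≤ M * (1 / 2) ^ (n + 1) := by
            rw [hMdef, pow_succ (1 / 2 : ℝ) n]
            have h4 : (0 : ℝ) < (1 / 2) ^ n := by positivity
            have h5 : L ^ 2 * C ≤ L ^ 2 * (C + B) :=
              mul_le_mul_of_nonneg_left (by linarith) (by positivity)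
            have h6 : 2 * L ^ 2 * (C + B) * ((1 / 2 : ℝ) ^ n * (1 / 2)) =
                L ^ 2 * (C + B) * (1 / 2) ^ n := by ring
            rw [h6]
            exact mul_le_mul_of_nonneg_right h5 h4.le
  have hgeo : Summable (fun n : ℕ => M * (1 / 2 : ℝ) ^ n) :=
    (summable_geometric_of_lt_one (by norm_num) (by norm_num)).mul_left _
  have hsum : ∀ (i : ℤ) (p : ℂ × ℂ), p ∈ W 4 R₀ → Summable (fun n => zco_t a P q c i n p) :=
    fun i p hp => Summable.of_norm_bounded hgeo (fun n => hterm i n p hp)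
  -- holomorphy of ee
  have hbb : ∀ i, DifferentiableOn ℂ (bb a P i) (W 4 R₀) := fun i => (hbott i).1.mono hsub2
  have hee : ∀ i, DifferentiableOn ℂ (ee a P q i) (W 4 R₀) := by
    intro i
    have h1 : DifferentiableOn ℂ (fun p : ℂ × ℂ => p.1) (W 4 R₀) :=
      differentiable_fst.differentiableOn
    have h2 : DifferentiableOn ℂ (fun p : ℂ × ℂ => p.2) (W 4 R₀) :=
      differentiable_snd.differentiableOn
    have h3 : DifferentiableOn ℂ (fun p : ℂ × ℂ => (H (a i) (P i) p).1) (W 4 R₀) :=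
      (H_differentiable (a i) (P i)).fst.differentiableOn
    have h4 : DifferentiableOn ℂ (fun p : ℂ × ℂ => (q i).eval (bb a P i p)) (W 4 R₀) :=
      (q i).differentiable.comp_differentiableOn (hbb i)
    have h5 : ee a P q i = fun p => p.1 * (H (a i) (P i) p).1 - lm a P i * p.1 * p.2 -
      (q i).eval (bb a P i p) := rfl
    rw [h5]
    exact ((h1.mul h3).sub ((h1.const_mul (lm a P i)).mul h2)).sub h4
  have htd : ∀ i n, DifferentiableOn ℂ (zco_t a P q c i n) (W 4 R₀) := by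
    intro i n
    have h1 : DifferentiableOn ℂ (fun p => ee a P q (i + n) (comp a P i n p)) (W 4 R₀) :=
      (hee (i + n)).comp (comp_differentiable a P i n).differentiableOn
        (fun p hp => horb i n p hp)
    have h2 : zco_t a P q c i n = fun p => (∏ j ∈ Finset.range (n + 1), lm a P (i + j))⁻¹ *
      (ee a P q (i + n) (comp a P i n p) - c (i + n)) := rfl
    rw [h2]
    exact (h1.sub_const _).const_mul _
  refine ⟨c, R₀, 2 * M, hR₀1, by positivity, hck, fun i => ⟨?_, ?_⟩⟩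
  · have h1 : zz a P q c i = fun p => p.1 * p.2 + ∑' n, zco_t a P q c i n p := rfl
    rw [h1]
    have h2 : DifferentiableOn ℂ (fun p : ℂ × ℂ => p.1 * p.2) (W 4 R₀) :=
      (differentiable_fst.mul differentiable_snd).differentiableOn
    exact h2.add (differentiableOn_tsum2 (bot_isOpen_W 4 R₀) (htd i) hgeo
      (fun n p hp => hterm i n p hp))
  · intro p hp
    have hHp : H (a i) (P i) p ∈ W 4 R₀ := by
      have := horb i 1 p hp
      rwa [comp_one] at this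
    refine ⟨?_, ?_⟩
    · rw [zco_zz, add_sub_cancel_left]
      refine le_trans (tsum_of_norm_bounded hgeo.hasSum (fun n => hterm i n p hp)) (le_of_eq ?_)
      rw [tsum_mul_left, tsum_geometric_of_lt_one (by norm_num) (by norm_num)]
      ring
    · have h0 := zco_lm_ne hD i
      rw [zco_zz a P q c i p, (hsum i p hp).tsum_eq_zero_add, mul_add, mul_add, ← tsum_mul_left,
        zco_zz]
      have h1 : ∀ n, lm a P i * zco_t a P q c i (n + 1) p =
          zco_t a P q c (i + 1) n (H (a i) (P i) p) := fun n => zco_t_succ a P q c i n p h0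
      simp only [h1]
      rw [zco_t_zero, ← mul_assoc (lm a P i) (lm a P i)⁻¹, mul_inv_cancel₀ h0, one_mul]
      have h2 : ee a P q i p = p.1 * (H (a i) (P i) p).1 - lm a P i * p.1 * p.2 -
        (q i).eval (bb a P i p) := rfl
      have h3 : (H (a i) (P i) p).2 = p.1 := rfl
      rw [h2, h3]
      ring

end HEN
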