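import Pool.Agent.Lib.MP_e79cb7_ag.Cmp
import Pool.Agent.Lib.MP_e79cb7_ag.OMG
import Pool.Agent.Lib.MP_e79cb7_ag.BOT
import Pool.Agent.Lib.MP_e79cb7_ag.QPD
import Pool.Agent.Lib.MP_e79cb7_ag.QEX
import Pool.Agent.Lib.MP_e79cb7_ag.ZCO

/-! # The chart package for normalized data -/

open Filter Topology Polynomial Bornology

noncomputable section

namespace HEN

theorem pck_hh {k : ℕ} {a : ℤ → ℂ} {P : ℤ → ℂ[X]} (hD : IsData k a P) (i : ℤ) (p : ℂ × ℂ) :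
    hh a P (i + k) p = hh a P i p := by
  unfold hh
  refine tsum_congr fun n => ?_
  have e : ∀ j : ℕ, P (i + (k : ℤ) + (j : ℤ)) = P (i + j) := by
    intro j
    rw [show i + (k : ℤ) + (j : ℤ) = (i + j) + k by ring, hD.pP]
  simp only [e, comp_per hD.pa hD.pP]

theorem pck_bb {k : ℕ} {a : ℤ → ℂ} {P : ℤ → ℂ[X]} (hD : IsData k a P) (i : ℤ) (p : ℂ × ℂ) :
    bb a P (i + k) p = bb a P i p := by
  unfold bb
  rw [pck_hh hD]

theorem pck_lm {k : ℕ} {a : ℤ → ℂ} {P : ℤ → ℂ[X]} (hD : IsData k a P) (i : ℤ) :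
    lm a P (i + k) = lm a P i := by
  unfold lm
  rw [hD.pa, hD.pP]

theorem pck_ee {k : ℕ} {a : ℤ → ℂ} {P q : ℤ → ℂ[X]} (hD : IsData k a P)
    (hqk : ∀ i, q (i + k) = q i) (i : ℤ) (p : ℂ × ℂ) :
    ee a P q (i + k) p = ee a P q i p := by
  unfold ee
  rw [pck_bb hD, hD.pa, hD.pP, pck_lm hD, hqk]

theorem pck_zz {k : ℕ} {a : ℤ → ℂ} {P q : ℤ → ℂ[X]} (hD : IsData k a P)
    (hqk : ∀ i, q (i + k) = q i) {c : ℤ → ℂ} (hck : ∀ i, c (i + k) = c i) (i : ℤ) (p : ℂ × ℂ) :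
    zz a P q c (i + k) p = zz a P q c i p := by
  unfold zz
  congr 1
  refine tsum_congr fun n => ?_
  have e1 : ∀ j : ℕ, lm a P (i + (k : ℤ) + (j : ℤ)) = lm a P (i + j) := by
    intro j
    rw [show i + (k : ℤ) + (j : ℤ) = (i + j) + k by ring, pck_lm hD]
  have e2 : c (i + (k : ℤ) + (n : ℤ)) = c (i + n) := by
    rw [show i + (k : ℤ) + (n : ℤ) = (i + n) + k by ring, hck]
  have e3 : ∀ p, ee a P q (i + (k : ℤ) + (n : ℤ)) p = ee a P q (i + n) p := by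
    intro p
    rw [show i + (k : ℤ) + (n : ℤ) = (i + n) + k by ring, pck_ee hD hqk]
  simp only [e1, e2, e3, comp_per hD.pa hD.pP]

/- Module PCK (file PCK.lean): the chart package for normalized data -/
theorem pack_of_norm {k : ℕ} {a : ℤ → ℂ} {P : ℤ → ℂ[X]} (hD : IsData k a P) (hN : IsNorm P) :
    ∃ (q : ℤ → ℂ[X]) (c : ℤ → ℂ), (∀ i, IsQ (P i) (q i)) ∧ (∀ i, q (i + k) = q i) ∧
      (∀ i, c (i + k) = c i) ∧
      Pack (comp a P 0 k) (Dp (fun n => (P (n : ℤ)).natDegree) k)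
        (Lp (fun n => lm a P (n : ℤ)) k)
        (Qp (fun n => (P (n : ℤ)).natDegree) (fun n => lm a P (n : ℤ))
          (fun n => q (n : ℤ) + C (c (n : ℤ))) k) := by
  classical
  -- the choice of `q`
  obtain ⟨q, hq, hqk'⟩ : ∃ q : ℤ → ℂ[X], (∀ i, IsQ (P i) (q i)) ∧ ∀ i, q (i + k) = q i := by
    refine ⟨fun i => if h : ∃ q, IsQ (P i) q then h.choose else 0, fun i => ?_, fun i => ?_⟩
    · have h : ∃ q, IsQ (P i) q := exists_isQ (hN.monic i) (hD.hd i) (hN.cent i)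
      simp only [dif_pos h]
      exact h.choose_spec
    · simp only [hD.pP]
  obtain ⟨c, R₁, C₁, hR₁, hC₁, hck, hz⟩ := zcoord hD hN hq hqk'
  obtain ⟨R₂, C₂, hR₂, hC₂, hb⟩ := bott hD hN
  obtain ⟨R₃, hR₃, ho⟩ := omega_iff hD hN
  obtain ⟨R₄, hR₄, hr⟩ := region hD hN 1
  refine ⟨q, c, hq, hqk', hck, ?_⟩
  obtain ⟨R, hRdef⟩ : ∃ R, R = max (max R₁ R₂) (max R₃ R₄) := ⟨_, rfl⟩
  have h01 : R₁ ≤ R := hRdef ▸ le_trans (le_max_left _ _) (le_max_left _ _)
  have h02 : R₂ ≤ R := hRdef ▸ le_trans (le_max_right _ _) (le_max_left _ _)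
  have h03 : R₃ ≤ R := hRdef ▸ le_trans (le_max_left _ _) (le_max_right _ _)
  have h04 : R₄ ≤ R := hRdef ▸ le_trans (le_max_right _ _) (le_max_right _ _)
  have hR1 : 1 ≤ R := le_trans hR₁ h01
  have hR0 : 0 ≤ R := by linarith
  have hsub : ∀ {R' : ℝ}, R' ≤ R → W 4 R ⊆ W 4 R' := fun h p hp =>
    ⟨lt_of_le_of_lt h hp.1, hp.2⟩
  have hstep : ∀ (i : ℤ) (p : ℂ × ℂ), p ∈ W 4 R → H (a i) (P i) p ∈ W (3 / 2) R :=
    fun i p hp => (hr i p (hsub h04 hp)).2.2.2 R h04 hp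
  have horb : ∀ (i : ℤ) (n : ℕ) (p : ℂ × ℂ), p ∈ W 4 R → comp a P i n p ∈ W 4 R :=
    bot_orbit hR0 hstep
  obtain ⟨m, hm⟩ : ∃ m, k = m + 1 := ⟨k - 1, by have := hD.hk; omega⟩
  have hd2 : ∀ n : ℕ, 2 ≤ (P (n : ℤ)).natDegree := fun n => hD.hd n
  have hcomp : ∀ (n : ℕ) (p : ℂ × ℂ), p ∈ W 4 R →
      bb a P n (comp a P 0 n p) = bb a P 0 p ^ Dp (fun n => (P (n : ℤ)).natDegree) n ∧
      zz a P q c n (comp a P 0 n p) = Lp (fun n => lm a P (n : ℤ)) n * zz a P q c 0 p +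
        (Qp (fun n => (P (n : ℤ)).natDegree) (fun n => lm a P (n : ℤ))
          (fun n => q (n : ℤ) + C (c (n : ℤ))) n).eval (bb a P 0 p) := by
    intro n p hp
    induction n with
    | zero => simp [comp, Dp, Lp, Qp]
    | succ n ih =>
      obtain ⟨ih1, ih2⟩ := ih
      have hn := horb 0 n p hp
      have e1 : comp a P 0 (n + 1) p = H (a n) (P n) (comp a P 0 n p) := by
        rw [comp_succ, zero_add]
      have e2 : ((n + 1 : ℕ) : ℤ) = (n : ℤ) + 1 := by push_cast; ring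
      have e3 := ((hb n).2 _ (hsub h02 hn)).2.2.2
      have e4 := ((hz n).2 _ (hsub h01 hn)).2
      have e5 : Dp (fun n => (P (n : ℤ)).natDegree) (n + 1) =
          Dp (fun n => (P (n : ℤ)).natDegree) n * (P (n : ℤ)).natDegree :=
        qpd_Dp_succ _ n
      have e6 : Lp (fun n => lm a P (n : ℤ)) (n + 1) =
          Lp (fun n => lm a P (n : ℤ)) n * lm a P n := by
        unfold Lp
        rw [Finset.prod_range_succ]
      refine ⟨?_, ?_⟩
      · rw [e1, e2, e3, ih1, e5, pow_mul]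
      · rw [e1, e2, e4, ih2, ih1, e6]
        show _ = _ + (C (lm a P (n : ℤ)) * Qp _ _ _ n + (q (n : ℤ) + C (c (n : ℤ))).comp
          (X ^ Dp _ n)).eval _
        simp only [eval_add, eval_mul, eval_C, eval_comp, eval_pow, eval_X, add_comp, C_comp]
        ring
  have hqm : ∀ n : ℕ, (q (n : ℤ) + C (c (n : ℤ))).Monic ∧
      (q (n : ℤ) + C (c (n : ℤ))).natDegree = (P (n : ℤ)).natDegree + 1 := by
    intro n
    have h1 := (hq n).monic
    have h2 := (hq n).deg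
    have h3 : (C (c (n : ℤ))).degree < (q (n : ℤ)).degree := by
      refine lt_of_le_of_lt degree_C_le ?_
      rw [degree_eq_natDegree h1.ne_zero, h2]
      exact_mod_cast Nat.succ_pos _
    refine ⟨h1.add_of_left h3, ?_⟩
    rw [natDegree_add_eq_left_of_degree_lt h3, h2]
  obtain ⟨hQm, hQd⟩ := Qp_monic (lam := fun n => lm a P (n : ℤ)) hd2 hqm m
  have hDpos := qpd_Dp_pos hd2
  have hDm : Dp (fun n => (P (n : ℤ)).natDegree) (m + 1) =
      Dp (fun n => (P (n : ℤ)).natDegree) m * (P (m : ℤ)).natDegree := qpd_Dp_succ _ m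
  have hDm2 : 2 * Dp (fun n => (P (n : ℤ)).natDegree) m ≤
      Dp (fun n => (P (n : ℤ)).natDegree) (m + 1) := by
    rw [hDm, mul_comm]
    exact Nat.mul_le_mul_left _ (hd2 m)
  refine ⟨?_, ?_, ?_, ?_, ?_, ?_⟩
  · rw [hm]
    have := hDpos m
    omega
  · unfold Lp
    refine Finset.prod_ne_zero_iff.mpr fun n _ => ?_
    refine div_ne_zero (hD.ha _) ?_
    have := hD.hd (n : ℤ)
    exact_mod_cast (by omega : (P (n : ℤ)).natDegree ≠ 0)
  · rw [hm]
    exact hQm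
  · rw [hm, hQd]
    omega
  · exact ⟨compInv a P 0 k, comp_differentiable a P 0 k, compInv_differentiable a P 0 k,
      compInv_leftInverse hD.ha P 0 k, compInv_rightInverse hD.ha P 0 k⟩
  · refine ⟨R, 3 * C₂ + C₁, bb a P 0, zz a P q c 0, hR1, by positivity,
      (hb 0).1.mono (hsub h02), (hz 0).1.mono (hsub h01), ?_, ?_, ?_, ?_⟩
    · intro p hp
      refine ⟨?_, ?_⟩
      · have h1 := ((hb 0).2 p (hsub h02 hp)).2.1
        have hx1 : (1 : ℝ) < ‖p.1‖ := lt_of_le_of_lt hR1 hp.1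
        have hx0 : 0 < ‖p.1‖ := by linarith
        have h2 : ‖p.1‖ ^ (-1 : ℤ) ≤ 1 := by
          rw [zpow_neg_one]
          exact inv_le_one_of_one_le₀ hx1.le
        have h3 : ‖p.1‖ ^ (1 - ((P 0).natDegree : ℤ)) ≤ ‖p.1‖ ^ (-1 : ℤ) :=
          zpow_le_zpow_right₀ hx1.le (by have := hD.hd 0; omega)
        have h4 : ‖p.2‖ ≤ 2 * ‖p.1‖ := by
          have := hp.2
          nlinarith [norm_nonneg p.2]
        have h5 : ‖p.1‖ * ‖p.1‖ ^ (-1 : ℤ) = 1 := by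
          rw [zpow_neg_one]
          exact mul_inv_cancel₀ hx0.ne'
        have h6 : ‖p.2‖ * ‖p.1‖ ^ (1 - ((P 0).natDegree : ℤ)) ≤ 2 := by
          calc _ ≤ (2 * ‖p.1‖) * ‖p.1‖ ^ (-1 : ℤ) :=
                mul_le_mul h4 h3 (zpow_nonneg hx0.le _) (by positivity)
            _ = 2 := by rw [mul_assoc, h5, mul_one]
        have h7 : C₂ * (‖p.1‖ ^ (-1 : ℤ) + ‖p.2‖ * ‖p.1‖ ^ (1 - ((P 0).natDegree : ℤ))) ≤
            C₂ * 3 := mul_le_mul_of_nonneg_left (by linarith) hC₂.le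
        linarith
      · have h1 := ((hz 0).2 p (hsub h01 hp)).1
        linarith
    · intro p hp
      obtain ⟨h1, h2⟩ := hcomp k p hp
      refine ⟨?_, ?_, ?_⟩
      · rw [hm, comp_succ]
        exact hstep _ _ (horb 0 m p hp)
      · rw [← h1]
        have := pck_bb hD 0 (comp a P 0 k p)
        rw [zero_add] at this
        exact this.symm
      · rw [← h2]
        have := pck_zz hD hqk' hck 0 (comp a P 0 k p)
        rw [zero_add] at this
        exact this.symm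
    · exact (ho R h03).1
    · exact (ho R h03).2

end HEN
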