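import Pool.Agent.Lib.MP_e79cb7_ag.Cmp

/-!
# Complex surfaces containing `S(f)` as the complement of a curve: definitions
-/

open Filter Topology Polynomial Bornology
open scoped Manifold ContDiff

noncomputable section

namespace HEN

universe u

section
variable {X : Type u} [TopologicalSpace X] [ChartedSpace (ℂ × ℂ) X]

/-- `D` is a curve (analytic subset of pure codimension one, possibly empty) in the complex
surface `X`: closed, with empty interior, and locally the zero set of a holomorphic function. -/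
structure IsCurve (D : Set X) : Prop where
  closed : IsClosed D
  thin : interior D = ∅
  loc : ∀ x ∈ D, ∃ (V : Set X) (h : X → ℂ), IsOpen V ∧ x ∈ V ∧
    MDifferentiableOn 𝓘(ℂ, ℂ × ℂ) 𝓘(ℂ, ℂ) h V ∧ ∀ v ∈ V, (v ∈ D ↔ h v = 0)

/-- `j` is a biholomorphic map of `S(f)` onto an open subset of `X` whose complement is a
curve. -/
structure IsComp (f : ℂ × ℂ → ℂ × ℂ) (j : Surf f → X) : Prop where
  inj : Function.Injective j
  holo : ∀ p ∈ Omega f, ∃ (U : Set (ℂ × ℂ)) (φ : ℂ × ℂ → X), IsOpen U ∧ p ∈ U ∧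
    MDifferentiableOn 𝓘(ℂ, ℂ × ℂ) 𝓘(ℂ, ℂ × ℂ) φ U ∧
    ∀ q ∈ U, ∀ hq : q ∈ Omega f, φ q = j (mk f q hq)
  inv : ∀ x ∈ Set.range j, ∃ (V : Set X) (s : X → ℂ × ℂ), IsOpen V ∧ x ∈ V ∧
    MDifferentiableOn 𝓘(ℂ, ℂ × ℂ) 𝓘(ℂ, ℂ × ℂ) s V ∧
    ∀ v ∈ V, ∃ h : s v ∈ Omega f, j (mk f (s v) h) = v
  curve : IsCurve (Set.range j)ᶜ

/-- Biholomorphic maps between complex surfaces. -/
structure IsBiholo {Y : Type u} [TopologicalSpace Y] [ChartedSpace (ℂ × ℂ) Y] (e : X ≃ Y) :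
    Prop where
  fwd : MDifferentiable 𝓘(ℂ, ℂ × ℂ) 𝓘(ℂ, ℂ × ℂ) e
  bwd : MDifferentiable 𝓘(ℂ, ℂ × ℂ) 𝓘(ℂ, ℂ × ℂ) e.symm

end

/-- The parametrization `E → S(f) → X`. -/
def pj {f : ℂ × ℂ → ℂ × ℂ} {d : ℕ} {lam : ℂ} {Q : ℂ[X]} {Ψ : ℂ × ℂ → ℂ × ℂ}
    {X : Type u} (h : IsCover f d lam Q Ψ) (j : Surf f → X) (x : E) : X := j (prj h x)

end HEN
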